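import Pool.Agent.MP_7c31d9_gt.Defs

/-! Amoeba estimate: for `2n+1` linear forms in general position on `ℂ^{n+1}`, more than `n` of
the numbers `‖L_i x‖` are comparable to the maximum. -/

set_option autoImplicit false

namespace Pool.Agent.MP_7c31d9_gt

open Complex

/-- `n+1` independent forms have no common zero. -/
theorem eq_zero_of_forms {n : ℕ} (L : Fin (2 * n + 1) → ((Fin (n + 1) → ℂ) →ₗ[ℂ] ℂ))
    (hL : GeneralPosition L) (S : Finset (Fin (2 * n + 1))) (hS : S.card = n + 1)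
    (x : Fin (n + 1) → ℂ) (hx : ∀ i ∈ S, L i x = 0) : x = 0 := by
  have hli := hL S hS
  have hspan : Submodule.span ℂ (Set.range (fun i : S => L i)) = ⊤ := by
    apply LinearIndependent.span_eq_top_of_card_eq_finrank' hli
    rw [Fintype.card_coe, hS]
    rw [show Module.finrank ℂ ((Fin (n + 1) → ℂ) →ₗ[ℂ] ℂ) =
      Module.finrank ℂ (Module.Dual ℂ (Fin (n + 1) → ℂ)) from rfl, Subspace.dual_finrank_eq]
    simp
  have hall : ∀ f : Module.Dual ℂ (Fin (n + 1) → ℂ), f x = 0 := by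
    intro f
    have hf : f ∈ Submodule.span ℂ (Set.range (fun i : S => L i)) := by
      rw [hspan]; trivial
    induction hf using Submodule.span_induction with
    | mem f hf =>
      obtain ⟨i, rfl⟩ := hf
      exact hx i i.2
    | zero => rfl
    | add f g _ _ hf hg =>
      rw [show (f + g) x = f x + g x from rfl, hf, hg, add_zero]
    | smul a f _ hf =>
      rw [show (a • f) x = a • f x from rfl, hf, smul_zero]
  exact (Module.forall_dual_apply_eq_zero_iff ℂ x).1 hall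

/-- lower bound for the maximum of `n+1` of the forms -/
theorem exists_lower {n : ℕ} (L : Fin (2 * n + 1) → ((Fin (n + 1) → ℂ) →ₗ[ℂ] ℂ))
    (hL : GeneralPosition L) (S : Finset (Fin (2 * n + 1))) (hS : S.card = n + 1) :
    ∃ c : ℝ, 0 < c ∧ ∀ x : Fin (n + 1) → ℂ, ∃ i ∈ S, c * ‖x‖ ≤ ‖L i x‖ := by
  classical
  let f : (Fin (n + 1) → ℂ) →ₗ[ℂ] (S → ℂ) := LinearMap.pi (fun i : S => L i)
  have hker : f.ker = ⊥ := by
    rw [LinearMap.ker_eq_bot']
    intro x hx
    apply eq_zero_of_forms L hL S hS x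
    intro i hi
    exact congrFun hx ⟨i, hi⟩
  obtain ⟨K, hK, hanti⟩ := f.exists_antilipschitzWith hker
  refine ⟨(K : ℝ)⁻¹, by positivity, ?_⟩
  intro x
  have hne : Nonempty S := by
    rw [Finset.nonempty_coe_sort, ← Finset.card_pos, hS]
    omega
  have h1 : ‖x‖ ≤ K * ‖f x‖ := by
    have := hanti.le_mul_dist x 0
    simpa using this
  have h2 : ∃ i : S, ‖f x‖ = ‖f x i‖ := by
    obtain ⟨i, hi⟩ := Finite.exists_max (fun i : S => ‖f x i‖)
    refine ⟨i, le_antisymm ?_ (norm_le_pi_norm _ i)⟩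
    exact (pi_norm_le_iff_of_nonempty _).2 hi
  obtain ⟨i, hi⟩ := h2
  refine ⟨i, i.2, ?_⟩
  have hKp : (0 : ℝ) < K := by exact_mod_cast hK
  rw [inv_mul_le_iff₀ hKp]
  calc ‖x‖ ≤ K * ‖f x‖ := h1
    _ = K * ‖L i x‖ := by rw [hi]; rfl

/-- P9a: amoeba -/
theorem amoeba {n : ℕ} (L : Fin (2 * n + 1) → ((Fin (n + 1) → ℂ) →ₗ[ℂ] ℂ))
    (hL : GeneralPosition L) : ∃ C : ℝ, 1 ≤ C ∧ ∀ x : Fin (n + 1) → ℂ, x ≠ 0 →
      ∃ T : Finset (Fin (2 * n + 1)), n < T.card ∧ ∀ i ∈ T, ∀ j, ‖L j x‖ ≤ C * ‖L i x‖ := by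
  classical
  -- common lower constant
  have hlow : ∃ c : ℝ, 0 < c ∧ ∀ S : Finset (Fin (2 * n + 1)), S.card = n + 1 →
      ∀ x : Fin (n + 1) → ℂ, ∃ i ∈ S, c * ‖x‖ ≤ ‖L i x‖ := by
    choose! c hc hcx using exists_lower L hL
    obtain ⟨S0, hS0⟩ := Finite.exists_min (fun S : Finset (Fin (2 * n + 1)) =>
      if S.card = n + 1 then c S else 1)
    refine ⟨if S0.card = n + 1 then c S0 else 1, ?_, ?_⟩
    · split_ifs with h
      · exact hc S0 h
      · norm_num
    · intro S hS x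
      obtain ⟨i, hi, hix⟩ := hcx S hS x
      refine ⟨i, hi, le_trans ?_ hix⟩
      have := hS0 S
      simp only [hS, if_true] at this
      exact mul_le_mul_of_nonneg_right this (norm_nonneg x)
  obtain ⟨c, hc, hcS⟩ := hlow
  -- common upper constant
  have hup : ∃ M : ℝ, 0 < M ∧ ∀ j, ∀ x : Fin (n + 1) → ℂ, ‖L j x‖ ≤ M * ‖x‖ := by
    have : ∀ j, ∃ M : ℝ, 0 < M ∧ ∀ x : Fin (n + 1) → ℂ, ‖L j x‖ ≤ M * ‖x‖ := by
      intro j
      obtain ⟨M, hM, hMx⟩ := (LinearMap.toContinuousLinearMap (L j)).bound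
      exact ⟨M, hM, hMx⟩
    choose M hM hMx using this
    obtain ⟨j0, hj0⟩ := Finite.exists_max M
    exact ⟨M j0, hM j0, fun j x => (hMx j x).trans
      (mul_le_mul_of_nonneg_right (hj0 j) (norm_nonneg x))⟩
  obtain ⟨M, hM, hMx⟩ := hup
  refine ⟨max 1 (M / c), le_max_left _ _, ?_⟩
  intro x hx
  refine ⟨Finset.univ.filter (fun i => c * ‖x‖ ≤ ‖L i x‖), ?_, ?_⟩
  · by_contra hcon
    rw [not_lt] at hcon
    have hcompl : n + 1 ≤ (Finset.univ.filter (fun i => ¬ (c * ‖x‖ ≤ ‖L i x‖))).card := by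
      have := Finset.card_filter_add_card_filter_not (s := (Finset.univ : Finset (Fin (2 * n + 1))))
        (fun i => c * ‖x‖ ≤ ‖L i x‖)
      rw [Finset.card_univ, Fintype.card_fin] at this
      omega
    obtain ⟨S, hSsub, hS⟩ := Finset.exists_subset_card_eq hcompl
    obtain ⟨i, hi, hix⟩ := hcS S hS x
    have := hSsub hi
    rw [Finset.mem_filter] at this
    exact this.2 hix
  · intro i hi j
    rw [Finset.mem_filter] at hi
    have hxpos : 0 < ‖x‖ := norm_pos_iff.2 hx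
    calc ‖L j x‖ ≤ M * ‖x‖ := hMx j x
      _ = M / c * (c * ‖x‖) := by field_simp
      _ ≤ M / c * ‖L i x‖ := mul_le_mul_of_nonneg_left hi.2 (by positivity)
      _ ≤ max 1 (M / c) * ‖L i x‖ := mul_le_mul_of_nonneg_right (le_max_right _ _) (norm_nonneg _)

end Pool.Agent.MP_7c31d9_gt
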