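import Pool.Agent.MP_7c31d9_gt.Defs

/-!
# P1: Kaehler metric of negative holomorphic sectional curvature from a potential
-/

set_option autoImplicit false

namespace Pool.Agent.MP_7c31d9_gt

open Complex Filter Topology
open scoped ContDiff ComplexOrder

namespace Kah

/-! ## Wirtinger calculus in one variable -/

/-- the real derivative of `f` at `s` is `h ↦ p h + q h̄` -/
def HasW (f : ℂ → ℂ) (p q s : ℂ) : Prop :=
  ∃ L : ℂ →L[ℝ] ℂ, HasFDerivAt f L s ∧ ∀ h, L h = p * h + q * (starRingEnd ℂ) h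

section HasW

variable {f g : ℂ → ℂ} {p q p' q' s : ℂ}

theorem HasW.eqW (h : HasW f p q s) : dW 1 f s = p := by
  obtain ⟨L, hL, hp⟩ := h
  unfold MP_7c31d9_gt.dW
  rw [hL.fderiv, hp, hp]
  simp only [smul_eq_mul, mul_one, map_one, conj_I]
  linear_combination (-1 / 2 * p + 1 / 2 * q) * I_mul_I

theorem HasW.eqWbar (h : HasW f p q s) : dWbar 1 f s = q := by
  obtain ⟨L, hL, hp⟩ := h
  unfold MP_7c31d9_gt.dWbar
  rw [hL.fderiv, hp, hp]
  simp only [smul_eq_mul, mul_one, map_one, conj_I]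
  linear_combination (1 / 2 * p - 1 / 2 * q) * I_mul_I

theorem HasW.congr (h : HasW f p q s) (he : g =ᶠ[𝓝 s] f) : HasW g p q s := by
  obtain ⟨L, hL, hp⟩ := h
  exact ⟨L, hL.congr_of_eventuallyEq he, hp⟩

theorem hasW_const (c s : ℂ) : HasW (fun _ => c) 0 0 s :=
  ⟨0, hasFDerivAt_const c s, fun h => by simp⟩

theorem hasW_id (s : ℂ) : HasW (fun t => t) 1 0 s :=
  ⟨ContinuousLinearMap.id ℝ ℂ, hasFDerivAt_id s, fun h => by simp⟩

theorem HasW.add (h : HasW f p q s) (h' : HasW g p' q' s) :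
    HasW (fun t => f t + g t) (p + p') (q + q') s := by
  obtain ⟨L, hL, hp⟩ := h
  obtain ⟨L', hL', hp'⟩ := h'
  refine ⟨L + L', hL.add hL', fun h => ?_⟩
  rw [add_apply, hp, hp']
  ring

theorem HasW.mul (h : HasW f p q s) (h' : HasW g p' q' s) :
    HasW (fun t => f t * g t) (f s * p' + g s * p) (f s * q' + g s * q) s := by
  obtain ⟨L, hL, hp⟩ := h
  obtain ⟨L', hL', hp'⟩ := h'
  refine ⟨_, hL.mul hL', fun h => ?_⟩
  rw [add_apply, smul_apply,
    smul_apply, hp, hp', smul_eq_mul, smul_eq_mul]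
  ring

theorem HasW.conj (h : HasW f p q s) :
    HasW (fun t => (starRingEnd ℂ) (f t)) ((starRingEnd ℂ) q) ((starRingEnd ℂ) p) s := by
  obtain ⟨L, hL, hp⟩ := h
  refine ⟨(conjCLE : ℂ →L[ℝ] ℂ).comp L, (conjCLE : ℂ →L[ℝ] ℂ).hasFDerivAt.comp s hL, fun h => ?_⟩
  rw [ContinuousLinearMap.comp_apply, hp]
  simp only [ContinuousLinearEquiv.coe_coe, conjCLE_apply, map_add, map_mul, conj_conj]
  ring

theorem HasW.sum {ι : Type*} (S : Finset ι) {f : ι → ℂ → ℂ} {p q : ι → ℂ} {s : ℂ}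
    (h : ∀ i ∈ S, HasW (f i) (p i) (q i) s) :
    HasW (fun t => ∑ i ∈ S, f i t) (∑ i ∈ S, p i) (∑ i ∈ S, q i) s := by
  classical
  induction S using Finset.induction_on with
  | empty => simpa using hasW_const 0 s
  | insert a S ha ih =>
    simp only [Finset.sum_insert ha]
    exact (h a (Finset.mem_insert_self _ _)).add
      (ih fun i hi => h i (Finset.mem_insert_of_mem hi))

end HasW

/-! ## the Laplacian -/

theorem hasFDerivAt_fderiv_apply {E F : Type*} [NormedAddCommGroup E] [NormedSpace ℝ E]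
    [NormedAddCommGroup F] [NormedSpace ℝ F] {f : E → F} {z : E} (h : ContDiffAt ℝ 2 f z) (u : E) :
    HasFDerivAt (fun y => fderiv ℝ f y u)
      ((fderiv ℝ (fderiv ℝ f) z).flip u) z := by
  have h1 : DifferentiableAt ℝ (fderiv ℝ f) z :=
    (h.fderiv_right (m := 1) (by norm_num)).differentiableAt (by norm_num)
  have h2 := h1.hasFDerivAt.clm_apply (hasFDerivAt_const u z)
  convert h2 using 1
  ext v
  simp

theorem lap_eq {ψ : ℂ → ℝ} {s : ℂ} (h : ContDiffAt ℝ 2 ψ s) :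
    ((lap ψ s : ℝ) : ℂ) = 4 * dW 1 (dWbar 1 (fun t => (ψ t : ℂ))) s := by
  set D := fderiv ℝ (fderiv ℝ ψ) s with hD
  have hsymm : D 1 I = D I 1 := by
    have := h.isSymmSndFDerivAt (by simp)
    exact this.eq 1 I
  have e : ∀ᶠ t in 𝓝 s, dWbar 1 (fun t => (ψ t : ℂ)) t =
      (1 / 2) * (((fderiv ℝ ψ t 1 : ℝ) : ℂ) + I * ((fderiv ℝ ψ t I : ℝ) : ℂ)) := by
    have h1 : ∀ᶠ t in 𝓝 s, ContDiffAt ℝ 2 ψ t := h.eventually (by simp)
    filter_upwards [h1] with t ht
    have h2 : HasFDerivAt (fun t => (ψ t : ℂ)) (ofRealCLM.comp (fderiv ℝ ψ t)) t :=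
      ofRealCLM.hasFDerivAt.comp t (ht.differentiableAt (by norm_num)).hasFDerivAt
    unfold MP_7c31d9_gt.dWbar
    rw [h2.fderiv]
    simp
  have hu : ∀ u, HasFDerivAt (fun t => ((fderiv ℝ ψ t u : ℝ) : ℂ)) (ofRealCLM.comp (D.flip u)) s :=
    fun u => ofRealCLM.hasFDerivAt.comp s (hasFDerivAt_fderiv_apply h u)
  have h3 : HasFDerivAt (dWbar 1 (fun t => (ψ t : ℂ)))
      ((1 / 2 : ℂ) • (ofRealCLM.comp (D.flip 1) + I • (ofRealCLM.comp (D.flip I)))) s := by
    refine HasFDerivAt.congr_of_eventuallyEq ?_ e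
    exact ((hu 1).add ((hu I).const_mul I)).const_mul (1 / 2)
  unfold MP_7c31d9_gt.dW
  rw [h3.fderiv]
  unfold lap
  rw [(hasFDerivAt_fderiv_apply h 1).fderiv, (hasFDerivAt_fderiv_apply h I).fderiv]
  simp only [ContinuousLinearMap.flip_apply, smul_apply,
    add_apply, ContinuousLinearMap.comp_apply, ofRealCLM_apply, smul_eq_mul,
    mul_one, ofReal_add]
  rw [← hD, hsymm]
  linear_combination (D I I : ℂ) * I_mul_I

/-! ## Wirtinger calculus in several variables -/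

section Several

variable {n : ℕ}

/-- real derivatives in terms of Wirtinger derivatives -/
theorem fderiv_decomp (F : (Fin n → ℂ) → ℂ) (z u : Fin n → ℂ) :
    fderiv ℝ F z u = ∑ i, (u i * dW (Pi.single i 1) F z +
      (starRingEnd ℂ) (u i) * dWbar (Pi.single i 1) F z) := by
  have hu : u = ∑ i, ((u i).re • (Pi.single i (1 : ℂ) : Fin n → ℂ) +
      (u i).im • (I • (Pi.single i (1 : ℂ) : Fin n → ℂ))) := by
    funext j
    rw [Finset.sum_apply, Finset.sum_eq_single j]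
    · simp only [Pi.add_apply, Pi.smul_apply, Pi.single_eq_same, smul_eq_mul, mul_one,
        Complex.real_smul]
      exact (re_add_im (u j)).symm
    · intro i _ hij
      simp [Pi.single_eq_of_ne (Ne.symm hij)]
    · intro h
      exact absurd (Finset.mem_univ j) h
  conv_lhs => rw [hu]
  rw [map_sum]
  refine Finset.sum_congr rfl fun i _ => ?_
  rw [map_add, map_smul, map_smul]
  unfold dW dWbar
  set A := fderiv ℝ F z (Pi.single i 1)
  set B := fderiv ℝ F z (I • Pi.single i 1)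
  rw [Complex.real_smul, Complex.real_smul]
  have h1 : (starRingEnd ℂ) (u i) = (u i).re - (u i).im * I := by
    apply Complex.ext <;> simp
  have h2 : u i = (u i).re + (u i).im * I := (re_add_im (u i)).symm
  rw [h1]
  conv_rhs => rw [h2]
  simp only [add_re, ofReal_re, mul_re, I_re, mul_zero, ofReal_im, I_im, mul_one, sub_self,
    add_zero, add_im, mul_im, zero_add]
  linear_combination ((u i).im * B) * I_mul_I

theorem hasDerivAt_qcurve (z v a : Fin n → ℂ) (s : ℂ) :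
    HasDerivAt (qcurve z v a) (fun i => v i + s * a i) s := by
  unfold qcurve
  rw [hasDerivAt_pi]
  intro i
  simp only [Pi.add_apply, Pi.smul_apply, smul_eq_mul]
  have h1 : HasDerivAt (fun s : ℂ => z i + s * v i + s ^ 2 / 2 * a i)
      (0 + 1 * v i + (2 * s / 2) * a i) s := by
    refine ((hasDerivAt_const s (z i)).add ((hasDerivAt_id s).mul_const (v i))).add ?_
    have := ((hasDerivAt_pow 2 s).div_const 2).mul_const (a i)
    simpa using this
  have h2 : v i + s * a i = 0 + 1 * v i + (2 * s / 2) * a i := by ring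
  rw [h2]
  exact h1

theorem HasW.comp_curve {F : (Fin n → ℂ) → ℂ} {z v a : Fin n → ℂ} {s : ℂ}
    (hF : DifferentiableAt ℝ F (qcurve z v a s)) :
    HasW (fun t => F (qcurve z v a t))
      (∑ i, (v i + s * a i) * dW (Pi.single i 1) F (qcurve z v a s))
      (∑ i, (starRingEnd ℂ) (v i + s * a i) * dWbar (Pi.single i 1) F (qcurve z v a s)) s := by
  have h1 := (hasDerivAt_qcurve z v a s).hasFDerivAt.restrictScalars ℝ
  refine ⟨_, hF.hasFDerivAt.comp s h1, fun h => ?_⟩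
  rw [ContinuousLinearMap.comp_apply, fderiv_decomp, Finset.sum_add_distrib, Finset.sum_mul,
    Finset.sum_mul]
  congr 1
  · refine Finset.sum_congr rfl fun i _ => ?_
    simp only [ContinuousLinearMap.coe_restrictScalars', ContinuousLinearMap.toSpanSingleton_apply,
      Pi.smul_apply, smul_eq_mul]
    ring
  · refine Finset.sum_congr rfl fun i _ => ?_
    simp only [ContinuousLinearMap.coe_restrictScalars', ContinuousLinearMap.toSpanSingleton_apply,
      Pi.smul_apply, smul_eq_mul, map_mul]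
    ring

theorem contDiff_qcurve (z v a : Fin n → ℂ) : ContDiff ℝ ∞ (qcurve z v a) := by
  have : ContDiff ℂ ∞ (qcurve z v a) := by
    unfold qcurve
    fun_prop
  exact this.restrict_scalars ℝ

variable {U : Set (Fin n → ℂ)} {F : (Fin n → ℂ) → ℂ}

theorem smooth_fderiv (hU : IsOpen U) (hF : ContDiffOn ℝ ∞ F U) (u : Fin n → ℂ) :
    ContDiffOn ℝ ∞ (fun z => fderiv ℝ F z u) U :=
  (hF.fderiv_of_isOpen hU (m := ∞) (by norm_num)).clm_apply contDiffOn_const

theorem smooth_dW (hU : IsOpen U) (hF : ContDiffOn ℝ ∞ F U) (u : Fin n → ℂ) :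
    ContDiffOn ℝ ∞ (dW u F) U := by
  unfold MP_7c31d9_gt.dW
  exact contDiffOn_const.mul ((smooth_fderiv hU hF u).sub
    (contDiffOn_const.mul (smooth_fderiv hU hF (I • u))))

theorem smooth_dWbar (hU : IsOpen U) (hF : ContDiffOn ℝ ∞ F U) (u : Fin n → ℂ) :
    ContDiffOn ℝ ∞ (dWbar u F) U := by
  unfold MP_7c31d9_gt.dWbar
  exact contDiffOn_const.mul ((smooth_fderiv hU hF u).add
    (contDiffOn_const.mul (smooth_fderiv hU hF (I • u))))

theorem at2 (hU : IsOpen U) (hF : ContDiffOn ℝ ∞ F U) {z : Fin n → ℂ} (hz : z ∈ U) :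
    ContDiffAt ℝ 2 F z :=
  (hF.contDiffAt (hU.mem_nhds hz)).of_le (WithTop.coe_le_coe.mpr le_top)

theorem diffAt (hU : IsOpen U) (hF : ContDiffOn ℝ ∞ F U) {z : Fin n → ℂ} (hz : z ∈ U) :
    DifferentiableAt ℝ F z :=
  (at2 hU hF hz).differentiableAt (by norm_num)

theorem fderiv_dW {z : Fin n → ℂ} (h : ContDiffAt ℝ 2 F z) (u x : Fin n → ℂ) :
    fderiv ℝ (dW u F) z x = (1 / 2) * (fderiv ℝ (fderiv ℝ F) z x u -
      I * fderiv ℝ (fderiv ℝ F) z x (I • u)) := by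
  have h1 : HasFDerivAt (dW u F) ((1 / 2 : ℂ) • ((fderiv ℝ (fderiv ℝ F) z).flip u -
      I • (fderiv ℝ (fderiv ℝ F) z).flip (I • u))) z := by
    exact ((hasFDerivAt_fderiv_apply h u).sub
      ((hasFDerivAt_fderiv_apply h (I • u)).const_mul I)).const_mul (1 / 2)
  rw [h1.fderiv]
  simp

theorem fderiv_dWbar {z : Fin n → ℂ} (h : ContDiffAt ℝ 2 F z) (u x : Fin n → ℂ) :
    fderiv ℝ (dWbar u F) z x = (1 / 2) * (fderiv ℝ (fderiv ℝ F) z x u +
      I * fderiv ℝ (fderiv ℝ F) z x (I • u)) := by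
  have h1 : HasFDerivAt (dWbar u F) ((1 / 2 : ℂ) • ((fderiv ℝ (fderiv ℝ F) z).flip u +
      I • (fderiv ℝ (fderiv ℝ F) z).flip (I • u))) z := by
    exact ((hasFDerivAt_fderiv_apply h u).add
      ((hasFDerivAt_fderiv_apply h (I • u)).const_mul I)).const_mul (1 / 2)
  rw [h1.fderiv]
  simp
  ring

theorem dW_comm {z : Fin n → ℂ} (h : ContDiffAt ℝ 2 F z) (u v : Fin n → ℂ) :
    dW u (dW v F) z = dW v (dW u F) z := by
  have hs := h.isSymmSndFDerivAt (by simp)
  rw [dW, fderiv_dW h, fderiv_dW h]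
  conv_rhs => rw [dW, fderiv_dW h, fderiv_dW h]
  rw [hs.eq v u, hs.eq (I • v) u, hs.eq v (I • u), hs.eq (I • v) (I • u)]
  ring

theorem dW_dWbar_comm {z : Fin n → ℂ} (h : ContDiffAt ℝ 2 F z) (u v : Fin n → ℂ) :
    dW u (dWbar v F) z = dWbar v (dW u F) z := by
  have hs := h.isSymmSndFDerivAt (by simp)
  rw [dW, fderiv_dWbar h, fderiv_dWbar h, dWbar, fderiv_dW h, fderiv_dW h]
  rw [hs.eq v u, hs.eq (I • v) u, hs.eq v (I • u), hs.eq (I • v) (I • u)]
  ring

theorem conj_dW (F : (Fin n → ℂ) → ℂ) (u z : Fin n → ℂ) :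
    (starRingEnd ℂ) (dW u F z) = dWbar u (fun y => (starRingEnd ℂ) (F y)) z := by
  have : fderiv ℝ (fun y => (starRingEnd ℂ) (F y)) z =
      (conjCLE : ℂ →L[ℝ] ℂ).comp (fderiv ℝ F z) :=
    conjCLE.comp_fderiv
  unfold dW dWbar
  rw [this]
  simp only [map_mul, map_sub, map_div₀, map_one, map_ofNat, conj_I,
    ContinuousLinearMap.comp_apply, ContinuousLinearEquiv.coe_coe, conjCLE_apply]
  ring

theorem conj_dWbar (F : (Fin n → ℂ) → ℂ) (u z : Fin n → ℂ) :
    (starRingEnd ℂ) (dWbar u F z) = dW u (fun y => (starRingEnd ℂ) (F y)) z := by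
  have : fderiv ℝ (fun y => (starRingEnd ℂ) (F y)) z =
      (conjCLE : ℂ →L[ℝ] ℂ).comp (fderiv ℝ F z) :=
    conjCLE.comp_fderiv
  unfold dW dWbar
  rw [this]
  simp only [map_mul, map_add, map_div₀, map_one, map_ofNat, conj_I,
    ContinuousLinearMap.comp_apply, ContinuousLinearEquiv.coe_coe, conjCLE_apply]
  ring

theorem dW_congr {F G : (Fin n → ℂ) → ℂ} {z : Fin n → ℂ} (h : F =ᶠ[𝓝 z] G) (u : Fin n → ℂ) :
    dW u F z = dW u G z := by
  unfold dW
  rw [h.fderiv_eq]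

theorem dWbar_congr {F G : (Fin n → ℂ) → ℂ} {z : Fin n → ℂ} (h : F =ᶠ[𝓝 z] G) (u : Fin n → ℂ) :
    dWbar u F z = dWbar u G z := by
  unfold dWbar
  rw [h.fderiv_eq]

/-! ## The complex Hessian of a potential -/

/-- `∂_i ∂̄_j Φ` -/
noncomputable def Hs (Φ : (Fin n → ℂ) → ℂ) (i j : Fin n) : (Fin n → ℂ) → ℂ :=
  dW (Pi.single i 1) (dWbar (Pi.single j 1) Φ)

theorem smooth_Hs (hU : IsOpen U) {Φ : (Fin n → ℂ) → ℂ} (hΦ : ContDiffOn ℝ ∞ Φ U) (i j : Fin n) :
    ContDiffOn ℝ ∞ (Hs Φ i j) U :=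
  smooth_dW hU (smooth_dWbar hU hΦ _) _

theorem conj_Hs (hU : IsOpen U) {Φ : (Fin n → ℂ) → ℂ} (hΦ : ContDiffOn ℝ ∞ Φ U)
    (hreal : ∀ z, (starRingEnd ℂ) (Φ z) = Φ z) (i j : Fin n) {z : Fin n → ℂ} (hz : z ∈ U) :
    (starRingEnd ℂ) (Hs Φ i j z) = Hs Φ j i z := by
  unfold Hs
  rw [conj_dW]
  have h1 : (fun y => (starRingEnd ℂ) (dWbar (Pi.single j 1) Φ y)) = dW (Pi.single j 1) Φ := by
    funext y
    rw [conj_dWbar]
    congr 1
    funext x
    exact hreal x
  rw [h1, dW_dWbar_comm (at2 hU hΦ hz)]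

/-- the velocity of the curve -/
noncomputable def vel (v a : Fin n → ℂ) (i : Fin n) (s : ℂ) : ℂ := v i + s * a i

theorem hasW_vel (v a : Fin n → ℂ) (i : Fin n) (s : ℂ) : HasW (vel v a i) (a i) 0 s := by
  have := (hasW_const (v i) s).add ((hasW_id s).mul (hasW_const (a i) s))
  have e : vel v a i = fun t => v i + t * a i := rfl
  rw [e]
  simpa using this

theorem hasW_cvel (v a : Fin n → ℂ) (i : Fin n) (s : ℂ) :
    HasW (fun t => (starRingEnd ℂ) (vel v a i t)) 0 ((starRingEnd ℂ) (a i)) s := by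
  simpa using (hasW_vel v a i s).conj

theorem hasW_curve (hU : IsOpen U) {G : (Fin n → ℂ) → ℂ} (hG : ContDiffOn ℝ ∞ G U)
    {z v a : Fin n → ℂ} {s : ℂ} (hs : qcurve z v a s ∈ U) :
    HasW (fun t => G (qcurve z v a t))
      (∑ i, vel v a i s * dW (Pi.single i 1) G (qcurve z v a s))
      (∑ i, (starRingEnd ℂ) (vel v a i s) * dWbar (Pi.single i 1) G (qcurve z v a s)) s :=
  HasW.comp_curve (diffAt hU hG hs)

theorem ev_curve (hU : IsOpen U) {z v a : Fin n → ℂ} {s : ℂ} (hs : qcurve z v a s ∈ U) :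
    ∀ᶠ t in 𝓝 s, qcurve z v a t ∈ U :=
  (contDiff_qcurve z v a).continuous.continuousAt.eventually (hU.mem_nhds hs)

/-- `∂_s ∂̄_s (Φ ∘ γ)` -/
noncomputable def HH (Φ : (Fin n → ℂ) → ℂ) (z v a : Fin n → ℂ) (s : ℂ) : ℂ :=
  ∑ i, ∑ j, vel v a i s * (starRingEnd ℂ) (vel v a j s) * Hs Φ i j (qcurve z v a s)

theorem dW_dWbar_curve (hU : IsOpen U) {Φ : (Fin n → ℂ) → ℂ} (hΦ : ContDiffOn ℝ ∞ Φ U)
    {z v a : Fin n → ℂ} {s : ℂ} (hs : qcurve z v a s ∈ U) :
    dW 1 (dWbar 1 (fun t => Φ (qcurve z v a t))) s = HH Φ z v a s := by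
  have h1 : (dWbar 1 (fun t => Φ (qcurve z v a t))) =ᶠ[𝓝 s] fun t =>
      ∑ j, (starRingEnd ℂ) (vel v a j t) * dWbar (Pi.single j 1) Φ (qcurve z v a t) := by
    filter_upwards [ev_curve hU hs] with t ht
    exact (hasW_curve hU hΦ ht).eqWbar
  have h2 := (HasW.sum Finset.univ fun j _ => (hasW_cvel v a j s).mul
    (hasW_curve hU (smooth_dWbar hU hΦ (Pi.single j 1)) hs)).congr h1
  rw [h2.eqW]
  unfold HH
  rw [Finset.sum_comm]
  refine Finset.sum_congr rfl fun j _ => ?_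
  rw [mul_zero, add_zero, Finset.mul_sum]
  refine Finset.sum_congr rfl fun i _ => ?_
  unfold Hs
  ring

/-- `∂_s ∂̄_s` of `HH` -/
noncomputable def Br (Φ : (Fin n → ℂ) → ℂ) (z v a : Fin n → ℂ) (s : ℂ) : ℂ :=
  ∑ i, ∑ j,
    (vel v a i s * (starRingEnd ℂ) (vel v a j s) *
      (∑ l, ∑ k, (starRingEnd ℂ) (vel v a l s) * vel v a k s *
        dW (Pi.single k 1) (dWbar (Pi.single l 1) (Hs Φ i j)) (qcurve z v a s)) +
    a i * (starRingEnd ℂ) (vel v a j s) *
      (∑ l, (starRingEnd ℂ) (vel v a l s) * dWbar (Pi.single l 1) (Hs Φ i j) (qcurve z v a s)) +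
    vel v a i s * (starRingEnd ℂ) (a j) *
      (∑ k, vel v a k s * dW (Pi.single k 1) (Hs Φ i j) (qcurve z v a s)) +
    a i * (starRingEnd ℂ) (a j) * Hs Φ i j (qcurve z v a s))

theorem dW_dWbar_HH (hU : IsOpen U) {Φ : (Fin n → ℂ) → ℂ} (hΦ : ContDiffOn ℝ ∞ Φ U)
    {z v a : Fin n → ℂ} {s : ℂ} (hs : qcurve z v a s ∈ U) :
    dW 1 (dWbar 1 (HH Φ z v a)) s = Br Φ z v a s := by
  have hH := smooth_Hs hU hΦ
  have h1 : (dWbar 1 (HH Φ z v a)) =ᶠ[𝓝 s] fun t => ∑ i, ∑ j,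
      (vel v a i t * (starRingEnd ℂ) (vel v a j t) * (∑ l, (starRingEnd ℂ) (vel v a l t) *
        dWbar (Pi.single l 1) (Hs Φ i j) (qcurve z v a t)) +
      vel v a i t * (starRingEnd ℂ) (a j) * Hs Φ i j (qcurve z v a t)) := by
    filter_upwards [ev_curve hU hs] with t ht
    have h2 := HasW.sum Finset.univ fun i _ => HasW.sum Finset.univ fun j _ =>
      ((hasW_vel v a i t).mul (hasW_cvel v a j t)).mul (hasW_curve hU (hH i j) ht)
    unfold HH
    rw [h2.eqWbar]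
    refine Finset.sum_congr rfl fun i _ => Finset.sum_congr rfl fun j _ => ?_
    ring
  have h3 := (HasW.sum Finset.univ fun i _ => HasW.sum Finset.univ fun j _ =>
    ((((hasW_vel v a i s).mul (hasW_cvel v a j s)).mul
      (HasW.sum Finset.univ fun l _ => (hasW_cvel v a l s).mul
        (hasW_curve hU (smooth_dWbar hU (hH i j) (Pi.single l 1)) hs))).add
    (((hasW_vel v a i s).mul (hasW_const ((starRingEnd ℂ) (a j)) s)).mul
      (hasW_curve hU (hH i j) hs)))).congr h1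
  rw [h3.eqW]
  unfold Br
  refine Finset.sum_congr rfl fun i _ => Finset.sum_congr rfl fun j _ => ?_
  have e1 : (∑ l, ((starRingEnd ℂ) (vel v a l s) * (∑ k, vel v a k s *
      dW (Pi.single k 1) (dWbar (Pi.single l 1) (Hs Φ i j)) (qcurve z v a s)) +
      dWbar (Pi.single l 1) (Hs Φ i j) (qcurve z v a s) * 0)) =
      ∑ l, ∑ k, (starRingEnd ℂ) (vel v a l s) * vel v a k s *
        dW (Pi.single k 1) (dWbar (Pi.single l 1) (Hs Φ i j)) (qcurve z v a s) := by
    refine Finset.sum_congr rfl fun l _ => ?_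
    rw [mul_zero, add_zero, Finset.mul_sum]
    refine Finset.sum_congr rfl fun k _ => ?_
    ring
  rw [e1]
  ring

/-! ## Laplacians along the curve -/

variable {φ : (Fin n → ℂ) → ℝ}

theorem smooth_ofReal (hφ : ContDiffOn ℝ ∞ φ U) : ContDiffOn ℝ ∞ (fun z => (φ z : ℂ)) U :=
  ofRealCLM.contDiff.comp_contDiffOn hφ

theorem at2_curve (hU : IsOpen U) (hφ : ContDiffOn ℝ ∞ φ U)
    {z v a : Fin n → ℂ} {s : ℂ} (hs : qcurve z v a s ∈ U) :
    ContDiffAt ℝ ∞ (fun s => φ (qcurve z v a s)) s :=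
  (hφ.contDiffAt (hU.mem_nhds hs)).comp s (contDiff_qcurve z v a).contDiffAt

theorem lap_curve (hU : IsOpen U) (hφ : ContDiffOn ℝ ∞ φ U)
    {z v a : Fin n → ℂ} {s : ℂ} (hs : qcurve z v a s ∈ U) :
    ((lap (fun s => φ (qcurve z v a s)) s : ℝ) : ℂ) =
      4 * HH (fun z => (φ z : ℂ)) z v a s := by
  rw [lap_eq ((at2_curve hU hφ hs).of_le (WithTop.coe_le_coe.mpr le_top)),
    ← dW_dWbar_curve hU (smooth_ofReal hφ) hs]

theorem fderiv_cmul {E : Type*} [NormedAddCommGroup E] [NormedSpace ℝ E]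
    (c : ℂ) (F : E → ℂ) (u z : E) : fderiv ℝ (fun y => c * F y) z u = c * fderiv ℝ F z u := by
  by_cases hF : DifferentiableAt ℝ F z
  · rw [fderiv_const_mul hF]
    rfl
  · by_cases hc : c = 0
    · subst hc
      simp
    · have h : ¬ DifferentiableAt ℝ (fun y => c * F y) z := fun h => hF (by
        have := h.const_mul c⁻¹
        simpa [hc] using this)
      rw [fderiv_zero_of_not_differentiableAt h, fderiv_zero_of_not_differentiableAt hF]
      simp

theorem dWbar_cmul {E : Type*} [NormedAddCommGroup E] [NormedSpace ℝ E] [NormedSpace ℂ E]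
    (c : ℂ) (F : E → ℂ) (u z : E) : dWbar u (fun y => c * F y) z = c * dWbar u F z := by
  unfold dWbar
  rw [fderiv_cmul, fderiv_cmul]
  ring

theorem dW_cmul {E : Type*} [NormedAddCommGroup E] [NormedSpace ℝ E] [NormedSpace ℂ E]
    (c : ℂ) (F : E → ℂ) (u z : E) : dW u (fun y => c * F y) z = c * dW u F z := by
  unfold dW
  rw [fderiv_cmul, fderiv_cmul]
  ring

theorem smooth_lap {ψ : ℂ → ℝ} {s : ℂ} (h : ContDiffAt ℝ ∞ ψ s) : ContDiffAt ℝ ∞ (lap ψ) s := by
  have key : ∀ (f : ℂ → ℝ) (u : ℂ), ContDiffAt ℝ ∞ f s →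
      ContDiffAt ℝ ∞ (fun t => fderiv ℝ f t u) s := fun f u hf =>
    (hf.fderiv_right (m := ∞) (by simp)).clm_apply contDiffAt_const
  have e : lap ψ = fun t => fderiv ℝ (fun t => fderiv ℝ ψ t 1) t 1 +
      fderiv ℝ (fun t => fderiv ℝ ψ t I) t I := rfl
  rw [e]
  exact (key _ _ (key _ _ h)).add (key _ _ (key _ _ h))

theorem lap_lap_curve (hU : IsOpen U) (hφ : ContDiffOn ℝ ∞ φ U)
    {z v a : Fin n → ℂ} {s : ℂ} (hs : qcurve z v a s ∈ U) :
    ((lap (lap (fun s => φ (qcurve z v a s))) s : ℝ) : ℂ) =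
      16 * Br (fun z => (φ z : ℂ)) z v a s := by
  rw [lap_eq ((smooth_lap (at2_curve hU hφ hs)).of_le (WithTop.coe_le_coe.mpr le_top))]
  have h1 : (fun t => ((lap (fun s => φ (qcurve z v a s)) t : ℝ) : ℂ)) =ᶠ[𝓝 s]
      fun t => 4 * HH (fun z => (φ z : ℂ)) z v a t := by
    filter_upwards [ev_curve hU hs] with t ht
    exact lap_curve hU hφ ht
  have h2 : dWbar 1 (fun t => ((lap (fun s => φ (qcurve z v a s)) t : ℝ) : ℂ)) =ᶠ[𝓝 s]
      fun t => 4 * dWbar 1 (HH (fun z => (φ z : ℂ)) z v a) t := by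
    filter_upwards [h1.fderiv (𝕜 := ℝ)] with t ht
    rw [← dWbar_cmul]
    unfold dWbar
    rw [ht]
  have h3 : dW 1 (dWbar 1 (fun t => ((lap (fun s => φ (qcurve z v a s)) t : ℝ) : ℂ))) s =
      dW 1 (fun t => 4 * dWbar 1 (HH (fun z => (φ z : ℂ)) z v a) t) s := by
    unfold dW
    rw [h2.fderiv_eq]
  rw [h3, dW_cmul, dW_dWbar_HH hU (smooth_ofReal hφ) hs]
  ring

/-! ## At the base point -/

theorem qcurve_zero (z v a : Fin n → ℂ) : qcurve z v a 0 = z := by
  simp [qcurve]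

theorem HH_zero (Φ : (Fin n → ℂ) → ℂ) (z v a : Fin n → ℂ) :
    HH Φ z v a 0 = ∑ i, ∑ j, v i * (starRingEnd ℂ) (v j) * Hs Φ i j z := by
  unfold HH vel
  rw [qcurve_zero]
  simp only [zero_mul, add_zero]

/-- the fourth order term -/
noncomputable def D4 (Φ : (Fin n → ℂ) → ℂ) (z v : Fin n → ℂ) : ℂ :=
  ∑ i, ∑ j, ∑ k, ∑ l, v i * (starRingEnd ℂ) (v j) * v k * (starRingEnd ℂ) (v l) *
    dW (Pi.single k 1) (dWbar (Pi.single l 1) (Hs Φ i j)) z

/-- the third order term -/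
noncomputable def D3 (Φ : (Fin n → ℂ) → ℂ) (z v : Fin n → ℂ) (j : Fin n) : ℂ :=
  ∑ i, ∑ k, v i * v k * dW (Pi.single k 1) (Hs Φ i j) z

/-- the conjugate third order term -/
noncomputable def D3' (Φ : (Fin n → ℂ) → ℂ) (z v : Fin n → ℂ) (i : Fin n) : ℂ :=
  ∑ j, ∑ l, (starRingEnd ℂ) (v j) * (starRingEnd ℂ) (v l) *
    dWbar (Pi.single l 1) (Hs Φ i j) z

theorem Br_zero (Φ : (Fin n → ℂ) → ℂ) (z v a : Fin n → ℂ) :
    Br Φ z v a 0 = D4 Φ z v + ∑ i, a i * D3' Φ z v i + ∑ j, (starRingEnd ℂ) (a j) * D3 Φ z v j +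
      ∑ i, ∑ j, a i * (starRingEnd ℂ) (a j) * Hs Φ i j z := by
  unfold Br vel
  rw [qcurve_zero]
  simp only [zero_mul, add_zero, Finset.sum_add_distrib]
  congr 1
  congr 1
  congr 1
  · unfold D4
    refine Finset.sum_congr rfl fun i _ => Finset.sum_congr rfl fun j _ => ?_
    rw [Finset.sum_comm, Finset.mul_sum]
    refine Finset.sum_congr rfl fun k _ => ?_
    rw [Finset.mul_sum]
    refine Finset.sum_congr rfl fun l _ => ?_
    ring
  · unfold D3'
    refine Finset.sum_congr rfl fun i _ => ?_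
    rw [Finset.mul_sum]
    refine Finset.sum_congr rfl fun j _ => ?_
    rw [Finset.mul_sum, Finset.mul_sum]
    refine Finset.sum_congr rfl fun l _ => ?_
    ring
  · unfold D3
    rw [Finset.sum_comm]
    refine Finset.sum_congr rfl fun j _ => ?_
    rw [Finset.mul_sum]
    refine Finset.sum_congr rfl fun i _ => ?_
    rw [Finset.mul_sum, Finset.mul_sum]
    refine Finset.sum_congr rfl fun k _ => ?_
    ring

/-- the metric -/
noncomputable def met (c : ℝ) (Φ : (Fin n → ℂ) → ℂ) (z : Fin n → ℂ) : Matrix (Fin n) (Fin n) ℂ :=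
  Matrix.of fun i j => (c : ℂ) * Hs Φ i j z

theorem sum_mul_sum4 (A B : Fin n → Fin n → ℂ) (X : ℂ) :
    (∑ i, ∑ k, A i k) * X * (∑ j, ∑ l, B j l) = ∑ i, ∑ j, ∑ k, ∑ l, A i k * X * B j l := by
  rw [Finset.sum_mul, Finset.sum_mul]
  refine Finset.sum_congr rfl fun i _ => ?_
  rw [Finset.mul_sum]
  refine Finset.sum_congr rfl fun j _ => ?_
  rw [Finset.sum_mul, Finset.sum_mul]
  refine Finset.sum_congr rfl fun k _ => ?_
  rw [Finset.mul_sum]

theorem sum_rot5 (F : Fin n → Fin n → Fin n → Fin n → Fin n → ℂ) :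
    (∑ i, ∑ j, ∑ k, ∑ l, ∑ q, F i j k l q) = ∑ q, ∑ i, ∑ j, ∑ k, ∑ l, F i j k l q := by
  have h1 : ∀ i j k, (∑ l, ∑ q, F i j k l q) = ∑ q, ∑ l, F i j k l q :=
    fun _ _ _ => Finset.sum_comm
  simp only [h1]
  have h2 : ∀ i j, (∑ k, ∑ q, ∑ l, F i j k l q) = ∑ q, ∑ k, ∑ l, F i j k l q :=
    fun _ _ => Finset.sum_comm
  simp only [h2]
  have h3 : ∀ i, (∑ j, ∑ q, ∑ k, ∑ l, F i j k l q) = ∑ q, ∑ j, ∑ k, ∑ l, F i j k l q :=
    fun _ => Finset.sum_comm
  simp only [h3]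
  exact Finset.sum_comm

/-- the curvature in the direction `v` -/
theorem curv_met (c : ℝ) (Φ : (Fin n → ℂ) → ℂ) (z v : Fin n → ℂ) :
    (∑ i, ∑ j, ∑ k, ∑ l, curvTensor (met c Φ) z i j k l * v i * (starRingEnd ℂ) (v j) * v k *
      (starRingEnd ℂ) (v l)) =
    - c * D4 Φ z v + ∑ q, ∑ p, (c * D3 Φ z v q) * (met c Φ z)⁻¹ q p * (c * D3' Φ z v p) := by
  have e1 : ∀ i j k l, curvTensor (met c Φ) z i j k l =
      - (c * dW (Pi.single k 1) (dWbar (Pi.single l 1) (Hs Φ i j)) z) +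
      ∑ q, ∑ p, c * dW (Pi.single k 1) (Hs Φ i q) z * (met c Φ z)⁻¹ q p *
        (c * dWbar (Pi.single l 1) (Hs Φ p j) z) := by
    intro i j k l
    unfold curvTensor
    have e2 : ∀ (i j : Fin n), (fun x => met c Φ x i j) = fun x => (c : ℂ) * Hs Φ i j x :=
      fun i j => rfl
    simp only [e2]
    have e3 : (fun y => dWbar (Pi.single l 1) (fun x => (c : ℂ) * Hs Φ i j x) y) =
        fun y => (c : ℂ) * dWbar (Pi.single l 1) (Hs Φ i j) y := by
      funext y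
      exact dWbar_cmul _ _ _ _
    rw [e3, dW_cmul]
    congr 1
    refine Finset.sum_congr rfl fun q _ => Finset.sum_congr rfl fun p _ => ?_
    rw [dW_cmul, dWbar_cmul]
  simp only [e1, add_mul, Finset.sum_add_distrib]
  congr 1
  · unfold D4
    simp only [Finset.mul_sum]
    refine Finset.sum_congr rfl fun i _ => Finset.sum_congr rfl fun j _ =>
      Finset.sum_congr rfl fun k _ => Finset.sum_congr rfl fun l _ => ?_
    ring
  · have e4 : ∀ q p, (c * D3 Φ z v q) * (met c Φ z)⁻¹ q p * (c * D3' Φ z v p) =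
        ∑ i, ∑ j, ∑ k, ∑ l, c * dW (Pi.single k 1) (Hs Φ i q) z * (met c Φ z)⁻¹ q p *
          (c * dWbar (Pi.single l 1) (Hs Φ p j) z) * v i * (starRingEnd ℂ) (v j) * v k *
          (starRingEnd ℂ) (v l) := by
      intro q p
      have := sum_mul_sum4 (fun i k => (c : ℂ) * (v i * v k * dW (Pi.single k 1) (Hs Φ i q) z))
        (fun j l => (c : ℂ) * ((starRingEnd ℂ) (v j) * (starRingEnd ℂ) (v l) *
          dWbar (Pi.single l 1) (Hs Φ p j) z)) ((met c Φ z)⁻¹ q p)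
      simp only [← Finset.mul_sum] at this
      unfold D3 D3'
      rw [this]
      simp only [Finset.mul_sum]
      refine Finset.sum_congr rfl fun i _ => Finset.sum_congr rfl fun j _ =>
        Finset.sum_congr rfl fun k _ => Finset.sum_congr rfl fun l _ => ?_
      ring
    simp only [e4, Finset.sum_mul]
    rw [sum_rot5]
    refine Finset.sum_congr rfl fun q _ => ?_
    rw [sum_rot5]

/-- the minimum of the bracket over `a` is minus the curvature -/
theorem exists_min (Φ : (Fin n → ℂ) → ℂ) (z v : Fin n → ℂ) (c : ℝ) (hdet : IsUnit (met c Φ z).det) :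
    ∃ a : Fin n → ℂ, (∑ i, ∑ j, ∑ k, ∑ l, curvTensor (met c Φ) z i j k l * v i *
      (starRingEnd ℂ) (v j) * v k * (starRingEnd ℂ) (v l)) = - c * Br Φ z v a 0 := by
  set A : Fin n → ℂ := fun q => c * D3 Φ z v q with hA
  refine ⟨- (Matrix.vecMul A (met c Φ z)⁻¹), ?_⟩
  set a : Fin n → ℂ := - (Matrix.vecMul A (met c Φ z)⁻¹) with ha
  have h1 : Matrix.vecMul a (met c Φ z) = - A := by
    rw [ha, Matrix.neg_vecMul, Matrix.vecMul_vecMul, Matrix.nonsing_inv_mul _ hdet,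
      Matrix.vecMul_one]
  have h2 : ∀ j, ∑ i, a i * (c * Hs Φ i j z) = - A j := fun j => congrFun h1 j
  rw [curv_met, Br_zero]
  have h3 : (c : ℂ) * ∑ i, ∑ j, a i * (starRingEnd ℂ) (a j) * Hs Φ i j z =
      - ∑ j, (starRingEnd ℂ) (a j) * A j := by
    rw [Finset.sum_comm, Finset.mul_sum, ← Finset.sum_neg_distrib]
    refine Finset.sum_congr rfl fun j _ => ?_
    rw [← mul_neg, ← h2 j, Finset.mul_sum, Finset.mul_sum]
    refine Finset.sum_congr rfl fun i _ => ?_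
    ring
  have h4 : (c : ℂ) * ∑ j, (starRingEnd ℂ) (a j) * D3 Φ z v j =
      ∑ j, (starRingEnd ℂ) (a j) * A j := by
    rw [Finset.mul_sum]
    refine Finset.sum_congr rfl fun j _ => ?_
    simp only [hA]
    ring
  have h5 : (∑ q, ∑ p, (c * D3 Φ z v q) * (met c Φ z)⁻¹ q p * (c * D3' Φ z v p)) =
      - (c * ∑ i, a i * D3' Φ z v i) := by
    rw [Finset.sum_comm, Finset.mul_sum, ← Finset.sum_neg_distrib]
    refine Finset.sum_congr rfl fun p _ => ?_
    rw [← Finset.sum_mul]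
    have : a p = - ∑ q, A q * (met c Φ z)⁻¹ q p := rfl
    rw [this]
    simp only [hA]
    ring
  rw [h5]
  linear_combination h3 + h4

end Several

end Kah

open Kah in
/-- P1 -/
theorem kahler_of_potential {n : ℕ} (U : Set (Fin n → ℂ)) (hU : IsOpen U)
    (φ : (Fin n → ℂ) → ℝ) (hφ : ContDiffOn ℝ ∞ φ U) (c : ℝ) (hc : 0 < c)
    (hpos : ∀ z ∈ U, ∀ v : Fin n → ℂ, v ≠ 0 → 0 < lap (fun s => φ (z + s • v)) 0)
    (hcurv : ∀ z ∈ U, ∀ v a : Fin n → ℂ, c * (lap (fun s => φ (qcurve z v a s)) 0) ^ 2 ≤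
      lap (lap (fun s => φ (qcurve z v a s))) 0) :
    ∃ g : (Fin n → ℂ) → Matrix (Fin n) (Fin n) ℂ, IsKahlerOn U g ∧
      ∀ z ∈ U, ∀ v : Fin n → ℂ, v ≠ 0 → holoSec g z v ≤ -1 := by
  set Φ : (Fin n → ℂ) → ℂ := fun z => (φ z : ℂ) with hΦdef
  have hΦ : ContDiffOn ℝ ∞ Φ U := smooth_ofReal hφ
  have hreal : ∀ z, (starRingEnd ℂ) (Φ z) = Φ z := fun z => conj_ofReal _
  -- the form
  have hform : ∀ z ∈ U, ∀ v a : Fin n → ℂ,
      ((lap (fun s => φ (qcurve z v a s)) 0 : ℝ) : ℂ) =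
      4 * ∑ i, ∑ j, v i * (starRingEnd ℂ) (v j) * Hs Φ i j z := by
    intro z hz v a
    rw [lap_curve hU hφ (by rwa [qcurve_zero]), HH_zero]
  have hlin : ∀ z v : Fin n → ℂ, (fun s : ℂ => φ (z + s • v)) = fun s => φ (qcurve z v 0 s) := by
    intro z v
    funext s
    simp [qcurve]
  have hpd : ∀ z ∈ U, (met c Φ z).PosDef := by
    intro z hz
    refine Matrix.PosDef.of_dotProduct_mulVec_pos ?_ fun x hx => ?_
    · ext i j
      rw [Matrix.conjTranspose_apply]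
      unfold met
      rw [Matrix.of_apply, Matrix.of_apply, star_mul', ← starRingEnd_apply, ← starRingEnd_apply,
        conj_ofReal, conj_Hs hU hΦ hreal j i hz]
    · have hv : (fun i => (starRingEnd ℂ) (x i)) ≠ 0 := by
        intro h
        apply hx
        funext i
        have := congrFun h i
        simpa using this
      have h1 := hpos z hz _ hv
      rw [hlin] at h1
      have h2 := hform z hz (fun i => (starRingEnd ℂ) (x i)) 0
      have h3 : star x ⬝ᵥ (Matrix.mulVec (met c Φ z) x) =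
          ((c / 4 * lap (fun s => φ (qcurve z (fun i => (starRingEnd ℂ) (x i)) 0 s)) 0 : ℝ) : ℂ) := by
        rw [ofReal_mul, h2]
        unfold met Matrix.mulVec dotProduct
        simp only [Matrix.of_apply, Finset.mul_sum, Pi.star_apply, conj_conj]
        refine Finset.sum_congr rfl fun i _ => Finset.sum_congr rfl fun j _ => ?_
        rw [← starRingEnd_apply]
        push_cast
        ring
      rw [h3]
      exact_mod_cast mul_pos (by positivity) h1
  refine ⟨met c Φ, ⟨fun i j => ?_, hpd, fun z hz i j k => ?_⟩, fun z hz v hv => ?_⟩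
  · exact contDiffOn_const.mul (smooth_Hs hU hΦ i j)
  · have e : ∀ i j, (fun y => met c Φ y i j) = fun y => (c : ℂ) * Hs Φ i j y := fun i j => rfl
    rw [e, e, dW_cmul, dW_cmul]
    congr 1
    exact dW_comm (at2 hU (smooth_dWbar hU hΦ _) hz) _ _
  · obtain ⟨a, ha⟩ := exists_min Φ z v c ((Matrix.isUnit_iff_isUnit_det _).mp (hpd z hz).isUnit)
    have h0 : qcurve z v a 0 ∈ U := by rwa [qcurve_zero]
    have h1 := hform z hz v a
    have h2 := lap_lap_curve hU hφ h0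
    have h3 := hcurv z hz v a
    set l1 := lap (fun s => φ (qcurve z v a s)) 0 with hl1
    set l2 := lap (lap (fun s => φ (qcurve z v a s))) 0 with hl2
    have hl1pos : 0 < l1 := by
      have h4 := hpos z hz v hv
      rw [hlin] at h4
      have h5 := hform z hz v 0
      rw [← h1] at h5
      have h6 : lap (fun s => φ (qcurve z v 0 s)) 0 = l1 := by exact_mod_cast h5
      rwa [h6] at h4
    unfold holoSec
    rw [ha]
    have h7 : (∑ i, ∑ j, met c Φ z i j * v i * (starRingEnd ℂ) (v j)) =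
        ((c / 4 * l1 : ℝ) : ℂ) := by
      rw [ofReal_mul, h1]
      unfold met
      simp only [Matrix.of_apply, Finset.mul_sum]
      refine Finset.sum_congr rfl fun i _ => Finset.sum_congr rfl fun j _ => ?_
      push_cast
      ring
    have h8 : - (c : ℂ) * Br Φ z v a 0 = ((-(c / 16 * l2) : ℝ) : ℂ) := by
      push_cast
      rw [h2]
      ring
    rw [h7, h8, ofReal_re, ofReal_re, div_le_iff₀ (by positivity)]
    have h9 : c / 16 * (c * l1 ^ 2) ≤ c / 16 * l2 :=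
      mul_le_mul_of_nonneg_left h3 (by positivity)
    nlinarith [h9]

end Pool.Agent.MP_7c31d9_gt
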