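import Pool.Agent.MP_7c31d9_gt.Defs

/-! Differentiation under a one-dimensional integral with a bounded measurable weight. -/

namespace Pool.Agent.MP_7c31d9_gt

open Complex Filter MeasureTheory
open scoped ContDiff ComplexOrder Topology

section param

variable {E : Type*} [NormedAddCommGroup E] [NormedSpace ℝ E]

/-- partial derivative of `F` in the second variable, direction `y`, as a joint derivative. -/
theorem fderiv_partial {U : Set E} (hU : IsOpen U) {F : ℝ → E → ℝ}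
    (hF : ContDiffOn ℝ 1 (fun q : ℝ × E => F q.1 q.2) (Set.univ ×ˢ U)) (t : ℝ) {z : E}
    (hz : z ∈ U) :
    HasFDerivAt (F t) ((fderiv ℝ (fun q : ℝ × E => F q.1 q.2) (t, z)).comp
      (ContinuousLinearMap.inr ℝ ℝ E)) z := by
  have hop : IsOpen (Set.univ ×ˢ U : Set (ℝ × E)) := isOpen_univ.prod hU
  have h1 : DifferentiableAt ℝ (fun q : ℝ × E => F q.1 q.2) (t, z) :=
    (hF.contDiffAt (hop.mem_nhds ⟨Set.mem_univ _, hz⟩)).differentiableAt (by simp)
  have h2 : HasFDerivAt (fun x : E => ((t, x) : ℝ × E)) (ContinuousLinearMap.inr ℝ ℝ E) z :=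
    hasFDerivAt_prodMk_right t z
  exact h1.hasFDerivAt.comp z h2

theorem continuous_inner {U : Set E} {G : Type*} [TopologicalSpace G] {F : ℝ → E → G}
    (hF : ContinuousOn (fun q : ℝ × E => F q.1 q.2) (Set.univ ×ˢ U)) {z : E} (hz : z ∈ U) :
    Continuous (fun t => F t z) := by
  have : ContinuousOn (fun t : ℝ => ((t, z) : ℝ × E)) Set.univ := by fun_prop
  have h := hF.comp this (fun t _ => ⟨Set.mem_univ _, hz⟩)
  exact continuousOn_univ.mp h

theorem hasFDerivAt_param [FiniteDimensional ℝ E] {U : Set E} (hU : IsOpen U) {F : ℝ → E → ℝ}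
    (hF : ContDiffOn ℝ 1 (fun q : ℝ × E => F q.1 q.2) (Set.univ ×ˢ U))
    {K : ℝ → ℝ} {b : ℝ} (hK : IntervalIntegrable K volume 0 b)
    (hKb : ∃ C, ∀ t, |K t| ≤ C) {z : E} (hz : z ∈ U) :
    HasFDerivAt (fun z => ∫ t in (0 : ℝ)..b, K t * F t z)
      (∫ t in (0 : ℝ)..b, K t • fderiv ℝ (F t) z) z ∧
    IntervalIntegrable (fun t => K t • fderiv ℝ (F t) z) volume 0 b := by
  have hop : IsOpen (Set.univ ×ˢ U : Set (ℝ × E)) := isOpen_univ.prod hU
  obtain ⟨CK, hCK⟩ := hKb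
  have hCK0 : 0 ≤ CK := (abs_nonneg _).trans (hCK 0)
  obtain ⟨r, hr, hrU⟩ := Metric.isOpen_iff.mp hU z hz
  have hfd : ∀ t, ∀ x ∈ U, fderiv ℝ (F t) x =
      (fderiv ℝ (fun q : ℝ × E => F q.1 q.2) (t, x)).comp (ContinuousLinearMap.inr ℝ ℝ E) :=
    fun t x hx => (fderiv_partial hU hF t hx).fderiv
  have hcont : ContinuousOn (fun q : ℝ × E => fderiv ℝ (F q.1) q.2) (Set.univ ×ˢ U) := by
    have h1 : ContinuousOn (fun q : ℝ × E => fderiv ℝ (fun q : ℝ × E => F q.1 q.2) q)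
        (Set.univ ×ˢ U) := hF.continuousOn_fderiv_of_isOpen hop (by simp)
    have h2 : ContinuousOn (fun q : ℝ × E => (fderiv ℝ (fun q : ℝ × E => F q.1 q.2) q).comp
        (ContinuousLinearMap.inr ℝ ℝ E)) (Set.univ ×ˢ U) :=
      h1.clm_comp continuousOn_const
    refine h2.congr ?_
    rintro ⟨t, x⟩ hq
    exact hfd t x hq.2
  have hcompact : IsCompact (Set.uIcc 0 b ×ˢ Metric.closedBall z (r / 2)) :=
    isCompact_uIcc.prod (isCompact_closedBall z (r / 2))
  have hsub : Metric.closedBall z (r / 2) ⊆ U := by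
    refine (Metric.closedBall_subset_ball (by linarith)).trans hrU
  obtain ⟨C, hC⟩ := hcompact.exists_bound_of_continuousOn
    (hcont.mono (Set.prod_mono (Set.subset_univ _) hsub))
  have hKm : AEStronglyMeasurable K (volume.restrict (Set.uIoc 0 b)) :=
    (intervalIntegrable_iff.mp hK).aestronglyMeasurable
  have hcF : ∀ x ∈ U, Continuous (fun t => F t x) := fun x hx =>
    continuous_inner hF.continuousOn hx
  have hcF' : ∀ x ∈ U, Continuous (fun t => fderiv ℝ (F t) x) := fun x hx =>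
    continuous_inner hcont hx
  have hint : IntervalIntegrable (fun t => K t • fderiv ℝ (F t) z) volume 0 b := by
    exact hK.smul_continuousOn (hcF' z hz).continuousOn
  refine ⟨?_, hint⟩
  refine intervalIntegral.hasFDerivAt_integral_of_dominated_of_fderiv_le
    (s := Metric.ball z (r / 2)) (bound := fun _ => CK * C)
    (F := fun x t => K t * F t x) (F' := fun x t => K t • fderiv ℝ (F t) x)
    (Metric.ball_mem_nhds z (by linarith)) ?_ ?_ ?_ ?_ ?_ ?_
  · filter_upwards [hU.mem_nhds hz] with x hx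
    exact hKm.mul (hcF x hx).aestronglyMeasurable
  · exact hK.mul_continuousOn (hcF z hz).continuousOn
  · exact hKm.smul (hcF' z hz).aestronglyMeasurable
  · refine Filter.Eventually.of_forall (fun t ht x hx => ?_)
    rw [norm_smul]
    have h1 : ‖K t‖ ≤ CK := hCK t
    have h2 : ‖fderiv ℝ (F t) x‖ ≤ C :=
      hC (t, x) ⟨Set.uIoc_subset_uIcc ht, Metric.ball_subset_closedBall hx⟩
    exact mul_le_mul h1 h2 (norm_nonneg _) hCK0
  · exact intervalIntegrable_const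
  · refine Filter.Eventually.of_forall (fun t _ x hx => ?_)
    have hxU : x ∈ U := hsub (Metric.ball_subset_closedBall hx)
    have h := (fderiv_partial hU hF t hxU).const_mul (K t)
    rw [hfd t x hxU]
    exact h

theorem contDiffOn_partial {U : Set E} (hU : IsOpen U) {F : ℝ → E → ℝ}
    (hF : ContDiffOn ℝ ∞ (fun q : ℝ × E => F q.1 q.2) (Set.univ ×ˢ U)) (y : E) :
    ContDiffOn ℝ ∞ (fun q : ℝ × E => fderiv ℝ (F q.1) q.2 y) (Set.univ ×ˢ U) := by
  have hop : IsOpen (Set.univ ×ˢ U : Set (ℝ × E)) := isOpen_univ.prod hU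
  have h1 : ContDiffOn ℝ ∞ (fun q : ℝ × E => fderiv ℝ (fun q : ℝ × E => F q.1 q.2) q)
      (Set.univ ×ˢ U) := ((contDiffOn_infty_iff_fderiv_of_isOpen hop).mp hF).2
  have h2 : ContDiffOn ℝ ∞ (fun q : ℝ × E => fderiv ℝ (fun q : ℝ × E => F q.1 q.2) q
      ((0 : ℝ), y)) (Set.univ ×ˢ U) := h1.clm_apply contDiffOn_const
  refine h2.congr ?_
  rintro ⟨t, x⟩ hq
  have hfd := (fderiv_partial hU (hF.of_le (by exact_mod_cast le_top)) t hq.2).fderiv
  simp only
  rw [hfd]
  simp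

theorem fderiv_param_apply [FiniteDimensional ℝ E] {U : Set E} (hU : IsOpen U) {F : ℝ → E → ℝ}
    (hF : ContDiffOn ℝ 1 (fun q : ℝ × E => F q.1 q.2) (Set.univ ×ˢ U))
    {K : ℝ → ℝ} {b : ℝ} (hK : IntervalIntegrable K volume 0 b)
    (hKb : ∃ C, ∀ t, |K t| ≤ C) {z : E} (hz : z ∈ U) (y : E) :
    fderiv ℝ (fun z => ∫ t in (0 : ℝ)..b, K t * F t z) z y
      = ∫ t in (0 : ℝ)..b, K t * fderiv ℝ (F t) z y := by
  obtain ⟨h1, h2⟩ := hasFDerivAt_param hU hF hK hKb hz
  rw [h1.fderiv, ContinuousLinearMap.intervalIntegral_apply h2]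
  simp

theorem contDiffOn_param_nat [FiniteDimensional ℝ E] {U : Set E} (hU : IsOpen U)
    {K : ℝ → ℝ} {b : ℝ} (hK : IntervalIntegrable K volume 0 b)
    (hKb : ∃ C, ∀ t, |K t| ≤ C) (n : ℕ) : ∀ (F : ℝ → E → ℝ),
    ContDiffOn ℝ ∞ (fun q : ℝ × E => F q.1 q.2) (Set.univ ×ˢ U) →
    ContDiffOn ℝ n (fun z => ∫ t in (0 : ℝ)..b, K t * F t z) U := by
  have hle : (1 : WithTop ℕ∞) ≤ ∞ := by exact_mod_cast le_top
  induction n with
  | zero =>
    intro F hF
    rw [Nat.cast_zero, contDiffOn_zero]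
    intro z hz
    exact (hasFDerivAt_param hU (hF.of_le hle) hK hKb hz).1.continuousAt.continuousWithinAt
  | succ n ih =>
    intro F hF
    rw [Nat.cast_succ, contDiffOn_succ_iff_fderiv_apply hU.uniqueDiffOn]
    refine ⟨?_, ?_, ?_⟩
    · intro z hz
      exact (hasFDerivAt_param hU (hF.of_le hle) hK hKb hz).1.differentiableAt.differentiableWithinAt
    · intro h
      exact absurd h (by simp)
    · intro y
      refine (ih (fun t z => fderiv ℝ (F t) z y) (contDiffOn_partial hU hF y)).congr ?_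
      intro z hz
      rw [fderivWithin_of_isOpen hU hz]
      exact fderiv_param_apply hU (hF.of_le hle) hK hKb hz y

end param

/-- P2a -/
theorem contDiffOn_param_integral {E : Type*} [NormedAddCommGroup E] [NormedSpace ℝ E]
    [FiniteDimensional ℝ E] (U : Set E) (hU : IsOpen U) (F : ℝ → E → ℝ)
    (hF : ContDiffOn ℝ ∞ (fun q : ℝ × E => F q.1 q.2) (Set.univ ×ˢ U))
    (K : ℝ → ℝ) (b : ℝ) (hb : 0 ≤ b) (hK : IntervalIntegrable K MeasureTheory.volume 0 b)
    (hKb : ∃ C, ∀ t, |K t| ≤ C) :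
    ContDiffOn ℝ ∞ (fun z => ∫ t in (0 : ℝ)..b, K t * F t z) U := by
  rw [contDiffOn_infty]
  intro n
  exact contDiffOn_param_nat hU hK hKb n F hF

theorem lap_congr {f g : ℂ → ℝ} {s : ℂ} (h : f =ᶠ[𝓝 s] g) : lap f s = lap g s := by
  have key : ∀ v : ℂ, fderiv ℝ (fun t => fderiv ℝ f t v) s = fderiv ℝ (fun t => fderiv ℝ g t v) s := by
    intro v
    apply Filter.EventuallyEq.fderiv_eq
    filter_upwards [h.eventuallyEq_nhds] with t ht
    rw [ht.fderiv_eq]
  unfold lap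
  rw [key, key]

theorem contDiffOn_lap_partial {V : Set ℂ} (hV : IsOpen V) {F : ℝ → ℂ → ℝ}
    (hF : ContDiffOn ℝ ∞ (fun q : ℝ × ℂ => F q.1 q.2) (Set.univ ×ˢ V)) :
    ContDiffOn ℝ ∞ (fun q : ℝ × ℂ => lap (F q.1) q.2) (Set.univ ×ˢ V) := by
  have h1 := contDiffOn_partial hV (F := fun t z => fderiv ℝ (F t) z 1)
    (contDiffOn_partial hV hF 1) 1
  have h2 := contDiffOn_partial hV (F := fun t z => fderiv ℝ (F t) z I)
    (contDiffOn_partial hV hF I) I
  exact h1.add h2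

theorem lap_param_one {V : Set ℂ} (hV : IsOpen V) {F : ℝ → ℂ → ℝ}
    (hF : ContDiffOn ℝ ∞ (fun q : ℝ × ℂ => F q.1 q.2) (Set.univ ×ˢ V))
    {K : ℝ → ℝ} {b : ℝ} (hK : IntervalIntegrable K MeasureTheory.volume 0 b)
    (hKb : ∃ C, ∀ t, |K t| ≤ C) {s : ℂ} (hs : s ∈ V) :
    lap (fun s => ∫ t in (0 : ℝ)..b, K t * F t s) s = ∫ t in (0 : ℝ)..b, K t * lap (F t) s := by
  have hle : (1 : WithTop ℕ∞) ≤ ∞ := by exact_mod_cast le_top
  have key : ∀ v : ℂ, fderiv ℝ (fun x => fderiv ℝ (fun s => ∫ t in (0 : ℝ)..b, K t * F t s) x v) s v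
      = ∫ t in (0 : ℝ)..b, K t * fderiv ℝ (fun x => fderiv ℝ (F t) x v) s v := by
    intro v
    have h1 : (fun x => fderiv ℝ (fun s => ∫ t in (0 : ℝ)..b, K t * F t s) x v) =ᶠ[𝓝 s]
        (fun x => ∫ t in (0 : ℝ)..b, K t * fderiv ℝ (F t) x v) := by
      filter_upwards [hV.mem_nhds hs] with x hx
      exact fderiv_param_apply hV (hF.of_le hle) hK hKb hx v
    rw [h1.fderiv_eq]
    exact fderiv_param_apply hV (F := fun t x => fderiv ℝ (F t) x v)
      ((contDiffOn_partial hV hF v).of_le hle) hK hKb hs v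
  have hcont : ∀ v : ℂ, Continuous (fun t => fderiv ℝ (fun x => fderiv ℝ (F t) x v) s v) := by
    intro v
    exact continuous_inner (F := fun t z => fderiv ℝ (fun x => fderiv ℝ (F t) x v) z v)
      (contDiffOn_partial hV (F := fun t z => fderiv ℝ (F t) z v)
        (contDiffOn_partial hV hF v) v).continuousOn hs
  unfold lap
  rw [key, key, ← intervalIntegral.integral_add (hK.mul_continuousOn (hcont 1).continuousOn)
    (hK.mul_continuousOn (hcont I).continuousOn)]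
  refine intervalIntegral.integral_congr (fun t _ => ?_)
  ring

/-- P2b -/
theorem lap_param_integral (V : Set ℂ) (hV : IsOpen V) (F : ℝ → ℂ → ℝ)
    (hF : ContDiffOn ℝ ∞ (fun q : ℝ × ℂ => F q.1 q.2) (Set.univ ×ˢ V))
    (K : ℝ → ℝ) (b : ℝ) (hb : 0 ≤ b) (hK : IntervalIntegrable K MeasureTheory.volume 0 b)
    (hKb : ∃ C, ∀ t, |K t| ≤ C) (s : ℂ) (hs : s ∈ V) :
    lap (fun s => ∫ t in (0 : ℝ)..b, K t * F t s) s = ∫ t in (0 : ℝ)..b, K t * lap (F t) s ∧
    lap (lap (fun s => ∫ t in (0 : ℝ)..b, K t * F t s)) s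
      = ∫ t in (0 : ℝ)..b, K t * lap (lap (F t)) s := by
  refine ⟨lap_param_one hV hF hK hKb hs, ?_⟩
  have h1 : lap (fun s => ∫ t in (0 : ℝ)..b, K t * F t s) =ᶠ[𝓝 s]
      (fun s => ∫ t in (0 : ℝ)..b, K t * lap (F t) s) := by
    filter_upwards [hV.mem_nhds hs] with x hx
    exact lap_param_one hV hF hK hKb hx
  rw [lap_congr h1]
  exact lap_param_one hV (F := fun t s => lap (F t) s) (contDiffOn_lap_partial hV hF) hK hKb hs

end Pool.Agent.MP_7c31d9_gt
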