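import Pool.Agent.MP_7c31d9_gt.Amoeba
import Pool.Agent.MP_7c31d9_gt.ParamInt
import Pool.Agent.MP_7c31d9_gt.Kahler

/-! From a good potential to the Kaehler metric on the complement of the hyperplanes. -/

set_option autoImplicit false

namespace Pool.Agent.MP_7c31d9_gt

open Complex Filter Topology
open scoped ContDiff ComplexOrder

/-! ### The Laplacian only depends on the germ -/

theorem lap_eventuallyEq {ψ₁ ψ₂ : ℂ → ℝ} {s : ℂ} (h : ψ₁ =ᶠ[𝓝 s] ψ₂) : lap ψ₁ =ᶠ[𝓝 s] lap ψ₂ := by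
  have h1 : fderiv ℝ ψ₁ =ᶠ[𝓝 s] fderiv ℝ ψ₂ := h.fderiv
  have h2 : ∀ v : ℂ, (fun t => fderiv ℝ (fun t => fderiv ℝ ψ₁ t v) t v) =ᶠ[𝓝 s]
      (fun t => fderiv ℝ (fun t => fderiv ℝ ψ₂ t v) t v) := by
    intro v
    have : (fun t => fderiv ℝ ψ₁ t v) =ᶠ[𝓝 s] (fun t => fderiv ℝ ψ₂ t v) :=
      h1.mono (fun t ht => by simp only [ht])
    have h5 : fderiv ℝ (fun t => fderiv ℝ ψ₁ t v) =ᶠ[𝓝 s] fderiv ℝ (fun t => fderiv ℝ ψ₂ t v) :=
      this.fderiv
    exact h5.mono (fun t ht => by simp only [ht])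
  filter_upwards [h2 1, h2 I] with t h3 h4
  unfold lap
  rw [h3, h4]

theorem lap_congr_at {ψ₁ ψ₂ : ℂ → ℝ} {s : ℂ} (h : ψ₁ =ᶠ[𝓝 s] ψ₂) : lap ψ₁ s = lap ψ₂ s :=
  (lap_eventuallyEq h).eq_of_nhds

theorem lap_lap_congr_at {ψ₁ ψ₂ : ℂ → ℝ} {s : ℂ} (h : ψ₁ =ᶠ[𝓝 s] ψ₂) :
    lap (lap ψ₁) s = lap (lap ψ₂) s :=
  (lap_eventuallyEq (lap_eventuallyEq h)).eq_of_nhds

/-! ### Smoothness -/

theorem contDiff_fpair {r : ℝ} (hr : 0 < r) : ContDiff ℝ ∞ (fpair r) := by
  unfold fpair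
  have h1 : ContDiff ℝ ∞ (fun x : ℝ => x ^ 2 + r ^ 2) := by fun_prop
  exact h1.mul (h1.sqrt (fun x => by positivity))

section smooth

variable {ι : Type*} [Fintype ι] [Nonempty ι]

theorem contDiffOn_gib {E : Type*} [NormedAddCommGroup E] [NormedSpace ℝ E] {U : Set E}
    {y : ι → E → ℝ} (hy : ∀ i, ContDiffOn ℝ ∞ (y i) U) (lam : ℝ) (i : ι) :
    ContDiffOn ℝ ∞ (fun z => gib (fun i => y i z) lam i) U := by
  unfold gib
  refine ContDiffOn.div ?_ ?_ ?_
  · exact (contDiffOn_const.mul (hy i)).exp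
  · exact ContDiffOn.sum (fun j _ => (contDiffOn_const.mul (hy j)).exp)
  · intro z _
    exact (Finset.sum_pos (fun j _ => Real.exp_pos _) Finset.univ_nonempty).ne'

theorem contDiffOn_Gm_asm {E : Type*} [NormedAddCommGroup E] [NormedSpace ℝ E] {U : Set E}
    {y : ι → E → ℝ} (hy : ∀ i, ContDiffOn ℝ ∞ (y i) U) {r : ℝ} (hr : 0 < r) (lam : ℝ) :
    ContDiffOn ℝ ∞ (fun z => Gm r lam (fun i => y i z)) U := by
  unfold Gm
  refine ContDiffOn.sum (fun i _ => ContDiffOn.sum (fun j _ => ?_))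
  exact (((contDiff_fpair hr).comp_contDiffOn ((hy i).sub (hy j))).mul
    (contDiffOn_gib hy lam i)).mul (contDiffOn_gib hy lam j)

theorem contDiffOn_Pot {E : Type*} [NormedAddCommGroup E] [NormedSpace ℝ E]
    [FiniteDimensional ℝ E] {U : Set E} (hU : IsOpen U)
    {y : ι → E → ℝ} (hy : ∀ i, ContDiffOn ℝ ∞ (y i) U) (b : ℝ) (K : ℝ → ℝ) (κ r : ℝ) {M : ℕ}
    (lam : Fin M → ℝ) (hb : 0 < b) (hKb : ∃ C, ∀ t, |K t| ≤ C)
    (hK : IntervalIntegrable K MeasureTheory.volume 0 b) (hr : 0 < r) :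
    ContDiffOn ℝ ∞ (fun z => Pot b K κ r lam (fun i => y i z)) U := by
  unfold Pot
  refine ContDiffOn.add ?_ ?_
  · refine contDiffOn_param_integral U hU (fun t z => Real.log (∑ i, Real.exp (t * y i z))) ?_
      K b hb.le hK hKb
    refine ContDiffOn.log ?_ ?_
    · refine ContDiffOn.sum (fun i _ => ?_)
      refine ContDiffOn.exp ?_
      refine ContDiffOn.mul ?_ ?_
      · exact contDiff_fst.contDiffOn
      · exact (hy i).comp contDiff_snd.contDiffOn (fun q hq => hq.2)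
    · intro q _
      exact (Finset.sum_pos (fun j _ => Real.exp_pos _) Finset.univ_nonempty).ne'
  · exact contDiffOn_const.mul (ContDiffOn.sum (fun m _ => contDiffOn_Gm_asm hy hr (lam m)))

end smooth

/-! ### The coordinates -/

section coord

variable {n : ℕ} (L : Fin (2 * n + 1) → ((Fin (n + 1) → ℂ) →ₗ[ℂ] ℂ))
  (p : Fin (n + 1) → ℂ) (B : (Fin n → ℂ) →ₗ[ℂ] (Fin (n + 1) → ℂ))

/-- the complement of the hyperplanes in the affine chart -/
def Ucomp : Set (Fin n → ℂ) := {z | ∀ i, L i (p + B z) ≠ 0}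

theorem contDiff_form (i : Fin (2 * n + 1)) : ContDiff ℝ ∞ (fun z => L i (p + B z)) := by
  have h1 : ContDiff ℂ ∞ (fun z => LinearMap.toContinuousLinearMap (L i)
      (p + LinearMap.toContinuousLinearMap B z)) := by
    fun_prop
  exact h1.restrict_scalars ℝ

theorem isOpen_Ucomp : IsOpen (Ucomp L p B) := by
  have : Ucomp L p B = ⋂ i, {z | L i (p + B z) ≠ 0} := by
    ext z; simp [Ucomp]
  rw [this]
  refine isOpen_iInter_of_finite (fun i => ?_)
  exact isOpen_ne_fun (contDiff_form L p B i).continuous continuous_const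

/-- logarithmic coordinates -/
noncomputable def ycoord (ε : ℝ) (i : Fin (2 * n + 1)) (z : Fin n → ℂ) : ℝ :=
  ε * Real.log ‖L i (p + B z)‖

theorem contDiffOn_ycoord (ε : ℝ) (i : Fin (2 * n + 1)) :
    ContDiffOn ℝ ∞ (ycoord L p B ε i) (Ucomp L p B) := by
  unfold ycoord
  refine contDiffOn_const.mul (ContDiffOn.log ?_ ?_)
  · intro z hz
    have h1 : ContDiffAt ℝ ∞ (fun w : ℂ => ‖w‖) (L i (p + B z)) := contDiffAt_norm ℝ (hz i)
    exact (h1.comp z (contDiff_form L p B i).contDiffAt).contDiffWithinAt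
  · intro z hz
    exact norm_ne_zero_iff.2 (hz i)

/-- the germs of holomorphic functions -/
noncomputable def germ (ε : ℝ) (z v a : Fin n → ℂ) (i : Fin (2 * n + 1)) (s : ℂ) : ℂ :=
  ε * (Complex.log (1 + s * (L i (B v) / L i (p + B z)) +
    (s ^ 2 / 2) * (L i (B a) / L i (p + B z))) + Real.log ‖L i (p + B z)‖)

theorem form_qcurve {z : Fin n → ℂ} (v a : Fin n → ℂ) (i : Fin (2 * n + 1))
    (hz : L i (p + B z) ≠ 0) (s : ℂ) :
    1 + s * (L i (B v) / L i (p + B z)) + (s ^ 2 / 2) * (L i (B a) / L i (p + B z)) =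
      L i (p + B (qcurve z v a s)) / L i (p + B z) := by
  have : L i (p + B (qcurve z v a s)) = L i (p + B z) + s * L i (B v) + (s ^ 2 / 2) * L i (B a) := by
    have h0 : B (qcurve z v a s) = B z + s • B v + (s ^ 2 / 2) • B a := by
      unfold qcurve
      rw [map_add, map_add, map_smul, map_smul]
    rw [h0]
    simp only [map_add, map_smul, smul_eq_mul]
    ring
  rw [this]
  field_simp

theorem analyticAt_germ (ε : ℝ) (z v a : Fin n → ℂ) (i : Fin (2 * n + 1)) :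
    AnalyticAt ℂ (germ L p B ε z v a i) 0 := by
  unfold germ
  refine analyticAt_const.mul (AnalyticAt.add ?_ analyticAt_const)
  refine AnalyticAt.clog ?_ ?_
  · fun_prop
  · simp

theorem germ_zero_re (ε : ℝ) (z v a : Fin n → ℂ) (i : Fin (2 * n + 1)) :
    (germ L p B ε z v a i 0).re = ycoord L p B ε i z := by
  simp [germ, ycoord]

theorem germ_re (ε : ℝ) {z : Fin n → ℂ} (v a : Fin n → ℂ) (i : Fin (2 * n + 1))
    (hz : L i (p + B z) ≠ 0) (s : ℂ) (hs : L i (p + B (qcurve z v a s)) ≠ 0) :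
    (germ L p B ε z v a i s).re = ycoord L p B ε i (qcurve z v a s) := by
  unfold germ ycoord
  rw [form_qcurve L p B v a i hz s, Complex.re_ofReal_mul, Complex.add_re, Complex.log_re,
    Complex.ofReal_re, norm_div, Real.log_div (norm_ne_zero_iff.2 hs) (norm_ne_zero_iff.2 hz)]
  ring

theorem deriv_germ (ε : ℝ) (z v a : Fin n → ℂ) (i : Fin (2 * n + 1)) :
    deriv (germ L p B ε z v a i) 0 = ε * (L i (B v) / L i (p + B z)) := by
  have h1 : HasDerivAt (fun s : ℂ => 1 + s * (L i (B v) / L i (p + B z)) +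
      (s ^ 2 / 2) * (L i (B a) / L i (p + B z))) (L i (B v) / L i (p + B z)) 0 := by
    have e1 := ((hasDerivAt_id (0 : ℂ)).mul_const (L i (B v) / L i (p + B z))).const_add 1
    have e2 := (((hasDerivAt_pow 2 (0 : ℂ)).div_const 2).mul_const
      (L i (B a) / L i (p + B z)))
    have e3 := e1.add e2
    have e4 : (1 : ℂ) * (L i (B v) / L i (p + B z)) +
        ((2 : ℕ) * (0 : ℂ) ^ (2 - 1)) / 2 * (L i (B a) / L i (p + B z)) =
        L i (B v) / L i (p + B z) := by simp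
    rw [e4] at e3
    exact e3
  have h2 := h1.clog (by simp)
  have h3 := (h2.add_const (Real.log ‖L i (p + B z)‖ : ℂ)).const_mul (ε : ℂ)
  have h4 := h3.deriv
  unfold germ
  rw [h4]
  simp

theorem deriv_germ_zero (ε : ℝ) (z a : Fin n → ℂ) (i : Fin (2 * n + 1)) :
    deriv (germ L p B ε z 0 a i) 0 = 0 := by
  rw [deriv_germ]
  simp

theorem deriv_deriv_germ (ε : ℝ) (z a : Fin n → ℂ) (i : Fin (2 * n + 1)) :
    deriv (deriv (germ L p B ε z 0 a i)) 0 = ε * (L i (B a) / L i (p + B z)) := by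
  set x : ℂ := L i (B a) / L i (p + B z) with hx
  have hcont : Continuous (fun s : ℂ => 1 + (s ^ 2 / 2) * x) := by fun_prop
  have hev : ∀ᶠ s in 𝓝 (0 : ℂ), 1 + (s ^ 2 / 2) * x ∈ slitPlane := by
    apply hcont.continuousAt.eventually
    apply isOpen_slitPlane.mem_nhds
    simp
  have hd : ∀ᶠ s in 𝓝 (0 : ℂ), deriv (germ L p B ε z 0 a i) s =
      ε * ((s * x) / (1 + (s ^ 2 / 2) * x)) := by
    filter_upwards [hev] with s hs
    have h1 : HasDerivAt (fun s : ℂ => 1 + (s ^ 2 / 2) * x) (s * x) s := by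
      have e1 := (((hasDerivAt_pow 2 s).div_const 2).mul_const x).const_add 1
      have e2 : ((2 : ℕ) : ℂ) * s ^ (2 - 1) / 2 * x = s * x := by
        simp
      rw [e2] at e1
      exact e1
    have h2 := h1.clog hs
    have h3 := (h2.add_const (Real.log ‖L i (p + B z)‖ : ℂ)).const_mul (ε : ℂ)
    have e : germ L p B ε z 0 a i = fun s : ℂ =>
        (ε : ℂ) * (Complex.log (1 + (s ^ 2 / 2) * x) + (Real.log ‖L i (p + B z)‖ : ℂ)) := by
      funext t
      unfold germ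
      simp [hx]
    rw [e]
    exact h3.deriv
  rw [Filter.EventuallyEq.deriv_eq hd]
  have h1 : HasDerivAt (fun s : ℂ => s * x) x 0 := by
    simpa using (hasDerivAt_id (0 : ℂ)).mul_const x
  have h2 : HasDerivAt (fun s : ℂ => 1 + (s ^ 2 / 2) * x) 0 0 := by
    have e1 := (((hasDerivAt_pow 2 (0 : ℂ)).div_const 2).mul_const x).const_add 1
    have e2 : ((2 : ℕ) : ℂ) * (0 : ℂ) ^ (2 - 1) / 2 * x = 0 := by
      simp
    rw [e2] at e1
    exact e1
  have h3 := (h1.fun_div h2 (by simp)).const_mul (ε : ℂ)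
  rw [h3.deriv]
  simp

theorem continuous_form_qcurve (z v a : Fin n → ℂ) (i : Fin (2 * n + 1)) :
    Continuous (fun s : ℂ => L i (p + B (qcurve z v a s))) := by
  have h1 : Continuous (fun s : ℂ => qcurve z v a s) := by
    unfold qcurve
    fun_prop
  exact (contDiff_form L p B i).continuous.comp h1

theorem qcurve_zero (z v a : Fin n → ℂ) : qcurve z v a 0 = z := by
  simp [qcurve]

/-- the potential along a quadratic curve equals the potential along the germs. -/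
theorem eventually_pot (b : ℝ) (K : ℝ → ℝ) (κ r : ℝ) {M : ℕ} (lam : Fin M → ℝ) (ε : ℝ)
    {z : Fin n → ℂ} (hz : z ∈ Ucomp L p B) (v a : Fin n → ℂ) :
    (fun s => Pot b K κ r lam (fun i => ycoord L p B ε i (qcurve z v a s))) =ᶠ[𝓝 (0 : ℂ)]
      (fun s => Pot b K κ r lam (fun i => (germ L p B ε z v a i s).re)) := by
  have h1 : ∀ᶠ s in 𝓝 (0 : ℂ), ∀ i, L i (p + B (qcurve z v a s)) ≠ 0 := by
    rw [Filter.eventually_all]
    intro i
    have h2 := (continuous_form_qcurve L p B z v a i).continuousAt (x := (0 : ℂ))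
    apply h2.eventually_ne
    rw [qcurve_zero]
    exact hz i
  filter_upwards [h1] with s hs
  congr 1
  funext i
  exact (germ_re L p B ε v a i (hz i) s (hs i)).symm

end coord

/-- The Laplacian along a line is the bi-Laplacian along a pure quadratic curve. -/
theorem lap_line_eq {n : ℕ} {U : Set (Fin n → ℂ)} (hU : IsOpen U) {φ : (Fin n → ℂ) → ℝ}
    (hφ : ContDiffOn ℝ ∞ φ U) {z : Fin n → ℂ} (hz : z ∈ U) (v : Fin n → ℂ) :
    lap (fun s => φ (qcurve z v 0 s)) 0 =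
      lap (lap (fun s => φ (qcurve z 0 ((1 / 2 : ℂ) • v) s))) 0 := by
  have h1 := Kah.lap_curve hU hφ (z := z) (v := v) (a := 0) (s := 0) (by rwa [qcurve_zero])
  have h2 := Kah.lap_lap_curve hU hφ (z := z) (v := 0) (a := (1 / 2 : ℂ) • v) (s := 0)
    (by rwa [qcurve_zero])
  rw [Kah.HH_zero] at h1
  rw [Kah.Br_zero] at h2
  have e4 : Kah.D4 (fun z => (φ z : ℂ)) z 0 = 0 := by
    unfold Kah.D4; simp
  have e3 : ∀ j, Kah.D3 (fun z => (φ z : ℂ)) z 0 j = 0 := by
    intro j; unfold Kah.D3; simp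
  have e3' : ∀ j, Kah.D3' (fun z => (φ z : ℂ)) z 0 j = 0 := by
    intro j; unfold Kah.D3'; simp
  rw [e4] at h2
  simp only [e3, e3', mul_zero, Finset.sum_const_zero, zero_add] at h2
  have h3 : (16 : ℂ) * ∑ i, ∑ j, ((1 / 2 : ℂ) • v) i * (starRingEnd ℂ) (((1 / 2 : ℂ) • v) j) *
      Kah.Hs (fun z => (φ z : ℂ)) i j z = 4 * ∑ i, ∑ j, v i * (starRingEnd ℂ) (v j) *
      Kah.Hs (fun z => (φ z : ℂ)) i j z := by
    rw [Finset.mul_sum, Finset.mul_sum]
    refine Finset.sum_congr rfl fun i _ => ?_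
    rw [Finset.mul_sum, Finset.mul_sum]
    refine Finset.sum_congr rfl fun j _ => ?_
    simp only [Pi.smul_apply, smul_eq_mul, map_mul, map_div₀, map_one, map_ofNat]
    ring
  rw [h3] at h2
  have h4 := h1.trans h2.symm
  exact_mod_cast h4

/-- P9: from a good potential to the Kaehler metric -/
theorem kahler_of_goodPot {n : ℕ} (_hn : 1 ≤ n)
    (hpot : ∃ (b : ℝ) (K : ℝ → ℝ) (κ r : ℝ) (M : ℕ) (lam : Fin M → ℝ) (ts c : ℝ),
      0 < b ∧ (∃ C, ∀ t, |K t| ≤ C) ∧ IntervalIntegrable K MeasureTheory.volume 0 b ∧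
      0 < r ∧ (∀ m, 0 < lam m) ∧ 0 < ts ∧ 0 < c ∧ GoodPot (Fin (2 * n + 1)) b K κ r lam ts c)
    (L : Fin (2 * n + 1) → ((Fin (n + 1) → ℂ) →ₗ[ℂ] ℂ)) (hL : GeneralPosition L)
    (p : Fin (n + 1) → ℂ) (B : (Fin n → ℂ) →ₗ[ℂ] (Fin (n + 1) → ℂ)) (hB : Function.Injective B)
    (hp : L 0 p = 1) (hB0 : ∀ z, L 0 (B z) = 0) :
    ∃ g : (Fin n → ℂ) → Matrix (Fin n) (Fin n) ℂ,
      IsKahlerOn {z | ∀ i, L i (p + B z) ≠ 0} g ∧
      ∀ z ∈ {z | ∀ i, L i (p + B z) ≠ 0}, ∀ v : Fin n → ℂ, v ≠ 0 → holoSec g z v ≤ -1 := by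
  obtain ⟨b, K, κ, r, M, lam, ts, c, hb, hKb, hK, hr, -, hts, hc, hgood⟩ := hpot
  obtain ⟨C, hC1, hC⟩ := amoeba L hL
  -- the scale
  have hlogC : 0 ≤ Real.log C := Real.log_nonneg hC1
  obtain ⟨ε, hε, hεC⟩ : ∃ ε : ℝ, 0 < ε ∧ ε * Real.log C ≤ ts := by
    refine ⟨ts / (Real.log C + 1), by positivity, ?_⟩
    rw [div_mul_eq_mul_div, div_le_iff₀ (by positivity)]
    nlinarith
  -- majority at all points
  have hmaj : ∀ z ∈ Ucomp L p B, ∀ v a : Fin n → ℂ,
      Majority ts (fun i => (germ L p B ε z v a i 0).re) := by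
    intro z hz v a
    have hx : p + B z ≠ 0 := by
      intro h0
      have h1 : L 0 (p + B z) = 1 := by rw [map_add, hp, hB0, add_zero]
      rw [h0, map_zero] at h1
      exact zero_ne_one h1
    obtain ⟨T, hT, hTC⟩ := hC (p + B z) hx
    refine ⟨T, ?_, ?_⟩
    · rw [Fintype.card_fin]; omega
    · intro i hi j
      change (germ L p B ε z v a j 0).re - (germ L p B ε z v a i 0).re ≤ ts
      rw [germ_zero_re, germ_zero_re]
      unfold ycoord
      have hi0 : 0 < ‖L i (p + B z)‖ := norm_pos_iff.2 (hz i)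
      have hj0 : 0 < ‖L j (p + B z)‖ := norm_pos_iff.2 (hz j)
      have h1 : Real.log ‖L j (p + B z)‖ ≤ Real.log C + Real.log ‖L i (p + B z)‖ := by
        rw [← Real.log_mul (by linarith) hi0.ne']
        exact Real.log_le_log hj0 (hTC i hi j)
      nlinarith [mul_le_mul_of_nonneg_left h1 hε.le]
  refine kahler_of_potential (Ucomp L p B) (isOpen_Ucomp L p B)
    (fun z => Pot b K κ r lam (fun i => ycoord L p B ε i z))
    (contDiffOn_Pot (isOpen_Ucomp L p B) (fun i => contDiffOn_ycoord L p B ε i) b K κ r lam hb hKb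
      hK hr) c hc ?_ ?_
  · -- positivity
    intro z hz v hv
    have hq : (fun s : ℂ => Pot b K κ r lam (fun i => ycoord L p B ε i (z + s • v))) =
        (fun s : ℂ => Pot b K κ r lam (fun i => ycoord L p B ε i (qcurve z v 0 s))) := by
      funext s
      simp [qcurve]
    change 0 < lap (fun s : ℂ => Pot b K κ r lam (fun i => ycoord L p B ε i (z + s • v))) 0
    rw [hq]
    have hsm := contDiffOn_Pot (isOpen_Ucomp L p B) (fun i => contDiffOn_ycoord L p B ε i) b K κ r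
      lam hb hKb hK hr
    have hl := lap_line_eq (isOpen_Ucomp L p B) hsm hz v
    have hl' : lap (fun s : ℂ => Pot b K κ r lam (fun i => ycoord L p B ε i (qcurve z v 0 s))) 0 =
        lap (lap (fun s : ℂ => Pot b K κ r lam
          (fun i => ycoord L p B ε i (qcurve z 0 ((1 / 2 : ℂ) • v) s)))) 0 := hl
    rw [hl', lap_lap_congr_at (eventually_pot L p B b K κ r lam ε hz 0 ((1 / 2 : ℂ) • v))]
    refine (hgood (germ L p B ε z 0 ((1 / 2 : ℂ) • v))
      (fun i => analyticAt_germ L p B ε z 0 _ i) (hmaj z hz 0 _)).2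
      (fun i => deriv_germ_zero L p B ε z _ i) ?_
    by_contra hcon
    push Not at hcon
    apply hv
    apply hB
    rw [map_zero]
    have hall : ∀ i, L i (B v) = 0 := by
      intro i
      have h1 := hcon i 0
      rw [deriv_deriv_germ, deriv_deriv_germ, map_smul, map_smul, map_smul, hB0 v, smul_zero,
        zero_div, mul_zero, mul_eq_zero] at h1
      rcases h1 with h1 | h1
      · exact absurd (by exact_mod_cast h1) hε.ne'
      · rw [div_eq_zero_iff] at h1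
        have h2 := h1.resolve_right (hz i)
        rw [smul_eq_zero] at h2
        exact h2.resolve_left (by norm_num)
    obtain ⟨S, -, hS⟩ := Finset.exists_subset_card_eq
      (s := (Finset.univ : Finset (Fin (2 * n + 1)))) (n := n + 1) (by simp; omega)
    exact eq_zero_of_forms L hL S hS (B v) (fun i _ => hall i)
  · -- curvature
    intro z hz v a
    have h1 := eventually_pot L p B b K κ r lam ε hz v a
    change c * (lap (fun s : ℂ => Pot b K κ r lam
      (fun i => ycoord L p B ε i (qcurve z v a s))) 0) ^ 2 ≤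
      lap (lap (fun s : ℂ => Pot b K κ r lam (fun i => ycoord L p B ε i (qcurve z v a s)))) 0
    rw [lap_congr_at h1, lap_lap_congr_at h1]
    exact (hgood (germ L p B ε z v a) (fun i => analyticAt_germ L p B ε z v a i)
      (hmaj z hz v a)).1

/-- the kernel of `L 0` is the range of `B`. -/
theorem mem_range_of_ker {n : ℕ} (L : Fin (2 * n + 1) → ((Fin (n + 1) → ℂ) →ₗ[ℂ] ℂ))
    (p : Fin (n + 1) → ℂ) (B : (Fin n → ℂ) →ₗ[ℂ] (Fin (n + 1) → ℂ)) (hB : Function.Injective B)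
    (hp : L 0 p = 1) (hB0 : ∀ z, L 0 (B z) = 0) (x : Fin (n + 1) → ℂ) (hx : L 0 x = 0) :
    ∃ z, B z = x := by
  have hle : LinearMap.range B ≤ LinearMap.ker (L 0) := by
    rintro _ ⟨z, rfl⟩
    exact hB0 z
  have h1 : Module.finrank ℂ (LinearMap.range B) = n := by
    rw [LinearMap.finrank_range_of_inj hB]
    simp
  have hsurj : LinearMap.range (L 0) = ⊤ := by
    rw [LinearMap.range_eq_top]
    intro c
    refine ⟨c • p, ?_⟩
    rw [map_smul, hp, smul_eq_mul, mul_one]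
  have h2 : Module.finrank ℂ (LinearMap.ker (L 0)) = n := by
    have := LinearMap.finrank_range_add_finrank_ker (L 0)
    rw [hsurj, finrank_top] at this
    simp at this
    omega
  have h3 : LinearMap.range B = LinearMap.ker (L 0) :=
    Submodule.eq_of_le_of_finrank_eq hle (by rw [h1, h2])
  have h4 : x ∈ LinearMap.range B := by
    rw [h3]; exact hx
  exact h4

/-- P9c: the affine chart `z ↦ [p + B z]` is a bijection onto the complement of the
hyperplanes. -/
theorem chart_bijOn {n : ℕ} (L : Fin (2 * n + 1) → ((Fin (n + 1) → ℂ) →ₗ[ℂ] ℂ))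
    (p : Fin (n + 1) → ℂ) (B : (Fin n → ℂ) →ₗ[ℂ] (Fin (n + 1) → ℂ)) (hB : Function.Injective B)
    (hp : L 0 p = 1) (hB0 : ∀ z, L 0 (B z) = 0) (hne : ∀ z, p + B z ≠ 0) :
    Set.BijOn (fun z => Projectivization.mk ℂ (p + B z) (hne z))
      {z | ∀ i, L i (p + B z) ≠ 0}
      {x : Projectivization ℂ (Fin (n + 1) → ℂ) | ∀ i, L i x.rep ≠ 0} := by
  have h0 : ∀ z, L 0 (p + B z) = 1 := by
    intro z
    rw [map_add, hp, hB0, add_zero]
  refine ⟨?_, ?_, ?_⟩
  · intro z hz i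
    obtain ⟨a, ha⟩ := Projectivization.exists_smul_eq_mk_rep ℂ (p + B z) (hne z)
    rw [← ha]
    rw [show a • (p + B z) = (a : ℂ) • (p + B z) from rfl, map_smul, smul_eq_mul]
    exact mul_ne_zero a.ne_zero (hz i)
  · intro z _ w _ hzw
    obtain ⟨a, ha⟩ := (Projectivization.mk_eq_mk_iff' ℂ _ _ (hne z) (hne w)).1 hzw
    have h1 := congrArg (L 0) ha
    rw [map_smul, h0, h0, smul_eq_mul, mul_one] at h1
    rw [h1, one_smul] at ha
    exact hB (add_left_cancel ha.symm)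
  · intro x hx
    have hx' : ∀ i, L i x.rep ≠ 0 := hx
    obtain ⟨z, hz⟩ := mem_range_of_ker L p B hB hp hB0 ((L 0 x.rep)⁻¹ • x.rep - p) (by
      rw [map_sub, map_smul, hp, smul_eq_mul, inv_mul_cancel₀ (hx' 0), sub_self])
    have hpz : p + B z = (L 0 x.rep)⁻¹ • x.rep := by
      rw [hz]; abel
    refine ⟨z, ?_, ?_⟩
    · intro i
      rw [hpz, map_smul, smul_eq_mul]
      exact mul_ne_zero (inv_ne_zero (hx' 0)) (hx' i)
    · change Projectivization.mk ℂ (p + B z) (hne z) = x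
      conv_rhs => rw [← Projectivization.mk_rep x]
      rw [Projectivization.mk_eq_mk_iff']
      exact ⟨(L 0 x.rep)⁻¹, hpz.symm⟩

/-- P9d: charts exist. -/
theorem exists_chart {n : ℕ} (L : Fin (2 * n + 1) → ((Fin (n + 1) → ℂ) →ₗ[ℂ] ℂ))
    (hL : GeneralPosition L) : ∃ (p : Fin (n + 1) → ℂ) (B : (Fin n → ℂ) →ₗ[ℂ] (Fin (n + 1) → ℂ)),
      Function.Injective B ∧ L 0 p = 1 ∧ ∀ z, L 0 (B z) = 0 := by
  have h0 : L 0 ≠ 0 := by
    obtain ⟨S, hS1, -, hS⟩ := Finset.exists_subsuperset_card_eq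
      (s := ({0} : Finset (Fin (2 * n + 1)))) (t := Finset.univ) (n := n + 1)
      (Finset.subset_univ _) (by simp) (by simp; omega)
    have h1 := (hL S hS).ne_zero ⟨0, hS1 (by simp)⟩
    exact h1
  obtain ⟨q, hq⟩ : ∃ q, L 0 q ≠ 0 := by
    by_contra hcon
    push Not at hcon
    exact h0 (LinearMap.ext hcon)
  have hsurj : LinearMap.range (L 0) = ⊤ := by
    rw [LinearMap.range_eq_top]
    intro c
    refine ⟨(c * (L 0 q)⁻¹) • q, ?_⟩
    rw [map_smul, smul_eq_mul, mul_assoc, inv_mul_cancel₀ hq, mul_one]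
  have h2 : Module.finrank ℂ (LinearMap.ker (L 0)) = n := by
    have := LinearMap.finrank_range_add_finrank_ker (L 0)
    rw [hsurj, finrank_top] at this
    simp at this
    omega
  have e : (Fin n → ℂ) ≃ₗ[ℂ] LinearMap.ker (L 0) :=
    LinearEquiv.ofFinrankEq _ _ (by rw [h2]; simp)
  refine ⟨(L 0 q)⁻¹ • q, (LinearMap.ker (L 0)).subtype ∘ₗ e.toLinearMap, ?_, ?_, ?_⟩
  · exact Subtype.val_injective.comp e.injective
  · rw [map_smul, smul_eq_mul, inv_mul_cancel₀ hq]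
  · intro z
    exact (e z).2

end Pool.Agent.MP_7c31d9_gt
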