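import Pool.Agent.MP_7c31d9_gt.Defs2

/-! Certificates for the pointwise inequality: soundness of the rational checker. -/

namespace Pool.Agent.MP_7c31d9_gt

open Complex

/-- A real quadratic form in four variables with vanishing `u s` entry. -/
theorem quad_nonneg {A B C D E F G H J : ℝ} (hJ : 0 < J) (hH : 0 < H)
    (ha : 0 ≤ (A * J - D ^ 2) * H - C ^ 2 * J) (hc : 0 ≤ (E * J - G ^ 2) * H - F ^ 2 * J)
    (hb : ((B * J - D * G) * H - C * F * J) ^ 2 ≤
      ((A * J - D ^ 2) * H - C ^ 2 * J) * ((E * J - G ^ 2) * H - F ^ 2 * J))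
    (x0 x u s : ℝ) :
    0 ≤ A * x0 ^ 2 + 2 * B * x0 * x + 2 * C * x0 * u + 2 * D * x0 * s + E * x ^ 2
      + 2 * F * x * u + 2 * G * x * s + H * u ^ 2 + J * s ^ 2 := by
  set a := (A * J - D ^ 2) * H - C ^ 2 * J with hadef
  set c := (E * J - G ^ 2) * H - F ^ 2 * J with hcdef
  set b := (B * J - D * G) * H - C * F * J with hbdef
  have hq : 0 ≤ a * x0 ^ 2 + 2 * b * x0 * x + c * x ^ 2 := by
    rcases eq_or_lt_of_le ha with h0 | h0
    · have hb0 : b = 0 := by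
        have : b ^ 2 ≤ 0 := by rw [← h0] at hb; simpa using hb
        nlinarith [sq_nonneg b]
      rw [hb0, ← h0]; nlinarith [sq_nonneg x]
    · have h1 : 0 ≤ a * (a * x0 ^ 2 + 2 * b * x0 * x + c * x ^ 2) := by
        have : a * (a * x0 ^ 2 + 2 * b * x0 * x + c * x ^ 2)
            = (a * x0 + b * x) ^ 2 + (a * c - b ^ 2) * x ^ 2 := by ring
        rw [this]
        have h2 : 0 ≤ a * c - b ^ 2 := by linarith
        positivity
      by_contra hneg
      push Not at hneg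
      nlinarith
  have key : (J * H) * (A * x0 ^ 2 + 2 * B * x0 * x + 2 * C * x0 * u + 2 * D * x0 * s + E * x ^ 2
      + 2 * F * x * u + 2 * G * x * s + H * u ^ 2 + J * s ^ 2)
      = J * (H * u + C * x0 + F * x) ^ 2 + H * (J * s + D * x0 + G * x) ^ 2
        + (a * x0 ^ 2 + 2 * b * x0 * x + c * x ^ 2) := by
    rw [hadef, hcdef, hbdef]; ring
  have hpos : 0 < J * H := mul_pos hJ hH
  have h3 : 0 ≤ (J * H) * (A * x0 ^ 2 + 2 * B * x0 * x + 2 * C * x0 * u + 2 * D * x0 * s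
      + E * x ^ 2 + 2 * F * x * u + 2 * G * x * s + H * u ^ 2 + J * s ^ 2) := by
    rw [key]
    have : 0 ≤ J * (H * u + C * x0 + F * x) ^ 2 := by positivity
    have : 0 ≤ H * (J * s + D * x0 + G * x) ^ 2 := by positivity
    linarith
  by_contra hneg
  push Not at hneg
  nlinarith

/-- The atom function expanded in real and imaginary parts. -/
theorem atomF_eq (k β bt X1 X2 X3 d : ℝ) (e u : ℂ) :
    atomF k β bt X1 X2 X3 d e u =
      (1 - β) * ((1 + u.re - 2 * e.re) ^ 2 + (u.im - 2 * e.im) ^ 2)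
        + 4 * (e.re ^ 2 + e.im ^ 2) - 2 * β - k * (e.re ^ 2 + e.im ^ 2) * e.re
        + (k - 2) * bt * (e.re ^ 2 + e.im ^ 2) ^ 2 + X1 + X2 * u.re
        + X3 * (u.re ^ 2 + u.im ^ 2) - d * (1 + (u.re ^ 2 + u.im ^ 2)) := by
  have h1 : ‖e‖ ^ 2 = e.re ^ 2 + e.im ^ 2 := by
    rw [← Complex.normSq_eq_norm_sq, Complex.normSq_apply]; ring
  have h2 : ‖u‖ ^ 2 = u.re ^ 2 + u.im ^ 2 := by
    rw [← Complex.normSq_eq_norm_sq, Complex.normSq_apply]; ring
  have h3 : ‖1 + u - 2 * e‖ ^ 2 = (1 + u.re - 2 * e.re) ^ 2 + (u.im - 2 * e.im) ^ 2 := by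
    rw [← Complex.normSq_eq_norm_sq, Complex.normSq_apply]
    simp
    ring
  have h4 : ‖e‖ ^ 4 = (e.re ^ 2 + e.im ^ 2) ^ 2 := by
    rw [← h1]; ring
  unfold atomF
  rw [h1, h2, h3, h4]

/-- The test on the coefficients. -/
def testOK (k β bt X1 X2 X3 d g : ℚ) : Bool :=
  let A := (1 - β) - 2 * β + X1 - d
  let B := -2 * (1 - β)
  let C := (1 - β) + X2 / 2
  let D := g / 2
  let E := 4 * (1 - β) + 4 - g
  let F := -2 * (1 - β)
  let G := -k / 2
  let H := (1 - β) + X3 - d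
  let J := (k - 2) * bt
  let a := (A * J - D ^ 2) * H - C ^ 2 * J
  let c := (E * J - G ^ 2) * H - F ^ 2 * J
  let b := (B * J - D * G) * H - C * F * J
  decide (0 < J) && decide (0 < H) && decide (0 ≤ a) && decide (0 ≤ c) && decide (b ^ 2 ≤ a * c)

theorem testOK_sound {k β bt X1 X2 X3 d g : ℚ} (h : testOK k β bt X1 X2 X3 d g = true)
    (e u : ℂ) : 0 ≤ atomF k β bt X1 X2 X3 d e u := by
  simp only [testOK, Bool.and_eq_true, decide_eq_true_eq] at h
  obtain ⟨⟨⟨⟨hJ, hH⟩, ha⟩, hc⟩, hb⟩ := h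
  have hJ' : (0 : ℝ) < ((k : ℝ) - 2) * bt := by exact_mod_cast hJ
  have hH' : (0 : ℝ) < (1 - (β : ℝ)) + X3 - d := by exact_mod_cast hH
  have ha' := (Rat.cast_le (K := ℝ)).2 ha
  have hc' := (Rat.cast_le (K := ℝ)).2 hc
  have hb' := (Rat.cast_le (K := ℝ)).2 hb
  push_cast at ha' hc' hb'
  have q1 := quad_nonneg hJ' hH' ha' hc' hb' 1 e.re u.re (e.re ^ 2 + e.im ^ 2)
  have q2 := quad_nonneg hJ' hH' ha' hc' hb' 0 e.im u.im 0
  rw [atomF_eq]
  have := add_nonneg q1 q2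
  refine le_of_le_of_eq this ?_
  ring

end Pool.Agent.MP_7c31d9_gt
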