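import Pool.Agent.MP_7c31d9_gt.Cert

/-! Certificates for the pointwise inequality: segments. -/

namespace Pool.Agent.MP_7c31d9_gt

open Complex

theorem convexOn_logistic : ConvexOn ℝ (Set.Ici (0 : ℝ)) (fun t => 1 / (1 + Real.exp t)) := by
  have hpos : ∀ t : ℝ, 0 < 1 + Real.exp t := fun t => by positivity
  have hd : ∀ t : ℝ, HasDerivAt (fun t => 1 / (1 + Real.exp t))
      (-(Real.exp t / (1 + Real.exp t) ^ 2)) t := by
    intro t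
    have h1 : HasDerivAt (fun t => 1 + Real.exp t) (Real.exp t) t :=
      (Real.hasDerivAt_exp t).const_add 1
    have h2 := h1.inv (hpos t).ne'
    have e : (fun t => 1 / (1 + Real.exp t)) = (fun t => 1 + Real.exp t)⁻¹ := by
      ext t; simp
    rw [e]
    rw [show -(Real.exp t / (1 + Real.exp t) ^ 2) = -Real.exp t / (1 + Real.exp t) ^ 2 by
      rw [neg_div]]
    exact h2
  refine MonotoneOn.convexOn_of_deriv (convex_Ici 0) ?_ ?_ ?_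
  · exact fun t _ => (hd t).continuousAt.continuousWithinAt
  · exact fun t _ => (hd t).differentiableAt.differentiableWithinAt
  · intro a ha b hb hab
    rw [interior_Ici, Set.mem_Ioi] at ha hb
    rw [(hd a).deriv, (hd b).deriv]
    have ea := Real.exp_le_exp.2 hab
    have e0 : 1 ≤ Real.exp a := Real.one_le_exp ha.le
    rw [neg_le_neg_iff, div_le_div_iff₀ (by positivity) (by positivity)]
    have : Real.exp a * (1 + Real.exp b) ^ 2 - Real.exp b * (1 + Real.exp a) ^ 2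
        = (Real.exp b - Real.exp a) * (Real.exp a * Real.exp b - 1) := by ring
    have h2 : 0 ≤ (Real.exp b - Real.exp a) * (Real.exp a * Real.exp b - 1) := by
      apply mul_nonneg (by linarith)
      nlinarith
    linarith

theorem atomF_comb (k β0 bt0 X10 X20 X30 d0 β1 bt1 X11 X21 X31 d1 σ : ℝ) (e u : ℂ) :
    atomF k ((1 - σ) * β0 + σ * β1) ((1 - σ) * bt0 + σ * bt1) ((1 - σ) * X10 + σ * X11)
      ((1 - σ) * X20 + σ * X21) ((1 - σ) * X30 + σ * X31) ((1 - σ) * d0 + σ * d1) e u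
    = (1 - σ) * atomF k β0 bt0 X10 X20 X30 d0 e u + σ * atomF k β1 bt1 X11 X21 X31 d1 e u := by
  unfold atomF; ring

theorem atomF_mono {k β bt X1 X2 X3 d β' bt' X1' X2' X3' d' : ℝ} (hk : 2 ≤ k) (e u : ℂ)
    (hβ : β ≤ β') (hbt : bt' ≤ bt)
    (hX : 0 ≤ (X1 - X1') + (X2 - X2') * u.re + (X3 - X3') * ‖u‖ ^ 2 - (d - d') * (1 + ‖u‖ ^ 2)) :
    atomF k β' bt' X1' X2' X3' d' e u ≤ atomF k β bt X1 X2 X3 d e u := by
  have h1 : 0 ≤ (β' - β) * (‖1 + u - 2 * e‖ ^ 2 + 2) :=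
    mul_nonneg (by linarith) (by positivity)
  have h2 : 0 ≤ (k - 2) * (bt - bt') * ‖e‖ ^ 4 :=
    mul_nonneg (mul_nonneg (by linarith) (by linarith)) (by positivity)
  have : atomF k β bt X1 X2 X3 d e u - atomF k β' bt' X1' X2' X3' d' e u
      = (β' - β) * (‖1 + u - 2 * e‖ ^ 2 + 2) + (k - 2) * (bt - bt') * ‖e‖ ^ 4
        + ((X1 - X1') + (X2 - X2') * u.re + (X3 - X3') * ‖u‖ ^ 2 - (d - d') * (1 + ‖u‖ ^ 2)) := by
    unfold atomF; ring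
  linarith

/-- Gauges with rational coefficients. -/
structure QG where
  k : ℚ
  a1 : ℚ
  b1 : ℚ
  a2 : ℚ
  b2 : ℚ
  a3 : ℚ
  b3 : ℚ

/-- The real gauge. -/
noncomputable def QG.toGauge (G : QG) : Gauge :=
  ⟨G.a1, G.b1, G.a2, G.b2, G.a3, G.b3⟩

/-- coefficient `X_j` of the affine minorant, `q` = lower bound of `t ^ 2`. -/
def xq (c a b t q : ℚ) : ℚ := c * a + ((c + 1) * b - a) * t - b * q

/-- Test at an end point. -/
def epOK (G : QG) (ap dl β bt t q g : ℚ) : Bool :=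
  testOK G.k β bt (xq (ap + 2) G.a1 G.b1 t q) (xq (ap + 1) G.a2 G.b2 t q) (xq ap G.a3 G.b3 t q)
    (dl * (1 + t)) g

/-- Side conditions on the gauge. -/
def sideOK (G : QG) : Bool :=
  decide (2 < G.k) && decide (G.b1 < 0) && decide (G.b3 < 0) && decide (G.b2 ^ 2 ≤ 4 * G.b1 * G.b3)

theorem side_quad {G : QG} (h : sideOK G = true) (u : ℂ) :
    0 ≤ -((G.b1 : ℝ) + G.b2 * u.re + G.b3 * ‖u‖ ^ 2) := by
  simp only [sideOK, Bool.and_eq_true, decide_eq_true_eq] at h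
  obtain ⟨⟨⟨hk, h1⟩, h3⟩, h2⟩ := h
  have h1' : (G.b1 : ℝ) < 0 := by exact_mod_cast h1
  have h3' : (G.b3 : ℝ) < 0 := by exact_mod_cast h3
  have h2' : (G.b2 : ℝ) ^ 2 ≤ 4 * G.b1 * G.b3 := by exact_mod_cast h2
  have hu : u.re ^ 2 ≤ ‖u‖ ^ 2 := by
    rw [← Complex.normSq_eq_norm_sq, Complex.normSq_apply]; nlinarith [mul_self_nonneg u.im]
  have hq : 0 ≤ -((G.b1 : ℝ) + G.b2 * u.re + G.b3 * u.re ^ 2) := by
    have : 0 ≤ (-(G.b3 : ℝ)) * (-((G.b1 : ℝ) + G.b2 * u.re + G.b3 * u.re ^ 2)) := by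
      nlinarith [sq_nonneg (2 * (G.b3 : ℝ) * u.re + G.b2)]
    by_contra hneg
    push Not at hneg
    nlinarith
  nlinarith

theorem side_k {G : QG} (h : sideOK G = true) : (2 : ℝ) < G.k := by
  simp only [sideOK, Bool.and_eq_true, decide_eq_true_eq] at h
  exact_mod_cast h.1.1.1

/-- The value of the atom function along `t`. -/
noncomputable def aval (G : QG) (ap dl : ℚ) (t : ℝ) (e u : ℂ) : ℝ :=
  atomF G.k (1 / (1 + Real.exp t)) (1 + Real.exp t)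
    ((ap + 2 - t) * (G.a1 + G.b1 * t) + G.b1 * t)
    ((ap + 1 - t) * (G.a2 + G.b2 * t) + G.b2 * t)
    ((ap - t) * (G.a3 + G.b3 * t) + G.b3 * t) (dl * (1 + t)) e u

theorem seg_sound {G : QG} (hG : sideOK G = true) {ap dl t0 tc t1 E0 Ec E1 g0 g1 : ℚ}
    (h0 : 0 ≤ t0) (h01 : t0 < t1) (hc : 2 * tc = t0 + t1) (hlen : t1 - tc ≤ 1) (hEc : 0 < Ec)
    (hE0 : 0 < E0) (hE1 : 0 < E1)
    (x0 : (E0 : ℝ) ≤ Real.exp t0) (xc : (Ec : ℝ) ≤ Real.exp tc) (x1 : (E1 : ℝ) ≤ Real.exp t1)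
    (k0 : epOK G ap dl (1 / (1 + E0)) (1 + Ec * (1 + t0 - tc)) t0 (2 * tc * t0 - tc ^ 2) g0 = true)
    (k1 : epOK G ap dl (1 / (1 + E1)) (1 + Ec * (1 + t1 - tc)) t1 (2 * tc * t1 - tc ^ 2) g1 = true)
    (t : ℝ) (ht0 : (t0 : ℝ) ≤ t) (ht1 : t ≤ t1) (e u : ℂ) : 0 ≤ aval G ap dl t e u := by
  have r0 := testOK_sound k0 e u
  have r1 := testOK_sound k1 e u
  have h01' : (t0 : ℝ) < t1 := by exact_mod_cast h01
  have h0' : (0 : ℝ) ≤ t0 := by exact_mod_cast h0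
  have hc' : 2 * (tc : ℝ) = t0 + t1 := by exact_mod_cast hc
  have hlen' : (t1 : ℝ) - tc ≤ 1 := by exact_mod_cast hlen
  have hEc' : (0 : ℝ) < Ec := by exact_mod_cast hEc
  have hE0' : (0 : ℝ) < E0 := by exact_mod_cast hE0
  have hE1' : (0 : ℝ) < E1 := by exact_mod_cast hE1
  set σ : ℝ := (t - t0) / (t1 - t0) with hσ
  have hd : 0 < (t1 : ℝ) - t0 := by linarith
  have hσ0 : 0 ≤ σ := div_nonneg (by linarith) hd.le
  have hσ1 : σ ≤ 1 := by rw [hσ, div_le_one hd]; linarith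
  have htσ : t = (1 - σ) * t0 + σ * t1 := by
    have : σ * (t1 - t0) = t - t0 := by rw [hσ]; field_simp
    linarith
  have hcomb := atomF_comb (G.k : ℝ) ((1 / (1 + E0) : ℚ) : ℝ) ((1 + Ec * (1 + t0 - tc) : ℚ) : ℝ)
    ((xq (ap + 2) G.a1 G.b1 t0 (2 * tc * t0 - tc ^ 2) : ℚ) : ℝ)
    ((xq (ap + 1) G.a2 G.b2 t0 (2 * tc * t0 - tc ^ 2) : ℚ) : ℝ)
    ((xq ap G.a3 G.b3 t0 (2 * tc * t0 - tc ^ 2) : ℚ) : ℝ)
    ((dl * (1 + t0) : ℚ) : ℝ)
    ((1 / (1 + E1) : ℚ) : ℝ) ((1 + Ec * (1 + t1 - tc) : ℚ) : ℝ)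
    ((xq (ap + 2) G.a1 G.b1 t1 (2 * tc * t1 - tc ^ 2) : ℚ) : ℝ)
    ((xq (ap + 1) G.a2 G.b2 t1 (2 * tc * t1 - tc ^ 2) : ℚ) : ℝ)
    ((xq ap G.a3 G.b3 t1 (2 * tc * t1 - tc ^ 2) : ℚ) : ℝ)
    ((dl * (1 + t1) : ℚ) : ℝ) σ e u
  have hlow : 0 ≤ (1 - σ) * atomF (G.k : ℝ) ((1 / (1 + E0) : ℚ) : ℝ)
      ((1 + Ec * (1 + t0 - tc) : ℚ) : ℝ)
      ((xq (ap + 2) G.a1 G.b1 t0 (2 * tc * t0 - tc ^ 2) : ℚ) : ℝ)
      ((xq (ap + 1) G.a2 G.b2 t0 (2 * tc * t0 - tc ^ 2) : ℚ) : ℝ)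
      ((xq ap G.a3 G.b3 t0 (2 * tc * t0 - tc ^ 2) : ℚ) : ℝ)
      ((dl * (1 + t0) : ℚ) : ℝ) e u + σ * atomF (G.k : ℝ) ((1 / (1 + E1) : ℚ) : ℝ)
      ((1 + Ec * (1 + t1 - tc) : ℚ) : ℝ)
      ((xq (ap + 2) G.a1 G.b1 t1 (2 * tc * t1 - tc ^ 2) : ℚ) : ℝ)
      ((xq (ap + 1) G.a2 G.b2 t1 (2 * tc * t1 - tc ^ 2) : ℚ) : ℝ)
      ((xq ap G.a3 G.b3 t1 (2 * tc * t1 - tc ^ 2) : ℚ) : ℝ)
      ((dl * (1 + t1) : ℚ) : ℝ) e u :=
    add_nonneg (mul_nonneg (by linarith) r0) (mul_nonneg hσ0 r1)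
  rw [← hcomb] at hlow
  refine le_trans hlow (atomF_mono (side_k hG).le e u ?_ ?_ ?_)
  · -- β
    have hm0 : (t0 : ℝ) ∈ Set.Ici (0 : ℝ) := Set.mem_Ici.2 h0'
    have hm1 : (t1 : ℝ) ∈ Set.Ici (0 : ℝ) := Set.mem_Ici.2 (by linarith)
    have hcv := convexOn_logistic.2 hm0 hm1 (show (0 : ℝ) ≤ 1 - σ by linarith) hσ0
      (show 1 - σ + σ = 1 by ring)
    simp only [smul_eq_mul] at hcv
    rw [← htσ] at hcv
    have e0 : 1 / (1 + Real.exp t0) ≤ ((1 / (1 + E0) : ℚ) : ℝ) := by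
      push_cast
      exact one_div_le_one_div_of_le (by positivity) (by linarith)
    have e1 : 1 / (1 + Real.exp t1) ≤ ((1 / (1 + E1) : ℚ) : ℝ) := by
      push_cast
      exact one_div_le_one_div_of_le (by positivity) (by linarith)
    have m0 := mul_le_mul_of_nonneg_left e0 (show (0 : ℝ) ≤ 1 - σ by linarith)
    have m1 := mul_le_mul_of_nonneg_left e1 hσ0
    linarith
  · -- bt
    have hexp : Real.exp tc * (1 + (t - tc)) ≤ Real.exp t := by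
      have h1 := Real.add_one_le_exp (t - tc)
      have h2 : Real.exp t = Real.exp tc * Real.exp (t - tc) := by
        rw [← Real.exp_add]; congr 1; ring
      rw [h2]
      exact mul_le_mul_of_nonneg_left (by linarith) (Real.exp_pos _).le
    have h3 : (Ec : ℝ) * (1 + (t - tc)) ≤ Real.exp tc * (1 + (t - tc)) :=
      mul_le_mul_of_nonneg_right xc (by linarith)
    push_cast
    have h4 : (1 - σ) * (1 + (Ec : ℝ) * (1 + t0 - tc)) + σ * (1 + Ec * (1 + t1 - tc))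
        = 1 + Ec * (1 + (t - tc)) := by
      rw [htσ]; ring
    rw [h4]
    linarith
  · -- X
    have hs := side_quad hG u
    have hfin : (((ap : ℝ) + 2 - t) * (G.a1 + G.b1 * t) + G.b1 * t
        - ((1 - σ) * ((xq (ap + 2) G.a1 G.b1 t0 (2 * tc * t0 - tc ^ 2) : ℚ) : ℝ)
          + σ * ((xq (ap + 2) G.a1 G.b1 t1 (2 * tc * t1 - tc ^ 2) : ℚ) : ℝ)))
        + (((ap : ℝ) + 1 - t) * (G.a2 + G.b2 * t) + G.b2 * t
        - ((1 - σ) * ((xq (ap + 1) G.a2 G.b2 t0 (2 * tc * t0 - tc ^ 2) : ℚ) : ℝ)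
          + σ * ((xq (ap + 1) G.a2 G.b2 t1 (2 * tc * t1 - tc ^ 2) : ℚ) : ℝ))) * u.re
        + (((ap : ℝ) - t) * (G.a3 + G.b3 * t) + G.b3 * t
        - ((1 - σ) * ((xq ap G.a3 G.b3 t0 (2 * tc * t0 - tc ^ 2) : ℚ) : ℝ)
          + σ * ((xq ap G.a3 G.b3 t1 (2 * tc * t1 - tc ^ 2) : ℚ) : ℝ))) * ‖u‖ ^ 2
        - ((dl : ℝ) * (1 + t) - ((1 - σ) * ((dl * (1 + t0) : ℚ) : ℝ)
          + σ * ((dl * (1 + t1) : ℚ) : ℝ))) * (1 + ‖u‖ ^ 2)
        = (t - tc) ^ 2 * (-((G.b1 : ℝ) + G.b2 * u.re + G.b3 * ‖u‖ ^ 2)) := by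
      simp only [xq]
      push_cast
      rw [htσ]
      ring
    rw [hfin]
    exact mul_nonneg (sq_nonneg _) hs

end Pool.Agent.MP_7c31d9_gt
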