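import Pool.Agent.MP_7c31d9_gt.Cert2

/-! Certificates for the pointwise inequality: tail and the complete checker. -/

namespace Pool.Agent.MP_7c31d9_gt

open Complex

/-- Tail test: the form at `T` and the slope form. -/
def tailOK (G : QG) (ap dl T ET g : ℚ) : Bool :=
  epOK G ap dl (1 / (1 + ET)) (1 + ET) T (T ^ 2) g &&
  (let s1 := (ap + 3) * G.b1 - G.a1 - 2 * G.b1 * T - dl
   let s2 := (ap + 2) * G.b2 - G.a2 - 2 * G.b2 * T
   let s3 := (ap + 1) * G.b3 - G.a3 - 2 * G.b3 * T - dl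
   decide (0 < s1) && decide (0 < s3) && decide (s2 ^ 2 ≤ 4 * s1 * s3))

theorem tail_sound {G : QG} (hG : sideOK G = true) {ap dl T ET g : ℚ} (hT : 0 ≤ T)
    (hET0 : 0 < ET) (xT : (ET : ℝ) ≤ Real.exp T) (h : tailOK G ap dl T ET g = true)
    (t : ℝ) (ht : (T : ℝ) ≤ t) (e u : ℂ) : 0 ≤ aval G ap dl t e u := by
  simp only [tailOK, Bool.and_eq_true, decide_eq_true_eq] at h
  obtain ⟨hep, ⟨hs1, hs3⟩, hs2⟩ := h
  have r0 := testOK_sound hep e u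
  have hET0' : (0 : ℝ) < ET := by exact_mod_cast hET0
  have hs1' : (0 : ℝ) < ((ap : ℝ) + 3) * G.b1 - G.a1 - 2 * G.b1 * T - dl := by exact_mod_cast hs1
  have hs3' : (0 : ℝ) < ((ap : ℝ) + 1) * G.b3 - G.a3 - 2 * G.b3 * T - dl := by exact_mod_cast hs3
  have hs2' : (((ap : ℝ) + 2) * G.b2 - G.a2 - 2 * G.b2 * T) ^ 2 ≤
      4 * (((ap : ℝ) + 3) * G.b1 - G.a1 - 2 * G.b1 * T - dl) *
        (((ap : ℝ) + 1) * G.b3 - G.a3 - 2 * G.b3 * T - dl) := by exact_mod_cast hs2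
  set s1 : ℝ := ((ap : ℝ) + 3) * G.b1 - G.a1 - 2 * G.b1 * T - dl with hs1d
  set s3 : ℝ := ((ap : ℝ) + 1) * G.b3 - G.a3 - 2 * G.b3 * T - dl with hs3d
  set s2 : ℝ := ((ap : ℝ) + 2) * G.b2 - G.a2 - 2 * G.b2 * T with hs2d
  have hu : u.re ^ 2 ≤ ‖u‖ ^ 2 := by
    rw [← Complex.normSq_eq_norm_sq, Complex.normSq_apply]; nlinarith [mul_self_nonneg u.im]
  have hq : 0 ≤ s1 + s2 * u.re + s3 * ‖u‖ ^ 2 := by
    have h1 : 0 ≤ s3 * (s1 + s2 * u.re + s3 * u.re ^ 2) := by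
      nlinarith [sq_nonneg (2 * s3 * u.re + s2)]
    have h2 : 0 ≤ s1 + s2 * u.re + s3 * u.re ^ 2 := by
      by_contra hneg
      push Not at hneg
      nlinarith
    nlinarith
  have hs := side_quad hG u
  refine le_trans r0 (le_trans ?_ (atomF_mono (k := (G.k : ℝ)) (β := 1 / (1 + Real.exp t))
    (β' := ((1 / (1 + ET) : ℚ) : ℝ)) (bt := 1 + Real.exp t) (bt' := ((1 + ET : ℚ) : ℝ))
    (X1' := ((xq (ap + 2) G.a1 G.b1 T (T ^ 2) : ℚ) : ℝ))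
    (X2' := ((xq (ap + 1) G.a2 G.b2 T (T ^ 2) : ℚ) : ℝ))
    (X3' := ((xq ap G.a3 G.b3 T (T ^ 2) : ℚ) : ℝ)) (d' := ((dl * (1 + T) : ℚ) : ℝ))
    (side_k hG).le e u ?_ ?_ ?_))
  · exact le_refl _
  · push_cast
    have h1 : Real.exp T ≤ Real.exp t := Real.exp_le_exp.2 ht
    exact one_div_le_one_div_of_le (by positivity) (by linarith)
  · push_cast
    have h1 : Real.exp T ≤ Real.exp t := Real.exp_le_exp.2 ht
    linarith
  · have hfin : (((ap : ℝ) + 2 - t) * (G.a1 + G.b1 * t) + G.b1 * t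
        - ((xq (ap + 2) G.a1 G.b1 T (T ^ 2) : ℚ) : ℝ))
        + (((ap : ℝ) + 1 - t) * (G.a2 + G.b2 * t) + G.b2 * t
        - ((xq (ap + 1) G.a2 G.b2 T (T ^ 2) : ℚ) : ℝ)) * u.re
        + (((ap : ℝ) - t) * (G.a3 + G.b3 * t) + G.b3 * t
        - ((xq ap G.a3 G.b3 T (T ^ 2) : ℚ) : ℝ)) * ‖u‖ ^ 2
        - ((dl : ℝ) * (1 + t) - ((dl * (1 + T) : ℚ) : ℝ)) * (1 + ‖u‖ ^ 2)
        = (t - T) * (s1 + s2 * u.re + s3 * ‖u‖ ^ 2)
          + (t - T) ^ 2 * (-((G.b1 : ℝ) + G.b2 * u.re + G.b3 * ‖u‖ ^ 2)) := by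
      simp only [xq, hs1d, hs2d, hs3d]
      push_cast
      ring
    rw [hfin]
    exact add_nonneg (mul_nonneg (by linarith) hq) (mul_nonneg (sq_nonneg _) hs)

/-- One segment of half-length `h / 8`. -/
structure Seg where
  h : ℕ
  Ec : ℚ
  E1 : ℚ
  g0 : ℚ
  g1 : ℚ

/-- lower bound of `exp (1 / 8)`. -/
def e8 : ℚ := 1133148 / 1000000

theorem e8_le : (e8 : ℝ) ≤ Real.exp (1 / 8) := by
  have h := Real.sum_le_exp_of_nonneg (show (0 : ℝ) ≤ 1 / 8 by norm_num) 6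
  refine le_trans ?_ h
  simp only [e8, Finset.sum_range_succ, Finset.sum_range_zero, Nat.factorial]
  norm_num

theorem e8_pow (h : ℕ) (E0 E1 : ℚ) (t0 : ℝ) (h0 : (E0 : ℝ) ≤ Real.exp t0) (h1 : 0 < E0)
    (h2 : E1 ≤ E0 * e8 ^ h) : (E1 : ℝ) ≤ Real.exp (t0 + h / 8) := by
  have h3 : (E1 : ℝ) ≤ (E0 : ℝ) * (e8 : ℝ) ^ h := by exact_mod_cast h2
  have h4 : (e8 : ℝ) ^ h ≤ Real.exp (1 / 8) ^ h := by
    apply pow_le_pow_left₀ _ e8_le
    have : (0 : ℚ) ≤ e8 := by norm_num [e8]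
    exact_mod_cast this
  have h5 : Real.exp (t0 + h / 8) = Real.exp t0 * Real.exp (1 / 8) ^ h := by
    rw [Real.exp_add, ← Real.exp_nat_mul]
    congr 2
    ring
  rw [h5]
  have h1' : (0 : ℝ) < E0 := by exact_mod_cast h1
  calc (E1 : ℝ) ≤ (E0 : ℝ) * (e8 : ℝ) ^ h := h3
    _ ≤ (E0 : ℝ) * Real.exp (1 / 8) ^ h := by
        exact mul_le_mul_of_nonneg_left h4 h1'.le
    _ ≤ Real.exp t0 * Real.exp (1 / 8) ^ h := by
        exact mul_le_mul_of_nonneg_right h0 (by positivity)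

/-- Check one segment starting at `t0`, with `E0 ≤ exp t0`. -/
def segOK (G : QG) (ap dl t0 E0 : ℚ) (s : Seg) : Bool :=
  let tc := t0 + s.h / 8
  let t1 := tc + s.h / 8
  decide (0 < s.h) && decide (s.h ≤ 8) && decide (0 < s.Ec) && decide (0 < s.E1) &&
  decide (s.Ec ≤ E0 * e8 ^ s.h) && decide (s.E1 ≤ s.Ec * e8 ^ s.h) &&
  epOK G ap dl (1 / (1 + E0)) (1 + s.Ec * (1 + t0 - tc)) t0 (2 * tc * t0 - tc ^ 2) s.g0 &&
  epOK G ap dl (1 / (1 + s.E1)) (1 + s.Ec * (1 + t1 - tc)) t1 (2 * tc * t1 - tc ^ 2) s.g1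

/-- Check a list of consecutive segments, then the tail. -/
def segsOK (G : QG) (ap dl gT : ℚ) : ℚ → ℚ → List Seg → Bool
  | t0, E0, [] => tailOK G ap dl t0 E0 gT
  | t0, E0, s :: l => segOK G ap dl t0 E0 s && segsOK G ap dl gT (t0 + s.h / 8 + s.h / 8) s.E1 l

theorem segs_sound {G : QG} (hG : sideOK G = true) {ap dl gT : ℚ} (l : List Seg) :
    ∀ (t0 E0 : ℚ), 0 ≤ t0 → 0 < E0 → (E0 : ℝ) ≤ Real.exp t0 →
      segsOK G ap dl gT t0 E0 l = true → ∀ t : ℝ, (t0 : ℝ) ≤ t → ∀ e u : ℂ,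
        0 ≤ aval G ap dl t e u := by
  induction l with
  | nil =>
    intro t0 E0 h0 hE hx h t ht e u
    exact tail_sound hG h0 hE hx h t ht e u
  | cons s l ih =>
    intro t0 E0 h0 hE hx h t ht e u
    simp only [segsOK, segOK, Bool.and_eq_true, decide_eq_true_eq] at h
    obtain ⟨⟨⟨⟨⟨⟨⟨⟨hh, hh8⟩, hc0⟩, h10⟩, hc⟩, h1⟩, k0⟩, k1⟩, hrest⟩ := h
    have hhq : (0 : ℚ) < s.h := by exact_mod_cast hh
    have hhq8 : (s.h : ℚ) ≤ 8 := by exact_mod_cast hh8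
    have xc : (s.Ec : ℝ) ≤ Real.exp ((t0 + s.h / 8 : ℚ) : ℝ) := by
      have := e8_pow s.h E0 s.Ec t0 hx hE hc
      push_cast
      exact this
    have x1 : (s.E1 : ℝ) ≤ Real.exp ((t0 + s.h / 8 + s.h / 8 : ℚ) : ℝ) := by
      have := e8_pow s.h s.Ec s.E1 ((t0 + s.h / 8 : ℚ) : ℝ) xc hc0 h1
      push_cast at this ⊢
      exact this
    rcases le_total t ((t0 + s.h / 8 + s.h / 8 : ℚ) : ℝ) with hle | hge
    · exact seg_sound hG h0 (tc := t0 + s.h / 8) (t1 := t0 + s.h / 8 + s.h / 8) (by linarith)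
        (by ring) (by linarith) hc0 hE h10 hx xc x1 k0 k1 t ht hle e u
    · exact ih _ _ (by positivity) h10 x1 hrest t hge e u

/-- Complete check for a gauge at a slope. -/
def gaugeOK (G : QG) (ap dl gT : ℚ) (l : List Seg) : Bool :=
  sideOK G && segsOK G ap dl gT 0 1 l

theorem atomOK_of_gaugeOK {G : QG} {ap dl gT : ℚ} {l : List Seg}
    (h : gaugeOK G ap dl gT l = true) : AtomOK G.toGauge ap dl G.k := by
  simp only [gaugeOK, Bool.and_eq_true] at h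
  intro s hs e u
  have := segs_sound h.1 l 0 1 (le_refl _) one_pos (by simp) h.2 s (by simpa using hs) e u
  exact this

theorem two_le_k {G : QG} {ap dl gT : ℚ} {l : List Seg}
    (h : gaugeOK G ap dl gT l = true) : (2 : ℝ) ≤ G.k := by
  simp only [gaugeOK, Bool.and_eq_true] at h
  exact (side_k h.1).le

end Pool.Agent.MP_7c31d9_gt
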