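import Pool.Agent.MP_7c31d9_gt.Defs2

/-! P5a: reduction of the pointwise inequality to one atom. -/

namespace Pool.Agent.MP_7c31d9_gt

open Complex

namespace PIAtom

/-- A complex square completed: `‖bt c - H‖² ≥ 0`. -/
theorem sq_complete (c H : ℂ) (bt : ℝ) (hbt : 0 < bt) :
    (1 - 1 / bt) * ‖H‖ ^ 2 ≤ ‖H‖ ^ 2 - 2 * ((starRingEnd ℂ) c * H).re + bt * ‖c‖ ^ 2 := by
  have h0 : 0 ≤ ‖(bt : ℂ) * c - H‖ ^ 2 := by positivity
  have h1 : ‖(bt : ℂ) * c - H‖ ^ 2 = bt ^ 2 * ‖c‖ ^ 2 - 2 * bt * ((starRingEnd ℂ) c * H).re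
      + ‖H‖ ^ 2 := by
    rw [← Complex.normSq_eq_norm_sq, ← Complex.normSq_eq_norm_sq, ← Complex.normSq_eq_norm_sq]
    simp only [Complex.normSq_apply, Complex.sub_re, Complex.sub_im, Complex.mul_re,
      Complex.mul_im, Complex.ofReal_re, Complex.ofReal_im, Complex.conj_re, Complex.conj_im]
    ring
  rw [h1] at h0
  have h2 : ‖H‖ ^ 2 - 2 * ((starRingEnd ℂ) c * H).re + bt * ‖c‖ ^ 2 - (1 - 1 / bt) * ‖H‖ ^ 2
      = (bt ^ 2 * ‖c‖ ^ 2 - 2 * bt * ((starRingEnd ℂ) c * H).re + ‖H‖ ^ 2) / bt := by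
    field_simp
    ring
  have h3 : 0 ≤ (bt ^ 2 * ‖c‖ ^ 2 - 2 * bt * ((starRingEnd ℂ) c * H).re + ‖H‖ ^ 2) / bt :=
    div_nonneg h0 hbt.le
  linarith

theorem sq_complete2 (z bt W E : ℝ) (hbt : 0 < bt) :
    -2 * W ^ 2 / bt + 4 * W * E - 2 * bt * E ^ 2 ≤ 2 * bt * z ^ 2 - 4 * z * W + 4 * bt * z * E := by
  have h2 : 2 * bt * z ^ 2 - 4 * z * W + 4 * bt * z * E - (-2 * W ^ 2 / bt + 4 * W * E
      - 2 * bt * E ^ 2) = 2 / bt * (bt * z - (W - bt * E)) ^ 2 := by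
    field_simp
    ring
  have h3 : 0 ≤ 2 / bt * (bt * z - (W - bt * E)) ^ 2 := by positivity
  linarith

/-- A real quadratic that is nonnegative everywhere has nonnegative leading coefficient. -/
theorem lead_nonneg (A B C : ℝ) (h : ∀ x : ℝ, 0 ≤ A * x ^ 2 + B * x + C) : 0 ≤ A := by
  by_contra hA
  push Not at hA
  have h1 := h ((|B| + |C| + 1) / (-A) + 1)
  set x : ℝ := (|B| + |C| + 1) / (-A) + 1 with hx
  have hx1 : 1 ≤ x := by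
    have : 0 ≤ (|B| + |C| + 1) / (-A) := div_nonneg (by positivity) (by linarith)
    linarith
  have hAx : A * x ≤ -(|B| + |C| + 1) := by
    have h2 : A * ((|B| + |C| + 1) / (-A)) = -(|B| + |C| + 1) := by
      have hA0 : A ≠ 0 := hA.ne
      field_simp
    rw [hx, mul_add, h2]
    linarith
  have hB : B * x ≤ |B| * x := mul_le_mul_of_nonneg_right (le_abs_self B) (by linarith)
  have hC : C ≤ |C| * x := by
    have := le_abs_self C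
    nlinarith [abs_nonneg C]
  have h3 : A * x ^ 2 ≤ -(|B| + |C| + 1) * x := by
    have : A * x ^ 2 = (A * x) * x := by ring
    rw [this]
    exact mul_le_mul_of_nonneg_right hAx (by linarith)
  nlinarith

/-- The atom inequality in homogeneous form. -/
theorem atom_hom (k bt Y1 Y2 Y3 d : ℝ) (hbt : 0 < bt) (hk : 2 ≤ k)
    (hF : ∀ e u : ℂ, 0 ≤ atomF k (1 / bt) bt Y1 Y2 Y3 d e u) (e w u : ℂ) :
    0 ≤ (1 - 1 / bt) * ‖w ^ 2 - 2 * e * w + u‖ ^ 2 - 2 * (‖w‖ ^ 2) ^ 2 / bt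
      + 4 * ‖w‖ ^ 2 * ‖e‖ ^ 2 - 2 * bt * (‖e‖ ^ 2) ^ 2
      - k * ‖e‖ ^ 2 * ((starRingEnd ℂ) e * w).re + k * bt * ‖e‖ ^ 4
      + Y1 * ‖w‖ ^ 4 + Y2 * ((starRingEnd ℂ) (w ^ 2) * u).re + Y3 * ‖u‖ ^ 2
      - d * (‖w‖ ^ 4 + ‖u‖ ^ 2) := by
  by_cases hw : w = 0
  · subst hw
    have hlead : 0 ≤ (1 - 1 / bt) + Y3 - d := by
      apply lead_nonneg _ (2 * (1 - 1 / bt) + Y2) ((1 - 1 / bt) - 2 * (1 / bt) + Y1 - d)
      intro x
      have := hF 0 (x : ℂ)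
      unfold atomF at this
      have e1 : ‖(1 : ℂ) + (x : ℂ) - 2 * 0‖ ^ 2 = (1 + x) ^ 2 := by
        rw [mul_zero, sub_zero, ← Complex.ofReal_one, ← Complex.ofReal_add, Complex.norm_real,
          Real.norm_eq_abs, sq_abs]
      have e2 : ‖(x : ℂ)‖ ^ 2 = x ^ 2 := by
        rw [Complex.norm_real, Real.norm_eq_abs, sq_abs]
      rw [e1, e2] at this
      simp only [norm_zero, Complex.ofReal_re, Complex.zero_re] at this
      nlinarith [this]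
    have e1 : (0 : ℂ) ^ 2 - 2 * e * 0 + u = u := by ring
    rw [e1]
    simp only [norm_zero, mul_zero, map_zero, ne_eq, OfNat.ofNat_ne_zero, not_false_eq_true,
      zero_pow, zero_mul, Complex.zero_re, zero_div]
    have h1 : 0 ≤ ((1 - 1 / bt) + Y3 - d) * ‖u‖ ^ 2 := mul_nonneg hlead (by positivity)
    have h2 : 0 ≤ (k - 2) * bt * ‖e‖ ^ 4 :=
      mul_nonneg (mul_nonneg (by linarith) hbt.le) (by positivity)
    have h3 : (1 - 1 / bt) * ‖u‖ ^ 2 - 0 + 0 - 2 * bt * (‖e‖ ^ 2) ^ 2 - 0 + k * bt * ‖e‖ ^ 4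
        + 0 + 0 + Y3 * ‖u‖ ^ 2 - d * (0 + ‖u‖ ^ 2)
        = ((1 - 1 / bt) + Y3 - d) * ‖u‖ ^ 2 + (k - 2) * bt * ‖e‖ ^ 4 := by ring
    rw [h3]
    exact add_nonneg h1 h2
  · have hwn : 0 < ‖w‖ := norm_pos_iff.mpr hw
    obtain ⟨e', rfl⟩ : ∃ e', e = e' * w := ⟨e / w, by field_simp⟩
    obtain ⟨u', rfl⟩ : ∃ u', u = u' * w ^ 2 := ⟨u / w ^ 2, by field_simp⟩
    have hF' := hF e' u'
    unfold atomF at hF'
    have e1 : w ^ 2 - 2 * (e' * w) * w + u' * w ^ 2 = (1 + u' - 2 * e') * w ^ 2 := by ring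
    have e2 : ((starRingEnd ℂ) (e' * w) * w).re = ‖w‖ ^ 2 * e'.re := by
      have : (starRingEnd ℂ) (e' * w) * w = (starRingEnd ℂ) e' * ((starRingEnd ℂ) w * w) := by
        rw [map_mul]; ring
      rw [this, mul_comm ((starRingEnd ℂ) w) w, Complex.mul_conj, Complex.normSq_eq_norm_sq]
      simp only [Complex.mul_re, Complex.conj_re, Complex.conj_im, Complex.ofReal_re,
        Complex.ofReal_im]
      ring
    have e3 : ((starRingEnd ℂ) (w ^ 2) * (u' * w ^ 2)).re = ‖w‖ ^ 4 * u'.re := by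
      have : (starRingEnd ℂ) (w ^ 2) * (u' * w ^ 2) = u' * ((w * (starRingEnd ℂ) w) ^ 2) := by
        rw [map_pow]; ring
      rw [this, Complex.mul_conj, Complex.normSq_eq_norm_sq, ← Complex.ofReal_pow,
        Complex.mul_re, Complex.ofReal_re, Complex.ofReal_im]
      ring
    rw [e1, e2, e3]
    simp only [norm_mul, norm_pow]
    have hid : (1 - 1 / bt) * (‖1 + u' - 2 * e'‖ * ‖w‖ ^ 2) ^ 2 - 2 * (‖w‖ ^ 2) ^ 2 / bt
      + 4 * ‖w‖ ^ 2 * (‖e'‖ * ‖w‖) ^ 2 - 2 * bt * ((‖e'‖ * ‖w‖) ^ 2) ^ 2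
      - k * (‖e'‖ * ‖w‖) ^ 2 * (‖w‖ ^ 2 * e'.re) + k * bt * (‖e'‖ * ‖w‖) ^ 4
      + Y1 * ‖w‖ ^ 4 + Y2 * (‖w‖ ^ 4 * u'.re) + Y3 * (‖u'‖ * ‖w‖ ^ 2) ^ 2
      - d * (‖w‖ ^ 4 + (‖u'‖ * ‖w‖ ^ 2) ^ 2)
      = ‖w‖ ^ 4 * ((1 - 1 / bt) * ‖1 + u' - 2 * e'‖ ^ 2 + 4 * ‖e'‖ ^ 2 - 2 * (1 / bt)
        - k * ‖e'‖ ^ 2 * e'.re + (k - 2) * bt * ‖e'‖ ^ 4 + Y1 + Y2 * u'.re + Y3 * ‖u'‖ ^ 2
        - d * (1 + ‖u'‖ ^ 2)) := by
      ring
    rw [hid]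
    exact mul_nonneg (by positivity) hF'

/-- The atom inequality with the multipliers `c` and `z`. -/
theorem atom_full (k bt Y1 Y2 Y3 d : ℝ) (hbt : 0 < bt) (hk : 2 ≤ k)
    (hF : ∀ e u : ℂ, 0 ≤ atomF k (1 / bt) bt Y1 Y2 Y3 d e u) (e w u c : ℂ) (z : ℝ) :
    0 ≤ ‖w ^ 2 - 2 * e * w + u‖ ^ 2 - 2 * ((starRingEnd ℂ) c * (w ^ 2 - 2 * e * w + u)).re
      - 4 * z * ‖w‖ ^ 2 - k * ‖e‖ ^ 2 * ((starRingEnd ℂ) e * w).re
      + bt * (‖c‖ ^ 2 + 2 * z ^ 2 + 4 * z * ‖e‖ ^ 2 + k * ‖e‖ ^ 4)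
      + Y1 * ‖w‖ ^ 4 + Y2 * ((starRingEnd ℂ) (w ^ 2) * u).re + Y3 * ‖u‖ ^ 2
      - d * (‖w‖ ^ 4 + ‖u‖ ^ 2) := by
  have h1 := sq_complete c (w ^ 2 - 2 * e * w + u) bt hbt
  have h2 := sq_complete2 z bt (‖w‖ ^ 2) (‖e‖ ^ 2) hbt
  have h3 := atom_hom k bt Y1 Y2 Y3 d hbt hk hF e w u
  have h4 : -2 * (‖w‖ ^ 2) ^ 2 / bt = -(2 * (‖w‖ ^ 2) ^ 2 / bt) := by ring
  rw [h4] at h2
  nlinarith [h1, h2, h3]

/-- Pairing a weighted mean with itself. -/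
theorem pair_mean {J : Type} [Fintype J] (p : J → ℝ) (f : J → ℂ) (c : ℂ)
    (hc : c = ∑ i, (p i : ℂ) * f i) :
    ∑ i, p i * ((starRingEnd ℂ) c * f i).re = ‖c‖ ^ 2 := by
  have h1 : ∑ i, p i * ((starRingEnd ℂ) c * f i).re = ((starRingEnd ℂ) c * c).re := by
    have h2 : (starRingEnd ℂ) c * c = ∑ i, (p i : ℂ) * ((starRingEnd ℂ) c * f i) := by
      conv_lhs => rw [show (starRingEnd ℂ) c * c = (starRingEnd ℂ) c * ∑ i, (p i : ℂ) * f i by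
        rw [← hc]]
      rw [Finset.mul_sum]
      exact Finset.sum_congr rfl fun i _ => by ring
    rw [h2, Complex.re_sum]
    exact Finset.sum_congr rfl fun i _ => by rw [Complex.re_ofReal_mul]
  rw [h1, mul_comm, Complex.mul_conj, Complex.normSq_eq_norm_sq, Complex.ofReal_re]

end PIAtom

open PIAtom in
/-- P5a: reduction of the pointwise inequality to one atom. -/
theorem PIok_of_atom (γ : Gauge) (a' δ k : ℝ) (hk : 2 ≤ k) (h : AtomOK γ a' δ k) :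
    PIok γ a' δ := by
  intro J _ p s w u hp hs hmass
  unfold T0 gaugeRate
  set e : ℂ := ∑ j, (p j : ℂ) * w j with he
  set c : ℂ := ∑ i, (p i : ℂ) * (w i ^ 2 - 2 * e * w i + u i) with hc
  set z : ℝ := (∑ i, p i * ‖w i‖ ^ 2) - ‖e‖ ^ 2 with hz
  -- mass
  have hp1 : ∑ i, p i ≤ 1 := by
    refine le_trans (Finset.sum_le_sum fun i _ => ?_) hmass
    have : 0 < Real.exp (s i) := Real.exp_pos _
    nlinarith [hp i]
  -- `z ≥ 0`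
  have hz0 : 0 ≤ z := by
    have h1 : ‖e‖ ^ 2 ≤ (∑ i, p i) * ∑ i, p i * ‖w i‖ ^ 2 := by
      have h2 : ‖e‖ ≤ ∑ i, p i * ‖w i‖ := by
        refine (norm_sum_le _ _).trans (Finset.sum_le_sum fun i _ => ?_)
        rw [norm_mul, Complex.norm_real, Real.norm_eq_abs, abs_of_nonneg (hp i)]
      have h3 : (∑ i, p i * ‖w i‖) ^ 2 ≤ (∑ i, p i) * ∑ i, p i * ‖w i‖ ^ 2 := by
        apply Finset.sum_sq_le_sum_mul_sum_of_sq_le_mul
        · intro i _; exact hp i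
        · intro i _; exact mul_nonneg (hp i) (by positivity)
        · intro i _; exact le_of_eq (by ring)
      exact (pow_le_pow_left₀ (norm_nonneg _) h2 2).trans h3
    have h4 : 0 ≤ ∑ i, p i * ‖w i‖ ^ 2 :=
      Finset.sum_nonneg fun i _ => mul_nonneg (hp i) (by positivity)
    rw [hz]
    nlinarith [h1, h4, hp1]
  set C0 : ℝ := ‖c‖ ^ 2 + 2 * z ^ 2 + 4 * z * ‖e‖ ^ 2 + k * ‖e‖ ^ 4 with hC0
  have hC0n : 0 ≤ C0 := by
    have : 0 ≤ z * ‖e‖ ^ 2 := mul_nonneg hz0 (by positivity)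
    have h2 : 0 ≤ k * ‖e‖ ^ 4 := mul_nonneg (by linarith) (by positivity)
    rw [hC0]
    nlinarith [sq_nonneg ‖c‖, sq_nonneg z]
  -- the atoms
  have hatom : ∀ i, 0 ≤ p i * (‖w i ^ 2 - 2 * e * w i + u i‖ ^ 2
      - 2 * ((starRingEnd ℂ) c * (w i ^ 2 - 2 * e * w i + u i)).re
      - 4 * z * ‖w i‖ ^ 2 - k * ‖e‖ ^ 2 * ((starRingEnd ℂ) e * w i).re
      + (1 + Real.exp (s i)) * C0
      + ((a' + 2 - s i) * (γ.a1 + γ.b1 * s i) + γ.b1 * s i) * ‖w i‖ ^ 4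
      + ((a' + 1 - s i) * (γ.a2 + γ.b2 * s i) + γ.b2 * s i)
          * ((starRingEnd ℂ) (w i ^ 2) * u i).re
      + ((a' - s i) * (γ.a3 + γ.b3 * s i) + γ.b3 * s i) * ‖u i‖ ^ 2
      - (δ * (1 + s i)) * (‖w i‖ ^ 4 + ‖u i‖ ^ 2)) := by
    intro i
    refine mul_nonneg (hp i) ?_
    exact atom_full k (1 + Real.exp (s i)) _ _ _ (δ * (1 + s i))
      (by have := Real.exp_pos (s i); linarith) hk (fun e u => h (s i) (hs i) e u)
      e (w i) (u i) c z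
  have hsum := Finset.sum_nonneg (s := Finset.univ) fun i _ => hatom i
  -- linear functionals
  have hL1 : ∑ i, p i * ((starRingEnd ℂ) c * (w i ^ 2 - 2 * e * w i + u i)).re = ‖c‖ ^ 2 :=
    pair_mean p _ c hc
  have hL2 : ∑ i, p i * ((starRingEnd ℂ) e * w i).re = ‖e‖ ^ 2 := pair_mean p _ e he
  have hexp : ∑ i, p i * (‖w i ^ 2 - 2 * e * w i + u i‖ ^ 2
      - 2 * ((starRingEnd ℂ) c * (w i ^ 2 - 2 * e * w i + u i)).re
      - 4 * z * ‖w i‖ ^ 2 - k * ‖e‖ ^ 2 * ((starRingEnd ℂ) e * w i).re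
      + (1 + Real.exp (s i)) * C0
      + ((a' + 2 - s i) * (γ.a1 + γ.b1 * s i) + γ.b1 * s i) * ‖w i‖ ^ 4
      + ((a' + 1 - s i) * (γ.a2 + γ.b2 * s i) + γ.b2 * s i)
          * ((starRingEnd ℂ) (w i ^ 2) * u i).re
      + ((a' - s i) * (γ.a3 + γ.b3 * s i) + γ.b3 * s i) * ‖u i‖ ^ 2
      - (δ * (1 + s i)) * (‖w i‖ ^ 4 + ‖u i‖ ^ 2))
      = (∑ i, p i * ‖w i ^ 2 - 2 * e * w i + u i‖ ^ 2)
        - 2 * (∑ i, p i * ((starRingEnd ℂ) c * (w i ^ 2 - 2 * e * w i + u i)).re)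
        - 4 * z * (∑ i, p i * ‖w i‖ ^ 2)
        - k * ‖e‖ ^ 2 * (∑ i, p i * ((starRingEnd ℂ) e * w i).re)
        + (∑ i, p i * (1 + Real.exp (s i))) * C0
        + (∑ i, p i * (((a' + 2 - s i) * (γ.a1 + γ.b1 * s i) + γ.b1 * s i) * ‖w i‖ ^ 4
          + ((a' + 1 - s i) * (γ.a2 + γ.b2 * s i) + γ.b2 * s i)
            * ((starRingEnd ℂ) (w i ^ 2) * u i).re
          + ((a' - s i) * (γ.a3 + γ.b3 * s i) + γ.b3 * s i) * ‖u i‖ ^ 2))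
        - δ * (∑ i, p i * (1 + s i) * (‖w i‖ ^ 4 + ‖u i‖ ^ 2)) := by
    simp only [Finset.mul_sum, Finset.sum_mul, ← Finset.sum_sub_distrib, ← Finset.sum_add_distrib]
    refine Finset.sum_congr rfl fun i _ => ?_
    ring
  rw [hexp, hL1, hL2] at hsum
  have hz' : (∑ i, p i * ‖w i‖ ^ 2) = z + ‖e‖ ^ 2 := by rw [hz]; ring
  rw [hz'] at hsum
  have hmassC : (∑ i, p i * (1 + Real.exp (s i))) * C0 ≤ C0 := by
    nlinarith [hmass, hC0n]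
  rw [hC0] at hmassC hsum
  nlinarith [hsum, hmassC]

end Pool.Agent.MP_7c31d9_gt
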