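import Pool.Agent.MP_7c31d9_gt.CertData
import Pool.Agent.MP_7c31d9_gt.PIAtom

/-! The chain of gauges. -/

namespace Pool.Agent.MP_7c31d9_gt

open Complex

theorem PIok_convex {γ : Gauge} {lo hi δ a : ℝ} (h1 : PIok γ lo δ) (h2 : PIok γ hi δ)
    (hlo : lo ≤ a) (hhi : a ≤ hi) : PIok γ a δ := by
  intro J _ p s w u hp hs hm
  rcases eq_or_lt_of_le (hlo.trans hhi) with h | h
  · have : a = lo := le_antisymm (h ▸ hhi) hlo
    rw [this]; exact h1 J p s w u hp hs hm
  · have k1 := h1 J p s w u hp hs hm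
    have k2 := h2 J p s w u hp hs hm
    have e1 : (hi - a) * gaugeRate γ lo p s w u + (a - lo) * gaugeRate γ hi p s w u
        = (hi - lo) * gaugeRate γ a p s w u := by
      unfold gaugeRate
      rw [Finset.mul_sum, Finset.mul_sum, Finset.mul_sum, ← Finset.sum_add_distrib]
      refine Finset.sum_congr rfl (fun i _ => ?_)
      ring
    have k3 := mul_le_mul_of_nonneg_left k1 (show 0 ≤ hi - a by linarith)
    have k4 := mul_le_mul_of_nonneg_left k2 (show 0 ≤ a - lo by linarith)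
    have hd : 0 < hi - lo := by linarith
    have k5 : (hi - lo) * (δ * ∑ i, p i * (1 + s i) * (‖w i‖ ^ 4 + ‖u i‖ ^ 2))
        ≤ (hi - lo) * (T0 p w u + gaugeRate γ a p s w u) := by
      rw [mul_add, ← e1]
      linarith
    exact le_of_mul_le_mul_left k5 hd

theorem PIok_gauge {G : QG} {lo hi dl gT gT' : ℚ} {l l' : List Seg}
    (h1 : gaugeOK G lo dl gT l = true) (h2 : gaugeOK G hi dl gT' l' = true) {a : ℝ}
    (hlo : (lo : ℝ) ≤ a) (hhi : a ≤ (hi : ℝ)) : PIok G.toGauge a dl :=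
  PIok_convex (PIok_of_atom _ _ _ _ (two_le_k h1) (atomOK_of_gaugeOK h1))
    (PIok_of_atom _ _ _ _ (two_le_k h2) (atomOK_of_gaugeOK h2)) hlo hhi

/-- The gauges as a sequence. -/
noncomputable def chainG : ℕ → Gauge
  | 0 => G0.toGauge
  | 1 => G1.toGauge
  | 2 => G2.toGauge
  | 3 => G3.toGauge
  | 4 => G4.toGauge
  | 5 => G5.toGauge
  | 6 => G6.toGauge
  | 7 => G7.toGauge
  | _ => G8.toGauge

/-- The slopes as a sequence. -/
noncomputable def chainA : ℕ → ℝ
  | 0 => 3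
  | 1 => 1734 / 1000
  | 2 => 1070 / 1000
  | 3 => 711 / 1000
  | 4 => 461 / 1000
  | 5 => 288 / 1000
  | 6 => 171 / 1000
  | 7 => 80 / 1000
  | 8 => 10 / 1000
  | _ => 0

theorem chain : ∃ (N : ℕ) (γ : ℕ → Gauge) (a : ℕ → ℝ) (δ : ℝ), 0 < δ ∧ a 0 = 3 ∧ a N = 0 ∧
    (∀ k ≤ N, 0 ≤ a k) ∧
    (∀ k ≤ N, PIok (γ k) (a k) δ ∧ PIok (γ k) (a k + 28 / 100) δ) ∧
    (∀ k < N, PIok (γ k) (a (k + 1)) δ ∧ PIok (γ k) (a (k + 1) + 28 / 100) δ) := by
  refine ⟨9, chainG, chainA, (((1 : ℚ) / 100000 : ℚ) : ℝ), by norm_num, rfl, rfl, ?_, ?_, ?_⟩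
  · intro k hk
    interval_cases k <;> norm_num [chainA]
  · intro k hk
    interval_cases k
    · exact ⟨PIok_gauge ok0_0 ok0_1 (by norm_num [chainA]) (by norm_num [chainA]),
        PIok_gauge ok0_0 ok0_1 (by norm_num [chainA]) (by norm_num [chainA])⟩
    · exact ⟨PIok_gauge ok1_0 ok1_1 (by norm_num [chainA]) (by norm_num [chainA]),
        PIok_gauge ok1_0 ok1_1 (by norm_num [chainA]) (by norm_num [chainA])⟩
    · exact ⟨PIok_gauge ok2_0 ok2_1 (by norm_num [chainA]) (by norm_num [chainA]),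
        PIok_gauge ok2_0 ok2_1 (by norm_num [chainA]) (by norm_num [chainA])⟩
    · exact ⟨PIok_gauge ok3_0 ok3_1 (by norm_num [chainA]) (by norm_num [chainA]),
        PIok_gauge ok3_0 ok3_1 (by norm_num [chainA]) (by norm_num [chainA])⟩
    · exact ⟨PIok_gauge ok4_0 ok4_1 (by norm_num [chainA]) (by norm_num [chainA]),
        PIok_gauge ok4_0 ok4_1 (by norm_num [chainA]) (by norm_num [chainA])⟩
    · exact ⟨PIok_gauge ok5_0 ok5_1 (by norm_num [chainA]) (by norm_num [chainA]),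
        PIok_gauge ok5_0 ok5_1 (by norm_num [chainA]) (by norm_num [chainA])⟩
    · exact ⟨PIok_gauge ok6_0 ok6_1 (by norm_num [chainA]) (by norm_num [chainA]),
        PIok_gauge ok6_0 ok6_1 (by norm_num [chainA]) (by norm_num [chainA])⟩
    · exact ⟨PIok_gauge ok7_0 ok7_1 (by norm_num [chainA]) (by norm_num [chainA]),
        PIok_gauge ok7_0 ok7_1 (by norm_num [chainA]) (by norm_num [chainA])⟩
    · exact ⟨PIok_gauge ok8_0 ok8_1 (by norm_num [chainA]) (by norm_num [chainA]),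
        PIok_gauge ok8_0 ok8_1 (by norm_num [chainA]) (by norm_num [chainA])⟩
    · exact ⟨PIok_gauge ok8_0 ok8_1 (by norm_num [chainA]) (by norm_num [chainA]),
        PIok_gauge ok8_0 ok8_1 (by norm_num [chainA]) (by norm_num [chainA])⟩
  · intro k hk
    interval_cases k
    · exact ⟨PIok_gauge ok0_0 ok0_1 (by norm_num [chainA]) (by norm_num [chainA]),
        PIok_gauge ok0_0 ok0_1 (by norm_num [chainA]) (by norm_num [chainA])⟩
    · exact ⟨PIok_gauge ok1_0 ok1_1 (by norm_num [chainA]) (by norm_num [chainA]),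
        PIok_gauge ok1_0 ok1_1 (by norm_num [chainA]) (by norm_num [chainA])⟩
    · exact ⟨PIok_gauge ok2_0 ok2_1 (by norm_num [chainA]) (by norm_num [chainA]),
        PIok_gauge ok2_0 ok2_1 (by norm_num [chainA]) (by norm_num [chainA])⟩
    · exact ⟨PIok_gauge ok3_0 ok3_1 (by norm_num [chainA]) (by norm_num [chainA]),
        PIok_gauge ok3_0 ok3_1 (by norm_num [chainA]) (by norm_num [chainA])⟩
    · exact ⟨PIok_gauge ok4_0 ok4_1 (by norm_num [chainA]) (by norm_num [chainA]),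
        PIok_gauge ok4_0 ok4_1 (by norm_num [chainA]) (by norm_num [chainA])⟩
    · exact ⟨PIok_gauge ok5_0 ok5_1 (by norm_num [chainA]) (by norm_num [chainA]),
        PIok_gauge ok5_0 ok5_1 (by norm_num [chainA]) (by norm_num [chainA])⟩
    · exact ⟨PIok_gauge ok6_0 ok6_1 (by norm_num [chainA]) (by norm_num [chainA]),
        PIok_gauge ok6_0 ok6_1 (by norm_num [chainA]) (by norm_num [chainA])⟩
    · exact ⟨PIok_gauge ok7_0 ok7_1 (by norm_num [chainA]) (by norm_num [chainA]),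
        PIok_gauge ok7_0 ok7_1 (by norm_num [chainA]) (by norm_num [chainA])⟩
    · exact ⟨PIok_gauge ok8_0 ok8_1 (by norm_num [chainA]) (by norm_num [chainA]),
        PIok_gauge ok8_0 ok8_1 (by norm_num [chainA]) (by norm_num [chainA])⟩

end Pool.Agent.MP_7c31d9_gt
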