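import Pool.Agent.MP_7c31d9_gt.Defs2

/-! P7b: static perturbation inequality, full versus collapsed functional. -/

namespace Pool.Agent.MP_7c31d9_gt

namespace Perturb

open Finset

variable {ι : Type}

lemma jens2 (s : Finset ι) (x a : ι → ℝ) (hx : ∀ i ∈ s, 0 ≤ x i) (h1 : ∑ i ∈ s, x i ≤ 1) :
    (∑ i ∈ s, x i * a i) ^ 2 ≤ ∑ i ∈ s, x i * a i ^ 2 := by
  have h := Finset.sum_sq_le_sum_mul_sum_of_sq_le_mul s (r := fun i => x i * a i) (f := x)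
    (g := fun i => x i * a i ^ 2) hx (fun i hi => mul_nonneg (hx i hi) (sq_nonneg _))
    (fun i _ => le_of_eq (by ring))
  refine h.trans ?_
  have h0 : 0 ≤ ∑ i ∈ s, x i * a i ^ 2 :=
    Finset.sum_nonneg fun i hi => mul_nonneg (hx i hi) (sq_nonneg _)
  nlinarith

lemma norm_wsum (s : Finset ι) (x : ι → ℝ) (z : ι → ℂ) (hx : ∀ i ∈ s, 0 ≤ x i) :
    ‖∑ i ∈ s, (x i : ℂ) * z i‖ ≤ ∑ i ∈ s, x i * ‖z i‖ := by
  refine (norm_sum_le _ _).trans (Finset.sum_le_sum fun i hi => ?_)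
  rw [norm_mul, Complex.norm_real, Real.norm_of_nonneg (hx i hi)]

lemma norm_wsum_sq (s : Finset ι) (x : ι → ℝ) (z : ι → ℂ) (hx : ∀ i ∈ s, 0 ≤ x i)
    (h1 : ∑ i ∈ s, x i ≤ 1) :
    ‖∑ i ∈ s, (x i : ℂ) * z i‖ ^ 2 ≤ ∑ i ∈ s, x i * ‖z i‖ ^ 2 :=
  (pow_le_pow_left₀ (norm_nonneg _) (norm_wsum s x z hx) 2).trans (jens2 s x _ hx h1)

lemma jens4 (s : Finset ι) (x a : ι → ℝ) (hx : ∀ i ∈ s, 0 ≤ x i) (h1 : ∑ i ∈ s, x i ≤ 1) :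
    (∑ i ∈ s, x i * a i ^ 2) ^ 2 ≤ ∑ i ∈ s, x i * a i ^ 4 := by
  have h := jens2 s x (fun i => a i ^ 2) hx h1
  refine h.trans (le_of_eq (Finset.sum_congr rfl fun i _ => by ring))

lemma lower_add (A B : ℂ) (η : ℝ) (hη : 0 < η) :
    (1 - η) * ‖A‖ ^ 2 - (1 / η) * ‖B‖ ^ 2 ≤ ‖A + B‖ ^ 2 := by
  have h1 : ‖A‖ - ‖B‖ ≤ ‖A + B‖ := by
    have := norm_sub_norm_le A (-B)
    simpa using this
  have h2 : ‖B‖ - ‖A‖ ≤ ‖A + B‖ := by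
    have := norm_sub_norm_le B (-A)
    simp only [norm_neg, sub_neg_eq_add] at this
    rwa [add_comm] at this
  have h3 : (‖A‖ - ‖B‖) ^ 2 ≤ ‖A + B‖ ^ 2 := by
    apply sq_le_sq'
    · linarith
    · linarith
  have h4 : 0 ≤ (1 / η) * (η * ‖A‖ - ‖B‖) ^ 2 := by positivity
  have h5 : (1 / η) * (η * ‖A‖ - ‖B‖) ^ 2 = η * ‖A‖ ^ 2 - 2 * ‖A‖ * ‖B‖ + (1 / η) * ‖B‖ ^ 2 := by
    field_simp
    ring
  nlinarith [sq_nonneg ‖B‖]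

lemma norm3 (A B C : ℂ) : ‖A + B + C‖ ^ 2 ≤ 3 * (‖A‖ ^ 2 + ‖B‖ ^ 2 + ‖C‖ ^ 2) := by
  have h : ‖A + B + C‖ ≤ ‖A‖ + ‖B‖ + ‖C‖ := norm_add₃_le
  have h2 : ‖A + B + C‖ ^ 2 ≤ (‖A‖ + ‖B‖ + ‖C‖) ^ 2 := pow_le_pow_left₀ (norm_nonneg _) h 2
  nlinarith [sq_nonneg (‖A‖ - ‖B‖), sq_nonneg (‖B‖ - ‖C‖), sq_nonneg (‖A‖ - ‖C‖)]

lemma nsub2 (A B : ℂ) : ‖A - B‖ ^ 2 ≤ 2 * ‖A‖ ^ 2 + 2 * ‖B‖ ^ 2 := by
  have h4 := norm_sub_le A B
  have h5 := pow_le_pow_left₀ (norm_nonneg _) h4 2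
  nlinarith [sq_nonneg (‖A‖ - ‖B‖)]

lemma var_id_real (s : Finset ι) (x α : ι → ℝ) (γ : ℝ) :
    (∑ i ∈ s, x i * α i ^ 2) - (∑ i ∈ s, x i * α i) ^ 2
      = (∑ i ∈ s, x i * (α i - γ) ^ 2) + (1 - ∑ i ∈ s, x i) * γ ^ 2
        - ((∑ i ∈ s, x i * α i) - γ) ^ 2 := by
  have h : ∑ i ∈ s, x i * (α i - γ) ^ 2
      = (∑ i ∈ s, x i * α i ^ 2) - 2 * γ * (∑ i ∈ s, x i * α i) + γ ^ 2 * ∑ i ∈ s, x i := by
    rw [Finset.mul_sum, Finset.mul_sum, ← Finset.sum_sub_distrib, ← Finset.sum_add_distrib]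
    exact Finset.sum_congr rfl fun i _ => by ring
  rw [h]
  ring

lemma var_id (s : Finset ι) (x : ι → ℝ) (z : ι → ℂ) (c : ℂ) :
    (∑ i ∈ s, x i * ‖z i‖ ^ 2) - ‖∑ i ∈ s, (x i : ℂ) * z i‖ ^ 2
      = (∑ i ∈ s, x i * ‖z i - c‖ ^ 2) + (1 - ∑ i ∈ s, x i) * ‖c‖ ^ 2
        - ‖(∑ i ∈ s, (x i : ℂ) * z i) - c‖ ^ 2 := by
  have h1 := var_id_real s x (fun i => (z i).re) c.re
  have h2 := var_id_real s x (fun i => (z i).im) c.im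
  simp only [Complex.sq_norm, Complex.normSq_apply, Complex.re_sum, Complex.im_sum,
    Complex.re_ofReal_mul, Complex.im_ofReal_mul, Complex.sub_re, Complex.sub_im]
  have e1 : ∑ i ∈ s, x i * ((z i).re * (z i).re + (z i).im * (z i).im)
      = (∑ i ∈ s, x i * (z i).re ^ 2) + ∑ i ∈ s, x i * (z i).im ^ 2 := by
    rw [← Finset.sum_add_distrib]
    exact Finset.sum_congr rfl fun i _ => by ring
  have e2 : ∑ i ∈ s, x i * (((z i).re - c.re) * ((z i).re - c.re)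
        + ((z i).im - c.im) * ((z i).im - c.im))
      = (∑ i ∈ s, x i * ((z i).re - c.re) ^ 2) + ∑ i ∈ s, x i * ((z i).im - c.im) ^ 2 := by
    rw [← Finset.sum_add_distrib]
    exact Finset.sum_congr rfl fun i _ => by ring
  rw [e1, e2]
  linarith

lemma sum_sub_sq_real (s : Finset ι) (α : ι → ℝ) (γ : ℝ) (h0 : ∑ i ∈ s, α i = 0) :
    ∑ i ∈ s, (α i - γ) ^ 2 = (∑ i ∈ s, α i ^ 2) + (s.card : ℝ) * γ ^ 2 := by
  have h : ∑ i ∈ s, (α i - γ) ^ 2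
      = (∑ i ∈ s, α i ^ 2) - 2 * γ * (∑ i ∈ s, α i) + ∑ _i ∈ s, γ ^ 2 := by
    rw [Finset.mul_sum, ← Finset.sum_sub_distrib, ← Finset.sum_add_distrib]
    exact Finset.sum_congr rfl fun i _ => by ring
  rw [h, h0, Finset.sum_const, nsmul_eq_mul]
  ring

lemma sum_sub_sq (s : Finset ι) (z : ι → ℂ) (c : ℂ) (h0 : ∑ i ∈ s, z i = 0) :
    ∑ i ∈ s, ‖z i - c‖ ^ 2 = (∑ i ∈ s, ‖z i‖ ^ 2) + (s.card : ℝ) * ‖c‖ ^ 2 := by
  have hr : ∑ i ∈ s, (z i).re = 0 := by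
    have := congrArg Complex.re h0
    simpa using this
  have hi : ∑ i ∈ s, (z i).im = 0 := by
    have := congrArg Complex.im h0
    simpa using this
  have h1 := sum_sub_sq_real s (fun i => (z i).re) c.re hr
  have h2 := sum_sub_sq_real s (fun i => (z i).im) c.im hi
  simp only [Complex.sq_norm, Complex.normSq_apply, Complex.sub_re, Complex.sub_im]
  rw [Finset.sum_add_distrib, Finset.sum_add_distrib]
  simp only [← pow_two]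
  linarith

lemma aux3 (κ η ρ G : ℝ) (hκ : 0 ≤ κ) (hη : 0 < η)
    (hρ : 0 < ρ) (hρ1 : ρ ≤ 1) (hG : 0 ≤ G) :
    (1 - κ) * ρ * ((1 / η) * G) ≤ (1 / η) * G := by
  have h1 : (1 - κ) * ρ ≤ 1 := by nlinarith
  have h0 : 0 ≤ (1 / η) * G := by positivity
  nlinarith

lemma aux4 (κ η r c : ℝ) (hκ : 0 ≤ κ) (hη : 0 < η) (hκ1 : κ ≤ 1)
    (hr : 0 ≤ r) (hr1 : r ≤ 1) (hc : 0 ≤ c) :
    (1 - (1 - κ) * (1 - η)) * r * c ≤ (κ + η) * c := by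
  have h5 : (1 - (1 - κ) * (1 - η)) ≤ κ + η := by nlinarith
  have h7 : (1 - (1 - κ) * (1 - η)) * r ≤ κ + η := by
    have h6 : 0 ≤ (1 - (1 - κ) * (1 - η)) := by nlinarith
    nlinarith
  exact mul_le_mul_of_nonneg_right h7 hc

/-- Comparison of the variances. -/
lemma var_compare [Fintype ι] [DecidableEq ι] (T : Finset ι) (x P : ι → ℝ) (om mu : ι → ℂ)
    (κ η ρ : ℝ) (hκ : 0 ≤ κ) (hκη : κ ≤ η) (hη : 0 < η) (hη1 : η ≤ 1 / 1000)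
    (hx : ∀ i ∈ Tᶜ, 0 ≤ x i) (hxP : ∀ i ∈ Tᶜ, x i ≤ P i)
    (hPT : ∀ i ∈ T, (1 - κ) * ρ ≤ P i) (hP1 : ∑ i, P i = 1)
    (hmass : ∑ i ∈ Tᶜ, x i + T.card * ρ = 1) (hρ : 0 < ρ) (hρ1 : ρ ≤ 1)
    (hmu : ∑ i ∈ T, mu i = 0) (e es c : ℂ)
    (hc : c = ∑ i, (P i : ℂ) * (om i ^ 2 - 2 * e * om i + mu i)) :
    (∑ i ∈ Tᶜ, x i * ‖om i ^ 2 - 2 * es * om i + mu i‖ ^ 2)
        - ‖∑ i ∈ Tᶜ, (x i : ℂ) * (om i ^ 2 - 2 * es * om i + mu i)‖ ^ 2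
        + (1 - κ) * (1 - η) * ρ * (∑ i ∈ T, ‖mu i‖ ^ 2) - (κ + η) * ‖c‖ ^ 2
        - (1 / η) * (∑ i ∈ T, ‖om i ^ 2 - 2 * e * om i‖ ^ 2)
        - η * (∑ i ∈ Tᶜ, x i * ‖om i ^ 2 - 2 * es * om i + mu i - c‖ ^ 2)
        - (4 / η) * (‖e - es‖ ^ 2 * ∑ i ∈ Tᶜ, x i * ‖om i‖ ^ 2)
      ≤ (∑ i, P i * ‖om i ^ 2 - 2 * e * om i + mu i‖ ^ 2) - ‖c‖ ^ 2 := by
  have hV := var_id Finset.univ P (fun i => om i ^ 2 - 2 * e * om i + mu i) c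
  rw [← hc, hP1] at hV
  simp only [sub_self, zero_mul, add_zero, norm_zero, ne_eq, OfNat.ofNat_ne_zero,
    not_false_eq_true, zero_pow, sub_zero] at hV
  rw [hV]
  have hsplit := (Finset.sum_add_sum_compl T
    (fun i => P i * ‖om i ^ 2 - 2 * e * om i + mu i - c‖ ^ 2))
  rw [← hsplit]
  have hVs := var_id Tᶜ x (fun i => om i ^ 2 - 2 * es * om i + mu i) c
  rw [hVs]
  set H := ∑ i ∈ Tᶜ, x i * ‖om i ^ 2 - 2 * es * om i + mu i - c‖ ^ 2 with hH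
  set p1 := ∑ i ∈ Tᶜ, x i * ‖om i‖ ^ 2 with hp1
  set G := ∑ i ∈ T, ‖om i ^ 2 - 2 * e * om i‖ ^ 2 with hG
  set M2 := ∑ i ∈ T, ‖mu i‖ ^ 2 with hM2
  -- outside T
  have h1 : (1 - η) * H - (4 / η) * (‖e - es‖ ^ 2 * p1)
      ≤ ∑ i ∈ Tᶜ, P i * ‖om i ^ 2 - 2 * e * om i + mu i - c‖ ^ 2 := by
    rw [hH, hp1, Finset.mul_sum, Finset.mul_sum, Finset.mul_sum, ← Finset.sum_sub_distrib]
    refine Finset.sum_le_sum fun i hi => ?_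
    have hl := lower_add (om i ^ 2 - 2 * es * om i + mu i - c) (-(2 * (e - es) * om i)) η hη
    have he : (om i ^ 2 - 2 * es * om i + mu i - c) + (-(2 * (e - es) * om i))
        = om i ^ 2 - 2 * e * om i + mu i - c := by ring
    rw [he] at hl
    have hn : ‖-(2 * (e - es) * om i)‖ ^ 2 = 4 * ‖e - es‖ ^ 2 * ‖om i‖ ^ 2 := by
      rw [norm_neg, norm_mul, norm_mul, Complex.norm_ofNat]
      ring
    rw [hn] at hl
    have hxi := hx i hi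
    have hxPi := hxP i hi
    have hn0 : 0 ≤ ‖om i ^ 2 - 2 * e * om i + mu i - c‖ ^ 2 := by positivity
    calc (1 - η) * (x i * ‖om i ^ 2 - 2 * es * om i + mu i - c‖ ^ 2)
          - 4 / η * (‖e - es‖ ^ 2 * (x i * ‖om i‖ ^ 2))
        = x i * ((1 - η) * ‖om i ^ 2 - 2 * es * om i + mu i - c‖ ^ 2
          - 1 / η * (4 * ‖e - es‖ ^ 2 * ‖om i‖ ^ 2)) := by ring
      _ ≤ x i * ‖om i ^ 2 - 2 * e * om i + mu i - c‖ ^ 2 :=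
          mul_le_mul_of_nonneg_left hl hxi
      _ ≤ P i * ‖om i ^ 2 - 2 * e * om i + mu i - c‖ ^ 2 :=
          mul_le_mul_of_nonneg_right hxPi hn0
  -- on T
  have h2 : (1 - κ) * ρ * ((1 - η) * (M2 + T.card * ‖c‖ ^ 2) - (1 / η) * G)
      ≤ ∑ i ∈ T, P i * ‖om i ^ 2 - 2 * e * om i + mu i - c‖ ^ 2 := by
    have hms := sum_sub_sq T mu c hmu
    rw [← hM2] at hms
    rw [← hms, hG, Finset.mul_sum, Finset.mul_sum, ← Finset.sum_sub_distrib, Finset.mul_sum]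
    refine Finset.sum_le_sum fun i hi => ?_
    have hl := lower_add (mu i - c) (om i ^ 2 - 2 * e * om i) η hη
    have he : (mu i - c) + (om i ^ 2 - 2 * e * om i) = om i ^ 2 - 2 * e * om i + mu i - c := by
      ring
    rw [he] at hl
    have hn0 : 0 ≤ ‖om i ^ 2 - 2 * e * om i + mu i - c‖ ^ 2 := by positivity
    have hk : 0 ≤ (1 - κ) * ρ := by
      apply mul_nonneg _ hρ.le
      linarith
    calc (1 - κ) * ρ * ((1 - η) * ‖mu i - c‖ ^ 2 - 1 / η * ‖om i ^ 2 - 2 * e * om i‖ ^ 2)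
        ≤ (1 - κ) * ρ * ‖om i ^ 2 - 2 * e * om i + mu i - c‖ ^ 2 :=
          mul_le_mul_of_nonneg_left hl hk
      _ ≤ P i * ‖om i ^ 2 - 2 * e * om i + mu i - c‖ ^ 2 :=
          mul_le_mul_of_nonneg_right (hPT i hi) hn0
  have hX : 1 - ∑ i ∈ Tᶜ, x i = T.card * ρ := by linarith
  rw [hX]
  have hsq : 0 ≤ ‖(∑ i ∈ Tᶜ, (x i : ℂ) * (om i ^ 2 - 2 * es * om i + mu i)) - c‖ ^ 2 := by
    positivity
  have hcard : (T.card : ℝ) * ρ ≤ 1 := by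
    have : 0 ≤ ∑ i ∈ Tᶜ, x i := Finset.sum_nonneg hx
    linarith
  have hcard0 : 0 ≤ (T.card : ℝ) * ρ := by positivity
  have hG0 : 0 ≤ G := Finset.sum_nonneg fun i _ => by positivity
  have hM0 : 0 ≤ M2 := Finset.sum_nonneg fun i _ => by positivity
  have hc0 : 0 ≤ ‖c‖ ^ 2 := by positivity
  have hκ1 : κ ≤ 1 := by linarith
  have h3 : (1 - κ) * ρ * ((1 / η) * G) ≤ (1 / η) * G := aux3 κ η ρ G hκ hη hρ hρ1 hG0
  have h4 : (1 - (1 - κ) * (1 - η)) * (T.card * ρ) * ‖c‖ ^ 2 ≤ (κ + η) * ‖c‖ ^ 2 :=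
    aux4 κ η _ _ hκ hη hκ1 hcard0 hcard hc0
  have h8 : (1 - κ) * ρ * ((1 - η) * (M2 + T.card * ‖c‖ ^ 2) - (1 / η) * G)
      = (1 - κ) * (1 - η) * ρ * M2 + (T.card * ρ) * ‖c‖ ^ 2
        - (1 - (1 - κ) * (1 - η)) * (T.card * ρ) * ‖c‖ ^ 2 - (1 - κ) * ρ * ((1 / η) * G) := by
    ring
  rw [h8] at h2
  linarith

lemma sum_le_of (s : Finset ι) (f g : ι → ℝ) (z : ι → ℝ) (h : ∀ i ∈ s, f i ≤ g i)
    (hz : ∀ i ∈ s, 0 ≤ z i) : ∑ i ∈ s, f i * z i ≤ ∑ i ∈ s, g i * z i :=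
  Finset.sum_le_sum fun i hi => mul_le_mul_of_nonneg_right (h i hi) (hz i hi)

/-- Moments of the full measure against those of the collapsed one. -/
lemma full_moment [Fintype ι] [DecidableEq ι] (T : Finset ι) (x P z : ι → ℝ)
    (hx2 : ∀ i ∈ Tᶜ, P i ≤ 2 * x i) (hP0 : ∀ i, 0 ≤ P i) (hP1 : ∑ i, P i = 1)
    (hz : ∀ i, 0 ≤ z i) :
    ∑ i, P i * z i ≤ 2 * (∑ i ∈ Tᶜ, x i * z i) + ∑ i ∈ T, z i := by
  rw [← Finset.sum_add_sum_compl T (fun i => P i * z i)]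
  have h1 : ∑ i ∈ T, P i * z i ≤ ∑ i ∈ T, z i := by
    refine Finset.sum_le_sum fun i _ => ?_
    have : P i ≤ 1 := by
      rw [← hP1]
      exact Finset.single_le_sum (fun j _ => hP0 j) (Finset.mem_univ i)
    nlinarith [hz i]
  have h2 : ∑ i ∈ Tᶜ, P i * z i ≤ 2 * ∑ i ∈ Tᶜ, x i * z i := by
    rw [Finset.mul_sum]
    refine Finset.sum_le_sum fun i hi => ?_
    have := mul_le_mul_of_nonneg_right (hx2 i hi) (hz i)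
    linarith
  linarith

/-- second moment of `h`. -/
lemma h_moment (s : Finset ι) (x : ι → ℝ) (om mu : ι → ℂ) (e : ℂ)
    (hx : ∀ i ∈ s, 0 ≤ x i) (h1 : ∑ i ∈ s, x i ≤ 1) (he : ‖e‖ ^ 2 ≤ ∑ i ∈ s, x i * ‖om i‖ ^ 2) :
    ∑ i ∈ s, x i * ‖om i ^ 2 - 2 * e * om i + mu i‖ ^ 2
      ≤ 15 * (∑ i ∈ s, x i * ‖om i‖ ^ 4) + 3 * ∑ i ∈ s, x i * ‖mu i‖ ^ 2 := by
  have h2 : ∑ i ∈ s, x i * ‖om i ^ 2 - 2 * e * om i + mu i‖ ^ 2
      ≤ 3 * (∑ i ∈ s, x i * ‖om i‖ ^ 4) + 12 * ‖e‖ ^ 2 * (∑ i ∈ s, x i * ‖om i‖ ^ 2)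
        + 3 * ∑ i ∈ s, x i * ‖mu i‖ ^ 2 := by
    rw [Finset.mul_sum, Finset.mul_sum, Finset.mul_sum, ← Finset.sum_add_distrib,
      ← Finset.sum_add_distrib]
    refine Finset.sum_le_sum fun i hi => ?_
    have h3 := norm3 (om i ^ 2) (-(2 * e * om i)) (mu i)
    rw [norm_neg, norm_mul, norm_mul, Complex.norm_ofNat, norm_pow, ← sub_eq_add_neg] at h3
    have h4 := mul_le_mul_of_nonneg_left h3 (hx i hi)
    calc _ ≤ _ := h4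
      _ = _ := by ring
  have h5 := jens4 s x (fun i => ‖om i‖) hx h1
  have h6 : 0 ≤ ∑ i ∈ s, x i * ‖om i‖ ^ 2 :=
    Finset.sum_nonneg fun i hi => mul_nonneg (hx i hi) (sq_nonneg _)
  have h7 : ‖e‖ ^ 2 * (∑ i ∈ s, x i * ‖om i‖ ^ 2) ≤ (∑ i ∈ s, x i * ‖om i‖ ^ 2) ^ 2 := by
    rw [pow_two (∑ i ∈ s, x i * ‖om i‖ ^ 2)]
    exact mul_le_mul_of_nonneg_right he h6
  nlinarith

/-- The two means are close. -/
lemma mean_close [Fintype ι] [DecidableEq ι] (T : Finset ι) (x P : ι → ℝ) (om : ι → ℂ)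
    (κ : ℝ)
    (hx : ∀ i ∈ Tᶜ, 0 ≤ x i) (hx1 : ∑ i ∈ Tᶜ, x i ≤ 1) (hxP : ∀ i ∈ Tᶜ, x i ≤ P i)
    (hPx : ∀ i ∈ Tᶜ, P i - x i ≤ 2 * κ * x i) (hP0 : ∀ i, 0 ≤ P i) (hP1 : ∑ i, P i = 1) :
    ‖(∑ i, (P i : ℂ) * om i) - ∑ i ∈ Tᶜ, (x i : ℂ) * om i‖ ^ 2
      ≤ 2 * (4 * κ ^ 2 * (∑ i ∈ Tᶜ, x i * ‖om i‖ ^ 2) + ∑ i ∈ T, P i * ‖om i‖ ^ 2) := by
  have h1 : (∑ i, (P i : ℂ) * om i) - ∑ i ∈ Tᶜ, (x i : ℂ) * om i
      = (∑ i ∈ Tᶜ, ((P i - x i : ℝ) : ℂ) * om i) + ∑ i ∈ T, (P i : ℂ) * om i := by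
    rw [← Finset.sum_add_sum_compl T (fun i => (P i : ℂ) * om i)]
    have : ∑ i ∈ Tᶜ, ((P i - x i : ℝ) : ℂ) * om i
        = (∑ i ∈ Tᶜ, (P i : ℂ) * om i) - ∑ i ∈ Tᶜ, (x i : ℂ) * om i := by
      rw [← Finset.sum_sub_distrib]
      refine Finset.sum_congr rfl fun i _ => ?_
      push_cast
      ring
    rw [this]
    ring
  rw [h1]
  have h2 : ‖∑ i ∈ Tᶜ, ((P i - x i : ℝ) : ℂ) * om i‖ ≤ 2 * κ * ∑ i ∈ Tᶜ, x i * ‖om i‖ := by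
    refine (norm_wsum Tᶜ (fun i => P i - x i) om (fun i hi => sub_nonneg.2 (hxP i hi))).trans ?_
    rw [Finset.mul_sum]
    refine Finset.sum_le_sum fun i hi => ?_
    have := mul_le_mul_of_nonneg_right (hPx i hi) (norm_nonneg (om i))
    linarith
  have hPT1 : ∑ i ∈ T, P i ≤ 1 := by
    rw [← hP1]
    exact Finset.sum_le_sum_of_subset_of_nonneg (Finset.subset_univ T) fun i _ _ => hP0 i
  have h3 := norm_wsum_sq T P om (fun i _ => hP0 i) hPT1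
  have h4 := jens2 Tᶜ x (fun i => ‖om i‖) hx hx1
  have h5 : ‖∑ i ∈ Tᶜ, ((P i - x i : ℝ) : ℂ) * om i‖ ^ 2
      ≤ 4 * κ ^ 2 * ∑ i ∈ Tᶜ, x i * ‖om i‖ ^ 2 := by
    calc _ ≤ (2 * κ * ∑ i ∈ Tᶜ, x i * ‖om i‖) ^ 2 := pow_le_pow_left₀ (norm_nonneg _) h2 2
      _ = 4 * κ ^ 2 * (∑ i ∈ Tᶜ, x i * ‖om i‖) ^ 2 := by ring
      _ ≤ _ := mul_le_mul_of_nonneg_left h4 (by positivity)
  have h6 := norm_add_le (∑ i ∈ Tᶜ, ((P i - x i : ℝ) : ℂ) * om i) (∑ i ∈ T, (P i : ℂ) * om i)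
  have h7 := pow_le_pow_left₀ (norm_nonneg _) h6 2
  nlinarith [sq_nonneg (‖∑ i ∈ Tᶜ, ((P i - x i : ℝ) : ℂ) * om i‖
    - ‖∑ i ∈ T, (P i : ℂ) * om i‖)]

lemma ar_F (κ A X4 p1 r2 F : ℝ) (hF : 0 ≤ F)
    (hA : p1 ^ 2 ≤ A) (hX : r2 ^ 2 ≤ X4) (h : F ≤ 2 * (4 * κ ^ 2 * p1 + r2)) :
    F ^ 2 ≤ 8 * (16 * κ ^ 4 * A + X4) := by
  have h1 : F ^ 2 ≤ (2 * (4 * κ ^ 2 * p1 + r2)) ^ 2 := pow_le_pow_left₀ hF h 2
  have h2 : κ ^ 4 * p1 ^ 2 ≤ κ ^ 4 * A := mul_le_mul_of_nonneg_left hA (by positivity)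
  nlinarith [sq_nonneg (4 * κ ^ 2 * p1 - r2)]

lemma ar_D (κ ε A X4 p1 r2 F f e' es' a1 a2 D : ℝ) (hε : 0 < ε)
    (hf : 0 ≤ f) (he : 0 ≤ e') (hes : 0 ≤ es')
    (hFf : F = f ^ 2) (hA : p1 ^ 2 ≤ A) (hX : r2 ^ 2 ≤ X4)
    (ha1 : 0 ≤ a1) (ha1' : a1 ≤ 2 * κ * p1 + r2) (ha2 : |a2| ≤ f * (e' + es'))
    (hD : D = a1 - a2) (he4 : (e' ^ 2) ^ 2 ≤ 2 * A + X4) (hes4 : (es' ^ 2) ^ 2 ≤ A) :
    D ^ 2 ≤ 3 * (4 * κ ^ 2 * A + X4 + (1 / ε) * F ^ 2 + ε * (6 * A + 2 * X4)) := by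
  have hDabs : |D| ≤ 2 * κ * p1 + r2 + f * (e' + es') := by
    rw [hD]
    calc |a1 - a2| ≤ |a1| + |a2| := abs_sub _ _
      _ ≤ _ := by rw [abs_of_nonneg ha1]; linarith
  have h0 : 0 ≤ f * (e' + es') := by positivity
  have h1 : D ^ 2 ≤ (2 * κ * p1 + r2 + f * (e' + es')) ^ 2 := by
    rw [← sq_abs D]
    exact pow_le_pow_left₀ (abs_nonneg _) hDabs 2
  have h2 : (2 * κ * p1 + r2 + f * (e' + es')) ^ 2
      ≤ 3 * ((2 * κ * p1) ^ 2 + r2 ^ 2 + (f * (e' + es')) ^ 2) := by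
    nlinarith [sq_nonneg (2 * κ * p1 - r2), sq_nonneg (2 * κ * p1 - f * (e' + es')),
      sq_nonneg (r2 - f * (e' + es'))]
  have h3 : (f * (e' + es')) ^ 2 ≤ F * (2 * (e' ^ 2 + es' ^ 2)) := by
    rw [hFf, mul_pow]
    refine mul_le_mul_of_nonneg_left ?_ (sq_nonneg _)
    nlinarith [sq_nonneg (e' - es')]
  have h4 : F * (2 * (e' ^ 2 + es' ^ 2)) ≤ (1 / ε) * F ^ 2 + ε * (e' ^ 2 + es' ^ 2) ^ 2 := by
    have : (1 / ε) * F ^ 2 + ε * (e' ^ 2 + es' ^ 2) ^ 2 - F * (2 * (e' ^ 2 + es' ^ 2))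
        = (1 / ε) * (F - ε * (e' ^ 2 + es' ^ 2)) ^ 2 := by
      field_simp
      ring
    have h5 : 0 ≤ (1 / ε) * (F - ε * (e' ^ 2 + es' ^ 2)) ^ 2 := by positivity
    linarith
  have h6 : (e' ^ 2 + es' ^ 2) ^ 2 ≤ 6 * A + 2 * X4 := by
    nlinarith [sq_nonneg (e' ^ 2 - es' ^ 2)]
  have h7 : ε * (e' ^ 2 + es' ^ 2) ^ 2 ≤ ε * (6 * A + 2 * X4) :=
    mul_le_mul_of_nonneg_left h6 hε.le
  have h8 : (2 * κ * p1) ^ 2 ≤ 4 * κ ^ 2 * A := by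
    have := mul_le_mul_of_nonneg_left hA (show (0 : ℝ) ≤ 4 * κ ^ 2 by positivity)
    linarith
  linarith

lemma ar_v (η A vs D v : ℝ) (hη : 0 < η) (hη1 : η ≤ 1) (hvs : vs ^ 2 ≤ A) (hv : v = vs + D) :
    2 * v ^ 2 ≤ 2 * vs ^ 2 + 2 * η * A + (4 / η) * D ^ 2 := by
  have h1 : 2 * v ^ 2 ≤ 2 * vs ^ 2 + 2 * η * vs ^ 2 + (2 + 2 / η) * D ^ 2 := by
    have : 2 * vs ^ 2 + 2 * η * vs ^ 2 + (2 + 2 / η) * D ^ 2 - 2 * v ^ 2
        = (2 / η) * (η * vs - D) ^ 2 := by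
      rw [hv]
      field_simp
      ring
    have h5 : 0 ≤ (2 / η) * (η * vs - D) ^ 2 := by positivity
    linarith
  have h2 : (2 + 2 / η) * D ^ 2 ≤ (4 / η) * D ^ 2 := by
    refine mul_le_mul_of_nonneg_right ?_ (sq_nonneg _)
    have : 2 ≤ 2 / η := by
      rw [le_div_iff₀ hη]
      linarith
    have h3 : 4 / η = 2 / η + 2 / η := by ring
    linarith
  have h3 : η * vs ^ 2 ≤ η * A := mul_le_mul_of_nonneg_left hvs hη.le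
  linarith

lemma ar_G (ε N1 A X4 E2 Y G : ℝ) (hε : 0 < ε) (hE : E2 ^ 2 ≤ 2 * A + X4)
    (hY : Y ^ 2 ≤ N1 * X4) (hG : G ≤ 2 * X4 + 8 * E2 * Y) :
    G ≤ 2 * X4 + ε * (2 * A + X4) + (16 * N1 / ε) * X4 := by
  have h1 : 8 * E2 * Y ≤ ε * E2 ^ 2 + (16 / ε) * Y ^ 2 := by
    have : ε * E2 ^ 2 + (16 / ε) * Y ^ 2 - 8 * E2 * Y = (1 / ε) * (ε * E2 - 4 * Y) ^ 2 := by
      field_simp
      ring
    have h5 : 0 ≤ (1 / ε) * (ε * E2 - 4 * Y) ^ 2 := by positivity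
    linarith
  have h2 : ε * E2 ^ 2 ≤ ε * (2 * A + X4) := mul_le_mul_of_nonneg_left hE hε.le
  have h3 : (16 / ε) * Y ^ 2 ≤ (16 / ε) * (N1 * X4) :=
    mul_le_mul_of_nonneg_left hY (by positivity)
  have h4 : (16 / ε) * (N1 * X4) = (16 * N1 / ε) * X4 := by ring
  linarith

/-- The final absorption. -/
lemma ar_final (η ε θ N1 A B X4 M2 p1 F C2 H G D : ℝ) (hε : 0 < ε) (hη : 0 < η)
    (hε1 : ε ≤ 1 / 1000) (hεη : ε ≤ η) (hθ : 0 < θ)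
    (hηθ : 1000 * η ≤ θ) (hεηθ : 1000 * ε ≤ η * θ)
    (hA : 0 ≤ A) (hB : 0 ≤ B) (hX : 0 ≤ X4) (hp : p1 ^ 2 ≤ A)
    (hF : F ^ 2 ≤ 8 * (16 * ε ^ 4 * A + X4))
    (hC : C2 ≤ 15 * (2 * A + X4) + 3 * (2 * B + M2))
    (hH : H ≤ 2 * (15 * A + 3 * B) + 2 * C2)
    (hG : G ≤ 2 * X4 + ε * (2 * A + X4) + (16 * N1 / ε) * X4)
    (hD : D ^ 2 ≤ 3 * (4 * ε ^ 2 * A + X4 + (1 / ε) * F ^ 2 + ε * (6 * A + 2 * X4)))
    (hC0 : 0 ≤ C2) :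
    (ε + η) * C2 + η * H + 2 * η * A + (1 / η) * G + (4 / η) * (F * p1) + (4 / η) * D ^ 2
      ≤ θ * (A + B) + (60 * η + (1 / η) * (15 + (16 * N1 + 112) / ε)) * X4
        + 12 * η * M2 := by
  have e1 : (ε + η) * C2 ≤ 2 * η * C2 := by nlinarith
  have e2 : η * H ≤ η * (2 * (15 * A + 3 * B) + 2 * C2) := mul_le_mul_of_nonneg_left hH hη.le
  have e3 : 4 * η * C2 ≤ 4 * η * (15 * (2 * A + X4) + 3 * (2 * B + M2)) :=
    mul_le_mul_of_nonneg_left hC (by positivity)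
  have e4 : 4 * (F * p1) ≤ (2 / ε) * F ^ 2 + 2 * ε * A := by
    have : (2 / ε) * F ^ 2 + 2 * ε * p1 ^ 2 - 4 * (F * p1) = (2 / ε) * (F - ε * p1) ^ 2 := by
      field_simp
      ring
    have h5 : 0 ≤ (2 / ε) * (F - ε * p1) ^ 2 := by positivity
    have h6 : ε * p1 ^ 2 ≤ ε * A := mul_le_mul_of_nonneg_left hp hε.le
    linarith
  have e5 : (14 / ε) * F ^ 2 ≤ (14 / ε) * (8 * (16 * ε ^ 4 * A + X4)) :=
    mul_le_mul_of_nonneg_left hF (by positivity)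
  have e6 : (14 / ε) * (8 * (16 * ε ^ 4 * A + X4)) = 1792 * ε ^ 3 * A + (112 / ε) * X4 := by
    field_simp
    ring
  have e7 : ε ^ 3 * A ≤ (1 / 1000000) * ε * A := by
    refine mul_le_mul_of_nonneg_right ?_ hA
    nlinarith
  have e8 : ε ^ 2 * A ≤ (1 / 1000) * ε * A := by
    refine mul_le_mul_of_nonneg_right ?_ hA
    nlinarith
  have e9 : G + 4 * (F * p1) + 4 * D ^ 2
      ≤ 78 * ε * A + (15 + (16 * N1 + 112) / ε) * X4 := by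
    have h1 : (16 * N1 + 112) / ε * X4 = 16 * N1 / ε * X4 + 112 / ε * X4 := by ring
    have h2 : (15 + (16 * N1 + 112) / ε) * X4 = 15 * X4 + (16 * N1 + 112) / ε * X4 := by ring
    rw [h2, h1]
    have h3 : ε * X4 ≤ (1 / 1000) * X4 := mul_le_mul_of_nonneg_right hε1 hX
    have h4 : (14 / ε) * F ^ 2 = (2 / ε) * F ^ 2 + 12 * ((1 / ε) * F ^ 2) := by ring
    have h5 : 0 ≤ ε * A := by positivity
    linarith
  have e10 : (1 / η) * (G + 4 * (F * p1) + 4 * D ^ 2)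
      ≤ (1 / η) * (78 * ε * A + (15 + (16 * N1 + 112) / ε) * X4) :=
    mul_le_mul_of_nonneg_left e9 (by positivity)
  have e11 : (1 / η) * (78 * ε * A) ≤ (78 / 1000) * θ * A := by
    have : (1 / η) * (78 * ε * A) = (78 / 1000) * ((1 / η) * (1000 * ε)) * A := by ring
    rw [this]
    have h2 : (1 / η) * (1000 * ε) ≤ θ := by
      rw [one_div, inv_mul_le_iff₀ hη]
      exact hεηθ
    nlinarith
  have e12 : (1 / η) * (G + 4 * (F * p1) + 4 * D ^ 2)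
      = (1 / η) * G + (4 / η) * (F * p1) + (4 / η) * D ^ 2 := by ring
  have e13 : η * A ≤ (1 / 1000) * θ * A := mul_le_mul_of_nonneg_right (by linarith) hA
  have e14 : η * B ≤ (1 / 1000) * θ * B := mul_le_mul_of_nonneg_right (by linarith) hB
  have e15 : 0 ≤ θ * A := by positivity
  have e16 : 0 ≤ θ * B := by positivity
  have e17 : (1 / η) * (78 * ε * A + (15 + (16 * N1 + 112) / ε) * X4)
      = (1 / η) * (78 * ε * A) + (1 / η) * (15 + (16 * N1 + 112) / ε) * X4 := by ring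
  have e18 : (60 * η + (1 / η) * (15 + (16 * N1 + 112) / ε)) * X4
      = 60 * η * X4 + (1 / η) * (15 + (16 * N1 + 112) / ε) * X4 := by ring
  rw [e18]
  rw [e12, e17] at e10
  linarith

lemma static [Fintype ι] [DecidableEq ι] (T : Finset ι) (x P : ι → ℝ) (om mu : ι → ℂ)
    (ε η ρ θ N1 : ℝ) (hε : 0 < ε) (hε1 : ε ≤ 1 / 1000) (hεη : ε ≤ η) (hη1 : η ≤ 1 / 1000)
    (hθ : 0 < θ) (hηθ : 1000 * η ≤ θ) (hεηθ : 1000 * ε ≤ η * θ) (hN : (T.card : ℝ) ≤ N1)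
    (hx : ∀ i ∈ Tᶜ, 0 ≤ x i) (hxP : ∀ i ∈ Tᶜ, x i ≤ P i)
    (hPx : ∀ i ∈ Tᶜ, P i - x i ≤ 2 * ε * x i) (hP0 : ∀ i, 0 ≤ P i)
    (hPT : ∀ i ∈ T, (1 - ε) * ρ ≤ P i) (hP1 : ∑ i, P i = 1)
    (hmass : ∑ i ∈ Tᶜ, x i + T.card * ρ = 1) (hρ : 0 < ρ) (hρ1 : ρ ≤ 1)
    (hmu : ∑ i ∈ T, mu i = 0) (e es c : ℂ)
    (he : e = ∑ i, (P i : ℂ) * om i) (hes : es = ∑ i ∈ Tᶜ, (x i : ℂ) * om i)
    (hc : c = ∑ i, (P i : ℂ) * (om i ^ 2 - 2 * e * om i + mu i)) :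
    (∑ i ∈ Tᶜ, x i * ‖om i ^ 2 - 2 * es * om i + mu i‖ ^ 2)
        - ‖∑ i ∈ Tᶜ, (x i : ℂ) * (om i ^ 2 - 2 * es * om i + mu i)‖ ^ 2
        - 2 * ((∑ i ∈ Tᶜ, x i * ‖om i‖ ^ 2) - ‖es‖ ^ 2) ^ 2
        - θ * ((∑ i ∈ Tᶜ, x i * ‖om i‖ ^ 4) + ∑ i ∈ Tᶜ, x i * ‖mu i‖ ^ 2)
        - (60 * η + (1 / η) * (15 + (16 * N1 + 112) / ε)) * (∑ i ∈ T, ‖om i‖ ^ 4)
        + ((1 - ε) * (1 - η) * ρ - 12 * η) * (∑ i ∈ T, ‖mu i‖ ^ 2)
      ≤ (∑ i, P i * ‖om i ^ 2 - 2 * e * om i + mu i‖ ^ 2) - ‖c‖ ^ 2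
        - 2 * ((∑ i, P i * ‖om i‖ ^ 2) - ‖e‖ ^ 2) ^ 2 := by
  have hη : 0 < η := lt_of_lt_of_le hε hεη
  have hx1 : ∑ i ∈ Tᶜ, x i ≤ 1 := by
    have : 0 ≤ (T.card : ℝ) * ρ := by positivity
    linarith
  have hPle : ∀ i ∈ Tᶜ, P i ≤ 2 * x i := fun i hi => by
    have h1 := hPx i hi
    have h2 := hx i hi
    nlinarith
  have hP1' : ∑ i ∈ (Finset.univ : Finset ι), P i ≤ 1 := le_of_eq hP1
  have hPT1 : ∑ i ∈ T, P i ≤ 1 := by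
    rw [← hP1]
    exact Finset.sum_le_sum_of_subset_of_nonneg (Finset.subset_univ T) fun i _ _ => hP0 i
  have hPle1 : ∀ i, P i ≤ 1 := fun i => by
    rw [← hP1]
    exact Finset.single_le_sum (fun j _ => hP0 j) (Finset.mem_univ i)
  have hmain := var_compare T x P om mu ε η ρ hε.le hεη hη hη1 hx hxP hPT hP1 hmass hρ hρ1 hmu
    e es c hc
  set A := ∑ i ∈ Tᶜ, x i * ‖om i‖ ^ 4 with hA
  set B := ∑ i ∈ Tᶜ, x i * ‖mu i‖ ^ 2 with hB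
  set X4 := ∑ i ∈ T, ‖om i‖ ^ 4 with hX4
  set M2 := ∑ i ∈ T, ‖mu i‖ ^ 2 with hM2
  set p1 := ∑ i ∈ Tᶜ, x i * ‖om i‖ ^ 2 with hp1
  set q := ∑ i, P i * ‖om i‖ ^ 2 with hq
  set r2 := ∑ i ∈ T, P i * ‖om i‖ ^ 2 with hr2
  set H := ∑ i ∈ Tᶜ, x i * ‖om i ^ 2 - 2 * es * om i + mu i - c‖ ^ 2 with hH
  set G := ∑ i ∈ T, ‖om i ^ 2 - 2 * e * om i‖ ^ 2 with hG
  have hA0 : 0 ≤ A := Finset.sum_nonneg fun i hi => mul_nonneg (hx i hi) (by positivity)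
  have hB0 : 0 ≤ B := Finset.sum_nonneg fun i hi => mul_nonneg (hx i hi) (by positivity)
  have hX0 : 0 ≤ X4 := Finset.sum_nonneg fun i _ => by positivity
  have hM0 : 0 ≤ M2 := Finset.sum_nonneg fun i _ => by positivity
  have hp0 : 0 ≤ p1 := Finset.sum_nonneg fun i hi => mul_nonneg (hx i hi) (by positivity)
  have hr0 : 0 ≤ r2 := Finset.sum_nonneg fun i _ => mul_nonneg (hP0 i) (by positivity)
  have hpA : p1 ^ 2 ≤ A := jens4 Tᶜ x (fun i => ‖om i‖) hx hx1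
  have hrX : r2 ^ 2 ≤ X4 := by
    refine (jens4 T P (fun i => ‖om i‖) (fun i _ => hP0 i) hPT1).trans ?_
    refine Finset.sum_le_sum fun i _ => ?_
    have h1 := hPle1 i
    have h2 : 0 ≤ ‖om i‖ ^ 4 := by positivity
    nlinarith
  have hfull4 : ∑ i, P i * ‖om i‖ ^ 4 ≤ 2 * A + X4 :=
    full_moment T x P (fun i => ‖om i‖ ^ 4) hPle hP0 hP1 fun i => by positivity
  have hfull2 : ∑ i, P i * ‖mu i‖ ^ 2 ≤ 2 * B + M2 :=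
    full_moment T x P (fun i => ‖mu i‖ ^ 2) hPle hP0 hP1 fun i => by positivity
  have hq4 : q ^ 2 ≤ 2 * A + X4 :=
    (jens4 Finset.univ P (fun i => ‖om i‖) (fun i _ => hP0 i) hP1').trans hfull4
  have heq : ‖e‖ ^ 2 ≤ q := by
    rw [he]
    exact norm_wsum_sq Finset.univ P om (fun i _ => hP0 i) hP1'
  have hesp : ‖es‖ ^ 2 ≤ p1 := by
    rw [hes]
    exact norm_wsum_sq Tᶜ x om hx hx1
  have he4 : (‖e‖ ^ 2) ^ 2 ≤ 2 * A + X4 :=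
    (pow_le_pow_left₀ (by positivity) heq 2).trans hq4
  have hes4 : (‖es‖ ^ 2) ^ 2 ≤ A := (pow_le_pow_left₀ (by positivity) hesp 2).trans hpA
  -- closeness of the means
  have hF : ‖e - es‖ ^ 2 ≤ 2 * (4 * ε ^ 2 * p1 + r2) := by
    rw [he, hes]
    exact mean_close T x P om ε hx hx1 hxP hPx hP0 hP1
  have hF2 : (‖e - es‖ ^ 2) ^ 2 ≤ 8 * (16 * ε ^ 4 * A + X4) :=
    ar_F ε A X4 p1 r2 _ (by positivity) hpA hrX hF
  -- bound for c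
  have hC : ‖c‖ ^ 2 ≤ 15 * (2 * A + X4) + 3 * (2 * B + M2) := by
    have h1 : ‖c‖ ^ 2 ≤ ∑ i, P i * ‖om i ^ 2 - 2 * e * om i + mu i‖ ^ 2 := by
      rw [hc]
      exact norm_wsum_sq Finset.univ P _ (fun i _ => hP0 i) hP1'
    have h2 := h_moment Finset.univ P om mu e (fun i _ => hP0 i) hP1' heq
    linarith
  have hHb : H ≤ 2 * (15 * A + 3 * B) + 2 * ‖c‖ ^ 2 := by
    have h2 := h_moment Tᶜ x om mu es hx hx1 hesp
    have h3 : H ≤ ∑ i ∈ Tᶜ, (x i * (2 * ‖om i ^ 2 - 2 * es * om i + mu i‖ ^ 2)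
        + x i * (2 * ‖c‖ ^ 2)) := by
      rw [hH]
      refine Finset.sum_le_sum fun i hi => ?_
      rw [← mul_add]
      refine mul_le_mul_of_nonneg_left ?_ (hx i hi)
      exact nsub2 _ _
    rw [Finset.sum_add_distrib, ← Finset.sum_mul] at h3
    have h4 : ∑ i ∈ Tᶜ, x i * (2 * ‖om i ^ 2 - 2 * es * om i + mu i‖ ^ 2)
        = 2 * ∑ i ∈ Tᶜ, x i * ‖om i ^ 2 - 2 * es * om i + mu i‖ ^ 2 := by
      rw [Finset.mul_sum]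
      exact Finset.sum_congr rfl fun i _ => by ring
    rw [h4] at h3
    have h5 : (∑ i ∈ Tᶜ, x i) * (2 * ‖c‖ ^ 2) ≤ 1 * (2 * ‖c‖ ^ 2) :=
      mul_le_mul_of_nonneg_right hx1 (by positivity)
    linarith
  -- bound for G
  have hGb : G ≤ 2 * X4 + ε * (2 * A + X4) + (16 * N1 / ε) * X4 := by
    set Y := ∑ i ∈ T, ‖om i‖ ^ 2 with hY
    have hYN : Y ^ 2 ≤ N1 * X4 := by
      have h1 := Finset.sum_sq_le_sum_mul_sum_of_sq_le_mul T (r := fun i => ‖om i‖ ^ 2)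
        (f := fun _ => (1 : ℝ)) (g := fun i => ‖om i‖ ^ 4) (fun _ _ => zero_le_one)
        (fun i _ => by positivity) (fun i _ => le_of_eq (by ring))
      rw [Finset.sum_const, nsmul_eq_mul, mul_one] at h1
      exact h1.trans (mul_le_mul_of_nonneg_right hN hX0)
    refine ar_G ε N1 A X4 (‖e‖ ^ 2) Y G hε he4 hYN ?_
    have h2 : G ≤ ∑ i ∈ T, (2 * ‖om i‖ ^ 4 + 8 * ‖e‖ ^ 2 * ‖om i‖ ^ 2) := by
      rw [hG]
      refine Finset.sum_le_sum fun i _ => ?_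
      have h4 := nsub2 (om i ^ 2) (2 * e * om i)
      rw [norm_mul, norm_mul, Complex.norm_ofNat, norm_pow] at h4
      calc _ ≤ _ := h4
        _ = _ := by ring
    rw [Finset.sum_add_distrib, ← Finset.mul_sum, ← Finset.mul_sum] at h2
    exact h2
  -- the variances of w
  have hsplit : q = r2 + ∑ i ∈ Tᶜ, P i * ‖om i‖ ^ 2 :=
    (Finset.sum_add_sum_compl T (fun i => P i * ‖om i‖ ^ 2)).symm
  have ha1 : 0 ≤ q - p1 := by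
    have h1 : p1 ≤ ∑ i ∈ Tᶜ, P i * ‖om i‖ ^ 2 :=
      sum_le_of Tᶜ x P _ hxP fun i _ => by positivity
    linarith
  have ha1' : q - p1 ≤ 2 * ε * p1 + r2 := by
    have h1 : ∑ i ∈ Tᶜ, P i * ‖om i‖ ^ 2 ≤ (1 + 2 * ε) * p1 := by
      rw [hp1, Finset.mul_sum]
      refine Finset.sum_le_sum fun i hi => ?_
      have h2 := mul_le_mul_of_nonneg_right (hPx i hi) (show (0 : ℝ) ≤ ‖om i‖ ^ 2 by positivity)
      linarith
    linarith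
  have ha2 : |‖e‖ ^ 2 - ‖es‖ ^ 2| ≤ ‖e - es‖ * (‖e‖ + ‖es‖) := by
    have h1 : ‖e‖ ^ 2 - ‖es‖ ^ 2 = (‖e‖ - ‖es‖) * (‖e‖ + ‖es‖) := by ring
    rw [h1, abs_mul, abs_of_nonneg (show 0 ≤ ‖e‖ + ‖es‖ by positivity)]
    exact mul_le_mul_of_nonneg_right (abs_norm_sub_norm_le e es) (by positivity)
  have hD := ar_D ε ε A X4 p1 r2 (‖e - es‖ ^ 2) ‖e - es‖ ‖e‖ ‖es‖ (q - p1)
    (‖e‖ ^ 2 - ‖es‖ ^ 2) ((q - p1) - (‖e‖ ^ 2 - ‖es‖ ^ 2)) hε (norm_nonneg _)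
    (norm_nonneg _) (norm_nonneg _) rfl hpA hrX ha1 ha1' ha2 rfl he4 hes4
  have hvs : (p1 - ‖es‖ ^ 2) ^ 2 ≤ A := by
    refine le_trans (pow_le_pow_left₀ (sub_nonneg.2 hesp) ?_ 2) hpA
    have : 0 ≤ ‖es‖ ^ 2 := by positivity
    linarith
  have hv := ar_v η A (p1 - ‖es‖ ^ 2) ((q - p1) - (‖e‖ ^ 2 - ‖es‖ ^ 2)) (q - ‖e‖ ^ 2) hη
    (by linarith) hvs (by ring)
  have hfin := ar_final η ε θ N1 A B X4 M2 p1 (‖e - es‖ ^ 2) (‖c‖ ^ 2) H G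
    ((q - p1) - (‖e‖ ^ 2 - ‖es‖ ^ 2)) hε hη hε1 hεη hθ hηθ hεηθ hA0 hB0 hX0 hpA hF2 hC hHb hGb hD
    (by positivity)
  linarith

lemma prod_ge (ε η : ℝ) (h0 : 0 < ε) (h1 : 0 < η) (h2 : ε ≤ 1 / 1000) (h3 : η ≤ 1 / 1000) :
    (9 : ℝ) / 10 ≤ (1 - ε) * (1 - η) := by nlinarith

lemma D_aux (D D0 ε : ℝ) (h0 : 0 < ε) (h1 : ε ≤ 1 / 1000) (hD0 : 0 < D0)
    (h : (1 - ε) * D0 ≤ D) : 1 * D0 ≤ (1 + 2 * ε) * D := by
  have h2 : (1 + 2 * ε) * ((1 - ε) * D0) ≤ (1 + 2 * ε) * D :=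
    mul_le_mul_of_nonneg_left h (by linarith)
  have h3 : 0 ≤ (ε - 2 * ε ^ 2) * D0 := by
    apply mul_nonneg _ hD0.le
    nlinarith
  nlinarith

lemma cmean_add_const [Fintype ι] (P : ι → ℝ) (hP1 : ∑ i, P i = 1) (h : ι → ℂ) (k : ℂ) :
    cmean P (fun i => h i + k) = (∑ i, (P i : ℂ) * h i) + k := by
  unfold cmean
  have h1 : ∑ i, (P i : ℂ) * (h i + k) = (∑ i, (P i : ℂ) * h i) + (∑ i, (P i : ℂ)) * k := by
    rw [Finset.sum_mul, ← Finset.sum_add_distrib]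
    exact Finset.sum_congr rfl fun i _ => by ring
  rw [h1]
  have h2 : (∑ i, (P i : ℂ)) = 1 := by
    have := congrArg (fun r : ℝ => (r : ℂ)) hP1
    simpa using this
  rw [h2, one_mul]

lemma cvar_add_const [Fintype ι] (P : ι → ℝ) (hP1 : ∑ i, P i = 1) (h : ι → ℂ) (k : ℂ) :
    cvar P (fun i => h i + k)
      = (∑ i, P i * ‖h i‖ ^ 2) - ‖∑ i, (P i : ℂ) * h i‖ ^ 2 := by
  unfold cvar
  rw [cmean_add_const P hP1 h k]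
  have hV := var_id Finset.univ P h (∑ i, (P i : ℂ) * h i)
  rw [hP1] at hV
  simp only [sub_self, zero_mul, add_zero, norm_zero, ne_eq, OfNat.ofNat_ne_zero,
    not_false_eq_true, zero_pow, sub_zero] at hV
  rw [hV]
  refine Finset.sum_congr rfl fun i _ => ?_
  rw [add_sub_add_right_eq_sub]

lemma DF_shift [Fintype ι] (P : ι → ℝ) (hP1 : ∑ i, P i = 1) (w u : ι → ℂ) (W U e c : ℂ)
    (he : e = ∑ i, (P i : ℂ) * (w i - W))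
    (hc : c = ∑ i, (P i : ℂ) * ((w i - W) ^ 2 - 2 * e * (w i - W) + (u i - U))) :
    DF P w u 1 = (∑ i, P i * ‖(w i - W) ^ 2 - 2 * e * (w i - W) + (u i - U)‖ ^ 2) - ‖c‖ ^ 2
        - 2 * ((∑ i, P i * ‖w i - W‖ ^ 2) - ‖e‖ ^ 2) ^ 2 := by
  have hm : cmean P w = e + W := by
    have h1 := cmean_add_const P hP1 (fun i => w i - W) W
    simp only [sub_add_cancel] at h1
    rw [he]
    exact h1
  have h2 : cvar P w = (∑ i, P i * ‖w i - W‖ ^ 2) - ‖e‖ ^ 2 := by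
    have h1 := cvar_add_const P hP1 (fun i => w i - W) W
    simp only [sub_add_cancel] at h1
    rw [he]
    exact h1
  have h3 : cvar P (fun i => ((1 : ℝ) : ℂ) * (w i ^ 2 - 2 * cmean P w * w i) + u i)
      = (∑ i, P i * ‖(w i - W) ^ 2 - 2 * e * (w i - W) + (u i - U)‖ ^ 2) - ‖c‖ ^ 2 := by
    have h1 := cvar_add_const P hP1
      (fun i => (w i - W) ^ 2 - 2 * e * (w i - W) + (u i - U)) (U - W ^ 2 - 2 * e * W)
    rw [hc, ← h1]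
    congr 1
    funext i
    rw [hm]
    push_cast
    ring
  unfold DF
  rw [h2, h3]
  ring

end Perturb

open Perturb in
/-- P7b: perturbation from the collapsed to the full functional. `E i = exp (-lam t_i)`,
full weights `E i / ∑ E`, collapsed weights `E i / (|T| + ∑_{i ∉ T} E i)`. -/
theorem perturb (N : ℕ) (θ : ℝ) (hθ : 0 < θ) : ∃ κ C : ℝ, 0 < κ ∧ 0 < C ∧
    ∀ (ι : Type) [Fintype ι] [DecidableEq ι] (T : Finset ι) (E : ι → ℝ) (w u : ι → ℂ),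
      Fintype.card ι = N → T.Nonempty → (∀ i, 0 < E i) → (∀ i, E i ≤ 1) →
      (∀ i ∈ T, 1 - κ ≤ E i) →
      ∀ W U : ℂ, T.card * W = ∑ i ∈ T, w i → T.card * U = ∑ i ∈ T, u i →
      T0 (fun i : {i // i ∉ T} => E i / (T.card + ∑ j : {i // i ∉ T}, E j))
          (fun i => w i - W) (fun i => u i - U)
        - θ * (∑ i : {i // i ∉ T}, E i * (‖w i - W‖ ^ 4 + ‖u i - U‖ ^ 2))
        - C * (∑ i ∈ T, ‖w i - W‖ ^ 4) + 1 / (4 * N) * (∑ i ∈ T, ‖u i - U‖ ^ 2)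
      ≤ DF (fun i => E i / ∑ j, E j) w u 1 := by
  set θ' : ℝ := min θ 1 with hθ'
  have hθ'0 : 0 < θ' := lt_min hθ one_pos
  have hθ'1 : θ' ≤ 1 := min_le_right _ _
  have hθ'θ : θ' ≤ θ := min_le_left _ _
  set N1 : ℝ := (N : ℝ) + 1 with hN1
  have hN1p : 1 ≤ N1 := by
    have : (0 : ℝ) ≤ N := Nat.cast_nonneg N
    linarith
  set η : ℝ := θ' / (1000 * N1) with hη
  have hη0 : 0 < η := by positivity
  have hη' : 1000 * N1 * η = θ' := by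
    rw [hη]
    field_simp
  have hη1 : 1000 * η ≤ θ' := by nlinarith
  set ε : ℝ := η * θ' / 1000 with hε
  have hε0 : 0 < ε := by positivity
  have hε' : 1000 * ε = η * θ' := by
    rw [hε]
    ring
  have hηs : η ≤ 1 / 1000 := by linarith
  have hεη : ε ≤ η := by nlinarith
  have hεs : ε ≤ 1 / 1000 := by linarith
  refine ⟨ε, 60 * η + (1 / η) * (15 + (16 * N1 + 112) / ε), hε0, by positivity, ?_⟩
  intro ι _ _ T E w u hcard hT hE0 hE1 hET W U hW hU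
  have hsubR : ∀ f : ι → ℝ, ∑ i : {i // i ∉ T}, f i = ∑ i ∈ Tᶜ, f i := fun f =>
    (Finset.sum_subtype Tᶜ (fun x => by simp) f).symm
  have hsubC : ∀ f : ι → ℂ, ∑ i : {i // i ∉ T}, f i = ∑ i ∈ Tᶜ, f i := fun f =>
    (Finset.sum_subtype Tᶜ (fun x => by simp) f).symm
  set D0 : ℝ := (T.card : ℝ) + ∑ j : {i // i ∉ T}, E j with hD0
  have hD0' : D0 = (T.card : ℝ) + ∑ j ∈ Tᶜ, E j := by rw [hD0, hsubR]
  set D : ℝ := ∑ j, E j with hD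
  have hTc : (1 : ℝ) ≤ T.card := by
    have := Finset.card_pos.2 hT
    exact_mod_cast this
  have hsE0 : 0 ≤ ∑ j ∈ Tᶜ, E j := Finset.sum_nonneg fun j _ => (hE0 j).le
  have hD01 : 1 ≤ D0 := by linarith
  have hD0p : 0 < D0 := by linarith
  have hDs : D = (∑ j ∈ T, E j) + ∑ j ∈ Tᶜ, E j := (Finset.sum_add_sum_compl T E).symm
  have hDle : D ≤ D0 := by
    rw [hDs, hD0']
    have : ∑ j ∈ T, E j ≤ ∑ _j ∈ T, (1 : ℝ) := Finset.sum_le_sum fun j _ => hE1 j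
    rw [Finset.sum_const, nsmul_eq_mul, mul_one] at this
    linarith
  have hDge : (1 - ε) * D0 ≤ D := by
    rw [hDs, hD0']
    have : ∑ _j ∈ T, (1 - ε) ≤ ∑ j ∈ T, E j := Finset.sum_le_sum fun j hj => hET j hj
    rw [Finset.sum_const, nsmul_eq_mul] at this
    nlinarith
  have hDp : 0 < D := by
    have : 0 < (1 - ε) * D0 := mul_pos (by linarith) hD0p
    linarith
  have hD0N : D0 ≤ N := by
    rw [hD0']
    have h1 : ∑ j ∈ Tᶜ, E j ≤ ∑ _j ∈ Tᶜ, (1 : ℝ) := Finset.sum_le_sum fun j _ => hE1 j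
    rw [Finset.sum_const, nsmul_eq_mul, mul_one] at h1
    have h2 : (T.card : ℝ) + (Tᶜ.card : ℝ) = N := by
      rw [← hcard]
      exact_mod_cast Finset.card_add_card_compl T
    linarith
  have hNp : (0 : ℝ) < N := lt_of_lt_of_le hD0p hD0N
  have hP1 : ∑ i, E i / D = 1 := by
    rw [← Finset.sum_div, ← hD]
    exact div_self hDp.ne'
  have hmass : ∑ i ∈ Tᶜ, E i / D0 + T.card * (1 / D0) = 1 := by
    rw [← Finset.sum_div, mul_one_div, ← add_div, add_comm (∑ i ∈ Tᶜ, E i), ← hD0']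
    exact div_self hD0p.ne'
  have hTW : ∀ (z : ι → ℂ) (Z : ℂ), T.card * Z = ∑ i ∈ T, z i → ∑ i ∈ T, (z i - Z) = 0 := by
    intro z Z h
    rw [Finset.sum_sub_distrib, Finset.sum_const, nsmul_eq_mul, h, sub_self]
  have hxP : ∀ i ∈ Tᶜ, E i / D0 ≤ E i / D := fun i _ =>
    div_le_div_of_nonneg_left (hE0 i).le hDp hDle
  have hPx : ∀ i ∈ Tᶜ, E i / D - E i / D0 ≤ 2 * ε * (E i / D0) := by
    intro i _
    have h1 : 1 / D ≤ (1 + 2 * ε) * (1 / D0) := by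
      rw [mul_one_div, div_le_div_iff₀ hDp hD0p]
      exact D_aux D D0 ε hε0 hεs hD0p hDge
    have h2 := mul_le_mul_of_nonneg_left h1 (hE0 i).le
    have h3 : E i / D = E i * (1 / D) := by ring
    have h4 : E i / D0 = E i * (1 / D0) := by ring
    rw [h3, h4]
    linarith
  have hPT : ∀ i ∈ T, (1 - ε) * (1 / D0) ≤ E i / D := by
    intro i hi
    have h1 : 1 / D0 ≤ 1 / D := one_div_le_one_div_of_le hDp hDle
    have h2 : (1 - ε) * (1 / D0) ≤ (1 - ε) * (1 / D) :=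
      mul_le_mul_of_nonneg_left h1 (by linarith)
    have h3 : (1 - ε) * (1 / D) ≤ E i * (1 / D) :=
      mul_le_mul_of_nonneg_right (hET i hi) (by positivity)
    have h4 : E i / D = E i * (1 / D) := by ring
    rw [h4]
    linarith
  have hTN : (T.card : ℝ) ≤ N1 := by
    have h1 : T.card ≤ N := hcard ▸ Finset.card_le_univ T
    have h2 : (T.card : ℝ) ≤ N := by exact_mod_cast h1
    linarith
  have hstat := static T (fun i => E i / D0) (fun i => E i / D) (fun i => w i - W)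
    (fun i => u i - U) ε η (1 / D0) θ' N1 hε0 hεs hεη hηs hθ'0 hη1 (le_of_eq hε') hTN
    (fun i _ => div_nonneg (hE0 i).le hD0p.le) hxP hPx (fun i => div_nonneg (hE0 i).le hDp.le)
    hPT hP1 hmass (by positivity) ((div_le_one hD0p).2 hD01) (hTW u U hU) _ _ _ rfl rfl rfl
  rw [DF_shift (fun i => E i / D) hP1 w u W U _ _ rfl rfl]
  refine le_trans ?_ hstat
  -- now compare the left sides
  unfold T0
  have hT0a := hsubC (fun j => ((E j / D0 : ℝ) : ℂ) * (w j - W))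
  rw [hT0a]
  set es : ℂ := ∑ i ∈ Tᶜ, ((E i / D0 : ℝ) : ℂ) * (w i - W) with hes
  have hT0b := hsubR (fun i => E i / D0 * ‖(w i - W) ^ 2 - 2 * es * (w i - W) + (u i - U)‖ ^ 2)
  have hT0c := hsubC (fun i => ((E i / D0 : ℝ) : ℂ)
    * ((w i - W) ^ 2 - 2 * es * (w i - W) + (u i - U)))
  have hT0d := hsubR (fun i => E i / D0 * ‖w i - W‖ ^ 2)
  have hT0e := hsubR (fun i => E i * (‖w i - W‖ ^ 4 + ‖u i - U‖ ^ 2))
  rw [hT0b, hT0c, hT0d, hT0e]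
  have hS : (∑ i ∈ Tᶜ, E i / D0 * ‖w i - W‖ ^ 4) + ∑ i ∈ Tᶜ, E i / D0 * ‖u i - U‖ ^ 2
      ≤ ∑ i ∈ Tᶜ, E i * (‖w i - W‖ ^ 4 + ‖u i - U‖ ^ 2) := by
    rw [← Finset.sum_add_distrib]
    refine Finset.sum_le_sum fun i _ => ?_
    rw [← mul_add]
    refine mul_le_mul_of_nonneg_right ?_ (by positivity)
    exact div_le_self (hE0 i).le hD01
  have hS0 : 0 ≤ ∑ i ∈ Tᶜ, E i * (‖w i - W‖ ^ 4 + ‖u i - U‖ ^ 2) :=
    Finset.sum_nonneg fun i _ => mul_nonneg (hE0 i).le (by positivity)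
  have hS1 : θ' * ((∑ i ∈ Tᶜ, E i / D0 * ‖w i - W‖ ^ 4) + ∑ i ∈ Tᶜ, E i / D0 * ‖u i - U‖ ^ 2)
      ≤ θ * ∑ i ∈ Tᶜ, E i * (‖w i - W‖ ^ 4 + ‖u i - U‖ ^ 2) :=
    (mul_le_mul_of_nonneg_left hS hθ'0.le).trans (mul_le_mul_of_nonneg_right hθ'θ hS0)
  have hM0 : 0 ≤ ∑ i ∈ T, ‖u i - U‖ ^ 2 := Finset.sum_nonneg fun i _ => by positivity
  have hcoef : 1 / (4 * (N : ℝ)) ≤ (1 - ε) * (1 - η) * (1 / D0) - 12 * η := by
    have h1 : 1 / (N : ℝ) ≤ 1 / D0 := one_div_le_one_div_of_le hD0p hD0N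
    have h2 : (9 : ℝ) / 10 ≤ (1 - ε) * (1 - η) := prod_ge ε η hε0 hη0 hεs hηs
    have h3 : (9 : ℝ) / 10 * (1 / N) ≤ (1 - ε) * (1 - η) * (1 / D0) :=
      mul_le_mul h2 h1 (by positivity) (le_trans (by norm_num) h2)
    have h4 : η ≤ 1 / 1000 * (1 / N) := by
      have h5 : η * N ≤ 1 / 1000 := by
        have : 1000 * (N : ℝ) * η ≤ 1000 * N1 * η := by
          refine mul_le_mul_of_nonneg_right ?_ hη0.le
          linarith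
        linarith
      rw [mul_one_div, le_div_iff₀ hNp]
      exact h5
    have h6 : 1 / (4 * (N : ℝ)) = 1 / 4 * (1 / N) := by
      field_simp
    rw [h6]
    have h7 : 0 ≤ 1 / (N : ℝ) := by positivity
    linarith
  have hM1 := mul_le_mul_of_nonneg_right hcoef hM0
  linarith

end Pool.Agent.MP_7c31d9_gt
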