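import Pool.Agent.MP_7c31d9_gt.Defs2

/-! P6a: one plateau of the weight. -/

namespace Pool.Agent.MP_7c31d9_gt

open Complex MeasureTheory

namespace Plateau

variable {J : Type} [Fintype J]

/-- the mean of `t` -/
noncomputable def tau (m : ℝ) (t : J → ℝ) (lam : ℝ) : ℝ := ∑ j, qw m t lam j * t j

theorem Z_pos {m : ℝ} (hm : 0 < m) (t : J → ℝ) (lam : ℝ) :
    0 < m + ∑ j, Real.exp (-(lam * t j)) :=
  add_pos_of_pos_of_nonneg hm (Finset.sum_nonneg fun _ _ => (Real.exp_pos _).le)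

theorem qw_nonneg {m : ℝ} (hm : 0 < m) (t : J → ℝ) (lam : ℝ) (i : J) : 0 ≤ qw m t lam i :=
  div_nonneg (Real.exp_pos _).le (Z_pos hm t lam).le

theorem hasDerivAt_qw {m : ℝ} (hm : 0 < m) (t : J → ℝ) (lam : ℝ) (i : J) :
    HasDerivAt (fun l => qw m t l i) (qw m t lam i * (tau m t lam - t i)) lam := by
  have hZ := Z_pos hm t lam
  have h1 : ∀ j, HasDerivAt (fun l : ℝ => Real.exp (-(l * t j)))
      (Real.exp (-(lam * t j)) * (-(t j))) lam := by
    intro j
    have := ((hasDerivAt_id lam).mul_const (t j)).neg.exp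
    simpa using this
  have h2 : HasDerivAt (fun l : ℝ => m + ∑ j, Real.exp (-(l * t j)))
      (∑ j, Real.exp (-(lam * t j)) * (-(t j))) lam := by
    have := (HasDerivAt.fun_sum (u := Finset.univ) fun j _ => h1 j).const_add m
    simpa using this
  have h3 := (h1 i).div h2 hZ.ne'
  unfold qw
  refine h3.congr_deriv ?_
  have e : tau m t lam = (∑ j, Real.exp (-(lam * t j)) * t j) /
      (m + ∑ j, Real.exp (-(lam * t j))) := by
    unfold tau qw
    rw [Finset.sum_div]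
    refine Finset.sum_congr rfl fun j _ => ?_
    ring
  have e2 : ∑ j, Real.exp (-(lam * t j)) * (-(t j)) = -(∑ j, Real.exp (-(lam * t j)) * t j) := by
    rw [← Finset.sum_neg_distrib]
    refine Finset.sum_congr rfl fun j _ => ?_
    ring
  rw [e, e2]
  field_simp
  ring

theorem continuous_qw {m : ℝ} (hm : 0 < m) (t : J → ℝ) (i : J) :
    Continuous (fun l => qw m t l i) :=
  continuous_iff_continuousAt.mpr fun l => (hasDerivAt_qw hm t l i).continuousAt

theorem continuous_tau {m : ℝ} (hm : 0 < m) (t : J → ℝ) : Continuous (tau m t) := by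
  unfold tau
  exact continuous_finsetSum _ fun j _ => (continuous_qw hm t j).mul continuous_const

/-- `w ↦ ‖w‖^4` etc. -/
noncomputable def Rr (w u : ℂ) : ℝ := ((starRingEnd ℂ) (w ^ 2) * u).re

theorem Rr_div (w u : ℂ) (lam : ℝ) : Rr w (u / (lam : ℂ)) = Rr w u / lam := by
  unfold Rr
  rw [← mul_div_assoc, Complex.div_ofReal_re]

theorem norm_div_sq (u : ℂ) (lam : ℝ) : ‖u / (lam : ℂ)‖ ^ 2 = ‖u‖ ^ 2 / lam ^ 2 := by
  rw [norm_div, div_pow, Complex.norm_real, Real.norm_eq_abs, sq_abs]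

/-- polynomial form of `QK` -/
noncomputable def QP (γ : Gauge) (m : ℝ) (t : J → ℝ) (w u : J → ℂ) (lam : ℝ) : ℝ :=
  ∑ i, qw m t lam i * ((γ.a1 + γ.b1 * (lam * t i)) * lam ^ 5 * ‖w i‖ ^ 4
    + (γ.a2 + γ.b2 * (lam * t i)) * lam ^ 4 * Rr (w i) (u i)
    + (γ.a3 + γ.b3 * (lam * t i)) * lam ^ 3 * ‖u i‖ ^ 2)

/-- its derivative -/
noncomputable def GP (γ : Gauge) (m : ℝ) (t : J → ℝ) (w u : J → ℂ) (lam : ℝ) : ℝ :=
  ∑ i, qw m t lam i *
    (((5 + lam * tau m t lam - lam * t i) * (γ.a1 + γ.b1 * (lam * t i)) + γ.b1 * (lam * t i)) *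
        lam ^ 4 * ‖w i‖ ^ 4
    + ((4 + lam * tau m t lam - lam * t i) * (γ.a2 + γ.b2 * (lam * t i)) + γ.b2 * (lam * t i)) *
        lam ^ 3 * Rr (w i) (u i)
    + ((3 + lam * tau m t lam - lam * t i) * (γ.a3 + γ.b3 * (lam * t i)) + γ.b3 * (lam * t i)) *
        lam ^ 2 * ‖u i‖ ^ 2)

theorem QK_eq (γ : Gauge) (m : ℝ) (t : J → ℝ) (w u : J → ℂ) (lam : ℝ) :
    QK γ m t w u lam = QP γ m t w u lam := by
  unfold QK QP gaugeQ
  rcases eq_or_ne lam 0 with rfl | hl
  · simp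
  · rw [Finset.mul_sum]
    refine Finset.sum_congr rfl fun i _ => ?_
    change lam ^ 5 * (qw m t lam i * ((γ.a1 + γ.b1 * (lam * t i)) * ‖w i‖ ^ 4 +
      (γ.a2 + γ.b2 * (lam * t i)) * Rr (w i) (u i / (lam : ℂ)) +
      (γ.a3 + γ.b3 * (lam * t i)) * ‖u i / (lam : ℂ)‖ ^ 2)) = _
    rw [Rr_div, norm_div_sq]
    field_simp

theorem rate_eq (γ : Gauge) (m : ℝ) (t : J → ℝ) (w u : J → ℂ) (lam : ℝ) :
    lam ^ 4 * gaugeRate γ (3 + lam * tau m t lam) (qw m t lam) (fun i => lam * t i) w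
      (fun i => u i / (lam : ℂ)) = GP γ m t w u lam := by
  unfold GP gaugeRate
  rcases eq_or_ne lam 0 with rfl | hl
  · simp
  · rw [Finset.mul_sum]
    refine Finset.sum_congr rfl fun i _ => ?_
    change lam ^ 4 * (qw m t lam i *
      (((3 + lam * tau m t lam + 2 - lam * t i) * (γ.a1 + γ.b1 * (lam * t i)) +
          γ.b1 * (lam * t i)) * ‖w i‖ ^ 4 +
        ((3 + lam * tau m t lam + 1 - lam * t i) * (γ.a2 + γ.b2 * (lam * t i)) +
          γ.b2 * (lam * t i)) * Rr (w i) (u i / (lam : ℂ)) +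
        ((3 + lam * tau m t lam - lam * t i) * (γ.a3 + γ.b3 * (lam * t i)) +
          γ.b3 * (lam * t i)) * ‖u i / (lam : ℂ)‖ ^ 2)) = _
    rw [Rr_div, norm_div_sq]
    field_simp
    ring

theorem rate_add (γ : Gauge) (a' c : ℝ) (p s : J → ℝ) (w u : J → ℂ) :
    gaugeRate γ (a' + c) p s w u = gaugeRate γ a' p s w u + c * gaugeQ γ p s w u := by
  unfold gaugeRate gaugeQ
  rw [Finset.mul_sum, ← Finset.sum_add_distrib]
  refine Finset.sum_congr rfl fun i _ => ?_
  ring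

theorem hasDerivAt_QP {m : ℝ} (hm : 0 < m) (γ : Gauge) (t : J → ℝ) (w u : J → ℂ) (lam : ℝ) :
    HasDerivAt (QP γ m t w u) (GP γ m t w u lam) lam := by
  unfold QP GP
  refine HasDerivAt.fun_sum fun i _ => ?_
  have h0 := hasDerivAt_qw hm t lam i
  have hid := hasDerivAt_id' lam
  have hA : ∀ a b : ℝ, HasDerivAt (fun l : ℝ => a + b * (l * t i)) (b * t i) lam := by
    intro a b
    have := ((hid.mul_const (t i)).const_mul b).const_add a
    simpa using this
  have hp : ∀ n : ℕ, HasDerivAt (fun l : ℝ => l ^ n) (n * lam ^ (n - 1)) lam := fun n =>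
    hasDerivAt_pow n lam
  have h1 := (((hA γ.a1 γ.b1).mul (hp 5)).mul_const (‖w i‖ ^ 4))
  have h2 := (((hA γ.a2 γ.b2).mul (hp 4)).mul_const (Rr (w i) (u i)))
  have h3 := (((hA γ.a3 γ.b3).mul (hp 3)).mul_const (‖u i‖ ^ 2))
  have h4 := h0.mul ((h1.add h2).add h3)
  refine h4.congr_deriv ?_
  push_cast
  simp only [Pi.add_apply, Pi.mul_apply]
  ring

theorem continuous_GP {m : ℝ} (hm : 0 < m) (γ : Gauge) (t : J → ℝ) (w u : J → ℂ) :
    Continuous (GP γ m t w u) := by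
  unfold GP
  refine continuous_finsetSum _ fun i _ => ?_
  have h1 := continuous_qw hm t i
  have h2 := continuous_tau hm t
  fun_prop

theorem SJ_continuous {m : ℝ} (hm : 0 < m) (t : J → ℝ) (w u : J → ℂ) :
    Continuous (SJ m t w u) := by
  unfold SJ
  refine continuous_finsetSum _ fun i _ => ?_
  have h1 := continuous_qw hm t i
  fun_prop

/-- polynomial form of `DJ` -/
noncomputable def DP (m : ℝ) (t : J → ℝ) (w u : J → ℂ) (lam : ℝ) : ℝ :=
  (∑ i, qw m t lam i * ‖(lam : ℂ) ^ 2 * (w i ^ 2 - 2 * (∑ j, (qw m t lam j : ℂ) * w j) * w i) +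
      (lam : ℂ) * u i‖ ^ 2)
    - ‖∑ i, (qw m t lam i : ℂ) * ((lam : ℂ) ^ 2 * (w i ^ 2 -
        2 * (∑ j, (qw m t lam j : ℂ) * w j) * w i) + (lam : ℂ) * u i)‖ ^ 2
    - 2 * lam ^ 4 * ((∑ i, qw m t lam i * ‖w i‖ ^ 2) - ‖∑ j, (qw m t lam j : ℂ) * w j‖ ^ 2) ^ 2

theorem DJ_eq (m : ℝ) (t : J → ℝ) (w u : J → ℂ) (lam : ℝ) :
    DJ m t w u lam = DP m t w u lam := by
  unfold DJ DP T0
  generalize (∑ j, (qw m t lam j : ℂ) * w j) = A
  rcases eq_or_ne lam 0 with rfl | hl
  · simp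
  · have hl' : (lam : ℂ) ≠ 0 := by exact_mod_cast hl
    have e : ∀ i, (lam : ℂ) ^ 2 * (w i ^ 2 - 2 * A * w i) +
        (lam : ℂ) * u i = (lam : ℂ) ^ 2 * (w i ^ 2 - 2 * A * w i +
          u i / (lam : ℂ)) := by
      intro i
      field_simp
    have e1 : ∀ z : ℂ, ‖(lam : ℂ) ^ 2 * z‖ ^ 2 = lam ^ 4 * ‖z‖ ^ 2 := by
      intro z
      rw [norm_mul, mul_pow, norm_pow, Complex.norm_real, Real.norm_eq_abs, ← pow_mul]
      rw [show 2 * 2 = 4 by norm_num]
      rw [Even.pow_abs ⟨2, rfl⟩]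
    simp_rw [e]
    have e2 : ∑ i, (qw m t lam i : ℂ) * ((lam : ℂ) ^ 2 * (w i ^ 2 -
        2 * A * w i + u i / (lam : ℂ))) =
        (lam : ℂ) ^ 2 * ∑ i, (qw m t lam i : ℂ) * (w i ^ 2 -
        2 * A * w i + u i / (lam : ℂ)) := by
      rw [Finset.mul_sum]
      refine Finset.sum_congr rfl fun i _ => ?_
      ring
    rw [e2, e1]
    simp_rw [e1]
    have e3 : ∑ i, qw m t lam i * (lam ^ 4 * ‖w i ^ 2 -
        2 * A * w i + u i / (lam : ℂ)‖ ^ 2) =
        lam ^ 4 * ∑ i, qw m t lam i * ‖w i ^ 2 -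
        2 * A * w i + u i / (lam : ℂ)‖ ^ 2 := by
      rw [Finset.mul_sum]
      refine Finset.sum_congr rfl fun i _ => ?_
      ring
    rw [e3]
    ring

theorem DJ_continuous {m : ℝ} (hm : 0 < m) (t : J → ℝ) (w u : J → ℂ) :
    Continuous (DJ m t w u) := by
  have h1 : ∀ i, Continuous (fun l => qw m t l i) := continuous_qw hm t
  have : DJ m t w u = DP m t w u := funext fun l => DJ_eq m t w u l
  rw [this]
  unfold DP
  fun_prop

theorem exp_bound : (25 / 7 : ℝ) ≤ Real.exp (32 / 25) := by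
  have h := Real.sum_le_exp_of_nonneg (x := 32 / 25) (by norm_num) 6
  refine le_trans ?_ h
  norm_num [Finset.sum_range_succ, Nat.factorial]

theorem le_exp (s : ℝ) : s ≤ 28 / 100 * (1 + Real.exp s) := by
  rcases le_total s (28 / 100) with h | h
  · have := Real.exp_pos s
    linarith
  · have h1 : Real.exp s = Real.exp (32 / 25) * Real.exp (s - 32 / 25) := by
      rw [← Real.exp_add]
      congr 1
      ring
    have h2 : s - 32 / 25 + 1 ≤ Real.exp (s - 32 / 25) := Real.add_one_le_exp _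
    have h3 : (25 / 7 : ℝ) * (s - 28 / 100) ≤ Real.exp s := by
      rw [h1]
      calc (25 / 7 : ℝ) * (s - 28 / 100) ≤ Real.exp (32 / 25) * (s - 28 / 100) :=
            mul_le_mul_of_nonneg_right exp_bound (by linarith)
        _ ≤ Real.exp (32 / 25) * Real.exp (s - 32 / 25) :=
            mul_le_mul_of_nonneg_left (by linarith) (Real.exp_pos _).le
    linarith

theorem mass {m : ℝ} (hm : 0 < m) (hJ : (Fintype.card J : ℝ) ≤ m) (t : J → ℝ) (lam : ℝ) :
    ∑ i, qw m t lam i * (1 + Real.exp (lam * t i)) ≤ 1 := by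
  have hZ := Z_pos hm t lam
  have e : ∀ i, qw m t lam i * (1 + Real.exp (lam * t i)) =
      (Real.exp (-(lam * t i)) + 1) / (m + ∑ j, Real.exp (-(lam * t j))) := by
    intro i
    unfold qw
    rw [div_mul_eq_mul_div, mul_add, mul_one, ← Real.exp_add]
    simp
  simp_rw [e]
  rw [← Finset.sum_div, div_le_one hZ, Finset.sum_add_distrib]
  simp
  linarith

theorem tau_nonneg {m : ℝ} (hm : 0 < m) {t : J → ℝ} (ht : ∀ i, 0 ≤ t i) (lam : ℝ) :
    0 ≤ tau m t lam :=
  Finset.sum_nonneg fun i _ => mul_nonneg (qw_nonneg hm t lam i) (ht i)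

theorem tau_le {m : ℝ} (hm : 0 < m) (hJ : (Fintype.card J : ℝ) ≤ m) {t : J → ℝ}
    (ht : ∀ i, 0 ≤ t i) {lam : ℝ} (hl : 0 ≤ lam) : lam * tau m t lam ≤ 28 / 100 := by
  have h1 := mass hm hJ t lam
  unfold tau
  rw [Finset.mul_sum]
  calc ∑ i, lam * (qw m t lam i * t i) ≤
      ∑ i, 28 / 100 * (qw m t lam i * (1 + Real.exp (lam * t i))) := by
        refine Finset.sum_le_sum fun i _ => ?_
        have h2 := mul_le_mul_of_nonneg_left (le_exp (lam * t i)) (qw_nonneg hm t lam i)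
        linarith
    _ ≤ 28 / 100 := by
        rw [← Finset.mul_sum]
        linarith

/-- pointwise inequality at the effective slope `a + lam tau` -/
theorem pointwise {γ : Gauge} {a δ : ℝ} (h1 : PIok γ a δ) (h2 : PIok γ (a + 28 / 100) δ)
    {m : ℝ} (hm : 0 < m) (hJ : (Fintype.card J : ℝ) ≤ m) {t : J → ℝ}
    (ht : ∀ i, 0 ≤ t i) {lam : ℝ} (hl : 0 ≤ lam) (w u : J → ℂ) :
    δ * ∑ i, qw m t lam i * (1 + lam * t i) * (‖w i‖ ^ 4 + ‖u i‖ ^ 2) ≤
      T0 (qw m t lam) w u +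
        gaugeRate γ (a + lam * tau m t lam) (qw m t lam) (fun i => lam * t i) w u := by
  have g1 := h1 J (qw m t lam) (fun i => lam * t i) w u (qw_nonneg hm t lam)
    (fun i => mul_nonneg hl (ht i)) (mass hm hJ t lam)
  have g2 := h2 J (qw m t lam) (fun i => lam * t i) w u (qw_nonneg hm t lam)
    (fun i => mul_nonneg hl (ht i)) (mass hm hJ t lam)
  rw [rate_add] at g2 ⊢
  have h3 := tau_le hm hJ ht hl
  have h4 : 0 ≤ lam * tau m t lam := mul_nonneg hl (tau_nonneg hm ht lam)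
  set q := gaugeQ γ (qw m t lam) (fun i => lam * t i) w u
  rcases le_total 0 q with hq | hq
  · have := mul_nonneg h4 hq
    linarith
  · have := mul_le_mul_of_nonpos_right h3 hq
    linarith

/-- the good term -/
theorem SJ_eq {m : ℝ} (t : J → ℝ) (w u : J → ℂ) {lam : ℝ} (hl : lam ≠ 0) :
    SJ m t w u lam = lam ^ 4 * ∑ i, qw m t lam i * (1 + lam * t i) *
      (‖w i‖ ^ 4 + ‖u i / (lam : ℂ)‖ ^ 2) := by
  unfold SJ
  rw [Finset.mul_sum]
  refine Finset.sum_congr rfl fun i _ => ?_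
  rw [norm_div_sq]
  field_simp

/-- coefficient bound -/
noncomputable def Cg (γ γ' : Gauge) : ℝ :=
  |γ'.a1 - γ.a1| + |γ'.b1 - γ.b1| + |γ'.a2 - γ.a2| + |γ'.b2 - γ.b2| + |γ'.a3 - γ.a3| +
    |γ'.b3 - γ.b3| + 1

theorem Cg_pos (γ γ' : Gauge) : 0 < Cg γ γ' := by
  unfold Cg
  positivity

theorem abs_Rr_le (w u : ℂ) : |Rr w u| ≤ (‖w‖ ^ 4 + ‖u‖ ^ 2) / 2 := by
  unfold Rr
  refine (Complex.abs_re_le_norm _).trans ?_
  rw [norm_mul, Complex.norm_conj, norm_pow]
  nlinarith [sq_nonneg (‖w‖ ^ 2 - ‖u‖)]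

theorem gauge_diff (γ γ' : Gauge) {p s : J → ℝ} (hp : ∀ i, 0 ≤ p i) (hs : ∀ i, 0 ≤ s i)
    (w u : J → ℂ) :
    |gaugeQ γ' p s w u - gaugeQ γ p s w u| ≤
      Cg γ γ' * ∑ i, p i * (1 + s i) * (‖w i‖ ^ 4 + ‖u i‖ ^ 2) := by
  unfold gaugeQ
  rw [← Finset.sum_sub_distrib, Finset.mul_sum]
  refine (Finset.abs_sum_le_sum_abs _ _).trans (Finset.sum_le_sum fun i _ => ?_)
  have hp' := hp i
  have hs' := hs i
  change |p i * ((γ'.a1 + γ'.b1 * s i) * ‖w i‖ ^ 4 + (γ'.a2 + γ'.b2 * s i) * Rr (w i) (u i) +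
    (γ'.a3 + γ'.b3 * s i) * ‖u i‖ ^ 2) - p i * ((γ.a1 + γ.b1 * s i) * ‖w i‖ ^ 4 +
    (γ.a2 + γ.b2 * s i) * Rr (w i) (u i) + (γ.a3 + γ.b3 * s i) * ‖u i‖ ^ 2)| ≤ _
  have hW : 0 ≤ ‖w i‖ ^ 4 := by positivity
  have hU : 0 ≤ ‖u i‖ ^ 2 := by positivity
  have hR := abs_Rr_le (w i) (u i)
  generalize Rr (w i) (u i) = R at *
  generalize ‖w i‖ ^ 4 = W at *
  generalize ‖u i‖ ^ 2 = U at *
  generalize s i = σ at *
  generalize p i = q at *
  have e : q * ((γ'.a1 + γ'.b1 * σ) * W + (γ'.a2 + γ'.b2 * σ) * R + (γ'.a3 + γ'.b3 * σ) * U) -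
      q * ((γ.a1 + γ.b1 * σ) * W + (γ.a2 + γ.b2 * σ) * R + (γ.a3 + γ.b3 * σ) * U) =
      q * (((γ'.a1 - γ.a1) * W + (γ'.b1 - γ.b1) * (σ * W)) +
        ((γ'.a2 - γ.a2) * R + (γ'.b2 - γ.b2) * (σ * R)) +
        ((γ'.a3 - γ.a3) * U + (γ'.b3 - γ.b3) * (σ * U))) := by ring
  rw [e, abs_mul, abs_of_nonneg hp']
  have hWU : W ≤ (1 + σ) * (W + U) := by nlinarith [mul_nonneg hs' hW, mul_nonneg hs' hU]
  have hWU2 : σ * W ≤ (1 + σ) * (W + U) := by nlinarith [mul_nonneg hs' hW, mul_nonneg hs' hU]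
  have hU1 : U ≤ (1 + σ) * (W + U) := by nlinarith [mul_nonneg hs' hW, mul_nonneg hs' hU]
  have hU2 : σ * U ≤ (1 + σ) * (W + U) := by nlinarith [mul_nonneg hs' hW, mul_nonneg hs' hU]
  have hR1 : |R| ≤ (1 + σ) * (W + U) := by nlinarith [mul_nonneg hs' hW, mul_nonneg hs' hU]
  have hR2 : |σ * R| ≤ (1 + σ) * (W + U) := by
    rw [abs_mul, abs_of_nonneg hs']
    nlinarith [mul_nonneg hs' hW, mul_nonneg hs' hU, mul_le_mul_of_nonneg_left hR hs']
  have hS : 0 ≤ (1 + σ) * (W + U) := by positivity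
  have t1 : ∀ c x : ℝ, |x| ≤ (1 + σ) * (W + U) → |c * x| ≤ |c| * ((1 + σ) * (W + U)) := by
    intro c x hx
    rw [abs_mul]
    exact mul_le_mul_of_nonneg_left hx (abs_nonneg _)
  have b1 := t1 (γ'.a1 - γ.a1) W (by rwa [abs_of_nonneg hW])
  have b2 := t1 (γ'.b1 - γ.b1) (σ * W) (by rwa [abs_of_nonneg (mul_nonneg hs' hW)])
  have b3 := t1 (γ'.a2 - γ.a2) R hR1
  have b4 := t1 (γ'.b2 - γ.b2) (σ * R) hR2
  have b5 := t1 (γ'.a3 - γ.a3) U (by rwa [abs_of_nonneg hU])
  have b6 := t1 (γ'.b3 - γ.b3) (σ * U) (by rwa [abs_of_nonneg (mul_nonneg hs' hU)])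
  have b7 : |((γ'.a1 - γ.a1) * W + (γ'.b1 - γ.b1) * (σ * W)) +
        ((γ'.a2 - γ.a2) * R + (γ'.b2 - γ.b2) * (σ * R)) +
        ((γ'.a3 - γ.a3) * U + (γ'.b3 - γ.b3) * (σ * U))| ≤ Cg γ γ' * ((1 + σ) * (W + U)) := by
    refine (abs_add_three _ _ _).trans ?_
    have c1 := abs_add_le ((γ'.a1 - γ.a1) * W) ((γ'.b1 - γ.b1) * (σ * W))
    have c2 := abs_add_le ((γ'.a2 - γ.a2) * R) ((γ'.b2 - γ.b2) * (σ * R))
    have c3 := abs_add_le ((γ'.a3 - γ.a3) * U) ((γ'.b3 - γ.b3) * (σ * U))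
    unfold Cg
    linarith
  calc q * _ ≤ q * (Cg γ γ' * ((1 + σ) * (W + U))) := mul_le_mul_of_nonneg_left b7 hp'
    _ = Cg γ γ' * (q * (1 + σ) * (W + U)) := by ring

end Plateau

open Plateau in
/-- P6a': the first plateau, slope 4. -/
theorem first_step (γ : Gauge) (δ X : ℝ) (hδ : 0 < δ) (hX : 0 < X) (h1 : PIok γ 3 δ)
    (h2 : PIok γ (3 + 28 / 100) δ) (J : Type) [Fintype J] (t : J → ℝ) (w u : J → ℂ) (m : ℝ)
    (ht : ∀ i, 0 ≤ t i) (hm : 0 < m) (hJ : Fintype.card J ≤ m) :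
    δ * (∫ l in (0 : ℝ)..X, SJ m t w u l) - QK γ m t w u X ≤
      ∫ l in (0 : ℝ)..X, DJ m t w u l := by
  have cS := SJ_continuous hm t w u
  have cD := DJ_continuous hm t w u
  have cG := continuous_GP hm γ t w u
  have hftc : ∫ l in (0 : ℝ)..X, GP γ m t w u l = QP γ m t w u X - QP γ m t w u 0 :=
    intervalIntegral.integral_eq_sub_of_hasDerivAt (fun l _ => hasDerivAt_QP hm γ t w u l)
      (cG.intervalIntegrable _ _)
  have h0 : QP γ m t w u 0 = 0 := by
    unfold QP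
    simp
  have hmono : ∫ l in (0 : ℝ)..X, δ * SJ m t w u l ≤
      ∫ l in (0 : ℝ)..X, (DJ m t w u l + GP γ m t w u l) := by
    refine intervalIntegral.integral_mono_on hX.le ((continuous_const.mul cS).intervalIntegrable _ _)
      ((cD.add cG).intervalIntegrable _ _) fun l hl => ?_
    rcases hl.1.eq_or_lt with h | h
    · rw [← h]
      unfold SJ DJ GP
      simp
    · rw [SJ_eq t w u h.ne', ← rate_eq]
      unfold DJ
      have := pointwise h1 h2 hm hJ ht hl.1 w (fun i => u i / (l : ℂ))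
      have h4 : 0 ≤ l ^ 4 := by positivity
      have := mul_le_mul_of_nonneg_left this h4
      linarith
  rw [intervalIntegral.integral_const_mul, intervalIntegral.integral_add
    (cD.intervalIntegrable _ _) (cG.intervalIntegrable _ _), hftc, h0] at hmono
  rw [QK_eq]
  linarith

namespace Plateau

variable {J : Type} [Fintype J]

theorem QP_div (γ : Gauge) (m : ℝ) (t : J → ℝ) (w u : J → ℂ) {l : ℝ} (hl : l ≠ 0) :
    QP γ m t w u l / l = l ^ 4 * gaugeQ γ (qw m t l) (fun i => l * t i) w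
      (fun i => u i / (l : ℂ)) := by
  rw [← QK_eq]
  unfold QK
  field_simp

/-- the interpolated gauge functional with weight -/
noncomputable def Fn (γ γ' : Gauge) (a x X m : ℝ) (t : J → ℝ) (w u : J → ℂ) (l : ℝ) : ℝ :=
  l ^ (a - 3) * ((1 - (Real.log l - Real.log x) / Real.log (X / x)) * QP γ m t w u l +
    (Real.log l - Real.log x) / Real.log (X / x) * QP γ' m t w u l)

noncomputable def Fd (γ γ' : Gauge) (a x X m : ℝ) (t : J → ℝ) (w u : J → ℂ) (l : ℝ) : ℝ :=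
  l ^ (a - 3) * ((a - 3) / l *
      ((1 - (Real.log l - Real.log x) / Real.log (X / x)) * QP γ m t w u l +
        (Real.log l - Real.log x) / Real.log (X / x) * QP γ' m t w u l) +
    1 / l / Real.log (X / x) * (QP γ' m t w u l - QP γ m t w u l) +
    ((1 - (Real.log l - Real.log x) / Real.log (X / x)) * GP γ m t w u l +
      (Real.log l - Real.log x) / Real.log (X / x) * GP γ' m t w u l))

theorem hasDerivAt_Fn (γ γ' : Gauge) (a x X : ℝ) {m : ℝ} (hm : 0 < m) (t : J → ℝ) (w u : J → ℂ)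
    {l : ℝ} (hl : 0 < l) :
    HasDerivAt (Fn γ γ' a x X m t w u) (Fd γ γ' a x X m t w u l) l := by
  unfold Fn Fd
  have h1 : HasDerivAt (fun y : ℝ => y ^ (a - 3)) ((a - 3) * l ^ (a - 3 - 1)) l :=
    Real.hasDerivAt_rpow_const (Or.inl hl.ne')
  have h2 : HasDerivAt (fun y : ℝ => (Real.log y - Real.log x) / Real.log (X / x))
      (1 / l / Real.log (X / x)) l := by
    have := ((Real.hasDerivAt_log hl.ne').sub_const (Real.log x)).div_const (Real.log (X / x))
    simpa using this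
  have h3 := (h2.const_sub 1).mul (hasDerivAt_QP hm γ t w u l)
  have h4 := h2.mul (hasDerivAt_QP hm γ' t w u l)
  have h5 := h1.mul (h3.add h4)
  refine h5.congr_deriv ?_
  rw [Real.rpow_sub_one hl.ne']
  simp only [Pi.add_apply, Pi.mul_apply]
  field_simp
  ring

theorem continuous_QP {m : ℝ} (hm : 0 < m) (γ : Gauge) (t : J → ℝ) (w u : J → ℂ) :
    Continuous (QP γ m t w u) :=
  continuous_iff_continuousAt.mpr fun l => (hasDerivAt_QP hm γ t w u l).continuousAt

theorem continuousOn_Fd (γ γ' : Gauge) (a x X : ℝ) {m : ℝ} (hm : 0 < m) (t : J → ℝ)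
    (w u : J → ℂ) (hx : 0 < x) : ContinuousOn (Fd γ γ' a x X m t w u) (Set.Icc x X) := by
  unfold Fd
  have hne : ∀ l ∈ Set.Icc x X, l ≠ 0 := fun l hl => (hx.trans_le hl.1).ne'
  have h1 : ContinuousOn (fun l : ℝ => l ^ (a - 3)) (Set.Icc x X) :=
    continuousOn_id.rpow_const fun l hl => Or.inl (hne l hl)
  have h2 : ContinuousOn (fun l : ℝ => Real.log l) (Set.Icc x X) :=
    continuousOn_id.log fun l hl => hne l hl
  have h3 : ContinuousOn (fun l : ℝ => (a - 3) / l) (Set.Icc x X) :=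
    continuousOn_const.div continuousOn_id fun l hl => hne l hl
  have h4 : ContinuousOn (fun l : ℝ => 1 / l) (Set.Icc x X) :=
    continuousOn_const.div continuousOn_id fun l hl => hne l hl
  have q1 := (continuous_QP hm γ t w u).continuousOn (s := Set.Icc x X)
  have q2 := (continuous_QP hm γ' t w u).continuousOn (s := Set.Icc x X)
  have g1 := (continuous_GP hm γ t w u).continuousOn (s := Set.Icc x X)
  have g2 := (continuous_GP hm γ' t w u).continuousOn (s := Set.Icc x X)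
  have h5 : ContinuousOn (fun l : ℝ => (Real.log l - Real.log x) / Real.log (X / x))
      (Set.Icc x X) := (h2.sub continuousOn_const).div_const _
  have h6 : ContinuousOn (fun l : ℝ => 1 - (Real.log l - Real.log x) / Real.log (X / x))
      (Set.Icc x X) := continuousOn_const.sub h5
  exact h1.mul (((h3.mul ((h6.mul q1).add (h5.mul q2))).add
    ((h4.div_const _).mul (q2.sub q1))).add ((h6.mul g1).add (h5.mul g2)))

end Plateau

open Plateau in
/-- P6a: one plateau with slope `a + 1` (weight `K = x ^ (a - 3)`), gauge moving from `γ` to `γ'`. -/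
theorem plateau_step (γ γ' : Gauge) : ∃ C1 : ℝ, 0 < C1 ∧ ∀ a δ x X : ℝ, 0 ≤ a → 0 < δ → 0 < x →
    x < X → PIok γ a δ → PIok γ (a + 28 / 100) δ → PIok γ' a δ → PIok γ' (a + 28 / 100) δ →
    ∀ (J : Type) [Fintype J] (t : J → ℝ) (w u : J → ℂ) (m : ℝ), (∀ i, 0 ≤ t i) → 0 < m →
      Fintype.card J ≤ m →
      (δ - C1 / Real.log (X / x)) * (∫ l in x..X, l ^ (a - 3) * SJ m t w u l)
        - (X ^ (a - 3) * QK γ' m t w u X - x ^ (a - 3) * QK γ m t w u x)
      ≤ ∫ l in x..X, l ^ (a - 3) * DJ m t w u l := by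
  refine ⟨Cg γ γ', Cg_pos γ γ', ?_⟩
  intro a δ x X _ _ hx hxX h1 h2 h1' h2' J _ t w u m ht hm hJ
  have hX : 0 < X := hx.trans hxX
  set L := Real.log (X / x) with hLdef
  have hL : 0 < L := Real.log_pos (by rwa [one_lt_div hx])
  have hLe : L = Real.log X - Real.log x := by
    rw [hLdef, Real.log_div hX.ne' hx.ne']
  have hne : ∀ l ∈ Set.Icc x X, l ≠ 0 := fun l hl => (hx.trans_le hl.1).ne'
  have cr : ContinuousOn (fun l : ℝ => l ^ (a - 3)) (Set.Icc x X) :=
    continuousOn_id.rpow_const fun l hl => Or.inl (hne l hl)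
  have cS : ContinuousOn (fun l : ℝ => l ^ (a - 3) * SJ m t w u l) (Set.Icc x X) :=
    cr.mul (SJ_continuous hm t w u).continuousOn
  have cD : ContinuousOn (fun l : ℝ => l ^ (a - 3) * DJ m t w u l) (Set.Icc x X) :=
    cr.mul (DJ_continuous hm t w u).continuousOn
  have cF := continuousOn_Fd γ γ' a x X hm t w u hx
  have iS : IntervalIntegrable (fun l : ℝ => l ^ (a - 3) * SJ m t w u l) volume x X :=
    ContinuousOn.intervalIntegrable (by rwa [Set.uIcc_of_le hxX.le])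
  have iD : IntervalIntegrable (fun l : ℝ => l ^ (a - 3) * DJ m t w u l) volume x X :=
    ContinuousOn.intervalIntegrable (by rwa [Set.uIcc_of_le hxX.le])
  have iF : IntervalIntegrable (Fd γ γ' a x X m t w u) volume x X :=
    ContinuousOn.intervalIntegrable (by rwa [Set.uIcc_of_le hxX.le])
  have hftc : ∫ l in x..X, Fd γ γ' a x X m t w u l =
      Fn γ γ' a x X m t w u X - Fn γ γ' a x X m t w u x := by
    refine intervalIntegral.integral_eq_sub_of_hasDerivAt (fun l hl => ?_) iF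
    rw [Set.uIcc_of_le hxX.le] at hl
    exact hasDerivAt_Fn γ γ' a x X hm t w u (hx.trans_le hl.1)
  have eX : Fn γ γ' a x X m t w u X = X ^ (a - 3) * QK γ' m t w u X := by
    unfold Fn
    rw [← hLdef, ← hLe, div_self hL.ne', QK_eq]
    ring
  have ex : Fn γ γ' a x X m t w u x = x ^ (a - 3) * QK γ m t w u x := by
    unfold Fn
    rw [sub_self, zero_div, QK_eq]
    ring
  have hmono : ∫ l in x..X, (δ - Cg γ γ' / L) * (l ^ (a - 3) * SJ m t w u l) ≤
      ∫ l in x..X, (l ^ (a - 3) * DJ m t w u l + Fd γ γ' a x X m t w u l) := by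
    refine intervalIntegral.integral_mono_on hxX.le (iS.const_mul _) (iD.add iF) fun l hl => ?_
    have hl0 : 0 < l := hx.trans_le hl.1
    have hk : 0 < l ^ (a - 3) := Real.rpow_pos_of_pos hl0 _
    have hl4 : 0 < l ^ 4 := by positivity
    set σ := (Real.log l - Real.log x) / L with hσ
    have hσ0 : 0 ≤ σ := div_nonneg (sub_nonneg.mpr (Real.log_le_log hx hl.1)) hL.le
    have hσ1 : σ ≤ 1 := by
      rw [hσ, div_le_one hL, hLe]
      linarith [Real.log_le_log hl0 hl.2]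
    have p1 := pointwise h1 h2 hm hJ ht hl0.le w (fun i => u i / (l : ℂ))
    have p2 := pointwise h1' h2' hm hJ ht hl0.le w (fun i => u i / (l : ℂ))
    have p3 := gauge_diff γ γ' (p := qw m t l) (s := fun i => l * t i) (qw_nonneg hm t l)
      (fun i => mul_nonneg hl0.le (ht i)) w (fun i => u i / (l : ℂ))
    have e1 : (a - 3) / l * QP γ m t w u l + GP γ m t w u l = l ^ 4 *
        gaugeRate γ (a + l * tau m t l) (qw m t l) (fun i => l * t i) w
          (fun i => u i / (l : ℂ)) := by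
      have := QP_div γ m t w u hl0.ne'
      rw [← rate_eq, show a + l * tau m t l = 3 + l * tau m t l + (a - 3) by ring,
        rate_add γ (3 + l * tau m t l) (a - 3), div_mul_eq_mul_div, mul_div_assoc, this]
      ring
    have e2 : (a - 3) / l * QP γ' m t w u l + GP γ' m t w u l = l ^ 4 *
        gaugeRate γ' (a + l * tau m t l) (qw m t l) (fun i => l * t i) w
          (fun i => u i / (l : ℂ)) := by
      have := QP_div γ' m t w u hl0.ne'
      rw [← rate_eq, show a + l * tau m t l = 3 + l * tau m t l + (a - 3) by ring,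
        rate_add γ' (3 + l * tau m t l) (a - 3), div_mul_eq_mul_div, mul_div_assoc, this]
      ring
    have e3 : 1 / l / L * (QP γ' m t w u l - QP γ m t w u l) = l ^ 4 * (1 / L *
        (gaugeQ γ' (qw m t l) (fun i => l * t i) w (fun i => u i / (l : ℂ)) -
          gaugeQ γ (qw m t l) (fun i => l * t i) w (fun i => u i / (l : ℂ)))) := by
      have q1 := QP_div γ m t w u hl0.ne'
      have q2 := QP_div γ' m t w u hl0.ne'
      have : 1 / l / L * (QP γ' m t w u l - QP γ m t w u l) =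
        1 / L * (QP γ' m t w u l / l - QP γ m t w u l / l) := by ring
      rw [this, q1, q2]
      ring
    have e4 : Fd γ γ' a x X m t w u l = l ^ (a - 3) * (l ^ 4 * ((1 - σ) *
        gaugeRate γ (a + l * tau m t l) (qw m t l) (fun i => l * t i) w
          (fun i => u i / (l : ℂ)) + σ * gaugeRate γ' (a + l * tau m t l) (qw m t l)
          (fun i => l * t i) w (fun i => u i / (l : ℂ)) + 1 / L *
        (gaugeQ γ' (qw m t l) (fun i => l * t i) w (fun i => u i / (l : ℂ)) -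
          gaugeQ γ (qw m t l) (fun i => l * t i) w (fun i => u i / (l : ℂ))))) := by
      unfold Fd
      rw [← hLdef, ← hσ, e3]
      linear_combination l ^ (a - 3) * ((1 - σ) * e1 + σ * e2)
    rw [e4, SJ_eq t w u hl0.ne']
    unfold DJ
    generalize (∑ i, qw m t l i * (1 + l * t i) * (‖w i‖ ^ 4 + ‖u i / (l : ℂ)‖ ^ 2)) = S at *
    generalize T0 (qw m t l) w (fun i => u i / (l : ℂ)) = T at *
    generalize gaugeRate γ (a + l * tau m t l) (qw m t l) (fun i => l * t i) w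
          (fun i => u i / (l : ℂ)) = R1 at *
    generalize gaugeRate γ' (a + l * tau m t l) (qw m t l) (fun i => l * t i) w
          (fun i => u i / (l : ℂ)) = R2 at *
    generalize (gaugeQ γ' (qw m t l) (fun i => l * t i) w (fun i => u i / (l : ℂ)) -
          gaugeQ γ (qw m t l) (fun i => l * t i) w (fun i => u i / (l : ℂ))) = D at *
    have p4 : δ * S ≤ T + ((1 - σ) * R1 + σ * R2) := by
      have a1 := mul_le_mul_of_nonneg_left p1 (sub_nonneg.mpr hσ1)
      have a2 := mul_le_mul_of_nonneg_left p2 hσ0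
      linarith
    have p5 : -(Cg γ γ' / L * S) ≤ 1 / L * D := by
      have b1 := (abs_le.mp p3).1
      have b2 : 1 / L * (-(Cg γ γ' * S)) ≤ 1 / L * D :=
        mul_le_mul_of_nonneg_left b1 (by positivity)
      have b3 : 1 / L * (-(Cg γ γ' * S)) = -(Cg γ γ' / L * S) := by ring
      linarith
    have p6 : (δ - Cg γ γ' / L) * S ≤ T + ((1 - σ) * R1 + σ * R2 + 1 / L * D) := by
      linarith
    have p7 := mul_le_mul_of_nonneg_left p6 (mul_pos hk hl4).le
    linarith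
  rw [intervalIntegral.integral_const_mul, intervalIntegral.integral_add iD iF, hftc, eX, ex]
    at hmono
  linarith

end Pool.Agent.MP_7c31d9_gt
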