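import Pool.Agent.MP_7c31d9_gt.PieceA
import Pool.Agent.MP_7c31d9_gt.Chain
import Pool.Agent.MP_7c31d9_gt.Plateau

/-! The non-constant part of the weight: final form. -/

open MeasureTheory

namespace Pool.Agent.MP_7c31d9_gt

/-- P6: the non-constant part of the weight. -/
theorem pieceA (n : ℕ) : ∃ δ C : ℝ, 0 < δ ∧ 0 < C ∧ ∀ L : ℝ, ∃ K : ℝ → ℝ,
    ContinuousOn K (Set.Icc 0 1) ∧ (∀ x ∈ Set.Icc (0 : ℝ) 1, 0 < K x ∧ x ^ 4 * K x ≤ 1) ∧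
    (∀ s : ℝ, 0 ≤ s → (1 / 16) * Real.exp (-(s / 2)) ≤
      ∫ x in (0 : ℝ)..1, K x * x ^ 4 * Real.exp (-(x * s))) ∧
    (∀ s : ℝ, 0 ≤ s → L * Real.exp (-(s / 2)) ≤
      ∫ x in (0 : ℝ)..1, K x * x ^ 2 * Real.exp (-(x * s))) ∧
    ∀ (J : Type) [Fintype J] (t : J → ℝ) (w u : J → ℂ) (m : ℝ), (∀ i, 0 < t i) →
      Fintype.card J ≤ n → m + Fintype.card J = 2 * n + 1 →
      (∑ i, (δ * ∫ x in (0 : ℝ)..1, K x * Real.exp (-(x * t i)) *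
          (x ^ 4 * ‖w i‖ ^ 4 + x ^ 2 * ‖u i‖ ^ 2)))
        - C * ∑ i, (1 + t i) * Real.exp (-(t i)) * (‖w i‖ ^ 4 + ‖u i‖ ^ 2)
      ≤ ∫ x in (0 : ℝ)..1, K x * DJ m t w u x :=
  pieceA_of chain plateau_step first_step n

end Pool.Agent.MP_7c31d9_gt
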