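import Pool.Agent.MP_7c31d9_gt.Defs2

/-! P7: the constant part of the weight, exact identity and its consequences. -/

namespace Pool.Agent.MP_7c31d9_gt

open Complex MeasureTheory

section Static

variable {J : Type} [Fintype J]

/-- Cauchy-Schwarz with weights. -/
lemma pB_cs (p X : J → ℝ) (hp : ∀ i, 0 ≤ p i) :
    (∑ i, p i * X i) ^ 2 ≤ (∑ i, p i) * ∑ i, p i * X i ^ 2 := by
  refine Finset.sum_sq_le_sum_mul_sum_of_sq_le_mul _ (fun i _ => hp i)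
    (fun i _ => mul_nonneg (hp i) (sq_nonneg _)) (fun i _ => le_of_eq (by ring))

lemma pB_csC (p : J → ℝ) (c : J → ℂ) (hp : ∀ i, 0 ≤ p i) :
    ‖∑ i, (p i : ℂ) * c i‖ ^ 2 ≤ (∑ i, p i) * ∑ i, p i * ‖c i‖ ^ 2 := by
  have h1 : ‖∑ i, (p i : ℂ) * c i‖ ≤ ∑ i, p i * ‖c i‖ := by
    refine (norm_sum_le _ _).trans (le_of_eq ?_)
    refine Finset.sum_congr rfl fun i _ => ?_
    rw [norm_mul, Complex.norm_real, Real.norm_of_nonneg (hp i)]
  calc ‖∑ i, (p i : ℂ) * c i‖ ^ 2 ≤ (∑ i, p i * ‖c i‖) ^ 2 := by gcongr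
    _ ≤ _ := pB_cs p (fun i => ‖c i‖) hp

/-- the (sub-probability) variance form of complex functions -/
lemma pB_Q_nonneg (p : J → ℝ) (c : J → ℂ) (hp : ∀ i, 0 ≤ p i) (hB : ∑ i, p i ≤ 1) :
    0 ≤ (∑ i, p i * ‖c i‖ ^ 2) - ‖∑ i, (p i : ℂ) * c i‖ ^ 2 := by
  have h := pB_csC p c hp
  have h2 : 0 ≤ ∑ i, p i * ‖c i‖ ^ 2 :=
    Finset.sum_nonneg fun i _ => mul_nonneg (hp i) (sq_nonneg _)
  nlinarith

lemma pB_norm_expand (θ : ℝ) (a b : ℂ) :
    ‖(θ : ℂ) * a + b‖ ^ 2 = θ ^ 2 * ‖a‖ ^ 2 + 2 * θ * (a.re * b.re + a.im * b.im) + ‖b‖ ^ 2 := by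
  simp only [← Complex.normSq_eq_norm_sq, Complex.normSq_apply, add_re, add_im, mul_re, mul_im,
    ofReal_re, ofReal_im]
  ring

lemma pB_Q_add (p : J → ℝ) (a b : J → ℂ) (hp : ∀ i, 0 ≤ p i) (hB : ∑ i, p i ≤ 1) (θ : ℝ)
    (hθ : 0 < θ) :
    (1 - θ) * ((∑ i, p i * ‖a i‖ ^ 2) - ‖∑ i, (p i : ℂ) * a i‖ ^ 2)
      - (1 / θ) * ∑ i, p i * ‖b i‖ ^ 2 ≤
    (∑ i, p i * ‖a i + b i‖ ^ 2) - ‖∑ i, (p i : ℂ) * (a i + b i)‖ ^ 2 := by
  set A := ∑ i, (p i : ℂ) * a i with hA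
  set Bb := ∑ i, (p i : ℂ) * b i with hBb
  set R := ∑ i, p i * ((a i).re * (b i).re + (a i).im * (b i).im) with hR
  set SA := ∑ i, p i * ‖a i‖ ^ 2
  set SB := ∑ i, p i * ‖b i‖ ^ 2
  have hsum : ∀ η : ℝ, ∑ i, p i * ‖(η : ℂ) * a i + b i‖ ^ 2 = η ^ 2 * SA + 2 * η * R + SB := by
    intro η
    simp only [pB_norm_expand, SA, SB, hR, Finset.mul_sum, ← Finset.sum_add_distrib]
    refine Finset.sum_congr rfl fun i _ => ?_
    ring
  have hlin : ∀ η : ℝ, ∑ i, (p i : ℂ) * ((η : ℂ) * a i + b i) = (η : ℂ) * A + Bb := by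
    intro η
    simp only [hA, hBb, Finset.mul_sum, ← Finset.sum_add_distrib]
    refine Finset.sum_congr rfl fun i _ => ?_
    ring
  have h1 : 0 ≤ (∑ i, p i * ‖(θ : ℂ) * a i + b i‖ ^ 2)
      - ‖∑ i, (p i : ℂ) * ((θ : ℂ) * a i + b i)‖ ^ 2 :=
    pB_Q_nonneg p (fun i => (θ : ℂ) * a i + b i) hp hB
  rw [hsum θ, hlin θ, pB_norm_expand θ A Bb] at h1
  have e1 : (∑ i, p i * ‖a i + b i‖ ^ 2) = SA + 2 * R + SB := by
    have := hsum 1
    simpa using this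
  have e2 : (∑ i, (p i : ℂ) * (a i + b i)) = A + Bb := by
    have := hlin 1
    simpa using this
  have e3 : ‖A + Bb‖ ^ 2 = ‖A‖ ^ 2 + 2 * (A.re * Bb.re + A.im * Bb.im) + ‖Bb‖ ^ 2 := by
    have := pB_norm_expand 1 A Bb
    simpa using this
  rw [e1, e2, e3]
  set r := A.re * Bb.re + A.im * Bb.im
  have hSB : 0 ≤ SB := Finset.sum_nonneg fun i _ => mul_nonneg (hp i) (sq_nonneg _)
  have hBb' := pB_Q_nonneg p b hp hB
  -- θ² (SA - |A|²) + 2 θ (R - r) + (SB - |Bb|²) ≥ 0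
  have h2 : 0 ≤ θ * (SA - ‖A‖ ^ 2) + 2 * (R - r) + (1 / θ) * (SB - ‖Bb‖ ^ 2) := by
    have : θ * (SA - ‖A‖ ^ 2) + 2 * (R - r) + (1 / θ) * (SB - ‖Bb‖ ^ 2)
        = (1 / θ) * (θ ^ 2 * SA + 2 * θ * R + SB
          - (θ ^ 2 * ‖A‖ ^ 2 + 2 * θ * r + ‖Bb‖ ^ 2)) := by
      field_simp
      ring
    rw [this]
    exact mul_nonneg (by positivity) h1
  have h3 : (1 / θ) * ‖Bb‖ ^ 2 ≥ 0 := by positivity
  nlinarith [h2, h3, hBb']

lemma pB_varf_ge (p : J → ℝ) (w : J → ℂ) (hp : ∀ i, 0 ≤ p i) (hB : ∑ i, p i ≤ 1) (e : ℂ)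
    (he : e = ∑ j, (p j : ℂ) * w j) :
    (∑ i, p i * (‖w i‖ ^ 2 - 2 * (e.re * (w i).re + e.im * (w i).im)) ^ 2)
      - (∑ i, p i * (‖w i‖ ^ 2 - 2 * (e.re * (w i).re + e.im * (w i).im))) ^ 2 ≤
    (∑ i, p i * ‖w i ^ 2 - 2 * e * w i‖ ^ 2) - ‖∑ i, (p i : ℂ) * (w i ^ 2 - 2 * e * w i)‖ ^ 2 := by
  set B := ∑ i, p i with hBdef
  set M := ∑ i, (p i : ℂ) * w i ^ 2 with hM
  set S := ∑ i, p i * ‖w i‖ ^ 2 with hS
  have hre : e.re = ∑ i, p i * (w i).re := by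
    rw [he]; simp
  have him : e.im = ∑ i, p i * (w i).im := by
    rw [he]; simp
  -- sum of F
  have hF : (∑ i, p i * (‖w i‖ ^ 2 - 2 * (e.re * (w i).re + e.im * (w i).im)))
      = S - 2 * (e.re ^ 2 + e.im ^ 2) := by
    have : (∑ i, p i * (‖w i‖ ^ 2 - 2 * (e.re * (w i).re + e.im * (w i).im)))
        = S - 2 * (e.re * (∑ i, p i * (w i).re) + e.im * (∑ i, p i * (w i).im)) := by
      simp only [hS, Finset.mul_sum, ← Finset.sum_add_distrib, ← Finset.sum_sub_distrib]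
      refine Finset.sum_congr rfl fun i _ => ?_
      ring
    rw [this, ← hre, ← him]; ring
  have hf : (∑ i, (p i : ℂ) * (w i ^ 2 - 2 * e * w i)) = M - 2 * e ^ 2 := by
    have : (∑ i, (p i : ℂ) * (w i ^ 2 - 2 * e * w i)) = M - 2 * e * ∑ j, (p j : ℂ) * w j := by
      simp only [hM, Finset.mul_sum, ← Finset.sum_sub_distrib]
      refine Finset.sum_congr rfl fun i _ => ?_
      ring
    rw [this, ← he]; ring
  -- pointwise relation
  have hpt : ∀ i, ‖w i ^ 2 - 2 * e * w i‖ ^ 2 =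
      (‖w i‖ ^ 2 - 2 * (e.re * (w i).re + e.im * (w i).im)) ^ 2
      + 2 * (e.re ^ 2 + e.im ^ 2) * (‖w i‖ ^ 2 - 2 * (e.re * (w i).re + e.im * (w i).im))
      - 2 * ((e ^ 2).re * (w i ^ 2 - 2 * e * w i).re + (e ^ 2).im * (w i ^ 2 - 2 * e * w i).im) := by
    intro i
    have h4 : ‖w i ^ 2 - 2 * e * w i + e ^ 2‖ ^ 2 = (‖w i - e‖ ^ 2) ^ 2 := by
      rw [show w i ^ 2 - 2 * e * w i + e ^ 2 = (w i - e) ^ 2 by ring, norm_pow]
    have h5 : ‖w i - e‖ ^ 2 = ‖w i‖ ^ 2 - 2 * (e.re * (w i).re + e.im * (w i).im)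
        + (e.re ^ 2 + e.im ^ 2) := by
      simp only [← Complex.normSq_eq_norm_sq, Complex.normSq_apply, sub_re, sub_im]
      ring
    have h6 : ‖w i ^ 2 - 2 * e * w i + e ^ 2‖ ^ 2 = ‖w i ^ 2 - 2 * e * w i‖ ^ 2
        + 2 * ((e ^ 2).re * (w i ^ 2 - 2 * e * w i).re
          + (e ^ 2).im * (w i ^ 2 - 2 * e * w i).im) + (e.re ^ 2 + e.im ^ 2) ^ 2 := by
      have h7 : ‖e ^ 2‖ ^ 2 = (e.re ^ 2 + e.im ^ 2) ^ 2 := by
        rw [norm_pow, ← Complex.normSq_eq_norm_sq, Complex.normSq_apply]; ring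
      rw [← h7]
      simp only [← Complex.normSq_eq_norm_sq, Complex.normSq_apply, add_re, add_im]
      ring
    rw [h6, h5] at h4
    linarith
  have hsum : (∑ i, p i * ‖w i ^ 2 - 2 * e * w i‖ ^ 2) =
      (∑ i, p i * (‖w i‖ ^ 2 - 2 * (e.re * (w i).re + e.im * (w i).im)) ^ 2)
      + 2 * (e.re ^ 2 + e.im ^ 2) * (S - 2 * (e.re ^ 2 + e.im ^ 2))
      - 2 * ((e ^ 2).re * (M - 2 * e ^ 2).re + (e ^ 2).im * (M - 2 * e ^ 2).im) := by
    rw [← hF, ← hf]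
    simp only [re_sum, im_sum, re_ofReal_mul, im_ofReal_mul, Finset.mul_sum,
      ← Finset.sum_add_distrib, ← Finset.sum_sub_distrib]
    refine Finset.sum_congr rfl fun i _ => ?_
    rw [hpt i]
    ring
  rw [hsum, hF, hf]
  -- |M - e²| ≤ S - |e|²
  have hE : ‖e‖ ^ 2 = e.re ^ 2 + e.im ^ 2 := by
    rw [← Complex.normSq_eq_norm_sq, Complex.normSq_apply]; ring
  have hMe : ‖M - e ^ 2‖ ≤ S - (e.re ^ 2 + e.im ^ 2) := by
    have h1 : M - e ^ 2 = (∑ i, (p i : ℂ) * (w i - e) ^ 2) + ((1 - B : ℝ) : ℂ) * e ^ 2 := by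
      have : (∑ i, (p i : ℂ) * (w i - e) ^ 2) = M - 2 * e * (∑ j, (p j : ℂ) * w j)
          + ((B : ℝ) : ℂ) * e ^ 2 := by
        simp only [hM, hBdef, Finset.mul_sum, Complex.ofReal_sum, Finset.sum_mul,
          ← Finset.sum_sub_distrib, ← Finset.sum_add_distrib]
        refine Finset.sum_congr rfl fun i _ => ?_
        ring
      rw [this, ← he]
      push_cast
      ring
    have h2 : ‖∑ i, (p i : ℂ) * (w i - e) ^ 2‖ ≤ ∑ i, p i * ‖w i - e‖ ^ 2 := by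
      refine (norm_sum_le _ _).trans (le_of_eq ?_)
      refine Finset.sum_congr rfl fun i _ => ?_
      rw [norm_mul, Complex.norm_real, Real.norm_of_nonneg (hp i), norm_pow]
    have h3 : ∑ i, p i * ‖w i - e‖ ^ 2 = S - 2 * (e.re ^ 2 + e.im ^ 2)
        + B * (e.re ^ 2 + e.im ^ 2) := by
      have h5 : ∀ i, ‖w i - e‖ ^ 2 = ‖w i‖ ^ 2 - 2 * (e.re * (w i).re + e.im * (w i).im)
          + (e.re ^ 2 + e.im ^ 2) := by
        intro i
        simp only [← Complex.normSq_eq_norm_sq, Complex.normSq_apply, sub_re, sub_im]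
        ring
      have : ∑ i, p i * ‖w i - e‖ ^ 2 =
          (∑ i, p i * (‖w i‖ ^ 2 - 2 * (e.re * (w i).re + e.im * (w i).im)))
          + B * (e.re ^ 2 + e.im ^ 2) := by
        rw [hBdef, Finset.sum_mul, ← Finset.sum_add_distrib]
        refine Finset.sum_congr rfl fun i _ => ?_
        rw [h5 i]; ring
      rw [this, hF]
    have h4 : ‖((1 - B : ℝ) : ℂ) * e ^ 2‖ = (1 - B) * (e.re ^ 2 + e.im ^ 2) := by
      rw [norm_mul, Complex.norm_real, Real.norm_of_nonneg (by linarith), norm_pow, hE]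
    calc ‖M - e ^ 2‖ ≤ ‖∑ i, (p i : ℂ) * (w i - e) ^ 2‖ + ‖((1 - B : ℝ) : ℂ) * e ^ 2‖ := by
          rw [h1]; exact norm_add_le _ _
      _ ≤ S - 2 * (e.re ^ 2 + e.im ^ 2) + B * (e.re ^ 2 + e.im ^ 2)
          + (1 - B) * (e.re ^ 2 + e.im ^ 2) := by
          rw [h4, ← h3]; gcongr
      _ = _ := by ring
  have hMe2 : ‖M - e ^ 2‖ ^ 2 ≤ (S - (e.re ^ 2 + e.im ^ 2)) ^ 2 := by
    gcongr
  have hx : ‖M - 2 * e ^ 2‖ ^ 2 = ‖M - e ^ 2‖ ^ 2
      - 2 * ((e ^ 2).re * (M - 2 * e ^ 2).re + (e ^ 2).im * (M - 2 * e ^ 2).im)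
      - (e.re ^ 2 + e.im ^ 2) ^ 2 := by
    have h7 : ‖e ^ 2‖ ^ 2 = (e.re ^ 2 + e.im ^ 2) ^ 2 := by
      rw [norm_pow, ← Complex.normSq_eq_norm_sq, Complex.normSq_apply]; ring
    rw [← h7]
    have h8 : M - e ^ 2 = (M - 2 * e ^ 2) + e ^ 2 := by ring
    rw [h8]
    generalize M - 2 * e ^ 2 = y
    generalize e ^ 2 = z
    simp only [← Complex.normSq_eq_norm_sq, Complex.normSq_apply, add_re, add_im]
    ring
  rw [hx]
  nlinarith [hMe2]

lemma pB_varf_le (p : J → ℝ) (w : J → ℂ) (hp : ∀ i, 0 ≤ p i) (hB : ∑ i, p i ≤ 1) (e : ℂ)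
    (he : e = ∑ j, (p j : ℂ) * w j) :
    (∑ i, p i * ‖w i ^ 2 - 2 * e * w i‖ ^ 2) ≤ 10 * ∑ i, p i * ‖w i‖ ^ 4 := by
  have h1 : ‖e‖ ^ 2 ≤ ∑ i, p i * ‖w i‖ ^ 2 := by
    have h := pB_csC p w hp
    rw [← he] at h
    have h2 : 0 ≤ ∑ i, p i * ‖w i‖ ^ 2 :=
      Finset.sum_nonneg fun i _ => mul_nonneg (hp i) (sq_nonneg _)
    nlinarith
  have h2 : (∑ i, p i * ‖w i‖ ^ 2) ^ 2 ≤ ∑ i, p i * ‖w i‖ ^ 4 := by
    have h := pB_cs p (fun i => ‖w i‖ ^ 2) hp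
    have h3 : ∑ i, p i * (‖w i‖ ^ 2) ^ 2 = ∑ i, p i * ‖w i‖ ^ 4 := by
      refine Finset.sum_congr rfl fun i _ => by ring
    simp only [h3] at h
    have h4 : 0 ≤ ∑ i, p i * ‖w i‖ ^ 4 :=
      Finset.sum_nonneg fun i _ => mul_nonneg (hp i) (by positivity)
    nlinarith
  have hS : 0 ≤ ∑ i, p i * ‖w i‖ ^ 2 :=
    Finset.sum_nonneg fun i _ => mul_nonneg (hp i) (sq_nonneg _)
  have h3 : ∀ i, p i * ‖w i ^ 2 - 2 * e * w i‖ ^ 2 ≤
      2 * (p i * ‖w i‖ ^ 4) + 8 * ‖e‖ ^ 2 * (p i * ‖w i‖ ^ 2) := by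
    intro i
    have h4 : ‖w i ^ 2 - 2 * e * w i‖ ≤ ‖w i‖ ^ 2 + 2 * ‖e‖ * ‖w i‖ := by
      refine (norm_sub_le _ _).trans ?_
      rw [norm_pow, norm_mul, norm_mul]; simp
    have h5 : ‖w i ^ 2 - 2 * e * w i‖ ^ 2 ≤ 2 * ‖w i‖ ^ 4 + 8 * ‖e‖ ^ 2 * ‖w i‖ ^ 2 := by
      have h6 : ‖w i ^ 2 - 2 * e * w i‖ ^ 2 ≤ (‖w i‖ ^ 2 + 2 * ‖e‖ * ‖w i‖) ^ 2 := by gcongr
      nlinarith [sq_nonneg (‖w i‖ ^ 2 - 2 * ‖e‖ * ‖w i‖)]
    nlinarith [mul_le_mul_of_nonneg_left h5 (hp i)]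
  calc (∑ i, p i * ‖w i ^ 2 - 2 * e * w i‖ ^ 2)
      ≤ ∑ i, (2 * (p i * ‖w i‖ ^ 4) + 8 * ‖e‖ ^ 2 * (p i * ‖w i‖ ^ 2)) :=
        Finset.sum_le_sum fun i _ => h3 i
    _ = 2 * (∑ i, p i * ‖w i‖ ^ 4) + 8 * ‖e‖ ^ 2 * ∑ i, p i * ‖w i‖ ^ 2 := by
        rw [Finset.sum_add_distrib, Finset.mul_sum, Finset.mul_sum]
    _ ≤ _ := by nlinarith [mul_le_mul_of_nonneg_right h1 hS]

/-- static lower bound of `T0` -/
lemma pB_T0_ge (p : J → ℝ) (w u : J → ℂ) (hp : ∀ i, 0 ≤ p i) (hB : ∑ i, p i ≤ 1) (e : ℂ)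
    (he : e = ∑ j, (p j : ℂ) * w j) (θ : ℝ) (hθ : 0 < θ) :
    ((∑ i, p i * (‖w i‖ ^ 2 - 2 * (e.re * (w i).re + e.im * (w i).im)) ^ 2)
      - (∑ i, p i * (‖w i‖ ^ 2 - 2 * (e.re * (w i).re + e.im * (w i).im))) ^ 2
      - 2 * ((∑ i, p i * ‖w i‖ ^ 2) - (e.re ^ 2 + e.im ^ 2)) ^ 2)
      - 10 * θ * (∑ i, p i * ‖w i‖ ^ 4) - (1 / θ) * (∑ i, p i * ‖u i‖ ^ 2) ≤ T0 p w u := by
  have h1 := pB_Q_add p (fun i => w i ^ 2 - 2 * e * w i) u hp hB θ hθ
  have h2 := pB_varf_ge p w hp hB e he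
  have h3 := pB_varf_le p w hp hB e he
  have h4 : 0 ≤ ‖∑ i, (p i : ℂ) * (w i ^ 2 - 2 * e * w i)‖ ^ 2 := by positivity
  have hE : ‖e‖ ^ 2 = e.re ^ 2 + e.im ^ 2 := by
    rw [← Complex.normSq_eq_norm_sq, Complex.normSq_apply]; ring
  have h5 : T0 p w u = (∑ i, p i * ‖w i ^ 2 - 2 * e * w i + u i‖ ^ 2)
      - ‖∑ i, (p i : ℂ) * (w i ^ 2 - 2 * e * w i + u i)‖ ^ 2
      - 2 * ((∑ i, p i * ‖w i‖ ^ 2) - (e.re ^ 2 + e.im ^ 2)) ^ 2 := by
    rw [T0, ← he, hE]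
  rw [h5]
  nlinarith [h1, h2, mul_le_mul_of_nonneg_left h3 hθ.le, mul_nonneg hθ.le h4]

/-- The main static inequality (the exact identity, minus the obvious nonnegative terms). -/
lemma pB_main (p t F : J → ℝ) (hp : ∀ i, 0 ≤ p i) (B τ v ε g : ℝ) (hB : B = ∑ i, p i)
    (hτ : τ = ∑ i, p i * t i) (hτ0 : 0 < τ) (hB0 : 0 < B) (hB1 : B ≤ 1 / 2) (hε : 0 ≤ ε)
    (hg : g = (1 - 2 * B) / (1 - B) - ε * B ^ 2) (hg0 : 0 ≤ g) :
    ε / 2 * B * v ^ 2 ≤ ((∑ i, p i * F i ^ 2) - (∑ i, p i * F i) ^ 2 - 2 * v ^ 2)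
      + ((1 / (1 - B) + 2 * ε * B * (1 - B)) * v ^ 2
        + 2 * g * (v / τ) * (∑ i, p i * (τ - t i) * F i)
        - g * (v / τ) ^ 2 * (∑ i, p i * (τ - t i) * t i)) := by
  set ρ := v / τ with hρ
  have hv : v = ρ * τ := by rw [hρ]; field_simp
  have hX := pB_cs p (fun i => F i - g * ρ * t i) hp
  rw [← hB] at hX
  have hT := pB_cs p t hp
  rw [← hB, ← hτ] at hT
  set SFF := ∑ i, p i * F i ^ 2 with hSFF
  set SF := ∑ i, p i * F i with hSF
  set SFt := ∑ i, p i * F i * t i with hSFt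
  set Stt := ∑ i, p i * t i ^ 2 with hStt
  have e1 : (∑ i, p i * (τ - t i) * F i) = τ * SF - SFt := by
    simp only [hSF, hSFt, Finset.mul_sum, ← Finset.sum_sub_distrib]
    exact Finset.sum_congr rfl fun i _ => by ring
  have e2 : (∑ i, p i * (τ - t i) * t i) = τ ^ 2 - Stt := by
    have : (∑ i, p i * (τ - t i) * t i) = τ * (∑ i, p i * t i) - Stt := by
      simp only [hStt, Finset.mul_sum, ← Finset.sum_sub_distrib]
      exact Finset.sum_congr rfl fun i _ => by ring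
    rw [this, ← hτ]; ring
  have e3 : (∑ i, p i * (F i - g * ρ * t i)) = SF - g * ρ * τ := by
    rw [hτ]
    simp only [hSF, Finset.mul_sum, ← Finset.sum_sub_distrib]
    exact Finset.sum_congr rfl fun i _ => by ring
  have e4 : (∑ i, p i * (F i - g * ρ * t i) ^ 2) = SFF - 2 * g * ρ * SFt + g ^ 2 * ρ ^ 2 * Stt := by
    simp only [hSFF, hSFt, hStt, Finset.mul_sum, ← Finset.sum_sub_distrib,
      ← Finset.sum_add_distrib]
    exact Finset.sum_congr rfl fun i _ => by ring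
  simp only [e3, e4] at hX
  rw [e1, e2]
  -- variance of X is nonneg
  have hX2 : 0 ≤ (SFF - 2 * g * ρ * SFt + g ^ 2 * ρ ^ 2 * Stt) - (SF - g * ρ * τ) ^ 2 := by
    have h0 : 0 ≤ (SFF - 2 * g * ρ * SFt + g ^ 2 * ρ ^ 2 * Stt) := by
      rw [← e4]
      exact Finset.sum_nonneg fun i _ => mul_nonneg (hp i) (sq_nonneg _)
    nlinarith
  -- Stt ≥ τ²/B
  have hT2 : τ ^ 2 / B ≤ Stt := by
    rw [div_le_iff₀ hB0]; linarith
  have h1B : 0 < 1 - B := by linarith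
  have hg1 : g ≤ 1 := by
    rw [hg]
    have : (1 - 2 * B) / (1 - B) ≤ 1 := by
      rw [div_le_one h1B]; linarith
    nlinarith [mul_nonneg hε (sq_nonneg B)]
  have h1g : 1 - g = B / (1 - B) + ε * B ^ 2 := by
    rw [hg]; field_simp; ring
  have key : g * (1 - g) * ρ ^ 2 * (Stt - τ ^ 2) ≥
      g * (1 - g) * ρ ^ 2 * (τ ^ 2 / B - τ ^ 2) := by
    have : 0 ≤ g * (1 - g) * ρ ^ 2 := by
      have : 0 ≤ 1 - g := by linarith
      positivity
    exact mul_le_mul_of_nonneg_left (by linarith) this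
  have key2 : g * (1 - g) * ρ ^ 2 * (τ ^ 2 / B - τ ^ 2) =
      g * (1 + ε * B * (1 - B)) * v ^ 2 := by
    rw [h1g, hv]
    field_simp
  have key3 : (g - 2 + 1 / (1 - B)) = - ε * B ^ 2 := by
    rw [hg]; field_simp; ring
  have hexp : (SFF - SF ^ 2 - 2 * v ^ 2) + ((1 / (1 - B) + 2 * ε * B * (1 - B)) * v ^ 2
        + 2 * g * ρ * (τ * SF - SFt) - g * ρ ^ 2 * (τ ^ 2 - Stt))
      = ((SFF - 2 * g * ρ * SFt + g ^ 2 * ρ ^ 2 * Stt) - (SF - g * ρ * τ) ^ 2)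
        + g * (1 - g) * ρ ^ 2 * (Stt - τ ^ 2)
        + (-2 + 1 / (1 - B) + 2 * ε * B * (1 - B)) * v ^ 2 := by ring
  rw [hexp]
  have h5 : g * (1 + ε * B * (1 - B)) * v ^ 2
      + (-2 + 1 / (1 - B) + 2 * ε * B * (1 - B)) * v ^ 2
      = ((g - 2 + 1 / (1 - B)) + g * ε * B * (1 - B) + 2 * ε * B * (1 - B)) * v ^ 2 := by ring
  rw [key3] at h5
  have h6 : ε / 2 * B ≤ - ε * B ^ 2 + g * ε * B * (1 - B) + 2 * ε * B * (1 - B) := by
    have h7 : 0 ≤ g * ε * B * (1 - B) := by positivity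
    have h8 : 0 ≤ ε * B := by positivity
    have h10 : 0 ≤ ε * B * (3 / 2 - 3 * B) := mul_nonneg h8 (by linarith)
    have h11 : - ε * B ^ 2 + g * ε * B * (1 - B) + 2 * ε * B * (1 - B) - ε / 2 * B
      = g * ε * B * (1 - B) + ε * B * (3 / 2 - 3 * B) := by ring
    linarith
  have h9 := mul_le_mul_of_nonneg_right h6 (sq_nonneg v)
  linarith [hX2, key, key2, h5, h9]

/-- lower bound for `B v ^ 2` -/
lemma pB_Bv (p : J → ℝ) (w : J → ℂ) (hp : ∀ i, 0 ≤ p i) (hB : ∑ i, p i ≤ 1 / 2) (e : ℂ)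
    (he : e = ∑ j, (p j : ℂ) * w j) :
    1 / 4 * ∑ i, p i ^ 3 * ‖w i‖ ^ 4 ≤
      (∑ i, p i) * ((∑ i, p i * ‖w i‖ ^ 2) - (e.re ^ 2 + e.im ^ 2)) ^ 2 := by
  have hE : ‖e‖ ^ 2 = e.re ^ 2 + e.im ^ 2 := by
    rw [← Complex.normSq_eq_norm_sq, Complex.normSq_apply]; ring
  set S := ∑ i, p i * ‖w i‖ ^ 2 with hS
  have hS0 : 0 ≤ S := Finset.sum_nonneg fun i _ => mul_nonneg (hp i) (sq_nonneg _)
  have h1 : ‖e‖ ^ 2 ≤ 1 / 2 * S := by
    have h := pB_csC p w hp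
    rw [← he] at h
    nlinarith
  have h2 : (1 / 2 * S) ^ 2 ≤ (S - (e.re ^ 2 + e.im ^ 2)) ^ 2 := by
    rw [← hE]
    have : 1 / 2 * S ≤ S - ‖e‖ ^ 2 := by linarith
    gcongr
  have hB0 : 0 ≤ ∑ i, p i := Finset.sum_nonneg fun i _ => hp i
  have h3 : ∀ i, p i * ‖w i‖ ^ 2 ≤ S := fun i =>
    Finset.single_le_sum (f := fun i => p i * ‖w i‖ ^ 2)
      (fun j _ => mul_nonneg (hp j) (sq_nonneg _)) (Finset.mem_univ i)
  have h4 : ∑ i, p i ^ 3 * ‖w i‖ ^ 4 ≤ ∑ i, p i * S ^ 2 := by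
    refine Finset.sum_le_sum fun i _ => ?_
    have h5 : (p i * ‖w i‖ ^ 2) ^ 2 ≤ S ^ 2 := by
      have := h3 i
      have h6 : 0 ≤ p i * ‖w i‖ ^ 2 := mul_nonneg (hp i) (sq_nonneg _)
      gcongr
    calc p i ^ 3 * ‖w i‖ ^ 4 = p i * (p i * ‖w i‖ ^ 2) ^ 2 := by ring
      _ ≤ p i * S ^ 2 := mul_le_mul_of_nonneg_left h5 (hp i)
  rw [← Finset.sum_mul] at h4
  calc 1 / 4 * ∑ i, p i ^ 3 * ‖w i‖ ^ 4 ≤ 1 / 4 * ((∑ i, p i) * S ^ 2) := by gcongr
    _ = (∑ i, p i) * (1 / 2 * S) ^ 2 := by ring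
    _ ≤ _ := by gcongr

/-- upper bound for `v ^ 2 / τ` -/
lemma pB_vτ (p t : J → ℝ) (w : J → ℂ) (hp : ∀ i, 0 ≤ p i) (ht : ∀ i, 0 < t i) (hB : ∑ i, p i ≤ 1)
    (e : ℂ) (he : e = ∑ j, (p j : ℂ) * w j) (hτ : 0 < ∑ i, p i * t i) :
    ((∑ i, p i * ‖w i‖ ^ 2) - (e.re ^ 2 + e.im ^ 2)) ^ 2 / (∑ i, p i * t i) ≤
      ∑ i, p i * ‖w i‖ ^ 4 / t i := by
  have hE : ‖e‖ ^ 2 = e.re ^ 2 + e.im ^ 2 := by
    rw [← Complex.normSq_eq_norm_sq, Complex.normSq_apply]; ring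
  set S := ∑ i, p i * ‖w i‖ ^ 2 with hS
  have hS0 : 0 ≤ S := Finset.sum_nonneg fun i _ => mul_nonneg (hp i) (sq_nonneg _)
  have h1 : ‖e‖ ^ 2 ≤ S := by
    have h := pB_csC p w hp
    rw [← he] at h
    nlinarith
  have h2 : (S - (e.re ^ 2 + e.im ^ 2)) ^ 2 ≤ S ^ 2 := by
    rw [← hE]
    have h3 : 0 ≤ S - ‖e‖ ^ 2 := by linarith
    have h4 : S - ‖e‖ ^ 2 ≤ S := by nlinarith [sq_nonneg ‖e‖]
    gcongr
  have h3 : S ^ 2 ≤ (∑ i, p i * t i) * ∑ i, p i * ‖w i‖ ^ 4 / t i := by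
    refine Finset.sum_sq_le_sum_mul_sum_of_sq_le_mul _ (fun i _ => ?_) (fun i _ => ?_)
      (fun i _ => ?_)
    · exact mul_nonneg (hp i) (ht i).le
    · exact div_nonneg (mul_nonneg (hp i) (by positivity)) (ht i).le
    · have := (ht i).ne'
      apply le_of_eq
      field_simp
  rw [div_le_iff₀ hτ]
  linarith

end Static

section Calculus

variable {J : Type} [Fintype J]

lemma pB_Z_pos (m : ℝ) (hm : 0 < m) (t : J → ℝ) (x : ℝ) :
    0 < m + ∑ j, Real.exp (-(x * t j)) := by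
  have : 0 ≤ ∑ j, Real.exp (-(x * t j)) := Finset.sum_nonneg fun i _ => (Real.exp_pos _).le
  linarith

lemma pB_qw_pos (m : ℝ) (hm : 0 < m) (t : J → ℝ) (x : ℝ) (i : J) : 0 < qw m t x i :=
  div_pos (Real.exp_pos _) (pB_Z_pos m hm t x)

lemma pB_qw_cont (m : ℝ) (hm : 0 < m) (t : J → ℝ) (i : J) : Continuous fun x => qw m t x i := by
  unfold qw
  refine Continuous.div (by fun_prop) (by fun_prop) fun x => (pB_Z_pos m hm t x).ne'

lemma pB_qw_deriv (m : ℝ) (hm : 0 < m) (t : J → ℝ) (x : ℝ) (i : J) :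
    HasDerivAt (fun x => qw m t x i) (qw m t x i * ((∑ j, qw m t x j * t j) - t i)) x := by
  unfold qw
  have hZ := (pB_Z_pos m hm t x).ne'
  have h1 : ∀ j, HasDerivAt (fun x => Real.exp (-(x * t j))) (Real.exp (-(x * t j)) * (-t j)) x := by
    intro j
    have h2 : HasDerivAt (fun x : ℝ => -(x * t j)) (-t j) x := by
      exact (((hasDerivAt_id' x).mul_const (t j)).fun_neg).congr_deriv (by ring)
    exact h2.exp
  have h3 : HasDerivAt (fun x => m + ∑ j, Real.exp (-(x * t j)))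
      (∑ j, Real.exp (-(x * t j)) * (-t j)) x := by
    have := (HasDerivAt.fun_sum (u := Finset.univ) fun j _ => h1 j).const_add m
    exact this
  have h4 := (h1 i).div h3 hZ
  refine h4.congr_deriv ?_
  have h5 : (∑ j, Real.exp (-(x * t j)) * (-t j)) =
      -(m + ∑ j, Real.exp (-(x * t j))) *
        ∑ j, Real.exp (-(x * t j)) / (m + ∑ j, Real.exp (-(x * t j))) * t j := by
    rw [Finset.mul_sum]
    refine Finset.sum_congr rfl fun j _ => ?_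
    field_simp
  rw [h5]
  generalize (∑ j, Real.exp (-(x * t j)) / (m + ∑ j, Real.exp (-(x * t j))) * t j) = y
  field_simp
  ring

lemma pB_mean_deriv (m : ℝ) (hm : 0 < m) (t : J → ℝ) (x : ℝ) (φ : J → ℝ) :
    HasDerivAt (fun x => ∑ i, qw m t x i * φ i)
      (∑ i, qw m t x i * ((∑ j, qw m t x j * t j) - t i) * φ i) x :=
  HasDerivAt.fun_sum (u := Finset.univ) fun i _ => (pB_qw_deriv m hm t x i).mul_const (φ i)

lemma pB_mean_cont (m : ℝ) (hm : 0 < m) (t : J → ℝ) (φ : J → ℝ) :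
    Continuous (fun x => ∑ i, qw m t x i * φ i) :=
  continuous_finsetSum _ fun i _ => (pB_qw_cont m hm t i).mul continuous_const

lemma pB_sum_lt_one (m : ℝ) (hm : 0 < m) (t : J → ℝ) (x : ℝ) :
    ∑ i, qw m t x i < 1 := by
  unfold qw
  rw [← Finset.sum_div, div_lt_one (pB_Z_pos m hm t x)]
  linarith

/-- variance of `w` at scale `x` -/
noncomputable def pBv (m : ℝ) (t : J → ℝ) (w : J → ℂ) (x : ℝ) : ℝ :=
  (∑ i, qw m t x i * ‖w i‖ ^ 2) - ((∑ i, qw m t x i * (w i).re) ^ 2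
    + (∑ i, qw m t x i * (w i).im) ^ 2)

/-- the real function `F` at scale `x` -/
noncomputable def pBF (m : ℝ) (t : J → ℝ) (w : J → ℂ) (x : ℝ) (i : J) : ℝ :=
  ‖w i‖ ^ 2 - 2 * ((∑ i, qw m t x i * (w i).re) * (w i).re
    + (∑ i, qw m t x i * (w i).im) * (w i).im)

lemma pB_v_deriv (m : ℝ) (hm : 0 < m) (t : J → ℝ) (w : J → ℂ) (x : ℝ) :
    HasDerivAt (pBv m t w)
      (∑ i, qw m t x i * ((∑ j, qw m t x j * t j) - t i) * pBF m t w x i) x := by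
  have h1 := pB_mean_deriv m hm t x (fun i => ‖w i‖ ^ 2)
  have h2 := pB_mean_deriv m hm t x (fun i => (w i).re)
  have h3 := pB_mean_deriv m hm t x (fun i => (w i).im)
  have h4 := h1.sub ((h2.pow 2).add (h3.pow 2))
  refine (h4.congr_deriv ?_)
  simp only [pBF]
  generalize (∑ j, qw m t x j * t j) = τ
  generalize (∑ i, qw m t x i * (w i).re) = a
  generalize (∑ i, qw m t x i * (w i).im) = b
  simp only [Finset.mul_sum, ← Finset.sum_add_distrib, ← Finset.sum_sub_distrib]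
  refine Finset.sum_congr rfl fun i _ => ?_
  ring

lemma pB_B_deriv (m : ℝ) (hm : 0 < m) (t : J → ℝ) (x : ℝ) :
    HasDerivAt (fun x => ∑ i, qw m t x i)
      (-((∑ j, qw m t x j * t j) * (1 - ∑ i, qw m t x i))) x := by
  have h1 := pB_mean_deriv m hm t x (fun _ => 1)
  simp only [mul_one] at h1
  refine (h1.congr_deriv ?_)
  have : ∑ i, qw m t x i * ((∑ j, qw m t x j * t j) - t i)
      = (∑ i, qw m t x i) * (∑ j, qw m t x j * t j) - ∑ j, qw m t x j * t j := by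
    simp only [mul_sub, Finset.sum_sub_distrib, Finset.sum_mul]
  rw [this]; ring

/-- the multiplier `g` -/
noncomputable def pBg (ε B : ℝ) : ℝ := (1 - 2 * B) / (1 - B) - ε * B ^ 2

/-- the correction function `G` -/
noncomputable def pBG (ε m : ℝ) (t : J → ℝ) (w : J → ℂ) (x : ℝ) : ℝ :=
  pBg ε (∑ i, qw m t x i) * (pBv m t w x) ^ 2 / (∑ i, qw m t x i * t i)

/-- the derivative of `G` -/
noncomputable def pBG' (ε m : ℝ) (t : J → ℝ) (w : J → ℂ) (x : ℝ) : ℝ :=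
  (1 / (1 - ∑ i, qw m t x i) + 2 * ε * (∑ i, qw m t x i) * (1 - ∑ i, qw m t x i)) *
      (pBv m t w x) ^ 2
    + 2 * pBg ε (∑ i, qw m t x i) * (pBv m t w x / (∑ i, qw m t x i * t i)) *
      (∑ i, qw m t x i * ((∑ j, qw m t x j * t j) - t i) * pBF m t w x i)
    - pBg ε (∑ i, qw m t x i) * (pBv m t w x / (∑ i, qw m t x i * t i)) ^ 2 *
      (∑ i, qw m t x i * ((∑ j, qw m t x j * t j) - t i) * t i)

lemma pB_tau_pos [Nonempty J] (m : ℝ) (hm : 0 < m) (t : J → ℝ) (ht : ∀ i, 0 < t i) (x : ℝ) :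
    0 < ∑ i, qw m t x i * t i :=
  Finset.sum_pos (fun i _ => mul_pos (pB_qw_pos m hm t x i) (ht i)) Finset.univ_nonempty

lemma pB_G_deriv [Nonempty J] (ε m : ℝ) (hm : 0 < m) (t : J → ℝ) (ht : ∀ i, 0 < t i) (w : J → ℂ)
    (x : ℝ) : HasDerivAt (pBG ε m t w) (pBG' ε m t w x) x := by
  have hτ := (pB_tau_pos m hm t ht x).ne'
  have hB1 : (1 - ∑ i, qw m t x i) ≠ 0 := by
    have := pB_sum_lt_one m hm t x
    linarith
  have hB := pB_B_deriv m hm t x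
  have hv := pB_v_deriv m hm t w x
  have ht' := pB_mean_deriv m hm t x t
  have hg : HasDerivAt (fun x => pBg ε (∑ i, qw m t x i))
      ((1 / (1 - ∑ i, qw m t x i) + 2 * ε * (∑ i, qw m t x i) * (1 - ∑ i, qw m t x i)) *
        (∑ j, qw m t x j * t j)) x := by
    have h1 := ((hB.const_mul 2).const_sub 1).div (hB.const_sub 1) hB1
    have h2 := h1.sub ((hB.pow 2).const_mul ε)
    refine h2.congr_deriv ?_
    generalize (∑ i, qw m t x i) = B at *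
    generalize (∑ j, qw m t x j * t j) = τ at *
    field_simp
    ring
  have h3 := (hg.mul (hv.pow 2)).div ht' hτ
  refine h3.congr_deriv ?_
  simp only [pBG', Pi.mul_apply, Pi.pow_apply]
  generalize (∑ i, qw m t x i * ((∑ j, qw m t x j * t j) - t i) * pBF m t w x i) = v'
  generalize (∑ i, qw m t x i * ((∑ j, qw m t x j * t j) - t i) * t i) = τ'
  generalize (∑ i, qw m t x i * t i) = τ at *
  generalize (∑ i, qw m t x i) = B at *
  generalize pBv m t w x = v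
  generalize pBg ε B = g
  field_simp
  ring

lemma pB_G'_cont [Nonempty J] (ε m : ℝ) (hm : 0 < m) (t : J → ℝ) (ht : ∀ i, 0 < t i)
    (w : J → ℂ) : Continuous (pBG' ε m t w) := by
  have hq : ∀ i, Continuous fun x => qw m t x i := pB_qw_cont m hm t
  have hB1 : ∀ x, (1 - ∑ i, qw m t x i) ≠ 0 := by
    intro x
    have := pB_sum_lt_one m hm t x
    linarith
  have hτ : ∀ x, ∑ i, qw m t x i * t i ≠ 0 := fun x => (pB_tau_pos m hm t ht x).ne'
  have hBc : Continuous fun x => ∑ i, qw m t x i := continuous_finsetSum _ fun i _ => hq i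
  have hτc : Continuous fun x => ∑ i, qw m t x i * t i := pB_mean_cont m hm t t
  have hgc : Continuous fun x => pBg ε (∑ i, qw m t x i) := by
    unfold pBg
    refine Continuous.sub (Continuous.div (by fun_prop) (by fun_prop) hB1) (by fun_prop)
  have hvc : Continuous (pBv m t w) := by
    unfold pBv
    fun_prop
  have hFc : ∀ i, Continuous fun x => pBF m t w x i := by
    intro i
    unfold pBF
    fun_prop
  unfold pBG'
  have h1 : Continuous fun x => 1 / (1 - ∑ i, qw m t x i) :=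
    Continuous.div (by fun_prop) (by fun_prop) hB1
  have h2 : Continuous fun x => pBv m t w x / (∑ i, qw m t x i * t i) :=
    Continuous.div hvc hτc hτ
  fun_prop

end Calculus

/-- pointwise lower bound -/
lemma pB_pointwise (n : ℕ) (J : Type) [Fintype J] [Nonempty J] (t : J → ℝ) (w u : J → ℂ) (m : ℝ)
    (ht : ∀ i, 0 < t i) (hJ : Fintype.card J ≤ n) (hm : m + Fintype.card J = 2 * n + 1)
    (θ : ℝ) (hθ : 0 < θ) (x : ℝ) (hx : 1 ≤ x) :
    (∑ i, ‖w i‖ ^ 4 * ((1 / (8 * (2 * n + 1) ^ 4)) * Real.exp (-(3 * x * t i))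
        - 10 * θ * Real.exp (-(x * t i))))
      - (1 / θ) * (∑ i, ‖u i‖ ^ 2 * (Real.exp (-(x * t i)) / x ^ 2))
      - pBG' (1 / (2 * n + 1)) m t w x
    ≤ T0 (qw m t x) w (fun i => u i / (x : ℂ)) := by
  have hcard : (Fintype.card J : ℝ) ≤ n := by exact_mod_cast hJ
  have hcard0 : (0 : ℝ) < Fintype.card J := by exact_mod_cast Fintype.card_pos
  have hm0 : (1 : ℝ) ≤ m := by linarith
  have hmp : 0 < m := by linarith
  have hx0 : 0 < x := by linarith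
  have hE1 : ∀ j, Real.exp (-(x * t j)) ≤ 1 := fun j => by
    rw [Real.exp_le_one_iff]
    have := mul_pos hx0 (ht j)
    linarith
  have hEs : ∑ j, Real.exp (-(x * t j)) ≤ Fintype.card J := by
    calc ∑ j, Real.exp (-(x * t j)) ≤ ∑ _j : J, (1 : ℝ) := Finset.sum_le_sum fun j _ => hE1 j
      _ = Fintype.card J := by simp
  have hEs0 : 0 ≤ ∑ j, Real.exp (-(x * t j)) := Finset.sum_nonneg fun i _ => (Real.exp_pos _).le
  have hZ1 : 1 ≤ m + ∑ j, Real.exp (-(x * t j)) := by linarith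
  have hZN : m + ∑ j, Real.exp (-(x * t j)) ≤ 2 * n + 1 := by linarith
  set N : ℝ := 2 * n + 1 with hN
  have hn0 : (0 : ℝ) ≤ n := Nat.cast_nonneg n
  have hN1 : 1 ≤ N := by linarith
  have hNpos : 0 < N := by linarith
  have hq0 : ∀ i, 0 ≤ qw m t x i := fun i => (pB_qw_pos m hmp t x i).le
  have hqle : ∀ i, qw m t x i ≤ Real.exp (-(x * t i)) := fun i => by
    unfold qw
    exact div_le_self (Real.exp_pos _).le hZ1
  have hqge : ∀ i, Real.exp (-(x * t i)) / N ≤ qw m t x i := fun i => by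
    unfold qw
    gcongr
  set B := ∑ i, qw m t x i with hBdef
  have hB0 : 0 < B := Finset.sum_pos (fun i _ => pB_qw_pos m hmp t x i) Finset.univ_nonempty
  have hBN : B ≤ n / N := by
    have h1 : B = (∑ j, Real.exp (-(x * t j))) / (m + ∑ j, Real.exp (-(x * t j))) := by
      rw [hBdef]; unfold qw; rw [← Finset.sum_div]
    rw [h1, div_le_div_iff₀ (by linarith) hNpos]
    nlinarith
  have hBhalf : B ≤ 1 / 2 := by
    refine hBN.trans ?_
    rw [div_le_div_iff₀ hNpos (by norm_num)]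
    linarith
  have h2B : 1 / N ≤ 1 - 2 * B := by
    have : 1 / N = 1 - 2 * (n / N) := by
      rw [hN] at *
      field_simp
      ring
    linarith
  set e : ℂ := ∑ j, (qw m t x j : ℂ) * w j with he
  have hre : e.re = ∑ i, qw m t x i * (w i).re := by rw [he]; simp
  have him : e.im = ∑ i, qw m t x i * (w i).im := by rw [he]; simp
  have hT0 := pB_T0_ge (qw m t x) w (fun i => u i / (x : ℂ)) hq0 (by linarith) e he θ hθ
  -- the main inequality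
  have hτ := pB_tau_pos m hmp t ht x
  have hg0 : 0 ≤ pBg (1 / N) B := by
    unfold pBg
    have h1 : 1 - 2 * B ≤ (1 - 2 * B) / (1 - B) := by
      rw [le_div_iff₀ (by linarith)]
      have : 0 ≤ 1 - 2 * B := by linarith
      nlinarith
    have h2 : 1 / N * B ^ 2 ≤ 1 / N := by
      have : B ^ 2 ≤ 1 := by nlinarith
      have h3 : 0 ≤ 1 / N := by positivity
      nlinarith
    linarith
  have hmain := pB_main (qw m t x) t (pBF m t w x) hq0 B (∑ i, qw m t x i * t i)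
    (pBv m t w x) (1 / N) (pBg (1 / N) B) hBdef rfl hτ hB0 hBhalf (by positivity) rfl hg0
  have hv : (∑ i, qw m t x i * ‖w i‖ ^ 2) - (e.re ^ 2 + e.im ^ 2) = pBv m t w x := by
    rw [pBv, hre, him]
  have hF : ∀ i, ‖w i‖ ^ 2 - 2 * (e.re * (w i).re + e.im * (w i).im) = pBF m t w x i := by
    intro i
    rw [pBF, hre, him]
  rw [hv] at hT0
  simp only [hF] at hT0
  have hG' : pBG' (1 / N) m t w x = (1 / (1 - B) + 2 * (1 / N) * B * (1 - B)) * pBv m t w x ^ 2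
      + 2 * pBg (1 / N) B * (pBv m t w x / (∑ i, qw m t x i * t i)) *
        (∑ i, qw m t x i * ((∑ i, qw m t x i * t i) - t i) * pBF m t w x i)
      - pBg (1 / N) B * (pBv m t w x / (∑ i, qw m t x i * t i)) ^ 2 *
        (∑ i, qw m t x i * ((∑ i, qw m t x i * t i) - t i) * t i) := rfl
  rw [← hG'] at hmain
  have hBv := pB_Bv (qw m t x) w hq0 (by linarith) e he
  rw [hv, ← hBdef] at hBv
  -- estimates of the sums
  have s1 : (∑ i, ‖w i‖ ^ 4 * ((1 / (8 * N ^ 4)) * Real.exp (-(3 * x * t i)))) ≤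
      1 / N / 2 * B * pBv m t w x ^ 2 := by
    have h1 : (∑ i, ‖w i‖ ^ 4 * ((1 / (8 * N ^ 4)) * Real.exp (-(3 * x * t i)))) ≤
        (1 / (8 * N)) * ∑ i, qw m t x i ^ 3 * ‖w i‖ ^ 4 := by
      rw [Finset.mul_sum]
      refine Finset.sum_le_sum fun i _ => ?_
      have h2 : (Real.exp (-(x * t i)) / N) ^ 3 ≤ qw m t x i ^ 3 := by
        have := hqge i
        have h3 : 0 ≤ Real.exp (-(x * t i)) / N := by positivity
        gcongr
      have h3 : Real.exp (-(3 * x * t i)) = Real.exp (-(x * t i)) ^ 3 := by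
        rw [← Real.exp_nat_mul]; congr 1; push_cast; ring
      calc ‖w i‖ ^ 4 * ((1 / (8 * N ^ 4)) * Real.exp (-(3 * x * t i)))
          = (1 / (8 * N)) * ((Real.exp (-(x * t i)) / N) ^ 3 * ‖w i‖ ^ 4) := by
            rw [h3]; field_simp
        _ ≤ _ := by gcongr
    refine h1.trans ?_
    have h4 : 1 / (8 * N) * ∑ i, qw m t x i ^ 3 * ‖w i‖ ^ 4
        = 1 / N / 2 * (1 / 4 * ∑ i, qw m t x i ^ 3 * ‖w i‖ ^ 4) := by
      field_simp; ring
    rw [h4, mul_assoc]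
    exact mul_le_mul_of_nonneg_left hBv (by positivity)
  have s2 : (∑ i, qw m t x i * ‖w i‖ ^ 4) ≤ ∑ i, ‖w i‖ ^ 4 * Real.exp (-(x * t i)) := by
    refine Finset.sum_le_sum fun i _ => ?_
    rw [mul_comm]
    exact mul_le_mul_of_nonneg_left (hqle i) (by positivity)
  have s3 : (∑ i, qw m t x i * ‖u i / (x : ℂ)‖ ^ 2) ≤
      ∑ i, ‖u i‖ ^ 2 * (Real.exp (-(x * t i)) / x ^ 2) := by
    refine Finset.sum_le_sum fun i _ => ?_
    rw [norm_div, Complex.norm_real, Real.norm_of_nonneg hx0.le, div_pow]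
    calc qw m t x i * (‖u i‖ ^ 2 / x ^ 2) ≤ Real.exp (-(x * t i)) * (‖u i‖ ^ 2 / x ^ 2) := by
          gcongr
          exact hqle i
      _ = _ := by ring
  have s4 : (∑ i, ‖w i‖ ^ 4 * ((1 / (8 * N ^ 4)) * Real.exp (-(3 * x * t i))
        - 10 * θ * Real.exp (-(x * t i))))
      = (∑ i, ‖w i‖ ^ 4 * ((1 / (8 * N ^ 4)) * Real.exp (-(3 * x * t i))))
        - 10 * θ * ∑ i, ‖w i‖ ^ 4 * Real.exp (-(x * t i)) := by
    rw [Finset.mul_sum, ← Finset.sum_sub_distrib]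
    exact Finset.sum_congr rfl fun i _ => by ring
  rw [s4]
  have s5 := mul_le_mul_of_nonneg_left s2 (by positivity : (0 : ℝ) ≤ 10 * θ)
  have s6 := mul_le_mul_of_nonneg_left s3 (by positivity : (0 : ℝ) ≤ 1 / θ)
  linarith [hT0, hmain, s1, s5, s6]

lemma pB_T0_cont (J : Type) [Fintype J] (m : ℝ) (hm : 0 < m) (t : J → ℝ) (w u : J → ℂ) (Λ : ℝ) :
    ContinuousOn (fun x : ℝ => T0 (qw m t x) w (fun i => u i / (x : ℂ))) (Set.Icc 1 Λ) := by
  have hq : ∀ i, Continuous fun x => qw m t x i := pB_qw_cont m hm t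
  have hqc : ∀ i, Continuous fun x => ((qw m t x i : ℝ) : ℂ) := fun i =>
    Complex.continuous_ofReal.comp (hq i)
  have hu : ∀ i, ContinuousOn (fun x : ℝ => u i / (x : ℂ)) (Set.Icc 1 Λ) := by
    intro i
    refine ContinuousOn.div (by fun_prop) (by fun_prop) fun x hx => ?_
    have : x ≠ 0 := by linarith [hx.1]
    exact_mod_cast this
  unfold T0
  fun_prop

/-- P7: the constant part of the weight, on `[1, Λ]`. -/
theorem pieceB (n : ℕ) (J : Type) [Fintype J] (t : J → ℝ) (w u : J → ℂ) (m : ℝ)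
    (ht : ∀ i, 0 < t i) (hJ : Fintype.card J ≤ n) (hm : m + Fintype.card J = 2 * n + 1)
    (θ : ℝ) (hθ : 0 < θ) (hθ1 : θ ≤ 1) (Λ : ℝ) (hΛ : 1 ≤ Λ) :
    (∑ i, ‖w i‖ ^ 4 * ((1 / (8 * (2 * n + 1) ^ 4)) * (∫ x in (1 : ℝ)..Λ, Real.exp (-(3 * x * t i)))
        - 10 * θ * (∫ x in (1 : ℝ)..Λ, Real.exp (-(x * t i))) - Real.exp (-(Λ * t i)) / t i))
      - (1 / θ) * ∑ i, ‖u i‖ ^ 2 * (∫ x in (1 : ℝ)..Λ, Real.exp (-(x * t i)) / x ^ 2)
    ≤ ∫ x in (1 : ℝ)..Λ, T0 (qw m t x) w (fun i => u i / (x : ℂ)) := by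
  rcases isEmpty_or_nonempty J with hJe | hJn
  · simp [T0]
  have hcard : (Fintype.card J : ℝ) ≤ n := by exact_mod_cast hJ
  have hcard0 : (0 : ℝ) < Fintype.card J := by exact_mod_cast Fintype.card_pos
  have hm0 : (1 : ℝ) ≤ m := by linarith
  have hmp : 0 < m := by linarith
  have hN1 : (1 : ℝ) ≤ 2 * n + 1 := by linarith
  have hNpos : (0 : ℝ) < 2 * n + 1 := by linarith
  -- integrability
  have hIcc : Set.uIcc (1 : ℝ) Λ = Set.Icc 1 Λ := Set.uIcc_of_le hΛ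
  have hTint : IntervalIntegrable (fun x : ℝ => T0 (qw m t x) w (fun i => u i / (x : ℂ)))
      volume 1 Λ := by
    apply ContinuousOn.intervalIntegrable
    rw [hIcc]
    exact pB_T0_cont J m hmp t w u Λ
  have hGint : IntervalIntegrable (pBG' (1 / (2 * n + 1)) m t w) volume 1 Λ :=
    (pB_G'_cont _ m hmp t ht w).intervalIntegrable _ _
  have i1 : ∀ i, IntervalIntegrable (fun x : ℝ => Real.exp (-(3 * x * t i))) volume 1 Λ :=
    fun i => Continuous.intervalIntegrable (by fun_prop) _ _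
  have i2 : ∀ i, IntervalIntegrable (fun x : ℝ => Real.exp (-(x * t i))) volume 1 Λ :=
    fun i => Continuous.intervalIntegrable (by fun_prop) _ _
  have i3 : ∀ i, IntervalIntegrable (fun x : ℝ => Real.exp (-(x * t i)) / x ^ 2) volume 1 Λ := by
    intro i
    apply ContinuousOn.intervalIntegrable
    rw [hIcc]
    refine ContinuousOn.div (by fun_prop) (by fun_prop) fun x hx => ?_
    have : x ≠ 0 := by linarith [hx.1]
    positivity
  have j1 : IntervalIntegrable (fun x : ℝ => ∑ i, ‖w i‖ ^ 4 *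
      ((1 / (8 * (2 * n + 1) ^ 4)) * Real.exp (-(3 * x * t i))
        - 10 * θ * Real.exp (-(x * t i)))) volume 1 Λ :=
    Continuous.intervalIntegrable (by fun_prop) _ _
  have j2 : IntervalIntegrable (fun x : ℝ => (1 / θ) * (∑ i, ‖u i‖ ^ 2 *
      (Real.exp (-(x * t i)) / x ^ 2))) volume 1 Λ := by
    apply ContinuousOn.intervalIntegrable
    rw [hIcc]
    refine ContinuousOn.mul continuousOn_const (continuousOn_finsetSum _ fun i _ =>
      ContinuousOn.mul continuousOn_const (ContinuousOn.div (by fun_prop) (by fun_prop)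
        fun x hx => ?_))
    have : x ≠ 0 := by linarith [hx.1]
    positivity
  have hmono := intervalIntegral.integral_mono_on hΛ ((j1.sub j2).sub hGint) hTint
    (fun x hx => pB_pointwise n J t w u m ht hJ hm θ hθ x hx.1)
  refine le_trans ?_ hmono
  rw [intervalIntegral.integral_sub (j1.sub j2) hGint, intervalIntegral.integral_sub j1 j2]
  have hFTC : ∫ x in (1 : ℝ)..Λ, pBG' (1 / (2 * n + 1)) m t w x
      = pBG (1 / (2 * n + 1)) m t w Λ - pBG (1 / (2 * n + 1)) m t w 1 :=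
    intervalIntegral.integral_eq_sub_of_hasDerivAt
      (fun x _ => pB_G_deriv _ m hmp t ht w x) hGint
  rw [hFTC]
  have hI1 : ∫ x in (1 : ℝ)..Λ, (∑ i, ‖w i‖ ^ 4 *
      ((1 / (8 * (2 * n + 1) ^ 4)) * Real.exp (-(3 * x * t i))
        - 10 * θ * Real.exp (-(x * t i))))
      = ∑ i, ‖w i‖ ^ 4 * ((1 / (8 * (2 * n + 1) ^ 4)) *
        (∫ x in (1 : ℝ)..Λ, Real.exp (-(3 * x * t i)))
        - 10 * θ * (∫ x in (1 : ℝ)..Λ, Real.exp (-(x * t i)))) := by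
    rw [intervalIntegral.integral_finsetSum]
    · refine Finset.sum_congr rfl fun i _ => ?_
      rw [intervalIntegral.integral_const_mul, intervalIntegral.integral_sub
        ((i1 i).const_mul _) ((i2 i).const_mul _), intervalIntegral.integral_const_mul,
        intervalIntegral.integral_const_mul]
    · intro i _
      exact Continuous.intervalIntegrable (by fun_prop) _ _
  have hI2 : ∫ x in (1 : ℝ)..Λ, (1 / θ) * (∑ i, ‖u i‖ ^ 2 *
      (Real.exp (-(x * t i)) / x ^ 2))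
      = (1 / θ) * ∑ i, ‖u i‖ ^ 2 * (∫ x in (1 : ℝ)..Λ, Real.exp (-(x * t i)) / x ^ 2) := by
    rw [intervalIntegral.integral_const_mul, intervalIntegral.integral_finsetSum]
    · congr 1
      refine Finset.sum_congr rfl fun i _ => ?_
      rw [intervalIntegral.integral_const_mul]
    · intro i _
      exact (i3 i).const_mul _
  rw [hI1, hI2]
  -- bounds on G
  have hgen : ∀ x : ℝ, 1 ≤ x → 0 ≤ pBg (1 / (2 * n + 1)) (∑ i, qw m t x i) ∧
      pBg (1 / (2 * n + 1)) (∑ i, qw m t x i) ≤ 1 := by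
    intro x hx
    have hx0 : 0 < x := by linarith
    have hE1 : ∀ j, Real.exp (-(x * t j)) ≤ 1 := fun j => by
      rw [Real.exp_le_one_iff]
      have := mul_pos hx0 (ht j)
      linarith
    have hEs : ∑ j, Real.exp (-(x * t j)) ≤ Fintype.card J := by
      calc ∑ j, Real.exp (-(x * t j)) ≤ ∑ _j : J, (1 : ℝ) := Finset.sum_le_sum fun j _ => hE1 j
        _ = Fintype.card J := by simp
    have hEs0 : 0 ≤ ∑ j, Real.exp (-(x * t j)) :=
      Finset.sum_nonneg fun i _ => (Real.exp_pos _).le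
    have hB0 : 0 < ∑ i, qw m t x i :=
      Finset.sum_pos (fun i _ => pB_qw_pos m hmp t x i) Finset.univ_nonempty
    have hBN : ∑ i, qw m t x i ≤ n / (2 * n + 1) := by
      have h1 : ∑ i, qw m t x i =
          (∑ j, Real.exp (-(x * t j))) / (m + ∑ j, Real.exp (-(x * t j))) := by
        unfold qw; rw [← Finset.sum_div]
      rw [h1, div_le_div_iff₀ (by linarith) hNpos]
      nlinarith
    generalize (∑ i, qw m t x i) = B at *
    have h2B : 1 / (2 * n + 1) ≤ 1 - 2 * B := by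
      have : (1 : ℝ) / (2 * n + 1) = 1 - 2 * (n / (2 * n + 1)) := by
        field_simp
        ring
      linarith
    have hε : (0 : ℝ) < 1 / (2 * n + 1) := by positivity
    have h1B : 0 < 1 - B := by linarith
    unfold pBg
    constructor
    · have h1 : 1 - 2 * B ≤ (1 - 2 * B) / (1 - B) := by
        rw [le_div_iff₀ h1B]
        nlinarith
      have h2 : 1 / (2 * n + 1) * B ^ 2 ≤ 1 / (2 * (n : ℝ) + 1) := by
        have : B ^ 2 ≤ 1 := by nlinarith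
        nlinarith
      linarith
    · have h1 : (1 - 2 * B) / (1 - B) ≤ 1 := by
        rw [div_le_one h1B]; linarith
      have h2 : 0 ≤ 1 / (2 * (n : ℝ) + 1) * B ^ 2 := by positivity
      linarith
  have hG1 : 0 ≤ pBG (1 / (2 * n + 1)) m t w 1 := by
    unfold pBG
    exact div_nonneg (mul_nonneg (hgen 1 le_rfl).1 (sq_nonneg _)) (pB_tau_pos m hmp t ht 1).le
  have hGΛ : pBG (1 / (2 * n + 1)) m t w Λ ≤
      ∑ i, ‖w i‖ ^ 4 * (Real.exp (-(Λ * t i)) / t i) := by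
    have hq0 : ∀ i, 0 ≤ qw m t Λ i := fun i => (pB_qw_pos m hmp t Λ i).le
    have h1 := pB_vτ (qw m t Λ) t w hq0 ht (pB_sum_lt_one m hmp t Λ).le
      (∑ j, (qw m t Λ j : ℂ) * w j) rfl (pB_tau_pos m hmp t ht Λ)
    have hre : (∑ j, (qw m t Λ j : ℂ) * w j).re = ∑ i, qw m t Λ i * (w i).re := by simp
    have him : (∑ j, (qw m t Λ j : ℂ) * w j).im = ∑ i, qw m t Λ i * (w i).im := by simp
    rw [hre, him] at h1
    have h2 : pBG (1 / (2 * n + 1)) m t w Λ ≤ pBv m t w Λ ^ 2 / (∑ i, qw m t Λ i * t i) := by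
      unfold pBG
      have h3 := (hgen Λ hΛ).2
      have h4 := pB_tau_pos m hmp t ht Λ
      gcongr
      exact mul_le_of_le_one_left (sq_nonneg _) h3
    refine h2.trans (le_trans h1 ?_)
    refine Finset.sum_le_sum fun i _ => ?_
    have h3 : qw m t Λ i ≤ Real.exp (-(Λ * t i)) := by
      unfold qw
      have : 0 ≤ ∑ j, Real.exp (-(Λ * t j)) :=
        Finset.sum_nonneg fun i _ => (Real.exp_pos _).le
      exact div_le_self (Real.exp_pos _).le (by linarith)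
    have h4 := ht i
    calc qw m t Λ i * ‖w i‖ ^ 4 / t i ≤ Real.exp (-(Λ * t i)) * ‖w i‖ ^ 4 / t i := by gcongr
      _ = _ := by ring
  have hsplit : (∑ i, ‖w i‖ ^ 4 * ((1 / (8 * (2 * n + 1) ^ 4)) *
        (∫ x in (1 : ℝ)..Λ, Real.exp (-(3 * x * t i)))
        - 10 * θ * (∫ x in (1 : ℝ)..Λ, Real.exp (-(x * t i))) - Real.exp (-(Λ * t i)) / t i))
      = (∑ i, ‖w i‖ ^ 4 * ((1 / (8 * (2 * n + 1) ^ 4)) *
        (∫ x in (1 : ℝ)..Λ, Real.exp (-(3 * x * t i)))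
        - 10 * θ * (∫ x in (1 : ℝ)..Λ, Real.exp (-(x * t i)))))
        - ∑ i, ‖w i‖ ^ 4 * (Real.exp (-(Λ * t i)) / t i) := by
    rw [← Finset.sum_sub_distrib]
    exact Finset.sum_congr rfl fun i _ => by ring
  rw [hsplit]
  linarith

end Pool.Agent.MP_7c31d9_gt
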