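import Pool.Agent.MP_7c31d9_gt.CoreMetric
import Pool.Agent.MP_7c31d9_gt.PieceAFull
import Pool.Agent.MP_7c31d9_gt.PieceB
import Pool.Agent.MP_7c31d9_gt.Perturb

/-! The final inequality in static form. -/

namespace Pool.Agent.MP_7c31d9_gt

open Complex MeasureTheory

namespace CoreAux

open Finset

/-- the weight -/
noncomputable def wt (KA : ℝ → ℝ) (Kb : ℝ) (x : ℝ) : ℝ :=
  if x < 0 then 0 else if x ≤ 1 then KA x else Kb / x ^ 4

lemma wt_of_mem {KA : ℝ → ℝ} {Kb x : ℝ} (h0 : 0 ≤ x) (h1 : x ≤ 1) : wt KA Kb x = KA x := by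
  unfold wt
  rw [if_neg (by linarith), if_pos h1]

lemma wt_of_gt {KA : ℝ → ℝ} {Kb x : ℝ} (h1 : 1 < x) : wt KA Kb x = Kb / x ^ 4 := by
  unfold wt
  rw [if_neg (by linarith), if_neg (by linarith)]

lemma wt_int01 {KA : ℝ → ℝ} (Kb : ℝ) (hKc : ContinuousOn KA (Set.Icc 0 1)) (f : ℝ → ℝ)
    (hf : Continuous f) : IntervalIntegrable (fun x => wt KA Kb x * f x) volume 0 1 := by
  have h1 : IntervalIntegrable (fun x => KA x * f x) volume 0 1 := by
    apply ContinuousOn.intervalIntegrable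
    rw [Set.uIcc_of_le zero_le_one]
    exact hKc.mul hf.continuousOn
  refine IntervalIntegrable.congr ?_ h1
  intro x hx
  rw [Set.uIoc_of_le zero_le_one] at hx
  simp only
  rw [wt_of_mem hx.1.le hx.2]

lemma wt_int1 (KA : ℝ → ℝ) (Kb : ℝ) {Λ : ℝ} (hΛ : 1 ≤ Λ) (f : ℝ → ℝ)
    (hf : Continuous f) : IntervalIntegrable (fun x => wt KA Kb x * f x) volume 1 Λ := by
  have h1 : IntervalIntegrable (fun x => Kb / x ^ 4 * f x) volume 1 Λ := by
    apply ContinuousOn.intervalIntegrable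
    apply ContinuousOn.mul _ hf.continuousOn
    apply ContinuousOn.div continuousOn_const (by fun_prop)
    intro x hx
    rw [Set.uIcc_of_le hΛ] at hx
    have : 0 < x := by linarith [hx.1]
    positivity
  refine IntervalIntegrable.congr ?_ h1
  intro x hx
  rw [Set.uIoc_of_le hΛ] at hx
  simp only
  rw [wt_of_gt hx.1]

lemma wt_integral {KA : ℝ → ℝ} (Kb : ℝ) (hKc : ContinuousOn KA (Set.Icc 0 1)) {Λ : ℝ}
    (hΛ : 1 ≤ Λ) (f : ℝ → ℝ) (hf : Continuous f) :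
    ∫ x in (0 : ℝ)..Λ, wt KA Kb x * f x =
      (∫ x in (0 : ℝ)..1, KA x * f x) + Kb * ∫ x in (1 : ℝ)..Λ, f x / x ^ 4 := by
  rw [← intervalIntegral.integral_add_adjacent_intervals (wt_int01 Kb hKc f hf)
    (wt_int1 KA Kb hΛ f hf)]
  congr 1
  · apply intervalIntegral.integral_congr
    intro x hx
    rw [Set.uIcc_of_le zero_le_one] at hx
    simp only
    rw [wt_of_mem hx.1 hx.2]
  · rw [← intervalIntegral.integral_const_mul]
    apply intervalIntegral.integral_congr_ae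
    refine Filter.Eventually.of_forall ?_
    intro x hx
    rw [Set.uIoc_of_le hΛ] at hx
    rw [wt_of_gt hx.1]
    ring

end CoreAux

open CoreAux Finset in
/-- P8a: the final inequality in static form. `G1 m`, `G2 m` stand for `lap Gm`, `lap lap Gm`
at scale `lam m`; the hypotheses on them are exactly the conclusions of `lap_Gm` (P4). -/
theorem core (n : ℕ) (hn : 1 ≤ n) (CG : ℝ) (hCG : 0 < CG) :
    ∃ (Λ : ℝ) (K : ℝ → ℝ) (κ r : ℝ) (M : ℕ) (lam : Fin M → ℝ) (ts c : ℝ),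
      1 < Λ ∧ (∃ C, ∀ x, |K x| ≤ C) ∧ IntervalIntegrable K volume 0 Λ ∧ (∀ x, 0 ≤ K x) ∧
      0 < κ ∧ 0 < r ∧ (∀ m, 0 < lam m ∧ lam m * r ≤ 1) ∧ 0 < ts ∧ 0 < c ∧
      ∀ (ι : Type) [Fintype ι] (y : ι → ℝ) (w u : ι → ℂ) (G1 G2 : Fin M → ℝ),
        Fintype.card ι = 2 * n + 1 → Majority ts y →
        (∀ m w0, |G1 m| ≤ CG / lam m * ∑ i, Real.sqrt (gib y (lam m) i) * ‖w i - w0‖ ^ 2) →
        (∀ m w0 u0, (∑ i, ∑ j, 9 * r ^ 4 / ((y i - y j) ^ 2 + r ^ 2) ^ (5 / 2 : ℝ) *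
              ‖w i - w j‖ ^ 4 * (gib y (lam m) i * gib y (lam m) j))
            - CG * lam m * ∑ i, Real.sqrt (gib y (lam m) i) *
              (‖w i - w0‖ ^ 4 + ‖u i - u0‖ ^ 2 / lam m ^ 2) ≤ G2 m) →
        c * ((∫ x in (0 : ℝ)..Λ, K x * (x ^ 2 * cvar (gib y x) w)) + κ * ∑ m, G1 m) ^ 2
          ≤ (∫ x in (0 : ℝ)..Λ, K x * DF (gib y x) w u x) + κ * ∑ m, G2 m ∧
        ((∀ i, w i = 0) → (∃ i j, u i ≠ u j) →
          0 < (∫ x in (0 : ℝ)..Λ, K x * DF (gib y x) w u x) + κ * ∑ m, G2 m) := by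
  obtain ⟨δ, C, hδ, hC, hAll⟩ := pieceA n
  obtain ⟨N, hN⟩ : ∃ N : ℕ, N = 2 * n + 1 := ⟨_, rfl⟩
  have hNp : (0 : ℝ) < N := by rw [hN]; positivity
  obtain ⟨c1, hc1⟩ : ∃ c1 : ℝ, c1 = 1 / (8 * (2 * n + 1) ^ 4) := ⟨_, rfl⟩
  have hc1p : 0 < c1 := by rw [hc1]; positivity
  obtain ⟨cG, hcG⟩ : ∃ cG : ℝ, cG = 1 / (6 * (N : ℝ) ^ 2) := ⟨_, rfl⟩
  have hcGp : 0 < cG := by rw [hcG]; positivity
  obtain ⟨s0, Kb, s1, th, p1⟩ := exists_par1 δ C c1 hδ hC hc1p
  obtain ⟨κ1, C1, hκ1, hC1, hP1⟩ := perturb N (δ / 2) (by positivity)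
  obtain ⟨κ2, C2, hκ2, hC2, hP2⟩ := perturb N th p1.hth
  obtain ⟨κ0, hκ0, hκ01, hκ02, hκ0le⟩ : ∃ κ0 : ℝ, 0 < κ0 ∧ κ0 ≤ κ1 ∧ κ0 ≤ κ2 ∧ κ0 ≤ 1 :=
    ⟨min (min κ1 κ2) 1, lt_min (lt_min hκ1 hκ2) one_pos,
      le_trans (min_le_left _ _) (min_le_left _ _), le_trans (min_le_left _ _) (min_le_right _ _),
      min_le_right _ _⟩
  obtain ⟨M0, KG, M, p2⟩ := exists_par2 δ C c1 cG CG Kb s1 th κ0 C1 C2 hδ hC hc1p hcGp hCG
    p1.hKb p1.hth hκ0 hC1 hC2
  have hKG := p2.hKG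
  have hKbp := p1.hKb
  have hth := p1.hth
  have hM0 := p2.hM0
  have hMp : (0 : ℝ) < M := by exact_mod_cast p2.hM
  obtain ⟨r, hr⟩ : ∃ r : ℝ, r = 1 / 2 ^ M := ⟨_, rfl⟩
  have hrp : 0 < r := by rw [hr]; positivity
  have hr1 : r ≤ 1 := by
    rw [hr, div_le_one (by positivity)]
    exact one_le_pow₀ (by norm_num)
  obtain ⟨Λ, hΛ⟩ : ∃ Λ : ℝ, Λ = M0 / r := ⟨_, rfl⟩
  have hM0p : 0 < M0 := by linarith
  have hΛM : M0 ≤ Λ := by
    rw [hΛ, le_div_iff₀ hrp]; exact mul_le_of_le_one_right hM0p.le hr1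
  have hΛ1 : 1 ≤ Λ := by linarith
  have hΛp : 0 < Λ := by linarith
  obtain ⟨ts, hts⟩ : ∃ ts : ℝ, ts = κ0 / Λ := ⟨_, rfl⟩
  have htsp : 0 < ts := by rw [hts]; positivity
  have hKM : 0 < KG / M := by positivity
  -- choice of L
  obtain ⟨L, hLp, hL1, hL2⟩ : ∃ L : ℝ, 0 < L ∧
      4 * (2 * C + 2 * (Kb / th) + KG / M * CG) ≤ δ * L ∧ 8 * N * (KG / M * CG) ≤ L := by
    have e1 : 0 < 4 * (2 * C + 2 * (Kb / th) + KG / M * CG) / δ := by positivity
    have e2 : 0 < 8 * N * (KG / M * CG) := by positivity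
    refine ⟨4 * (2 * C + 2 * (Kb / th) + KG / M * CG) / δ + 8 * N * (KG / M * CG),
      by positivity, ?_, by linarith⟩
    have e3 : δ * (4 * (2 * C + 2 * (Kb / th) + KG / M * CG) / δ + 8 * N * (KG / M * CG)) =
        4 * (2 * C + 2 * (Kb / th) + KG / M * CG) + δ * (8 * N * (KG / M * CG)) := by
      rw [mul_add, mul_div_cancel₀ _ hδ.ne']
    rw [e3]
    have := mul_pos hδ e2
    linarith
  obtain ⟨KA, hKA⟩ := hAll L
  have hKA' : PieceAOK n δ C L KA := hKA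
  obtain ⟨hKc, hK0, hKa, hKb', hKJ⟩ := hKA
  -- bound of the weight
  obtain ⟨Km, hKm⟩ : ∃ Km : ℝ, ∀ x ∈ Set.Icc (0 : ℝ) 1, KA x ≤ Km := by
    obtain ⟨B, hB⟩ := isCompact_Icc.exists_bound_of_continuousOn hKc
    refine ⟨B, fun x hx => ?_⟩
    have := hB x hx
    exact le_trans (le_abs_self _) this
  have hKm0 : 0 < Km := lt_of_lt_of_le (hK0 0 (by simp)).1 (hKm 0 (by simp))
  have hB : PieceBOK n := fun J _ t w u m h1 h2 h3 θ h4 h5 Λ h6 =>
    pieceB n J t w u m h1 h2 h3 θ h4 h5 Λ h6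
  obtain ⟨R, hR⟩ : ∃ R : ℝ, R = Kb + KG / M * CG := ⟨_, rfl⟩
  have hRp : 0 < R := by rw [hR]; positivity
  obtain ⟨C4, hC4⟩ : ∃ C4 : ℝ, C4 = 2 * ((1 + Km) / 2) ^ 2 + 32 * R ^ 2 := ⟨_, rfl⟩
  have hC4p : 0 < C4 := by rw [hC4]; positivity
  obtain ⟨c3, hc3⟩ : ∃ c3 : ℝ, c3 = min (δ / 8) (KG * cG / (4 * r)) := ⟨_, rfl⟩
  have hc3p : 0 < c3 := by rw [hc3]; exact lt_min (by positivity) (by positivity)
  have hc3a : c3 ≤ δ / 8 := by rw [hc3]; exact min_le_left _ _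
  have hc3b : c3 ≤ KG * cG / (4 * r) := by rw [hc3]; exact min_le_right _ _
  have hwt0 : ∀ x, 0 ≤ wt KA Kb x := by
    intro x
    unfold wt
    split_ifs with h1 h2
    · exact le_rfl
    · exact (hK0 x ⟨by linarith, h2⟩).1.le
    · push Not at h1
      positivity
  refine ⟨Λ, wt KA Kb, KG / M, r, M, fun m => (2 : ℝ) ^ (m.val + 1), ts, c3 / (N * C4),
    by linarith, ?_, ?_, hwt0, hKM, hrp, ?_, htsp, by positivity, ?_⟩
  · refine ⟨max Km Kb, fun x => ?_⟩
    rw [abs_of_nonneg (hwt0 x)]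
    unfold wt
    split_ifs with h1 h2
    · exact le_trans hKm0.le (le_max_left _ _)
    · exact le_trans (hKm x ⟨by linarith, h2⟩) (le_max_left _ _)
    · refine le_trans ?_ (le_max_right _ _)
      push Not at h1 h2
      apply div_le_self hKbp.le
      exact one_le_pow₀ h2.le
  · have h1 := wt_int01 Kb hKc (fun _ => 1) continuous_const
    have h2 := wt_int1 KA Kb hΛ1 (fun _ => 1) continuous_const
    simpa using h1.trans h2
  · intro m
    refine ⟨by positivity, ?_⟩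
    rw [hr, mul_one_div, div_le_one (by positivity)]
    exact pow_le_pow_right₀ (by norm_num) (by have := m.isLt; omega)
  · intro ι _ y w u G1 G2 hcard hmaj hG1 hG2
    classical
    have hcardN : Fintype.card ι = N := by rw [hcard, hN]
    have hne : Nonempty ι := by
      rw [← Fintype.card_pos_iff]; omega
    -- the maximum
    obtain ⟨i0, hi0⟩ := Finite.exists_max y
    obtain ⟨Y, hYdef⟩ : ∃ Y : ℝ, y i0 = Y := ⟨_, rfl⟩
    have hY : ∀ i, y i ≤ Y := fun i => by rw [← hYdef]; exact hi0 i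
    -- the majority set
    obtain ⟨T, hT⟩ : ∃ T : Finset ι, ∀ i, i ∈ T ↔ Y - y i ≤ ts :=
      ⟨univ.filter (fun i => Y - y i ≤ ts), fun i => by simp⟩
    have hTc : n + 1 ≤ T.card := by
      obtain ⟨T', hT'c, hT'⟩ := hmaj
      have hsub : T' ⊆ T := by
        intro i hi
        rw [hT, ← hYdef]
        exact hT' i hi i0
      have := card_le_card hsub
      omega
    have hTne : T.Nonempty := by rw [← card_pos]; omega
    have hTc0 : (T.card : ℂ) ≠ 0 := by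
      have := hTne.card_pos
      exact_mod_cast this.ne'
    obtain ⟨W, hW⟩ : ∃ W : ℂ, T.card * W = ∑ i ∈ T, w i :=
      ⟨(∑ i ∈ T, w i) / T.card, by field_simp⟩
    obtain ⟨U, hU⟩ : ∃ U : ℂ, T.card * U = ∑ i ∈ T, u i :=
      ⟨(∑ i ∈ T, u i) / T.card, by field_simp⟩
    have hlow := lower hN hδ hC hCG hc1 hcG p1 p2 hκ0 hκ01 hκ02 hκ0le hC1 hC2 hP1 hP2 hr hΛ hts
      hL1 hL2 hKA' hB y Y hY i0 hYdef hcardN T hT hTc w u W U hW hU G2 (fun m => hG2 m W U)
    have hmet := metric_le hCG hKbp hKM.le hΛ1 hKc (fun x hx => (hK0 x hx).1) y Y hY i0 hYdef w W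
      G1 (fun m => hG1 m W)
    rw [wt_integral Kb hKc hΛ1 _ (continuous_DF y w u)]
    rw [wt_integral Kb hKc hΛ1 (fun x => x ^ 2 * cvar (gib y x) w)
      ((continuous_id.pow 2).mul (continuous_cvar_gib y w))]
    have ht0 : ∀ i, 0 ≤ Y - y i := fun i => sub_nonneg.mpr (hY i)
    constructor
    · -- the main inequality
      have hbsq : ∀ i, (∫ x in (0 : ℝ)..1, KA x * x ^ 2 * Real.exp (-(x * (Y - y i)))) ^ 2 ≤
          ((1 + Km) / 2) ^ 2 * ∫ x in (0 : ℝ)..1, KA x * x ^ 4 * Real.exp (-(x * (Y - y i))) :=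
        fun i => b_sq_le hKc (fun x hx => (hK0 x hx).1) hKm (ht0 i)
          (lt_of_lt_of_le (by positivity) (hKa _ (ht0 i)))
      have ha1 : ∀ i, (∫ x in (0 : ℝ)..1, KA x * x ^ 4 * Real.exp (-(x * (Y - y i)))) ≤ 1 := by
        intro i
        have h1 : (∫ x in (0 : ℝ)..1, KA x * x ^ 4 * Real.exp (-(x * (Y - y i)))) ≤
            ∫ _x in (0 : ℝ)..1, (1 : ℝ) := by
          apply intervalIntegral.integral_mono_on zero_le_one _ (by simp)
          · intro x hx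
            have h2 := (hK0 x hx).2
            have h3 := (hK0 x hx).1
            have h4 : Real.exp (-(x * (Y - y i))) ≤ 1 := by
              rw [Real.exp_le_one_iff]
              have := mul_nonneg hx.1 (ht0 i)
              linarith
            have h5 : KA x * x ^ 4 ≤ 1 := by rw [mul_comm]; exact h2
            exact mul_le_one₀ h5 (Real.exp_pos _).le h4
          · apply ContinuousOn.intervalIntegrable
            rw [Set.uIcc_of_le zero_le_one]
            apply ContinuousOn.mul (hKc.mul (by fun_prop)) (by fun_prop)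
        simpa using h1
      have ha : ∀ i, 1 / 16 * Real.exp (-((Y - y i) / 2)) ≤
          ∫ x in (0 : ℝ)..1, KA x * x ^ 4 * Real.exp (-(x * (Y - y i))) := fun i => hKa _ (ht0 i)
      -- pass to abstract numbers
      obtain ⟨a, hadef⟩ : ∃ a : ι → ℝ, ∀ i, a i =
        ∫ x in (0 : ℝ)..1, KA x * x ^ 4 * Real.exp (-(x * (Y - y i))) := ⟨_, fun _ => rfl⟩
      obtain ⟨b, hbdef⟩ : ∃ b : ι → ℝ, ∀ i, b i =
        ∫ x in (0 : ℝ)..1, KA x * x ^ 2 * Real.exp (-(x * (Y - y i))) := ⟨_, fun _ => rfl⟩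
      simp only [← hadef, ← hbdef] at hlow hmet hbsq ha1 ha
      have ha0 : ∀ i, 0 < a i := fun i => lt_of_lt_of_le (by positivity) (ha i)
      rw [← hR] at hmet
      generalize ((∫ x in (0 : ℝ)..1, KA x * (x ^ 2 * cvar (gib y x) w))
        + Kb * (∫ x in (1 : ℝ)..Λ, x ^ 2 * cvar (gib y x) w / x ^ 4)
        + KG / M * ∑ m, G1 m) = g at *
      have hcsq : ∀ i, (b i + R * Real.exp (-(Y - y i))) ^ 2 ≤ C4 * a i := by
        intro i
        have h1 : Real.exp (-(Y - y i)) ^ 2 ≤ 16 * a i := by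
          have h2 : Real.exp (-(Y - y i)) ^ 2 ≤ Real.exp (-((Y - y i) / 2)) := by
            rw [← Real.exp_nat_mul]
            apply Real.exp_le_exp.mpr
            push_cast
            have := ht0 i
            linarith
          have := ha i
          linarith
        have h3 : (b i + R * Real.exp (-(Y - y i))) ^ 2 ≤
            2 * b i ^ 2 + 2 * (R ^ 2 * Real.exp (-(Y - y i)) ^ 2) := by
          nlinarith [sq_nonneg (b i - R * Real.exp (-(Y - y i)))]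
        have h4 := mul_le_mul_of_nonneg_left h1 (sq_nonneg R)
        have h5 := hbsq i
        rw [hC4]
        linarith
      have hg2 : g ^ 2 ≤ N * ∑ i, C4 * a i * ‖w i - W‖ ^ 4 := by
        have h1 : g ^ 2 ≤ (∑ i, (b i + R * Real.exp (-(Y - y i))) * ‖w i - W‖ ^ 2) ^ 2 := by
          rw [← sq_abs g]
          exact pow_le_pow_left₀ (abs_nonneg _) hmet 2
        have h2 := sq_sum_le_card_mul_sum_sq (s := (univ : Finset ι))
          (f := fun i => (b i + R * Real.exp (-(Y - y i))) * ‖w i - W‖ ^ 2)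
        rw [card_univ, hcardN] at h2
        refine le_trans h1 (le_trans h2 ?_)
        apply mul_le_mul_of_nonneg_left _ hNp.le
        apply sum_le_sum
        intro i _
        rw [mul_pow]
        have h3 := mul_le_mul_of_nonneg_right (hcsq i) (by positivity : 0 ≤ (‖w i - W‖ ^ 2) ^ 2)
        refine le_trans h3 (le_of_eq ?_)
        ring
      have hsum : ∑ i, C4 * a i * ‖w i - W‖ ^ 4 ≤
          C4 * (∑ i ∈ T, ‖w i - W‖ ^ 4 + ∑ i : {i // i ∉ T}, a i * ‖w i - W‖ ^ 4) := by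
        rw [sum_split T]
        have h1 : ∑ i ∈ T, C4 * a i * ‖w i - W‖ ^ 4 ≤ C4 * ∑ i ∈ T, ‖w i - W‖ ^ 4 := by
          rw [mul_sum]
          apply sum_le_sum
          intro i _
          apply mul_le_mul_of_nonneg_right _ (by positivity)
          exact mul_le_of_le_one_right hC4p.le (ha1 i)
        have h2 : ∑ i : {i // i ∉ T}, C4 * a i * ‖w i - W‖ ^ 4 =
            C4 * ∑ i : {i // i ∉ T}, a i * ‖w i - W‖ ^ 4 := by
          rw [mul_sum]
          apply sum_congr rfl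
          intros
          ring
        rw [h2, mul_add]
        linarith
      have hlow2 : c3 * (∑ i ∈ T, ‖w i - W‖ ^ 4 + ∑ i : {i // i ∉ T}, a i * ‖w i - W‖ ^ 4) ≤
          (∑ i : {i // i ∉ T}, (δ / 8 * a i * ‖w i - W‖ ^ 4
            + δ / 4 * L * Real.exp (-((Y - y i) / 2)) * ‖u i - U‖ ^ 2))
          + KG * cG / (4 * r) * (∑ i ∈ T, ‖w i - W‖ ^ 4)
          + L / (8 * N) * (∑ i ∈ T, ‖u i - U‖ ^ 2) := by
        have h1 : c3 * ∑ i : {i // i ∉ T}, a i * ‖w i - W‖ ^ 4 ≤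
            ∑ i : {i // i ∉ T}, (δ / 8 * a i * ‖w i - W‖ ^ 4
            + δ / 4 * L * Real.exp (-((Y - y i) / 2)) * ‖u i - U‖ ^ 2) := by
          rw [mul_sum]
          apply sum_le_sum
          intro i _
          have h2 : 0 ≤ a i * ‖w i - W‖ ^ 4 := mul_nonneg (ha0 i).le (by positivity)
          have h3 := mul_le_mul_of_nonneg_right hc3a h2
          have h4 : 0 ≤ δ / 4 * L * Real.exp (-((Y - y i) / 2)) * ‖u i - U‖ ^ 2 := by positivity
          linarith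
        have h2 : c3 * (∑ i ∈ T, ‖w i - W‖ ^ 4) ≤ KG * cG / (4 * r) * (∑ i ∈ T, ‖w i - W‖ ^ 4) :=
          mul_le_mul_of_nonneg_right hc3b (sum_nonneg fun _ _ => by positivity)
        have h3 : 0 ≤ L / (8 * N) * (∑ i ∈ T, ‖u i - U‖ ^ 2) :=
          mul_nonneg (by positivity) (sum_nonneg fun _ _ => by positivity)
        rw [mul_add]
        linarith
      refine le_trans ?_ (le_trans hlow2 hlow)
      have h1 : g ^ 2 ≤ N * (C4 * (∑ i ∈ T, ‖w i - W‖ ^ 4
          + ∑ i : {i // i ∉ T}, a i * ‖w i - W‖ ^ 4)) :=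
        le_trans hg2 (mul_le_mul_of_nonneg_left hsum hNp.le)
      have h2 : 0 ≤ c3 / (N * C4) := by positivity
      refine le_trans (mul_le_mul_of_nonneg_left h1 h2) (le_of_eq ?_)
      field_simp
    · -- positivity
      intro hw0 hu
      have hW0 : W = 0 := by
        have : (T.card : ℂ) * W = 0 := by
          rw [hW]; exact sum_eq_zero fun i _ => hw0 i
        exact (mul_eq_zero.mp this).resolve_left hTc0
      obtain ⟨i1, hi1⟩ : ∃ i, u i ≠ U := by
        obtain ⟨i, j, hij⟩ := hu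
        by_contra h
        push Not at h
        exact hij (by rw [h i, h j])
      refine lt_of_lt_of_le ?_ hlow
      have hpos : 0 < ‖u i1 - U‖ ^ 2 := by
        have : u i1 - U ≠ 0 := sub_ne_zero.mpr hi1
        positivity
      have hJ0 : ∀ i : {i // i ∉ T}, 0 ≤ δ / 8 *
          (∫ x in (0 : ℝ)..1, KA x * x ^ 4 * Real.exp (-(x * (Y - y i)))) * ‖w i - W‖ ^ 4
          + δ / 4 * L * Real.exp (-((Y - y i) / 2)) * ‖u i - U‖ ^ 2 := by
        intro i
        have h1 : 0 ≤ ∫ x in (0 : ℝ)..1, KA x * x ^ 4 * Real.exp (-(x * (Y - y i))) :=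
          le_trans (by positivity) (hKa _ (ht0 i))
        positivity
      have hX0 : 0 ≤ KG * cG / (4 * r) * (∑ i ∈ T, ‖w i - W‖ ^ 4) :=
        mul_nonneg (by positivity) (sum_nonneg fun _ _ => by positivity)
      have hM0' : 0 ≤ ∑ i ∈ T, ‖u i - U‖ ^ 2 := sum_nonneg fun _ _ => by positivity
      by_cases hi1T : i1 ∈ T
      · have h1 : 0 < ∑ i ∈ T, ‖u i - U‖ ^ 2 :=
          lt_of_lt_of_le hpos (single_le_sum (f := fun i => ‖u i - U‖ ^ 2)
            (fun _ _ => by positivity) hi1T)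
        have h2 : 0 < L / (8 * N) * (∑ i ∈ T, ‖u i - U‖ ^ 2) := by positivity
        have h3 := sum_nonneg (s := univ) fun i (_ : i ∈ univ) => hJ0 i
        linarith
      · have h2 : 0 ≤ L / (8 * N) * (∑ i ∈ T, ‖u i - U‖ ^ 2) := by positivity
        have h3 := single_le_sum (f := fun i : {i // i ∉ T} => δ / 8 *
          (∫ x in (0 : ℝ)..1, KA x * x ^ 4 * Real.exp (-(x * (Y - y i)))) * ‖w i - W‖ ^ 4
          + δ / 4 * L * Real.exp (-((Y - y i) / 2)) * ‖u i - U‖ ^ 2)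
          (fun i _ => hJ0 i) (mem_univ (⟨i1, hi1T⟩ : {i // i ∉ T}))
        have h4 : 0 < δ / 8 *
          (∫ x in (0 : ℝ)..1, KA x * x ^ 4 * Real.exp (-(x * (Y - y i1)))) * ‖w i1 - W‖ ^ 4
          + δ / 4 * L * Real.exp (-((Y - y i1) / 2)) * ‖u i1 - U‖ ^ 2 := by
          have h1 : 0 ≤ ∫ x in (0 : ℝ)..1, KA x * x ^ 4 * Real.exp (-(x * (Y - y i1))) :=
            le_trans (by positivity) (hKa _ (ht0 i1))
          have h5 : 0 < δ / 4 * L * Real.exp (-((Y - y i1) / 2)) * ‖u i1 - U‖ ^ 2 := by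
            have := Real.exp_pos (-((Y - y i1) / 2))
            positivity
          have h6 : 0 ≤ δ / 8 * (∫ x in (0 : ℝ)..1, KA x * x ^ 4 *
            Real.exp (-(x * (Y - y i1)))) * ‖w i1 - W‖ ^ 4 := by positivity
          linarith
        simp only at h3
        linarith

end Pool.Agent.MP_7c31d9_gt
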