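import Pool.Agent.MP_7c31d9_gt.CoreInt

/-! The regulariser part of `core`: sums over the dyadic scales and the pair potential. -/

namespace Pool.Agent.MP_7c31d9_gt.CoreAux

open Complex MeasureTheory Finset

/-- power mean -/
lemma card_mul_pow_four {ι : Type} (T : Finset ι) (hT : T.Nonempty) (w : ι → ℂ) (W z : ℂ)
    (hW : T.card * W = ∑ i ∈ T, w i) :
    ‖z - W‖ ^ 4 ≤ ∑ j ∈ T, ‖z - w j‖ ^ 4 := by
  have hTc : (1 : ℝ) ≤ T.card := by exact_mod_cast hT.card_pos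
  have h1 : (T.card : ℂ) * (z - W) = ∑ j ∈ T, (z - w j) := by
    rw [sum_sub_distrib, ← hW]; simp; ring
  have h2 : (T.card : ℝ) * ‖z - W‖ ≤ ∑ j ∈ T, ‖z - w j‖ := by
    have := norm_sum_le T (fun j => z - w j)
    rw [← h1, norm_mul] at this
    simpa using this
  have h3 := pow_sum_div_card_le_sum_pow (s := T) (f := fun j => ‖z - w j‖)
    (fun _ _ => norm_nonneg _) 3
  have h4 : ((T.card : ℝ) * ‖z - W‖) ^ 4 ≤ (∑ j ∈ T, ‖z - w j‖) ^ 4 :=
    pow_le_pow_left₀ (by positivity) h2 4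
  have h5 : ‖z - W‖ ^ 4 * (T.card : ℝ) ≤ (∑ j ∈ T, ‖z - w j‖) ^ (3 + 1) / (T.card : ℝ) ^ 3 := by
    rw [le_div_iff₀ (by positivity)]
    refine le_trans (le_of_eq ?_) h4
    ring
  have h6 := le_trans h5 h3
  have h7 : 0 ≤ ‖z - W‖ ^ 4 := by positivity
  refine le_trans ?_ h6
  nlinarith

lemma sum_lam_le (M : ℕ) (t : ℝ) (ht : 0 ≤ t) :
    ∑ m : Fin M, (2 : ℝ) ^ (m.val + 1) * Real.exp (-(2 ^ (m.val + 1) * t / 2)) ≤ 2 * 2 ^ M := by
  have h1 : ∑ m : Fin M, (2 : ℝ) ^ (m.val + 1) * Real.exp (-(2 ^ (m.val + 1) * t / 2)) ≤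
      ∑ m : Fin M, (2 : ℝ) ^ (m.val + 1) := by
    apply sum_le_sum
    intro m _
    apply mul_le_of_le_one_right (by positivity)
    rw [Real.exp_le_one_iff]
    have : 0 ≤ (2 : ℝ) ^ (m.val + 1) * t / 2 := by positivity
    linarith
  refine le_trans h1 ?_
  rw [Fin.sum_univ_eq_sum_range (fun m => (2 : ℝ) ^ (m + 1)) M]
  have h2 : ∀ k : ℕ, ∑ m ∈ range k, (2 : ℝ) ^ (m + 1) = 2 * 2 ^ k - 2 := by
    intro k
    induction k with
    | zero => simp
    | succ k ih => rw [sum_range_succ, ih]; ring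
  rw [h2]
  linarith

lemma sum_lam_le' (M : ℕ) (t : ℝ) (ht : 0 < t) :
    ∑ m : Fin M, (2 : ℝ) ^ (m.val + 1) * Real.exp (-(2 ^ (m.val + 1) * t / 2)) ≤
      8 / t * Real.exp (-(t / 2)) := by
  -- one term
  have h1 : ∀ m : ℕ, (2 : ℝ) ^ (m + 1) * Real.exp (-(2 ^ (m + 1) * t / 2)) ≤
      (8 / t * Real.exp (-(t / 2))) * (Real.exp (-(t / 4 * 2 ^ m)) -
        Real.exp (-(t / 4 * 2 ^ (m + 1)))) := by
    intro m
    set z := t / 4 * 2 ^ m with hz
    have hz0 : 0 < z := by positivity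
    have e1 : t / 4 * 2 ^ (m + 1) = 2 * z := by rw [hz, pow_succ]; ring
    have e2 : Real.exp (-(2 ^ (m + 1) * t / 2)) = Real.exp (-(2 * z)) * Real.exp (-(2 * z)) := by
      rw [← Real.exp_add]; congr 1; rw [hz, pow_succ]; ring
    have e3 : (2 : ℝ) ^ (m + 1) = 8 * z / t := by rw [hz, pow_succ]; field_simp; ring
    have e4 : Real.exp (-z) = Real.exp z * Real.exp (-(2 * z)) := by
      rw [← Real.exp_add]; congr 1; ring
    have e5 := Real.add_one_le_exp z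
    have e6 := Real.exp_pos (-(2 * z))
    have e7 : z * Real.exp (-(2 * z)) ≤ Real.exp (-z) - Real.exp (-(2 * z)) := by
      rw [e4]; nlinarith
    have e8 : Real.exp (-(2 * z)) ≤ Real.exp (-(t / 2)) := by
      apply Real.exp_le_exp.mpr
      have : (1 : ℝ) ≤ 2 ^ m := one_le_pow₀ (by norm_num)
      have : t / 4 ≤ z := by rw [hz]; nlinarith
      linarith
    rw [e1, e2, e3]
    calc 8 * z / t * (Real.exp (-(2 * z)) * Real.exp (-(2 * z)))
        = 8 / t * Real.exp (-(2 * z)) * (z * Real.exp (-(2 * z))) := by ring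
      _ ≤ 8 / t * Real.exp (-(t / 2)) * (Real.exp (-z) - Real.exp (-(2 * z))) := by
          gcongr
  have h2 : ∀ k : ℕ, ∑ m ∈ range k, (Real.exp (-(t / 4 * 2 ^ m)) -
        Real.exp (-(t / 4 * 2 ^ (m + 1)))) = Real.exp (-(t / 4)) - Real.exp (-(t / 4 * 2 ^ k)) := by
    intro k
    induction k with
    | zero => simp
    | succ k ih => rw [sum_range_succ, ih]; ring
  rw [Fin.sum_univ_eq_sum_range (fun m => (2 : ℝ) ^ (m + 1) *
    Real.exp (-(2 ^ (m + 1) * t / 2))) M]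
  refine le_trans (sum_le_sum fun m _ => h1 m) ?_
  rw [← mul_sum, h2]
  have h3 : Real.exp (-(t / 4)) ≤ 1 := by rw [Real.exp_le_one_iff]; linarith
  have h4 := Real.exp_pos (-(t / 4 * 2 ^ M))
  apply mul_le_of_le_one_right (by positivity)
  linarith

lemma sum_inv_le (M : ℕ) (t : ℝ) (ht : 0 ≤ t) :
    ∑ m : Fin M, Real.exp (-(2 ^ (m.val + 1) * t / 2)) / (2 : ℝ) ^ (m.val + 1) ≤
      Real.exp (-t) := by
  have h1 : ∀ m : ℕ, Real.exp (-(2 ^ (m + 1) * t / 2)) / (2 : ℝ) ^ (m + 1) ≤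
      Real.exp (-t) * (1 / 2) ^ (m + 1) := by
    intro m
    rw [one_div, inv_pow, div_eq_mul_inv]
    gcongr
    have : (1 : ℝ) ≤ 2 ^ m := one_le_pow₀ (by norm_num)
    rw [pow_succ]
    nlinarith
  have h2 : ∀ k : ℕ, ∑ m ∈ range k, ((1 : ℝ) / 2) ^ (m + 1) = 1 - (1 / 2) ^ k := by
    intro k
    induction k with
    | zero => simp
    | succ k ih => rw [sum_range_succ, ih]; ring
  rw [Fin.sum_univ_eq_sum_range (fun m => Real.exp (-(2 ^ (m + 1) * t / 2)) /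
    (2 : ℝ) ^ (m + 1)) M]
  refine le_trans (sum_le_sum fun m _ => h1 m) ?_
  rw [← mul_sum, h2]
  have : (0 : ℝ) < (1 / 2) ^ M := by positivity
  apply mul_le_of_le_one_right (Real.exp_pos _).le
  linarith

section

variable {ι : Type} [Fintype ι]

/-- bounds of the Gibbs weights -/
lemma gib_le_exp (y : ι → ℝ) (Y : ℝ) (_hY : ∀ i, y i ≤ Y) (i0 : ι) (hi0 : y i0 = Y) {x : ℝ}
    (i : ι) : gib y x i ≤ Real.exp (-(x * (Y - y i))) := by
  rw [gib_eq y Y x i]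
  have h1 : 1 ≤ ∑ j, Real.exp (-(x * (Y - y j))) := by
    have h2 : Real.exp (-(x * (Y - y i0))) = 1 := by rw [hi0]; simp
    rw [← h2]
    exact single_le_sum (f := fun j => Real.exp (-(x * (Y - y j))))
      (fun j _ => (Real.exp_pos _).le) (mem_univ i0)
  exact div_le_self (Real.exp_pos _).le h1

lemma gib_lower (y : ι → ℝ) (Y : ℝ) (hY : ∀ i, y i ≤ Y) (i0 : ι) {x : ℝ} (hx : 0 ≤ x)
    (i : ι) (hi : x * (Y - y i) ≤ 1) :
    Real.exp (-1) / Fintype.card ι ≤ gib y x i := by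
  rw [gib_eq y Y x i]
  have h1 : ∑ j, Real.exp (-(x * (Y - y j))) ≤ Fintype.card ι := by
    have : ∑ j, Real.exp (-(x * (Y - y j))) ≤ ∑ _j : ι, (1 : ℝ) := by
      apply sum_le_sum
      intro j _
      rw [Real.exp_le_one_iff]
      have := mul_nonneg hx (sub_nonneg.mpr (hY j))
      linarith
    simpa using this
  have : Nonempty ι := ⟨i0⟩
  have h2 := sum_exp_pos (fun j => -(x * (Y - y j)))
  apply div_le_div₀ (Real.exp_pos _).le (Real.exp_le_exp.mpr (by linarith)) h2 h1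

lemma sqrt_gib_le (y : ι → ℝ) (Y : ℝ) (hY : ∀ i, y i ≤ Y) (i0 : ι) (hi0 : y i0 = Y) {x : ℝ}
    (i : ι) : Real.sqrt (gib y x i) ≤ Real.exp (-(x * (Y - y i) / 2)) := by
  rw [Real.sqrt_le_left (Real.exp_pos _).le, ← Real.exp_nat_mul]
  refine le_trans (gib_le_exp y Y hY i0 hi0 i) (le_of_eq ?_)
  congr 1
  push_cast
  ring

/-- the positive part at one scale -/
lemma pos_part (y : ι → ℝ) (Y : ℝ) (hY : ∀ i, y i ≤ Y) (i0 : ι) {r x : ℝ} (hr : 0 < r)
    (hx : 0 ≤ x) (hxr : x * r ≤ 1) (T : Finset ι) (hT : T.Nonempty)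
    (hTr : ∀ i ∈ T, Y - y i < r) (w : ι → ℂ) (W : ℂ) (hW : T.card * W = ∑ i ∈ T, w i)
    [DecidableEq ι] {N : ℕ} (hcard : Fintype.card ι = N) :
    (1 / (6 * (N : ℝ) ^ 2)) / r * ∑ i, (if Y - y i < r then ‖w i - W‖ ^ 4 else 0) ≤
    ∑ i, ∑ j, 9 * r ^ 4 / ((y i - y j) ^ 2 + r ^ 2) ^ (5 / 2 : ℝ) *
              ‖w i - w j‖ ^ 4 * (gib y x i * gib y x j) := by
  have hNpos : (0 : ℝ) < N := by
    rw [← hcard]; exact_mod_cast Fintype.card_pos_iff.mpr ⟨i0⟩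
  rw [mul_sum]
  apply sum_le_sum
  intro i _
  have hterm : ∀ j, 0 ≤ 9 * r ^ 4 / ((y i - y j) ^ 2 + r ^ 2) ^ (5 / 2 : ℝ) *
              ‖w i - w j‖ ^ 4 * (gib y x i * gib y x j) := by
    intro j
    have := gib_nonneg y x i
    have := gib_nonneg y x j
    positivity
  by_cases hi : Y - y i < r
  · rw [if_pos hi]
    have h1 : ∀ j ∈ T, (1 / (6 * (N : ℝ) ^ 2)) / r * ‖w i - w j‖ ^ 4 ≤
        9 * r ^ 4 / ((y i - y j) ^ 2 + r ^ 2) ^ (5 / 2 : ℝ) *
              ‖w i - w j‖ ^ 4 * (gib y x i * gib y x j) := by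
      intro j hj
      have hj' := hTr j hj
      have a1 : (y i - y j) ^ 2 + r ^ 2 ≤ 2 * r ^ 2 := by
        have b1 := hY i
        have b2 := hY j
        have b3 : -r ≤ y i - y j := by linarith
        have b4 : y i - y j ≤ r := by linarith
        nlinarith
      have a0 : 0 < (y i - y j) ^ 2 + r ^ 2 := by positivity
      have a2 : ((y i - y j) ^ 2 + r ^ 2) ^ (5 / 2 : ℝ) ≤ 6 * r ^ 5 := by
        have c1 : ((y i - y j) ^ 2 + r ^ 2) ^ (5 / 2 : ℝ) ≤ (2 * r ^ 2) ^ (5 / 2 : ℝ) :=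
          Real.rpow_le_rpow a0.le a1 (by norm_num)
        refine le_trans c1 ?_
        have c2 : (2 * r ^ 2) ^ (5 / 2 : ℝ) = (Real.sqrt 2 * r) ^ 5 := by
          have : (2 * r ^ 2 : ℝ) = (Real.sqrt 2 * r) ^ 2 := by
            rw [mul_pow, Real.sq_sqrt (by norm_num)]
          rw [this, ← Real.rpow_natCast, ← Real.rpow_natCast, ← Real.rpow_mul (by positivity)]
          norm_num
        rw [c2, mul_pow]
        have c3 : Real.sqrt 2 ^ 5 ≤ 6 := by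
          have d1 : Real.sqrt 2 ^ 2 = 2 := Real.sq_sqrt (by norm_num)
          have d2 : Real.sqrt 2 ^ 5 = 4 * Real.sqrt 2 := by
            calc Real.sqrt 2 ^ 5 = Real.sqrt 2 ^ 2 * Real.sqrt 2 ^ 2 * Real.sqrt 2 := by ring
              _ = _ := by rw [d1]; ring
          rw [d2]
          have d3 : Real.sqrt 2 ≤ 3 / 2 := by
            rw [Real.sqrt_le_left (by norm_num)]; norm_num
          linarith
        exact mul_le_mul_of_nonneg_right c3 (by positivity)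
      have a3 : 3 / (2 * r) ≤ 9 * r ^ 4 / ((y i - y j) ^ 2 + r ^ 2) ^ (5 / 2 : ℝ) := by
        have c0 : 0 < ((y i - y j) ^ 2 + r ^ 2) ^ (5 / 2 : ℝ) := Real.rpow_pos_of_pos a0 _
        rw [div_le_div_iff₀ (by positivity) c0]
        nlinarith
      have g1 : Real.exp (-1) / N ≤ gib y x i := by
        rw [← hcard]
        apply gib_lower y Y hY i0 hx
        have := mul_le_mul_of_nonneg_left hi.le hx
        linarith
      have g2 : Real.exp (-1) / N ≤ gib y x j := by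
        rw [← hcard]
        apply gib_lower y Y hY i0 hx
        have := mul_le_mul_of_nonneg_left hj'.le hx
        linarith
      have g3 : 1 / (9 * (N : ℝ) ^ 2) ≤ gib y x i * gib y x j := by
        have e1 : (1 : ℝ) / 3 ≤ Real.exp (-1) := by
          rw [Real.exp_neg, one_div]
          apply inv_anti₀ (Real.exp_pos _)
          have := Real.exp_one_lt_d9
          linarith
        have e2 : 1 / 3 / (N : ℝ) ≤ Real.exp (-1) / N := div_le_div_of_nonneg_right e1 hNpos.le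
        have e3 : 1 / (9 * (N : ℝ) ^ 2) = (1 / 3 / (N : ℝ)) * (1 / 3 / (N : ℝ)) := by
          field_simp; norm_num
        rw [e3]
        exact mul_le_mul (le_trans e2 g1) (le_trans e2 g2) (by positivity)
          (gib_nonneg y x i)
      have e4 : (1 / (6 * (N : ℝ) ^ 2)) / r * ‖w i - w j‖ ^ 4 =
          3 / (2 * r) * ‖w i - w j‖ ^ 4 * (1 / (9 * (N : ℝ) ^ 2)) := by
        field_simp; ring
      rw [e4]
      apply mul_le_mul _ g3 (by positivity) _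
      · exact mul_le_mul_of_nonneg_right a3 (by positivity)
      · have c0 : 0 < ((y i - y j) ^ 2 + r ^ 2) ^ (5 / 2 : ℝ) := Real.rpow_pos_of_pos a0 _
        positivity
    have h2 : (1 / (6 * (N : ℝ) ^ 2)) / r * ‖w i - W‖ ^ 4 ≤
        ∑ j ∈ T, (1 / (6 * (N : ℝ) ^ 2)) / r * ‖w i - w j‖ ^ 4 := by
      rw [← mul_sum]
      apply mul_le_mul_of_nonneg_left (card_mul_pow_four T hT w W (w i) hW) (by positivity)
    refine le_trans h2 (le_trans (sum_le_sum h1) ?_)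
    exact sum_le_sum_of_subset_of_nonneg (subset_univ T) (fun j _ _ => hterm j)
  · rw [if_neg hi, mul_zero]
    exact sum_nonneg fun j _ => hterm j

/-- the regulariser part -/
lemma partG (y : ι → ℝ) (Y : ℝ) (hY : ∀ i, y i ≤ Y) (i0 : ι) (hi0 : y i0 = Y)
    [DecidableEq ι] {N : ℕ} (hcard : Fintype.card ι = N)
    (M : ℕ) (hM : 1 ≤ M) {r : ℝ} (hr : r = 1 / 2 ^ M) (T : Finset ι) (hT : T.Nonempty)
    (hTr : ∀ i ∈ T, Y - y i < r) (w u : ι → ℂ) (W U : ℂ) (hW : T.card * W = ∑ i ∈ T, w i)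
    (CG KG : ℝ) (hCG : 0 < CG) (hKG : 0 < KG) (G2 : Fin M → ℝ)
    (hG2 : ∀ m, (∑ i, ∑ j, 9 * r ^ 4 / ((y i - y j) ^ 2 + r ^ 2) ^ (5 / 2 : ℝ) *
              ‖w i - w j‖ ^ 4 * (gib y (2 ^ (m.val + 1)) i * gib y (2 ^ (m.val + 1)) j))
            - CG * (2 : ℝ) ^ (m.val + 1) * ∑ i, Real.sqrt (gib y (2 ^ (m.val + 1)) i) *
              (‖w i - W‖ ^ 4 + ‖u i - U‖ ^ 2 / ((2 : ℝ) ^ (m.val + 1)) ^ 2) ≤ G2 m) :
    KG * (1 / (6 * (N : ℝ) ^ 2)) / r * ∑ i, (if Y - y i < r then ‖w i - W‖ ^ 4 else 0)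
      - KG / M * CG * ∑ i, ((∑ m : Fin M, (2 : ℝ) ^ (m.val + 1) *
          Real.exp (-(2 ^ (m.val + 1) * (Y - y i) / 2))) * ‖w i - W‖ ^ 4
          + Real.exp (-(Y - y i)) * ‖u i - U‖ ^ 2)
      ≤ KG / M * ∑ m, G2 m := by
  have hMp : (0 : ℝ) < M := by exact_mod_cast hM
  have hrp : 0 < r := by rw [hr]; positivity
  set P := ∑ i, (if Y - y i < r then ‖w i - W‖ ^ 4 else 0) with hPdef
  have h1 : ∀ m : Fin M, (1 / (6 * (N : ℝ) ^ 2)) / r * P
      - CG * ∑ i, ((2 : ℝ) ^ (m.val + 1) * Real.exp (-(2 ^ (m.val + 1) * (Y - y i) / 2)) *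
        ‖w i - W‖ ^ 4 + Real.exp (-(2 ^ (m.val + 1) * (Y - y i) / 2)) / (2 : ℝ) ^ (m.val + 1) *
        ‖u i - U‖ ^ 2) ≤ G2 m := by
    intro m
    refine le_trans ?_ (hG2 m)
    have a1 := pos_part y Y hY i0 hrp (x := (2 : ℝ) ^ (m.val + 1)) (by positivity) (by
      rw [hr, mul_one_div, div_le_one (by positivity)]
      exact pow_le_pow_right₀ (by norm_num) (by have := m.isLt; omega)) T hT hTr w W hW hcard
    have a2 : CG * (2 : ℝ) ^ (m.val + 1) * ∑ i, Real.sqrt (gib y (2 ^ (m.val + 1)) i) *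
              (‖w i - W‖ ^ 4 + ‖u i - U‖ ^ 2 / ((2 : ℝ) ^ (m.val + 1)) ^ 2) ≤
        CG * ∑ i, ((2 : ℝ) ^ (m.val + 1) * Real.exp (-(2 ^ (m.val + 1) * (Y - y i) / 2)) *
        ‖w i - W‖ ^ 4 + Real.exp (-(2 ^ (m.val + 1) * (Y - y i) / 2)) / (2 : ℝ) ^ (m.val + 1) *
        ‖u i - U‖ ^ 2) := by
      rw [mul_assoc]
      apply mul_le_mul_of_nonneg_left _ hCG.le
      rw [mul_sum]
      apply sum_le_sum
      intro i _
      have b1 := sqrt_gib_le y Y hY i0 hi0 (x := (2 : ℝ) ^ (m.val + 1)) i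
      have b2 : 0 ≤ (2 : ℝ) ^ (m.val + 1) * (‖w i - W‖ ^ 4 + ‖u i - U‖ ^ 2 /
        ((2 : ℝ) ^ (m.val + 1)) ^ 2) := by positivity
      have b3 := mul_le_mul_of_nonneg_right b1 b2
      refine le_trans (le_of_eq ?_) (le_trans b3 (le_of_eq ?_))
      · ring
      · have : (2 : ℝ) ^ (m.val + 1) ≠ 0 := by positivity
        field_simp
    linarith
  have h2 : ∑ m : Fin M, ((1 / (6 * (N : ℝ) ^ 2)) / r * P
      - CG * ∑ i, ((2 : ℝ) ^ (m.val + 1) * Real.exp (-(2 ^ (m.val + 1) * (Y - y i) / 2)) *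
        ‖w i - W‖ ^ 4 + Real.exp (-(2 ^ (m.val + 1) * (Y - y i) / 2)) / (2 : ℝ) ^ (m.val + 1) *
        ‖u i - U‖ ^ 2)) ≤ ∑ m, G2 m := sum_le_sum fun m _ => h1 m
  have hKM : 0 < KG / M := by positivity
  refine le_trans ?_ (mul_le_mul_of_nonneg_left h2 hKM.le)
  rw [sum_sub_distrib, sum_const, card_univ, Fintype.card_fin, nsmul_eq_mul, ← mul_sum,
    sum_comm, mul_sub]
  have e1 : KG / M * ((M : ℝ) * (1 / (6 * (N : ℝ) ^ 2) / r * P)) =
      KG * (1 / (6 * (N : ℝ) ^ 2)) / r * P := by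
    field_simp
  rw [e1]
  have e2 : ∑ i, ∑ m : Fin M, ((2 : ℝ) ^ (m.val + 1) *
        Real.exp (-(2 ^ (m.val + 1) * (Y - y i) / 2)) *
        ‖w i - W‖ ^ 4 + Real.exp (-(2 ^ (m.val + 1) * (Y - y i) / 2)) / (2 : ℝ) ^ (m.val + 1) *
        ‖u i - U‖ ^ 2) ≤
      ∑ i, ((∑ m : Fin M, (2 : ℝ) ^ (m.val + 1) *
          Real.exp (-(2 ^ (m.val + 1) * (Y - y i) / 2))) * ‖w i - W‖ ^ 4
          + Real.exp (-(Y - y i)) * ‖u i - U‖ ^ 2) := by
    apply sum_le_sum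
    intro i _
    rw [sum_add_distrib, ← sum_mul, ← sum_mul]
    have := mul_le_mul_of_nonneg_right (sum_inv_le M (Y - y i) (sub_nonneg.mpr (hY i)))
      (by positivity : 0 ≤ ‖u i - U‖ ^ 2)
    linarith
  have e3 := mul_le_mul_of_nonneg_left e2 (mul_pos hKM hCG).le
  rw [← mul_assoc]
  linarith

end

end Pool.Agent.MP_7c31d9_gt.CoreAux
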