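import Pool.Agent.MP_7c31d9_gt.Defs2

/-! Calculus part of `core`: scaling, continuity and the integrated perturbation inequality. -/

namespace Pool.Agent.MP_7c31d9_gt.CoreAux

open Complex MeasureTheory Finset

section alg

variable {ι : Type} [Fintype ι]

lemma cmean_mul (p : ι → ℝ) (f : ι → ℂ) (c : ℂ) :
    cmean p (fun i => c * f i) = c * cmean p f := by
  unfold cmean
  rw [mul_sum]
  apply sum_congr rfl
  intros
  ring

lemma cvar_mul (p : ι → ℝ) (f : ι → ℂ) (c : ℂ) :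
    cvar p (fun i => c * f i) = ‖c‖ ^ 2 * cvar p f := by
  unfold cvar
  rw [mul_sum]
  apply sum_congr rfl
  intro i _
  rw [cmean_mul, ← mul_sub, norm_mul]
  ring

lemma DF_scale (p : ι → ℝ) (w u : ι → ℂ) {x : ℝ} (hx : x ≠ 0) :
    DF p w u x = x ^ 4 * DF p w (fun i => u i / (x : ℂ)) 1 := by
  have hx' : (x : ℂ) ≠ 0 := by exact_mod_cast hx
  unfold DF
  have h : (fun i => (x : ℂ) * (w i ^ 2 - 2 * cmean p w * w i) + u i) =
      fun i => (x : ℂ) * (((1 : ℝ) : ℂ) * (w i ^ 2 - 2 * cmean p w * w i) + u i / x) := by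
    funext i
    push_cast
    field_simp
  rw [h, cvar_mul]
  have h2 : ‖(x : ℂ)‖ ^ 2 = x ^ 2 := by rw [Complex.norm_real, Real.norm_eq_abs, sq_abs]
  rw [h2]
  ring

lemma gib_eq (y : ι → ℝ) (Y x : ℝ) (i : ι) :
    gib y x i = Real.exp (-(x * (Y - y i))) / ∑ j, Real.exp (-(x * (Y - y j))) := by
  unfold gib
  have h : ∀ j, Real.exp (-(x * (Y - y j))) = Real.exp (x * y j) * Real.exp (-(x * Y)) := by
    intro j
    rw [← Real.exp_add]; congr 1; ring
  simp only [h]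
  rw [← sum_mul, mul_div_mul_right _ _ (Real.exp_pos _).ne']

lemma sum_exp_pos [Nonempty ι] (f : ι → ℝ) : 0 < ∑ i, Real.exp (f i) :=
  sum_pos (fun _ _ => Real.exp_pos _) univ_nonempty

lemma gib_nonneg (y : ι → ℝ) (x : ℝ) (i : ι) : 0 ≤ gib y x i := by
  unfold gib
  exact div_nonneg (Real.exp_pos _).le (sum_nonneg fun _ _ => (Real.exp_pos _).le)

lemma gib_sum [Nonempty ι] (y : ι → ℝ) (x : ℝ) : ∑ i, gib y x i = 1 := by
  unfold gib
  rw [← sum_div]
  exact div_self (sum_exp_pos _).ne'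

lemma gib_continuous [Nonempty ι] (y : ι → ℝ) (i : ι) : Continuous (fun x => gib y x i) := by
  unfold gib
  apply Continuous.div
  · fun_prop
  · fun_prop
  · intro x
    exact (sum_exp_pos _).ne'

/-- the variance is at most the mean square deviation from any point -/
lemma cvar_le (p : ι → ℝ) (hp1 : ∑ i, p i = 1) (f : ι → ℂ) (w0 : ℂ) :
    cvar p f ≤ ∑ i, p i * ‖f i - w0‖ ^ 2 := by
  have key : ∑ i, p i * ‖f i - w0‖ ^ 2 = cvar p f + ‖cmean p f - w0‖ ^ 2 := by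
    unfold cvar
    have h1 : ∀ i, ‖f i - w0‖ ^ 2 = ‖f i - cmean p f‖ ^ 2 + ‖cmean p f - w0‖ ^ 2
        + 2 * ((f i - cmean p f) * (starRingEnd ℂ) (cmean p f - w0)).re := by
      intro i
      rw [← Complex.normSq_eq_norm_sq, ← Complex.normSq_eq_norm_sq, ← Complex.normSq_eq_norm_sq,
        ← Complex.normSq_add]
      congr 1
      ring
    simp only [h1]
    have h2 : ∀ i, p i * (‖f i - cmean p f‖ ^ 2 + ‖cmean p f - w0‖ ^ 2
        + 2 * ((f i - cmean p f) * (starRingEnd ℂ) (cmean p f - w0)).re) =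
        p i * ‖f i - cmean p f‖ ^ 2 + p i * ‖cmean p f - w0‖ ^ 2
        + 2 * (((p i : ℂ) * (f i - cmean p f)) * (starRingEnd ℂ) (cmean p f - w0)).re := by
      intro i
      rw [mul_assoc (p i : ℂ), Complex.re_ofReal_mul]
      ring
    simp only [h2]
    rw [sum_add_distrib, sum_add_distrib, ← sum_mul, hp1, one_mul, ← mul_sum, ← Complex.re_sum,
      ← sum_mul]
    have h3 : ∑ i, (p i : ℂ) * (f i - cmean p f) = 0 := by
      simp only [mul_sub]
      rw [sum_sub_distrib, ← sum_mul]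
      have : (∑ i, (p i : ℂ)) = 1 := by
        rw [← Complex.ofReal_sum, hp1]; simp
      rw [this, one_mul]
      unfold cmean
      simp
    rw [h3]
    simp
  rw [key]
  linarith [sq_nonneg ‖cmean p f - w0‖]

lemma cvar_nonneg (p : ι → ℝ) (hp : ∀ i, 0 ≤ p i) (f : ι → ℂ) : 0 ≤ cvar p f :=
  sum_nonneg fun i _ => mul_nonneg (hp i) (by positivity)

/-- continuity of `x ↦ cvar (gib y x) (f x)` -/
lemma continuous_cvar [Nonempty ι] (p : ℝ → ι → ℝ) (hp : ∀ i, Continuous fun x => p x i)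
    (f : ℝ → ι → ℂ) (hf : ∀ i, Continuous fun x => f x i) :
    Continuous (fun x => cvar (p x) (f x)) := by
  unfold cvar cmean
  fun_prop

lemma continuous_DF [Nonempty ι] (y : ι → ℝ) (w u : ι → ℂ) :
    Continuous (fun x => DF (gib y x) w u x) := by
  unfold DF cvar cmean
  have := gib_continuous y
  fun_prop

end alg

section coll

variable {J : Type} [Fintype J]

/-- the polynomial form of `x ^ 4 * T0 p w (u / x)` -/
noncomputable def T0x (p : J → ℝ) (w u : J → ℂ) (x : ℝ) : ℝ :=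
  x ^ 2 * ((∑ i, p i * ‖(x : ℂ) * (w i ^ 2 - 2 * (∑ j, (p j : ℂ) * w j) * w i) + u i‖ ^ 2)
    - ‖∑ i, (p i : ℂ) * ((x : ℂ) * (w i ^ 2 - 2 * (∑ j, (p j : ℂ) * w j) * w i) + u i)‖ ^ 2)
    - 2 * x ^ 4 * ((∑ i, p i * ‖w i‖ ^ 2) - ‖∑ j, (p j : ℂ) * w j‖ ^ 2) ^ 2

lemma T0x_eq (p : J → ℝ) (w u : J → ℂ) {x : ℝ} (hx : x ≠ 0) :
    x ^ 4 * T0 p w (fun i => u i / (x : ℂ)) = T0x p w u x := by
  have hx' : (x : ℂ) ≠ 0 := by exact_mod_cast hx
  have hn : ‖(x : ℂ)‖ ^ 2 = x ^ 2 := by rw [Complex.norm_real, Real.norm_eq_abs, sq_abs]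
  unfold T0 T0x
  generalize (∑ j, (p j : ℂ) * w j) = S
  have h : ∀ i, (x : ℂ) * (w i ^ 2 - 2 * S * w i) + u i =
      (x : ℂ) * ((w i ^ 2 - 2 * S * w i) + u i / x) := by
    intro i
    field_simp
  have h1 : ∑ i, p i * ‖(x : ℂ) * (w i ^ 2 - 2 * S * w i) + u i‖ ^ 2 =
      x ^ 2 * ∑ i, p i * ‖(w i ^ 2 - 2 * S * w i) + u i / (x : ℂ)‖ ^ 2 := by
    rw [mul_sum]
    apply sum_congr rfl
    intro i _
    rw [h i, norm_mul, mul_pow, hn]
    ring
  have h2 : ∑ i, (p i : ℂ) * ((x : ℂ) * (w i ^ 2 - 2 * S * w i) + u i) =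
      (x : ℂ) * ∑ i, (p i : ℂ) * ((w i ^ 2 - 2 * S * w i) + u i / (x : ℂ)) := by
    rw [mul_sum]
    apply sum_congr rfl
    intro i _
    rw [h i]
    ring
  rw [h1, h2, norm_mul, mul_pow, hn]
  ring

lemma DJ_eq (m : ℝ) (t : J → ℝ) (w u : J → ℂ) (x : ℝ) :
    DJ m t w u x = T0x (qw m t x) w u x := by
  by_cases hx : x = 0
  · subst hx
    unfold DJ T0x
    simp
  · exact T0x_eq _ _ _ hx

lemma qw_continuous {m : ℝ} (hm : 0 < m) (t : J → ℝ) (i : J) :
    Continuous (fun x => qw m t x i) := by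
  unfold qw
  apply Continuous.div
  · fun_prop
  · fun_prop
  · intro x
    have : 0 ≤ ∑ j, Real.exp (-(x * t j)) := sum_nonneg fun _ _ => (Real.exp_pos _).le
    linarith

lemma continuous_DJ {m : ℝ} (hm : 0 < m) (t : J → ℝ) (w u : J → ℂ) :
    Continuous (fun x => DJ m t w u x) := by
  simp only [DJ_eq]
  unfold T0x
  have := qw_continuous hm t
  fun_prop

lemma T0_of_DJ (m : ℝ) (t : J → ℝ) (w u : J → ℂ) {x : ℝ} (hx : x ≠ 0) :
    T0 (qw m t x) w (fun i => u i / (x : ℂ)) = DJ m t w u x / x ^ 4 := by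
  unfold DJ
  field_simp

end coll

/-- the statement of `perturb` for given constants -/
def PertOK (N : ℕ) (θ κ C : ℝ) : Prop :=
    ∀ (ι : Type) [Fintype ι] [DecidableEq ι] (T : Finset ι) (E : ι → ℝ) (w u : ι → ℂ),
      Fintype.card ι = N → T.Nonempty → (∀ i, 0 < E i) → (∀ i, E i ≤ 1) →
      (∀ i ∈ T, 1 - κ ≤ E i) →
      ∀ W U : ℂ, T.card * W = ∑ i ∈ T, w i → T.card * U = ∑ i ∈ T, u i →
      T0 (fun i : {i // i ∉ T} => E i / (T.card + ∑ j : {i // i ∉ T}, E j))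
          (fun i => w i - W) (fun i => u i - U)
        - θ * (∑ i : {i // i ∉ T}, E i * (‖w i - W‖ ^ 4 + ‖u i - U‖ ^ 2))
        - C * (∑ i ∈ T, ‖w i - W‖ ^ 4) + 1 / (4 * N) * (∑ i ∈ T, ‖u i - U‖ ^ 2)
      ≤ DF (fun i => E i / ∑ j, E j) w u 1

section pert

variable {ι : Type} [Fintype ι] [DecidableEq ι]

lemma pointwise {N : ℕ} {θ κ C : ℝ} (hP : PertOK N θ κ C) (hcard : Fintype.card ι = N)
    (T : Finset ι) (hT : T.Nonempty) (y : ι → ℝ) (Y : ℝ) (hY : ∀ i, y i ≤ Y) (w u : ι → ℂ)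
    (W U : ℂ) (hW : T.card * W = ∑ i ∈ T, w i) (hU : T.card * U = ∑ i ∈ T, u i)
    {x : ℝ} (hx : 0 < x) (hκ : ∀ i ∈ T, 1 - κ ≤ Real.exp (-(x * (Y - y i)))) :
    T0 (qw T.card (fun i : {i // i ∉ T} => Y - y i) x) (fun i => w i - W)
          (fun i => (u i - U) / (x : ℂ))
        - θ * (∑ i : {i // i ∉ T}, Real.exp (-(x * (Y - y i))) *
            (‖w i - W‖ ^ 4 + ‖u i - U‖ ^ 2 / x ^ 2))
        - C * (∑ i ∈ T, ‖w i - W‖ ^ 4) + 1 / (4 * N) * (∑ i ∈ T, ‖u i - U‖ ^ 2) / x ^ 2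
      ≤ DF (gib y x) w (fun i => u i / (x : ℂ)) 1 := by
  have hx' : (x : ℂ) ≠ 0 := by exact_mod_cast hx.ne'
  have hn : ‖(x : ℂ)‖ ^ 2 = x ^ 2 := by rw [Complex.norm_real, Real.norm_eq_abs, sq_abs]
  have h := hP ι T (fun i => Real.exp (-(x * (Y - y i)))) w (fun i => u i / (x : ℂ)) hcard hT
    (fun i => Real.exp_pos _)
    (fun i => by
      rw [Real.exp_le_one_iff]
      have := hY i
      nlinarith [mul_nonneg hx.le (sub_nonneg.mpr this)])
    hκ W (U / x) hW (by rw [← sum_div, ← hU]; ring)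
  have e1 : ∀ i, u i / (x : ℂ) - U / x = (u i - U) / x := fun i => by ring
  have e2 : ∀ i, ‖(u i - U) / (x : ℂ)‖ ^ 2 = ‖u i - U‖ ^ 2 / x ^ 2 := by
    intro i
    rw [norm_div, div_pow, hn]
  have e3 : gib y x = fun i => Real.exp (-(x * (Y - y i))) / ∑ j, Real.exp (-(x * (Y - y j))) :=
    funext fun i => gib_eq y Y x i
  rw [e3]
  refine le_trans (le_of_eq ?_) h
  simp only [e1, e2]
  rw [← sum_div, mul_div_assoc]
  rfl

/-- integrated inequality on `[0, 1]` -/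
lemma partA {N : ℕ} {θ κ C : ℝ} (hP : PertOK N θ κ C) (hcard : Fintype.card ι = N)
    (T : Finset ι) (hT : T.Nonempty) (y : ι → ℝ) (Y : ℝ) (hY : ∀ i, y i ≤ Y) (w u : ι → ℂ)
    (W U : ℂ) (hW : T.card * W = ∑ i ∈ T, w i) (hU : T.card * U = ∑ i ∈ T, u i)
    (hκ : ∀ x : ℝ, 0 ≤ x → x ≤ 1 → ∀ i ∈ T, 1 - κ ≤ Real.exp (-(x * (Y - y i))))
    (K : ℝ → ℝ) (hKc : ContinuousOn K (Set.Icc 0 1)) (hK0 : ∀ x ∈ Set.Icc (0 : ℝ) 1, 0 < K x) :
    (∫ x in (0 : ℝ)..1, K x * DJ T.card (fun i : {i // i ∉ T} => Y - y i)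
        (fun i => w i - W) (fun i => u i - U) x)
      - θ * (∑ i : {i // i ∉ T}, ((∫ x in (0 : ℝ)..1, K x * x ^ 4 * Real.exp (-(x * (Y - y i)))) *
          ‖w i - W‖ ^ 4 + (∫ x in (0 : ℝ)..1, K x * x ^ 2 * Real.exp (-(x * (Y - y i)))) *
          ‖u i - U‖ ^ 2))
      - C * (∑ i ∈ T, ‖w i - W‖ ^ 4) * (∫ x in (0 : ℝ)..1, K x * x ^ 4)
      + 1 / (4 * N) * (∑ i ∈ T, ‖u i - U‖ ^ 2) * (∫ x in (0 : ℝ)..1, K x * x ^ 2)
      ≤ ∫ x in (0 : ℝ)..1, K x * DF (gib y x) w u x := by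
  have : Nonempty ι := hT.to_type
  have hTc : (0 : ℝ) < T.card := by exact_mod_cast hT.card_pos
  have hint : ∀ f : ℝ → ℝ, Continuous f → IntervalIntegrable (fun x => K x * f x) volume 0 1 := by
    intro f hf
    apply ContinuousOn.intervalIntegrable
    rw [Set.uIcc_of_le zero_le_one]
    exact hKc.mul hf.continuousOn
  have cDJ := continuous_DJ hTc (fun i : {i // i ∉ T} => Y - y i)
    (fun i => w i - W) (fun i => u i - U)
  have cDF := continuous_DF y w u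
  -- rewrite the left side as one integral
  set X4 := ∑ i ∈ T, ‖w i - W‖ ^ 4 with hX4
  set M2 := ∑ i ∈ T, ‖u i - U‖ ^ 2 with hM2
  have hsum : ∀ x : ℝ, K x * (DJ T.card (fun i : {i // i ∉ T} => Y - y i)
        (fun i => w i - W) (fun i => u i - U) x
        - θ * (∑ i : {i // i ∉ T}, Real.exp (-(x * (Y - y i))) *
            (x ^ 4 * ‖w i - W‖ ^ 4 + x ^ 2 * ‖u i - U‖ ^ 2))
        - C * X4 * x ^ 4 + 1 / (4 * N) * M2 * x ^ 2) =
      K x * DJ T.card (fun i : {i // i ∉ T} => Y - y i) (fun i => w i - W) (fun i => u i - U) x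
      - θ * (∑ i : {i // i ∉ T}, ((K x * x ^ 4 * Real.exp (-(x * (Y - y i)))) *
          ‖w i - W‖ ^ 4 + (K x * x ^ 2 * Real.exp (-(x * (Y - y i)))) * ‖u i - U‖ ^ 2))
      - C * X4 * (K x * x ^ 4) + 1 / (4 * N) * M2 * (K x * x ^ 2) := by
    intro x
    have : ∑ i : {i // i ∉ T}, ((K x * x ^ 4 * Real.exp (-(x * (Y - y i)))) *
          ‖w i - W‖ ^ 4 + (K x * x ^ 2 * Real.exp (-(x * (Y - y i)))) * ‖u i - U‖ ^ 2) =
        K x * ∑ i : {i // i ∉ T}, Real.exp (-(x * (Y - y i))) *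
            (x ^ 4 * ‖w i - W‖ ^ 4 + x ^ 2 * ‖u i - U‖ ^ 2) := by
      rw [mul_sum]
      apply sum_congr rfl
      intros
      ring
    rw [this]
    ring
  have i1 := hint _ cDJ
  have i4 : ∀ s : ℝ, IntervalIntegrable (fun x => K x * x ^ 4 * Real.exp (-(x * s))) volume 0 1 := by
    intro s
    have := hint (fun x => x ^ 4 * Real.exp (-(x * s))) (by fun_prop)
    simpa [mul_assoc] using this
  have i2 : ∀ s : ℝ, IntervalIntegrable (fun x => K x * x ^ 2 * Real.exp (-(x * s))) volume 0 1 := by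
    intro s
    have := hint (fun x => x ^ 2 * Real.exp (-(x * s))) (by fun_prop)
    simpa [mul_assoc] using this
  have j4 : IntervalIntegrable (fun x => K x * x ^ 4) volume 0 1 := hint _ (by fun_prop)
  have j2 : IntervalIntegrable (fun x => K x * x ^ 2) volume 0 1 := hint _ (by fun_prop)
  have iS : IntervalIntegrable (fun x => ∑ i : {i // i ∉ T},
      ((K x * x ^ 4 * Real.exp (-(x * (Y - y i)))) * ‖w i - W‖ ^ 4 +
        (K x * x ^ 2 * Real.exp (-(x * (Y - y i)))) * ‖u i - U‖ ^ 2)) volume 0 1 := by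
    have : (fun x => ∑ i : {i // i ∉ T},
      ((K x * x ^ 4 * Real.exp (-(x * (Y - y i)))) * ‖w i - W‖ ^ 4 +
        (K x * x ^ 2 * Real.exp (-(x * (Y - y i)))) * ‖u i - U‖ ^ 2)) =
      ∑ i : {i // i ∉ T}, fun x => ((K x * x ^ 4 * Real.exp (-(x * (Y - y i)))) * ‖w i - W‖ ^ 4 +
        (K x * x ^ 2 * Real.exp (-(x * (Y - y i)))) * ‖u i - U‖ ^ 2) := by
      funext x; simp
    rw [this]
    apply IntervalIntegrable.sum
    intro i _
    exact ((i4 _).mul_const _).add ((i2 _).mul_const _)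
  have hL : (∫ x in (0 : ℝ)..1, (K x * DJ T.card (fun i : {i // i ∉ T} => Y - y i)
        (fun i => w i - W) (fun i => u i - U) x
      - θ * (∑ i : {i // i ∉ T}, ((K x * x ^ 4 * Real.exp (-(x * (Y - y i)))) *
          ‖w i - W‖ ^ 4 + (K x * x ^ 2 * Real.exp (-(x * (Y - y i)))) * ‖u i - U‖ ^ 2))
      - C * X4 * (K x * x ^ 4) + 1 / (4 * N) * M2 * (K x * x ^ 2))) =
      (∫ x in (0 : ℝ)..1, K x * DJ T.card (fun i : {i // i ∉ T} => Y - y i)
        (fun i => w i - W) (fun i => u i - U) x)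
      - θ * (∑ i : {i // i ∉ T}, ((∫ x in (0 : ℝ)..1, K x * x ^ 4 * Real.exp (-(x * (Y - y i)))) *
          ‖w i - W‖ ^ 4 + (∫ x in (0 : ℝ)..1, K x * x ^ 2 * Real.exp (-(x * (Y - y i)))) *
          ‖u i - U‖ ^ 2))
      - C * X4 * (∫ x in (0 : ℝ)..1, K x * x ^ 4)
      + 1 / (4 * N) * M2 * (∫ x in (0 : ℝ)..1, K x * x ^ 2) := by
    rw [intervalIntegral.integral_add ((i1.sub (iS.const_mul θ)).sub (j4.const_mul _))
      (j2.const_mul _), intervalIntegral.integral_sub (i1.sub (iS.const_mul θ)) (j4.const_mul _),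
      intervalIntegral.integral_sub i1 (iS.const_mul θ), intervalIntegral.integral_const_mul,
      intervalIntegral.integral_const_mul, intervalIntegral.integral_const_mul,
      intervalIntegral.integral_finsetSum
        (fun i _ => ((i4 _).mul_const _).add ((i2 _).mul_const _))]
    congr 3
    congr 1
    apply sum_congr rfl
    intro i _
    rw [intervalIntegral.integral_add ((i4 _).mul_const _) ((i2 _).mul_const _),
      intervalIntegral.integral_mul_const, intervalIntegral.integral_mul_const]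
  rw [← hL]
  apply intervalIntegral.integral_mono_on zero_le_one
    (((i1.sub (iS.const_mul θ)).sub (j4.const_mul _)).add (j2.const_mul _)) (hint _ cDF)
  intro x hx
  rw [← hsum x]
  apply mul_le_mul_of_nonneg_left _ (hK0 x hx).le
  rcases eq_or_lt_of_le hx.1 with h0 | h0
  · subst h0
    unfold DJ DF
    simp
  · have hp := pointwise hP hcard T hT y Y hY w u W U hW hU h0 (hκ x hx.1 hx.2)
    rw [DF_scale _ _ _ h0.ne']
    have hx4 : 0 < x ^ 4 := by positivity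
    have h2 := mul_le_mul_of_nonneg_left hp hx4.le
    refine le_trans (le_of_eq ?_) h2
    rw [T0_of_DJ _ _ _ _ h0.ne']
    have h3 : ∑ i : {i // i ∉ T}, Real.exp (-(x * (Y - y i))) *
            (x ^ 4 * ‖w i - W‖ ^ 4 + x ^ 2 * ‖u i - U‖ ^ 2) =
        x ^ 4 * ∑ i : {i // i ∉ T}, Real.exp (-(x * (Y - y i))) *
            (‖w i - W‖ ^ 4 + ‖u i - U‖ ^ 2 / x ^ 2) := by
      rw [mul_sum]
      apply sum_congr rfl
      intros
      field_simp
    rw [h3, ← hX4, ← hM2]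
    have e5 : x ^ 4 * (1 / (4 * (N : ℝ)) * M2 / x ^ 2) = 1 / (4 * N) * M2 * x ^ 2 := by
      have : x ^ 4 = x ^ 2 * x ^ 2 := by ring
      rw [this]
      field_simp
    have e6 : ∀ D : ℝ, x ^ 4 * (D / x ^ 4) = D := fun D => by field_simp
    rw [mul_add, mul_sub, mul_sub, e6, e5]
    ring

/-- integrated inequality on `[1, Λ]` -/
lemma partB {N : ℕ} {θ κ C : ℝ} (hθ : 0 ≤ θ) (hC : 0 ≤ C) (hP : PertOK N θ κ C)
    (hcard : Fintype.card ι = N)
    (T : Finset ι) (hT : T.Nonempty) (y : ι → ℝ) (Y : ℝ) (hY : ∀ i, y i ≤ Y) (w u : ι → ℂ)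
    (W U : ℂ) (hW : T.card * W = ∑ i ∈ T, w i) (hU : T.card * U = ∑ i ∈ T, u i)
    {Λ : ℝ} (hΛ : 1 ≤ Λ)
    (hκ : ∀ x : ℝ, 1 ≤ x → x ≤ Λ → ∀ i ∈ T, 1 - κ ≤ Real.exp (-(x * (Y - y i)))) :
    (∫ x in (1 : ℝ)..Λ, T0 (qw T.card (fun i : {i // i ∉ T} => Y - y i) x)
        (fun i => w i - W) (fun i => (u i - U) / (x : ℂ)))
      - θ * (∑ i : {i // i ∉ T}, ((∫ x in (1 : ℝ)..Λ, Real.exp (-(x * (Y - y i)))) *
          ‖w i - W‖ ^ 4 + Real.exp (-(Y - y i)) * ‖u i - U‖ ^ 2))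
      - C * (∑ i ∈ T, ‖w i - W‖ ^ 4) * Λ
      ≤ ∫ x in (1 : ℝ)..Λ, DF (gib y x) w u x / x ^ 4 := by
  have : Nonempty ι := hT.to_type
  have hTc : (0 : ℝ) < T.card := by exact_mod_cast hT.card_pos
  have hne : ∀ x ∈ Set.uIcc (1 : ℝ) Λ, x ≠ 0 := by
    intro x hx
    rw [Set.uIcc_of_le hΛ] at hx
    have := hx.1
    linarith
  have cDJ := continuous_DJ hTc (fun i : {i // i ∉ T} => Y - y i)
    (fun i => w i - W) (fun i => u i - U)
  have cDF := continuous_DF y w u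
  have i1 : IntervalIntegrable (fun x => T0 (qw T.card (fun i : {i // i ∉ T} => Y - y i) x)
        (fun i => w i - W) (fun i => (u i - U) / (x : ℂ))) volume 1 Λ := by
    apply ContinuousOn.intervalIntegrable
    have h1 : ContinuousOn (fun x => DJ T.card (fun i : {i // i ∉ T} => Y - y i)
      (fun i => w i - W) (fun i => u i - U) x / x ^ 4) (Set.uIcc 1 Λ) := by
      apply ContinuousOn.div cDJ.continuousOn (by fun_prop)
      intro x hx
      exact pow_ne_zero _ (hne x hx)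
    refine h1.congr ?_
    intro x hx
    exact T0_of_DJ _ _ _ _ (hne x hx)
  have i2 : IntervalIntegrable (fun x => DF (gib y x) w u x / x ^ 4) volume 1 Λ := by
    apply ContinuousOn.intervalIntegrable
    apply ContinuousOn.div cDF.continuousOn (by fun_prop)
    intro x hx
    exact pow_ne_zero _ (hne x hx)
  set X4 := ∑ i ∈ T, ‖w i - W‖ ^ 4 with hX4
  have hX40 : 0 ≤ X4 := sum_nonneg fun _ _ => by positivity
  have iinv : IntervalIntegrable (fun x : ℝ => 1 / x ^ 2) volume 1 Λ := by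
    apply ContinuousOn.intervalIntegrable
    apply ContinuousOn.div continuousOn_const (by fun_prop)
    intro x hx
    exact pow_ne_zero _ (hne x hx)
  have iE : ∀ s : ℝ, IntervalIntegrable (fun x : ℝ => Real.exp (-(x * s))) volume 1 Λ := by
    intro s
    apply Continuous.intervalIntegrable
    fun_prop
  have hinv : ∫ x in (1 : ℝ)..Λ, 1 / x ^ 2 ≤ 1 := by
    have hd : ∀ x ∈ Set.uIcc (1 : ℝ) Λ, HasDerivAt (fun x : ℝ => -(1 / x)) (1 / x ^ 2) x := by
      intro x hx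
      have hx0 := hne x hx
      have := (hasDerivAt_inv hx0).fun_neg
      simpa [one_div] using this
    rw [intervalIntegral.integral_eq_sub_of_hasDerivAt hd iinv]
    have : 0 < 1 / Λ := by positivity
    linarith
  have iS : IntervalIntegrable (fun x => ∑ i : {i // i ∉ T},
      (Real.exp (-(x * (Y - y i))) * ‖w i - W‖ ^ 4 +
        1 / x ^ 2 * (Real.exp (-(Y - y i)) * ‖u i - U‖ ^ 2))) volume 1 Λ := by
    have : (fun x => ∑ i : {i // i ∉ T},
      (Real.exp (-(x * (Y - y i))) * ‖w i - W‖ ^ 4 +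
        1 / x ^ 2 * (Real.exp (-(Y - y i)) * ‖u i - U‖ ^ 2))) =
      ∑ i : {i // i ∉ T}, fun x => (Real.exp (-(x * (Y - y i))) * ‖w i - W‖ ^ 4 +
        1 / x ^ 2 * (Real.exp (-(Y - y i)) * ‖u i - U‖ ^ 2)) := by
      funext x; simp
    rw [this]
    apply IntervalIntegrable.sum
    intro i _
    exact ((iE _).mul_const _).add (iinv.mul_const _)
  have iC : IntervalIntegrable (fun _ : ℝ => C * X4) volume 1 Λ := by
    simp
  have hL : (∫ x in (1 : ℝ)..Λ, (T0 (qw T.card (fun i : {i // i ∉ T} => Y - y i) x)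
        (fun i => w i - W) (fun i => (u i - U) / (x : ℂ))
      - θ * (∑ i : {i // i ∉ T}, (Real.exp (-(x * (Y - y i))) * ‖w i - W‖ ^ 4 +
        1 / x ^ 2 * (Real.exp (-(Y - y i)) * ‖u i - U‖ ^ 2)))
      - C * X4)) =
      (∫ x in (1 : ℝ)..Λ, T0 (qw T.card (fun i : {i // i ∉ T} => Y - y i) x)
        (fun i => w i - W) (fun i => (u i - U) / (x : ℂ)))
      - θ * (∑ i : {i // i ∉ T}, ((∫ x in (1 : ℝ)..Λ, Real.exp (-(x * (Y - y i)))) *
          ‖w i - W‖ ^ 4 + (∫ x in (1 : ℝ)..Λ, 1 / x ^ 2) *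
            (Real.exp (-(Y - y i)) * ‖u i - U‖ ^ 2)))
      - (Λ - 1) * (C * X4) := by
    rw [intervalIntegral.integral_sub (i1.sub (iS.const_mul θ)) iC,
      intervalIntegral.integral_sub i1 (iS.const_mul θ), intervalIntegral.integral_const_mul,
      intervalIntegral.integral_const,
      intervalIntegral.integral_finsetSum
        (fun i _ => ((iE _).mul_const _).add (iinv.mul_const _))]
    congr 3
    apply sum_congr rfl
    intro i _
    rw [intervalIntegral.integral_add ((iE _).mul_const _) (iinv.mul_const _),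
      intervalIntegral.integral_mul_const, intervalIntegral.integral_mul_const]
  have hmono : (∫ x in (1 : ℝ)..Λ, (T0 (qw T.card (fun i : {i // i ∉ T} => Y - y i) x)
        (fun i => w i - W) (fun i => (u i - U) / (x : ℂ))
      - θ * (∑ i : {i // i ∉ T}, (Real.exp (-(x * (Y - y i))) * ‖w i - W‖ ^ 4 +
        1 / x ^ 2 * (Real.exp (-(Y - y i)) * ‖u i - U‖ ^ 2)))
      - C * X4)) ≤ ∫ x in (1 : ℝ)..Λ, DF (gib y x) w u x / x ^ 4 := by
    apply intervalIntegral.integral_mono_on hΛ ((i1.sub (iS.const_mul θ)).sub iC) i2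
    intro x hx
    have h0 : 0 < x := lt_of_lt_of_le one_pos hx.1
    have hp := pointwise hP hcard T hT y Y hY w u W U hW hU h0 (hκ x hx.1 hx.2)
    rw [DF_scale _ _ _ h0.ne']
    have hx4 : x ^ 4 ≠ 0 := by positivity
    rw [mul_div_cancel_left₀ _ hx4]
    refine le_trans ?_ hp
    have h1 : ∑ i : {i // i ∉ T}, Real.exp (-(x * (Y - y i))) *
            (‖w i - W‖ ^ 4 + ‖u i - U‖ ^ 2 / x ^ 2) ≤
        ∑ i : {i // i ∉ T}, (Real.exp (-(x * (Y - y i))) * ‖w i - W‖ ^ 4 +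
        1 / x ^ 2 * (Real.exp (-(Y - y i)) * ‖u i - U‖ ^ 2)) := by
      apply sum_le_sum
      intro i _
      have h2 : Real.exp (-(x * (Y - y i))) ≤ Real.exp (-(Y - y i)) := by
        apply Real.exp_le_exp.mpr
        have := hY i
        nlinarith [hx.1, mul_nonneg (sub_nonneg.mpr hx.1) (sub_nonneg.mpr this)]
      have h3 : 0 ≤ ‖(u i : ℂ) - U‖ ^ 2 / x ^ 2 := by positivity
      have h4 := mul_le_mul_of_nonneg_right h2 h3
      have h5 : 1 / x ^ 2 * (Real.exp (-(Y - y i)) * ‖u i - U‖ ^ 2) =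
          Real.exp (-(Y - y i)) * (‖u i - U‖ ^ 2 / x ^ 2) := by ring
      rw [h5, mul_add]
      linarith
    have h6 : 0 ≤ 1 / (4 * (N : ℝ)) * (∑ i ∈ T, ‖u i - U‖ ^ 2) / x ^ 2 := by
      have : 0 ≤ ∑ i ∈ T, ‖u i - U‖ ^ 2 := sum_nonneg fun _ _ => by positivity
      positivity
    have h7 := mul_le_mul_of_nonneg_left h1 hθ
    linarith
  refine le_trans ?_ hmono
  rw [hL]
  have h8 : ∑ i : {i // i ∉ T}, ((∫ x in (1 : ℝ)..Λ, Real.exp (-(x * (Y - y i)))) *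
          ‖w i - W‖ ^ 4 + (∫ x in (1 : ℝ)..Λ, 1 / x ^ 2) *
            (Real.exp (-(Y - y i)) * ‖u i - U‖ ^ 2)) ≤
      ∑ i : {i // i ∉ T}, ((∫ x in (1 : ℝ)..Λ, Real.exp (-(x * (Y - y i)))) *
          ‖w i - W‖ ^ 4 + Real.exp (-(Y - y i)) * ‖u i - U‖ ^ 2) := by
    apply sum_le_sum
    intro i _
    have : (∫ x in (1 : ℝ)..Λ, 1 / x ^ 2) * (Real.exp (-(Y - y i)) * ‖u i - U‖ ^ 2) ≤
        1 * (Real.exp (-(Y - y i)) * ‖u i - U‖ ^ 2) :=
      mul_le_mul_of_nonneg_right hinv (by positivity)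
    linarith
  have h9 := mul_le_mul_of_nonneg_left h8 hθ
  have h10 : 0 ≤ C * X4 := mul_nonneg hC hX40
  nlinarith

end pert

end Pool.Agent.MP_7c31d9_gt.CoreAux
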