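import Pool.Agent.MP_7c31d9_gt.CoreSum

/-! Upper bound for the metric term in `core`. -/

namespace Pool.Agent.MP_7c31d9_gt.CoreAux

open Complex MeasureTheory Finset

/-- Cauchy-Schwarz for the weight on `[0, 1]` -/
lemma b_sq_le {K : ℝ → ℝ} (hKc : ContinuousOn K (Set.Icc 0 1))
    (hK0 : ∀ x ∈ Set.Icc (0 : ℝ) 1, 0 < K x) {Km : ℝ} (hKm : ∀ x ∈ Set.Icc (0 : ℝ) 1, K x ≤ Km)
    {s : ℝ} (hs : 0 ≤ s) (ha : 0 < ∫ x in (0 : ℝ)..1, K x * x ^ 4 * Real.exp (-(x * s))) :
    (∫ x in (0 : ℝ)..1, K x * x ^ 2 * Real.exp (-(x * s))) ^ 2 ≤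
      ((1 + Km) / 2) ^ 2 * ∫ x in (0 : ℝ)..1, K x * x ^ 4 * Real.exp (-(x * s)) := by
  have hint : ∀ f : ℝ → ℝ, Continuous f → IntervalIntegrable (fun x => K x * f x) volume 0 1 := by
    intro f hf
    apply ContinuousOn.intervalIntegrable
    rw [Set.uIcc_of_le zero_le_one]
    exact hKc.mul hf.continuousOn
  have i4 := hint (fun x => x ^ 4 * Real.exp (-(x * s))) (by fun_prop)
  have i2 := hint (fun x => x ^ 2 * Real.exp (-(x * s))) (by fun_prop)
  have i0 := hint (fun x => Real.exp (-(x * s))) (by fun_prop)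
  have j4 : IntervalIntegrable (fun x => K x * x ^ 4 * Real.exp (-(x * s))) volume 0 1 := by
    simpa [mul_assoc] using i4
  have j2 : IntervalIntegrable (fun x => K x * x ^ 2 * Real.exp (-(x * s))) volume 0 1 := by
    simpa [mul_assoc] using i2
  set a := ∫ x in (0 : ℝ)..1, K x * x ^ 4 * Real.exp (-(x * s)) with hadef
  set b := ∫ x in (0 : ℝ)..1, K x * x ^ 2 * Real.exp (-(x * s)) with hbdef
  have h0 : ∫ x in (0 : ℝ)..1, K x * Real.exp (-(x * s)) ≤ Km := by
    have : ∫ x in (0 : ℝ)..1, K x * Real.exp (-(x * s)) ≤ ∫ _x in (0 : ℝ)..1, Km := by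
      apply intervalIntegral.integral_mono_on zero_le_one i0 (by simp)
      intro x hx
      have h1 : Real.exp (-(x * s)) ≤ 1 := by
        rw [Real.exp_le_one_iff]
        have := mul_nonneg hx.1 hs
        linarith
      have h2 := mul_le_mul_of_nonneg_left h1 (hK0 x hx).le
      have := hKm x hx
      linarith
    simpa using this
  have hb0 : 0 ≤ b := by
    apply intervalIntegral.integral_nonneg zero_le_one
    intro x hx
    have := hK0 x hx
    positivity
  set e := Real.sqrt a with he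
  have hep : 0 < e := Real.sqrt_pos.mpr ha
  have hee : e * e = a := Real.mul_self_sqrt ha.le
  have key : 2 * e * b ≤ a + e ^ 2 * Km := by
    have h1 : ∫ x in (0 : ℝ)..1, 2 * e * (K x * x ^ 2 * Real.exp (-(x * s))) ≤
        ∫ x in (0 : ℝ)..1, (K x * x ^ 4 * Real.exp (-(x * s)) +
          e ^ 2 * (K x * Real.exp (-(x * s)))) := by
      apply intervalIntegral.integral_mono_on zero_le_one (j2.const_mul _)
        (j4.add (i0.const_mul _))
      intro x hx
      have h2 : 0 ≤ K x * Real.exp (-(x * s)) :=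
        mul_nonneg (hK0 x hx).le (Real.exp_pos _).le
      have h3 : 2 * e * x ^ 2 ≤ x ^ 4 + e ^ 2 := by nlinarith [sq_nonneg (x ^ 2 - e)]
      have h4 := mul_le_mul_of_nonneg_right h3 h2
      linarith
    rw [intervalIntegral.integral_const_mul, intervalIntegral.integral_add j4 (i0.const_mul _),
      intervalIntegral.integral_const_mul] at h1
    have h5 := mul_le_mul_of_nonneg_left h0 (sq_nonneg e)
    linarith
  have hb : b ≤ e * ((1 + Km) / 2) := by
    have h1 : e * (2 * b) ≤ e * (e * (1 + Km)) := by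
      have : e * (e * (1 + Km)) = a + e ^ 2 * Km := by rw [← hee]; ring
      rw [this]; linarith
    have h2 := le_of_mul_le_mul_left h1 hep
    linarith
  calc b ^ 2 ≤ (e * ((1 + Km) / 2)) ^ 2 := pow_le_pow_left₀ hb0 hb 2
    _ = ((1 + Km) / 2) ^ 2 * (e * e) := by ring
    _ = ((1 + Km) / 2) ^ 2 * a := by rw [hee]

section

variable {ι : Type} [Fintype ι]

lemma cvar_gib_le (y : ι → ℝ) (Y : ℝ) (hY : ∀ i, y i ≤ Y) (i0 : ι) (hi0 : y i0 = Y)
    (w : ι → ℂ) (W : ℂ) (x : ℝ) :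
    cvar (gib y x) w ≤ ∑ i, Real.exp (-(x * (Y - y i))) * ‖w i - W‖ ^ 2 := by
  have : Nonempty ι := ⟨i0⟩
  refine le_trans (cvar_le (gib y x) (gib_sum y x) w W) ?_
  apply sum_le_sum
  intro i _
  exact mul_le_mul_of_nonneg_right (gib_le_exp y Y hY i0 hi0 i) (by positivity)

lemma continuous_cvar_gib [Nonempty ι] (y : ι → ℝ) (w : ι → ℂ) :
    Continuous (fun x => cvar (gib y x) w) := by
  unfold cvar cmean
  have := gib_continuous y
  fun_prop

/-- the upper bound for the metric -/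
lemma metric_le {M : ℕ} {CG KG Kb Λ : ℝ} (hCG : 0 < CG) (hKb : 0 < Kb)
    (hKG : 0 ≤ KG) (hΛ : 1 ≤ Λ) {K : ℝ → ℝ} (hKc : ContinuousOn K (Set.Icc 0 1))
    (hK0 : ∀ x ∈ Set.Icc (0 : ℝ) 1, 0 < K x)
    (y : ι → ℝ) (Y : ℝ) (hY : ∀ i, y i ≤ Y) (i0 : ι) (hi0 : y i0 = Y)
    (w : ι → ℂ) (W : ℂ) (G1 : Fin M → ℝ)
    (hG1 : ∀ m, |G1 m| ≤ CG / (2 : ℝ) ^ (m.val + 1) *
      ∑ i, Real.sqrt (gib y (2 ^ (m.val + 1)) i) * ‖w i - W‖ ^ 2) :
    |(∫ x in (0 : ℝ)..1, K x * (x ^ 2 * cvar (gib y x) w))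
      + Kb * (∫ x in (1 : ℝ)..Λ, x ^ 2 * cvar (gib y x) w / x ^ 4) + KG * ∑ m, G1 m| ≤
    ∑ i, ((∫ x in (0 : ℝ)..1, K x * x ^ 2 * Real.exp (-(x * (Y - y i))))
      + (Kb + KG * CG) * Real.exp (-(Y - y i))) * ‖w i - W‖ ^ 2 := by
  have : Nonempty ι := ⟨i0⟩
  have hint : ∀ f : ℝ → ℝ, Continuous f → IntervalIntegrable (fun x => K x * f x) volume 0 1 := by
    intro f hf
    apply ContinuousOn.intervalIntegrable
    rw [Set.uIcc_of_le zero_le_one]
    exact hKc.mul hf.continuousOn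
  have hcv := continuous_cvar_gib y w
  have hcv0 : ∀ x, 0 ≤ cvar (gib y x) w := fun x => cvar_nonneg _ (gib_nonneg y x) _
  have hcvle := cvar_gib_le y Y hY i0 hi0 w W
  have i2 : ∀ s : ℝ, IntervalIntegrable (fun x => K x * x ^ 2 * Real.exp (-(x * s))) volume 0 1 := by
    intro s
    have := hint (fun x => x ^ 2 * Real.exp (-(x * s))) (by fun_prop)
    simpa [mul_assoc] using this
  have hne : ∀ x ∈ Set.uIcc (1 : ℝ) Λ, x ≠ 0 := by
    intro x hx
    rw [Set.uIcc_of_le hΛ] at hx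
    have := hx.1
    linarith
  -- first integral
  have hA0 : 0 ≤ ∫ x in (0 : ℝ)..1, K x * (x ^ 2 * cvar (gib y x) w) := by
    apply intervalIntegral.integral_nonneg zero_le_one
    intro x hx
    have := hK0 x hx
    have := hcv0 x
    positivity
  have hA1 : ∫ x in (0 : ℝ)..1, K x * (x ^ 2 * cvar (gib y x) w) ≤
      ∑ i, (∫ x in (0 : ℝ)..1, K x * x ^ 2 * Real.exp (-(x * (Y - y i)))) * ‖w i - W‖ ^ 2 := by
    have e1 : ∑ i, (∫ x in (0 : ℝ)..1, K x * x ^ 2 * Real.exp (-(x * (Y - y i)))) *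
        ‖w i - W‖ ^ 2 = ∫ x in (0 : ℝ)..1, ∑ i, K x * x ^ 2 * Real.exp (-(x * (Y - y i))) *
        ‖w i - W‖ ^ 2 := by
      rw [intervalIntegral.integral_finsetSum (fun i _ => (i2 _).mul_const _)]
      apply sum_congr rfl
      intro i _
      rw [intervalIntegral.integral_mul_const]
    rw [e1]
    apply intervalIntegral.integral_mono_on zero_le_one (hint _ (by fun_prop))
    · have : (fun x => ∑ i, K x * x ^ 2 * Real.exp (-(x * (Y - y i))) * ‖w i - W‖ ^ 2) =
        ∑ i, fun x => K x * x ^ 2 * Real.exp (-(x * (Y - y i))) * ‖w i - W‖ ^ 2 := by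
        funext x; simp
      rw [this]
      exact IntervalIntegrable.sum _ (fun i _ => (i2 _).mul_const _)
    · intro x hx
      have h1 : 0 ≤ K x * x ^ 2 := mul_nonneg (hK0 x hx).le (by positivity)
      have h2 := mul_le_mul_of_nonneg_left (hcvle x) h1
      refine le_trans (le_of_eq (by ring)) (le_trans h2 (le_of_eq ?_))
      rw [mul_sum]
      apply sum_congr rfl
      intros
      ring
  -- second integral
  have iinv : IntervalIntegrable (fun x : ℝ => 1 / x ^ 2) volume 1 Λ := by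
    apply ContinuousOn.intervalIntegrable
    apply ContinuousOn.div continuousOn_const (by fun_prop)
    intro x hx
    exact pow_ne_zero _ (hne x hx)
  have hinv : ∫ x in (1 : ℝ)..Λ, 1 / x ^ 2 ≤ 1 := by
    have hd : ∀ x ∈ Set.uIcc (1 : ℝ) Λ, HasDerivAt (fun x : ℝ => -(1 / x)) (1 / x ^ 2) x := by
      intro x hx
      have hx0 := hne x hx
      have := (hasDerivAt_inv hx0).fun_neg
      simpa [one_div] using this
    rw [intervalIntegral.integral_eq_sub_of_hasDerivAt hd iinv]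
    have : 0 < 1 / Λ := by positivity
    linarith
  have hB0 : 0 ≤ ∫ x in (1 : ℝ)..Λ, x ^ 2 * cvar (gib y x) w / x ^ 4 := by
    apply intervalIntegral.integral_nonneg hΛ
    intro x _
    have := hcv0 x
    positivity
  have hS0 : 0 ≤ ∑ i, Real.exp (-(Y - y i)) * ‖w i - W‖ ^ 2 :=
    sum_nonneg fun _ _ => by positivity
  have hB1 : ∫ x in (1 : ℝ)..Λ, x ^ 2 * cvar (gib y x) w / x ^ 4 ≤
      ∑ i, Real.exp (-(Y - y i)) * ‖w i - W‖ ^ 2 := by
    have h1 : ∫ x in (1 : ℝ)..Λ, x ^ 2 * cvar (gib y x) w / x ^ 4 ≤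
        ∫ x in (1 : ℝ)..Λ, 1 / x ^ 2 * ∑ i, Real.exp (-(Y - y i)) * ‖w i - W‖ ^ 2 := by
      apply intervalIntegral.integral_mono_on hΛ _ (iinv.mul_const _)
      · intro x hx
        have hx0 : 0 < x := by linarith [hx.1]
        have h2 : x ^ 2 * cvar (gib y x) w / x ^ 4 = 1 / x ^ 2 * cvar (gib y x) w := by
          field_simp
        rw [h2]
        apply mul_le_mul_of_nonneg_left _ (by positivity)
        refine le_trans (hcvle x) ?_
        apply sum_le_sum
        intro i _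
        apply mul_le_mul_of_nonneg_right _ (by positivity)
        apply Real.exp_le_exp.mpr
        have := mul_nonneg (sub_nonneg.mpr hx.1) (sub_nonneg.mpr (hY i))
        linarith
      · apply ContinuousOn.intervalIntegrable
        apply ContinuousOn.div (by fun_prop) (by fun_prop)
        intro x hx
        exact pow_ne_zero _ (hne x hx)
    rw [intervalIntegral.integral_mul_const] at h1
    have := mul_le_mul_of_nonneg_right hinv hS0
    linarith
  -- the regulariser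
  have hG : |∑ m, G1 m| ≤ CG * ∑ i, Real.exp (-(Y - y i)) * ‖w i - W‖ ^ 2 := by
    refine le_trans (abs_sum_le_sum_abs _ _) ?_
    refine le_trans (sum_le_sum fun m _ => hG1 m) ?_
    have h1 : ∀ m : Fin M, CG / (2 : ℝ) ^ (m.val + 1) *
        ∑ i, Real.sqrt (gib y (2 ^ (m.val + 1)) i) * ‖w i - W‖ ^ 2 ≤
        CG * ∑ i, Real.exp (-(2 ^ (m.val + 1) * (Y - y i) / 2)) / (2 : ℝ) ^ (m.val + 1) *
          ‖w i - W‖ ^ 2 := by
      intro m
      rw [div_mul_eq_mul_div, mul_div_assoc]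
      apply mul_le_mul_of_nonneg_left _ hCG.le
      rw [sum_div]
      apply sum_le_sum
      intro i _
      have b1 := sqrt_gib_le y Y hY i0 hi0 (x := (2 : ℝ) ^ (m.val + 1)) i
      have b2 : 0 ≤ ‖w i - W‖ ^ 2 / (2 : ℝ) ^ (m.val + 1) := by positivity
      have b3 := mul_le_mul_of_nonneg_right b1 b2
      refine le_trans (le_of_eq ?_) (le_trans b3 (le_of_eq ?_)) <;> ring
    refine le_trans (sum_le_sum fun m _ => h1 m) ?_
    rw [← mul_sum, sum_comm]
    apply mul_le_mul_of_nonneg_left _ hCG.le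
    apply sum_le_sum
    intro i _
    rw [← sum_mul]
    exact mul_le_mul_of_nonneg_right (sum_inv_le M (Y - y i) (sub_nonneg.mpr (hY i)))
      (by positivity)
  have e2 : ∑ i, ((∫ x in (0 : ℝ)..1, K x * x ^ 2 * Real.exp (-(x * (Y - y i))))
      + (Kb + KG * CG) * Real.exp (-(Y - y i))) * ‖w i - W‖ ^ 2 =
      ∑ i, (∫ x in (0 : ℝ)..1, K x * x ^ 2 * Real.exp (-(x * (Y - y i)))) * ‖w i - W‖ ^ 2
      + (Kb + KG * CG) * ∑ i, Real.exp (-(Y - y i)) * ‖w i - W‖ ^ 2 := by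
    rw [mul_sum, ← sum_add_distrib]
    apply sum_congr rfl
    intros
    ring
  rw [e2]
  have hG2 : |KG * ∑ m, G1 m| ≤ KG * (CG * ∑ i, Real.exp (-(Y - y i)) * ‖w i - W‖ ^ 2) := by
    rw [abs_mul, abs_of_nonneg hKG]
    exact mul_le_mul_of_nonneg_left hG hKG
  have hBK := mul_le_mul_of_nonneg_left hB1 hKb.le
  have hBK0 := mul_nonneg hKb.le hB0
  have t1 := abs_add_le ((∫ x in (0 : ℝ)..1, K x * (x ^ 2 * cvar (gib y x) w))
      + Kb * (∫ x in (1 : ℝ)..Λ, x ^ 2 * cvar (gib y x) w / x ^ 4)) (KG * ∑ m, G1 m)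
  rw [abs_of_nonneg (add_nonneg hA0 hBK0)] at t1
  linarith

end

end Pool.Agent.MP_7c31d9_gt.CoreAux
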