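import Pool.Agent.MP_7c31d9_gt.Defs2

/-! Real-variable part of `core`: choice of the constants and the coefficient inequalities. -/

namespace Pool.Agent.MP_7c31d9_gt.CoreAux

open Real

lemma one_add_mul_exp_le_one (t : ℝ) : (1 + t) * exp (-t) ≤ 1 := by
  have h1 := add_one_le_exp t
  have h2 : exp t * exp (-t) = 1 := by rw [← exp_add]; simp
  have h3 := exp_pos (-t)
  nlinarith

lemma one_add_mul_exp_half_le_two (t : ℝ) : (1 + t) * exp (-(t / 2)) ≤ 2 := by
  have h1 := add_one_le_exp (t / 2)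
  have h2 : exp (t / 2) * exp (-(t / 2)) = 1 := by rw [← exp_add]; simp
  have h3 := exp_pos (-(t / 2))
  nlinarith

/-- `(1 + t) exp (-t/2)` is small for large `t`. -/
lemma exists_small (C ε : ℝ) (hC : 0 < C) (hε : 0 < ε) : ∃ s0 : ℝ, 0 < s0 ∧ ∀ t, s0 ≤ t →
    C * (1 + t) * exp (-t) ≤ ε * exp (-(t / 2)) := by
  refine ⟨16 * C / ε + 1, by positivity, ?_⟩
  intro t ht
  have ht0 : 0 ≤ t := le_trans (by positivity) ht
  -- exp (t/2) ≥ (1 + t/4)^2 ≥ ...
  have h1 : 1 + t / 4 ≤ exp (t / 4) := by have := add_one_le_exp (t / 4); linarith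
  have h2 : (1 + t / 4) ^ 2 ≤ exp (t / 2) := by
    have : exp (t / 2) = exp (t / 4) ^ 2 := by rw [← exp_nat_mul]; congr 1; push_cast; ring
    rw [this]
    exact pow_le_pow_left₀ (by positivity) h1 2
  have h3 : exp (-t) = exp (-(t / 2)) * exp (-(t / 2)) := by rw [← exp_add]; congr 1; ring
  have h4 : exp (t / 2) * exp (-(t / 2)) = 1 := by rw [← exp_add]; simp
  have h5 := exp_pos (-(t / 2))
  have h6 : C * (1 + t) ≤ ε * exp (t / 2) := by
    refine le_trans ?_ (mul_le_mul_of_nonneg_left h2 hε.le)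
    have h7 : 16 * C / ε ≤ t := by linarith
    rw [div_le_iff₀ hε] at h7
    nlinarith
  calc C * (1 + t) * exp (-t) = (C * (1 + t)) * exp (-(t / 2)) * exp (-(t / 2)) := by
        rw [h3]; ring
    _ ≤ (ε * exp (t / 2)) * exp (-(t / 2)) * exp (-(t / 2)) := by
        apply mul_le_mul_of_nonneg_right _ h5.le
        exact mul_le_mul_of_nonneg_right h6 h5.le
    _ = ε * (exp (t / 2) * exp (-(t / 2))) * exp (-(t / 2)) := by ring
    _ = ε * exp (-(t / 2)) := by rw [h4]; ring

/-- first group of parameters -/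
structure Par1 (δ C c1 s0 Kb s1 th : ℝ) : Prop where
  hs0 : 0 < s0
  hKb : 0 < Kb
  hs1 : 1 ≤ s1
  hs01 : s0 ≤ s1
  hth : 0 < th
  hth1 : th ≤ 1
  hA : ∀ t, s0 ≤ t → C * (1 + t) * exp (-t) ≤ δ / 64 * exp (-(t / 2))
  hB : ∀ t, 0 < t → t ≤ s0 → C * (1 + t) * exp (-t) ≤ Kb * c1 / 4 * (exp (-(3 * t)) / (6 * t))
  hC : ∀ t, s1 ≤ t → 12 * Kb * exp (-t) ≤ δ / 256 * exp (-(t / 2))
  hD : 264 * th ≤ c1 * exp (-(2 * s1))

lemma exists_par1 (δ C c1 : ℝ) (hδ : 0 < δ) (hC : 0 < C) (hc1 : 0 < c1) :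
    ∃ s0 Kb s1 th : ℝ, Par1 δ C c1 s0 Kb s1 th := by
  obtain ⟨s0, hs0, h1⟩ := exists_small C (δ / 64) hC (by positivity)
  set Kb := 24 * C * s0 * (1 + s0) * exp (2 * s0) / c1 with hKbdef
  have hKb : 0 < Kb := by positivity
  obtain ⟨s1', hs1', h2⟩ := exists_small (12 * Kb) (δ / 256) (by positivity) (by positivity)
  set s1 := max (max s0 s1') 1 with hs1def
  have h3 : s0 ≤ s1 := le_trans (le_max_left _ _) (le_max_left _ _)
  have h4 : s1' ≤ s1 := le_trans (le_max_right _ _) (le_max_left _ _)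
  have h5 : 1 ≤ s1 := le_max_right _ _
  refine ⟨s0, Kb, s1, min 1 (c1 * exp (-(2 * s1)) / 264), hs0, hKb, h5, h3, ?_, min_le_left _ _,
    h1, ?_, ?_, ?_⟩
  · exact lt_min one_pos (by positivity)
  · intro t ht ht1
    have h6 : 24 * C * t * (1 + t) * exp (2 * t) ≤ Kb * c1 := by
      have : Kb * c1 = 24 * C * s0 * (1 + s0) * exp (2 * s0) := by
        rw [hKbdef]; field_simp
      rw [this]
      gcongr
    have h7 : exp (-t) = exp (2 * t) * exp (-(3 * t)) := by rw [← exp_add]; congr 1; ring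
    have h8 : Kb * c1 / 4 * (exp (-(3 * t)) / (6 * t)) =
        (Kb * c1) * (exp (-(3 * t)) / (24 * t)) := by field_simp; ring
    rw [h8]
    refine le_trans (le_of_eq ?_) (mul_le_mul_of_nonneg_right h6 (by positivity))
    rw [h7]; field_simp
  · intro t ht
    have h6 := h2 t (le_trans h4 ht)
    refine le_trans ?_ h6
    have ht0 : 0 ≤ t := by linarith
    have := exp_pos (-t)
    nlinarith [mul_pos hKb this, mul_nonneg (mul_pos hKb this).le ht0]
  · have := min_le_right (1 : ℝ) (c1 * exp (-(2 * s1)) / 264)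
    rw [le_div_iff₀ (by norm_num)] at this
    linarith

/-- second group of parameters -/
structure Par2 (δ C c1 cG CG Kb s1 th κ0 C1 C2 M0 KG : ℝ) (M : ℕ) : Prop where
  hM0 : 6 ≤ M0
  hM0' : 24 * exp (-(M0 / 2)) ≤ c1
  hKG : 0 < KG
  h1 : 4 * C ≤ KG * cG
  h2 : 44 * Kb * th * M0 ≤ KG * cG
  h3 : 4 * Kb * M0 / κ0 ≤ KG * cG
  h4 : 4 * C1 ≤ KG * cG
  h5 : 4 * C2 * Kb * M0 ≤ KG * cG
  hM : 1 ≤ M
  h6 : 8 * CG ≤ M * cG
  h7 : 192 * KG * CG * exp (5 * s1 / 2) ≤ M * Kb * c1
  h8 : 2048 * KG * CG ≤ M * δ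

lemma exists_par2 (δ C c1 cG CG Kb s1 th κ0 C1 C2 : ℝ) (hδ : 0 < δ) (hC : 0 < C)
    (hc1 : 0 < c1) (hcG : 0 < cG) (hCG : 0 < CG) (hKb : 0 < Kb) (hth : 0 < th) (hκ0 : 0 < κ0)
    (hC1 : 0 < C1) (hC2 : 0 < C2) :
    ∃ (M0 KG : ℝ) (M : ℕ), Par2 δ C c1 cG CG Kb s1 th κ0 C1 C2 M0 KG M := by
  obtain ⟨M0, hM0, hM0'⟩ : ∃ M0 : ℝ, 6 ≤ M0 ∧ 24 * exp (-(M0 / 2)) ≤ c1 := by
    refine ⟨max 6 (2 * (24 / c1)), le_max_left _ _, ?_⟩
    set M0 := max 6 (2 * (24 / c1))
    have h1 : 24 / c1 ≤ M0 / 2 := by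
      have := le_max_right 6 (2 * (24 / c1)); linarith
    have h2 := add_one_le_exp (M0 / 2)
    have h3 : 24 / c1 ≤ exp (M0 / 2) := by linarith
    rw [div_le_iff₀ hc1] at h3
    have h4 : exp (M0 / 2) * exp (-(M0 / 2)) = 1 := by rw [← exp_add]; simp
    have h5 := exp_pos (-(M0 / 2))
    calc 24 * exp (-(M0 / 2)) ≤ exp (M0 / 2) * c1 * exp (-(M0 / 2)) :=
          mul_le_mul_of_nonneg_right h3 h5.le
      _ = c1 * (exp (M0 / 2) * exp (-(M0 / 2))) := by ring
      _ = c1 := by rw [h4]; ring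
  have hM0p : 0 < M0 := by linarith
  set B := 4 * C + 44 * Kb * th * M0 + 4 * Kb * M0 / κ0 + 4 * C1 + 4 * C2 * Kb * M0 with hB
  have e1 : 0 < 4 * C := by positivity
  have e2 : 0 < 44 * Kb * th * M0 := by positivity
  have e3 : 0 < 4 * Kb * M0 / κ0 := by positivity
  have e4 : 0 < 4 * C1 := by positivity
  have e5 : 0 < 4 * C2 * Kb * M0 := by positivity
  set KG := B / cG with hKG
  have hKGp : 0 < KG := by
    rw [hKG]; apply div_pos _ hcG; rw [hB]; positivity
  have hKGc : KG * cG = B := by rw [hKG]; field_simp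
  obtain ⟨M, hM⟩ := exists_nat_ge (1 + 8 * CG / cG + 192 * KG * CG * exp (5 * s1 / 2) / (Kb * c1)
    + 2048 * KG * CG / δ)
  have f1 : 0 < 8 * CG / cG := by positivity
  have f2 : 0 < 192 * KG * CG * exp (5 * s1 / 2) / (Kb * c1) := by positivity
  have f3 : 0 < 2048 * KG * CG / δ := by positivity
  refine ⟨M0, KG, M, hM0, hM0', hKGp, ?_, ?_, ?_, ?_, ?_, ?_, ?_, ?_, ?_⟩
  · rw [hKGc, hB]; linarith
  · rw [hKGc, hB]; linarith
  · rw [hKGc, hB]; linarith
  · rw [hKGc, hB]; linarith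
  · rw [hKGc, hB]; linarith
  · have : (1 : ℝ) ≤ M := by linarith
    exact_mod_cast this
  · have : 8 * CG / cG ≤ M := by linarith
    rwa [div_le_iff₀ hcG] at this
  · have : 192 * KG * CG * exp (5 * s1 / 2) / (Kb * c1) ≤ M := by linarith
    rw [div_le_iff₀ (by positivity)] at this
    linarith
  · have : 2048 * KG * CG / δ ≤ M := by linarith
    rwa [div_le_iff₀ hδ] at this

/-- values of the elementary integrals -/
lemma P3_lower {t Λ : ℝ} (ht : 0 < t) (h : 1 ≤ (Λ - 1) * t) :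
    exp (-(3 * t)) / (6 * t) ≤ (exp (-(3 * t)) - exp (-(3 * Λ * t))) / (3 * t) := by
  have h1 : exp (-(3 * Λ * t)) = exp (-(3 * t)) * exp (-(3 * ((Λ - 1) * t))) := by
    rw [← exp_add]; congr 1; ring
  have h2 : exp (-(3 * ((Λ - 1) * t))) ≤ 1 / 2 := by
    have h3 := add_one_le_exp (3 * ((Λ - 1) * t))
    have h4 : exp (3 * ((Λ - 1) * t)) * exp (-(3 * ((Λ - 1) * t))) = 1 := by
      rw [← exp_add]; simp
    have h5 := exp_pos (-(3 * ((Λ - 1) * t)))
    nlinarith
  rw [div_le_div_iff₀ (by positivity) (by positivity), h1]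
  have h6 := exp_pos (-(3 * t))
  have h7 : 0 < exp (-(3 * t)) * t := by positivity
  nlinarith [mul_le_mul_of_nonneg_left h2 h7.le]

/-- the coefficient of `|w_i|^4` -/
lemma coefW {δ C c1 cG CG s0 Kb s1 th κ0 C1 C2 M0 KG : ℝ} {M : ℕ}
    (p1 : Par1 δ C c1 s0 Kb s1 th) (p2 : Par2 δ C c1 cG CG Kb s1 th κ0 C1 C2 M0 KG M)
    (hδ : 0 < δ) (hC : 0 < C) (hc1 : 0 < c1) (hCG : 0 < CG) (hκ0 : 0 < κ0)
    {r Λ ts t a P1 P3 S : ℝ} (hr : 0 < r) (hr1 : r ≤ 1) (hΛ : Λ = M0 / r) (hts : ts = κ0 / Λ)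
    (ht : ts < t) (ha : 1 / 16 * exp (-(t / 2)) ≤ a)
    (hP1 : P1 ≤ Λ) (hP1' : P1 ≤ exp (-t) / t) (hP3 : 0 ≤ P3)
    (hP3' : 1 ≤ (Λ - 1) * t → exp (-(3 * t)) / (6 * t) ≤ P3)
    (hS : S ≤ 2 / r) (hS' : S ≤ 8 / t * exp (-(t / 2))) :
    δ / 8 * a ≤ δ / 2 * a + Kb * c1 * P3 + (if t < r then KG * cG / r else 0)
      - C * ((1 + t) * exp (-t)) - 11 * (Kb * th * P1) - Kb * (exp (-(Λ * t)) / t)
      - KG / M * CG * S := by
  have hM0p : 0 < M0 := by have := p2.hM0; linarith
  have hΛp : 0 < Λ := by rw [hΛ]; positivity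
  have hΛ6 : M0 ≤ Λ := by
    rw [hΛ, le_div_iff₀ hr]; exact mul_le_of_le_one_right hM0p.le hr1
  have htsp : 0 < ts := by rw [hts]; positivity
  have ht0 : 0 < t := lt_trans htsp ht
  have hMp : (0 : ℝ) < M := by
    have := p2.hM
    exact_mod_cast this
  have hKG := p2.hKG
  have hKb := p1.hKb
  have hth := p1.hth
  have ha0 : 0 < a := lt_of_lt_of_le (by positivity) ha
  have hKM : 0 < KG / M * CG := by positivity
  by_cases hc : t < r
  · rw [if_pos hc]
    have b1 : C * ((1 + t) * exp (-t)) ≤ KG * cG / (4 * r) := by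
      have h1 := one_add_mul_exp_le_one t
      have h2 : C * ((1 + t) * exp (-t)) ≤ C := mul_le_of_le_one_right hC.le h1
      refine le_trans h2 ?_
      rw [le_div_iff₀ (by positivity)]
      have := p2.h1
      calc C * (4 * r) = 4 * C * r := by ring
        _ ≤ 4 * C * 1 := mul_le_mul_of_nonneg_left hr1 (by positivity)
        _ ≤ KG * cG := by rw [mul_one]; exact this
    have b2 : 11 * (Kb * th * P1) ≤ KG * cG / (4 * r) := by
      have h1 : 11 * (Kb * th * P1) ≤ 11 * (Kb * th * (M0 / r)) := by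
        rw [← hΛ]; gcongr
      refine le_trans h1 ?_
      have h2 : 11 * (Kb * th * (M0 / r)) = (44 * Kb * th * M0) / (4 * r) := by
        field_simp; ring
      rw [h2]
      exact div_le_div_of_nonneg_right p2.h2 (by positivity)
    have b3 : Kb * (exp (-(Λ * t)) / t) ≤ KG * cG / (4 * r) := by
      have h1 : exp (-(Λ * t)) / t ≤ 1 / ts := by
        apply div_le_div₀ zero_le_one _ htsp ht.le
        rw [exp_le_one_iff]; exact neg_nonpos.mpr (mul_pos hΛp ht0).le
      have h2 : Kb * (1 / ts) = (4 * Kb * M0 / κ0) / (4 * r) := by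
        rw [hts, hΛ]; field_simp
      calc Kb * (exp (-(Λ * t)) / t) ≤ Kb * (1 / ts) := mul_le_mul_of_nonneg_left h1 hKb.le
        _ = (4 * Kb * M0 / κ0) / (4 * r) := h2
        _ ≤ _ := div_le_div_of_nonneg_right p2.h3 (by positivity)
    have b4 : KG / M * CG * S ≤ KG * cG / (4 * r) := by
      have h1 : KG / M * CG * S ≤ KG / M * CG * (2 / r) := mul_le_mul_of_nonneg_left hS hKM.le
      refine le_trans h1 ?_
      rw [div_mul_eq_mul_div, div_mul_div_comm, div_le_div_iff₀ (by positivity) (by positivity)]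
      have := p2.h6
      have h3 : 0 ≤ KG * r := by positivity
      calc KG * CG * 2 * (4 * r) = KG * r * (8 * CG) := by ring
        _ ≤ KG * r * (M * cG) := mul_le_mul_of_nonneg_left this h3
        _ = KG * cG * (M * r) := by ring
    have b5 : KG * cG / r = 4 * (KG * cG / (4 * r)) := by field_simp
    rw [b5]
    have b6 : 0 ≤ Kb * c1 * P3 := by positivity
    have b7 : 0 < δ * a := by positivity
    linarith
  · rw [if_neg hc]
    push Not at hc
    have hΛt : M0 ≤ Λ * t := by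
      rw [hΛ, div_mul_eq_mul_div, le_div_iff₀ hr]
      exact mul_le_mul_of_nonneg_left hc hM0p.le
    have hP1a : 11 * (Kb * th * P1) ≤ 11 * (Kb * th * (exp (-t) / t)) := by gcongr
    have hS1 : KG / M * CG * S ≤ KG / M * CG * (8 / t * exp (-(t / 2))) :=
      mul_le_mul_of_nonneg_left hS' hKM.le
    by_cases hs : t ≤ s1
    · -- middle range
      have hP3a : exp (-(3 * t)) / (6 * t) ≤ P3 := by
        apply hP3'
        have := p2.hM0
        have h6t : 6 * t ≤ Λ * t := mul_le_mul_of_nonneg_right (by linarith) ht0.le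
        have h7t : (Λ - 1) * t = Λ * t - t := by ring
        rw [h7t]
        linarith
      set Q := exp (-(3 * t)) / (6 * t) with hQ
      have hQp : 0 < Q := by positivity
      have b1 : C * ((1 + t) * exp (-t)) ≤ Kb * c1 / 4 * Q + δ / 4 * a := by
        rcases le_total t s0 with h | h
        · have := p1.hB t ht0 h
          have h2 : 0 < δ / 4 * a := by positivity
          rw [← mul_assoc]; linarith
        · have := p1.hA t h
          have h2 : 0 < Kb * c1 / 4 * Q := by positivity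
          have h3 : δ / 64 * exp (-(t / 2)) ≤ δ / 4 * a := by
            have := mul_le_mul_of_nonneg_left ha (by positivity : (0 : ℝ) ≤ δ / 4)
            linarith
          rw [← mul_assoc]; linarith
      have b2 : 11 * (Kb * th * (exp (-t) / t)) ≤ Kb * c1 / 4 * Q := by
        have h1 : exp (-(3 * t)) = exp (-(2 * t)) * exp (-t) := by
          rw [← exp_add]; congr 1; ring
        have h2 : exp (-(2 * s1)) ≤ exp (-(2 * t)) := by
          apply exp_le_exp.mpr; linarith
        have h3 : 264 * th ≤ c1 * exp (-(2 * t)) :=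
          le_trans p1.hD (mul_le_mul_of_nonneg_left h2 hc1.le)
        have h4 : 11 * (Kb * th * (exp (-t) / t)) = Kb * (exp (-t) / (24 * t)) * (264 * th) := by
          field_simp; ring
        have h5 : Kb * c1 / 4 * Q = Kb * (exp (-t) / (24 * t)) * (c1 * exp (-(2 * t))) := by
          rw [hQ, h1]; field_simp; ring
        rw [h4, h5]
        exact mul_le_mul_of_nonneg_left h3 (by positivity)
      have b3 : Kb * (exp (-(Λ * t)) / t) ≤ Kb * c1 / 4 * Q := by
        have h1 : exp (-(Λ * t)) = exp (-(3 * t)) * exp (-((Λ - 3) * t)) := by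
          rw [← exp_add]; congr 1; ring
        have h2 : exp (-((Λ - 3) * t)) ≤ exp (-(M0 / 2)) := by
          apply exp_le_exp.mpr
          have := p2.hM0
          have h6t : 6 * t ≤ Λ * t := mul_le_mul_of_nonneg_right (by linarith) ht0.le
          have h7t : (Λ - 3) * t = Λ * t - 3 * t := by ring
          rw [h7t]
          linarith
        have h3 : 24 * exp (-((Λ - 3) * t)) ≤ c1 := by
          have := p2.hM0'
          linarith
        have h4 : Kb * (exp (-(Λ * t)) / t) =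
            Kb * (exp (-(3 * t)) / (24 * t)) * (24 * exp (-((Λ - 3) * t))) := by
          rw [h1]; field_simp
        have h5 : Kb * c1 / 4 * Q = Kb * (exp (-(3 * t)) / (24 * t)) * c1 := by
          rw [hQ]; field_simp; ring
        rw [h4, h5]
        exact mul_le_mul_of_nonneg_left h3 (by positivity)
      have b4 : KG / M * CG * (8 / t * exp (-(t / 2))) ≤ Kb * c1 / 4 * Q := by
        have h1 : exp (-(t / 2)) = exp (-(3 * t)) * exp (5 * t / 2) := by
          rw [← exp_add]; congr 1; ring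
        have h2 : exp (5 * t / 2) ≤ exp (5 * s1 / 2) := by
          apply exp_le_exp.mpr; linarith
        have h3 : 192 * KG * CG * exp (5 * t / 2) ≤ M * Kb * c1 := by
          refine le_trans ?_ p2.h7
          gcongr
        have h4 : KG / M * CG * (8 / t * exp (-(t / 2))) =
            (exp (-(3 * t)) / (24 * t)) / M * (192 * KG * CG * exp (5 * t / 2)) := by
          rw [h1]; field_simp; ring
        have h5 : Kb * c1 / 4 * Q = (exp (-(3 * t)) / (24 * t)) / M * (M * Kb * c1) := by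
          rw [hQ]; field_simp; ring
        rw [h4, h5]
        exact mul_le_mul_of_nonneg_left h3 (by positivity)
      have b5 : Kb * c1 * Q ≤ Kb * c1 * P3 := mul_le_mul_of_nonneg_left hP3a (by positivity)
      have b7 : 0 < δ * a := by positivity
      linarith
    · -- far range
      push Not at hs
      have ht1 : 1 ≤ t := le_trans p1.hs1 hs.le
      have b0 := exp_pos (-t)
      have b1 : C * ((1 + t) * exp (-t)) ≤ δ / 64 * exp (-(t / 2)) := by
        have := p1.hA t (le_trans p1.hs01 hs.le)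
        rw [← mul_assoc]; exact this
      have c0 : exp (-t) / t ≤ exp (-t) := div_le_self b0.le ht1
      have b2 : 11 * (Kb * th * (exp (-t) / t)) ≤ 11 * (Kb * exp (-t)) := by
        have h1 : Kb * th * (exp (-t) / t) ≤ Kb * 1 * exp (-t) := by
          gcongr
          exact p1.hth1
        linarith
      have b3 : Kb * (exp (-(Λ * t)) / t) ≤ Kb * exp (-t) := by
        have h1 : exp (-(Λ * t)) ≤ exp (-t) := by
          apply exp_le_exp.mpr
          have := p2.hM0
          have h6t : 1 * t ≤ Λ * t := mul_le_mul_of_nonneg_right (by linarith) ht0.le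
          linarith
        have h2 : exp (-(Λ * t)) / t ≤ exp (-t) := by
          refine le_trans (div_le_self (exp_pos _).le ht1) h1
        exact mul_le_mul_of_nonneg_left h2 hKb.le
      have b4 := p1.hC t hs.le
      have b5 : KG / M * CG * (8 / t * exp (-(t / 2))) ≤ δ / 256 * exp (-(t / 2)) := by
        rw [← mul_assoc]
        apply mul_le_mul_of_nonneg_right _ (exp_pos _).le
        have h1 : 8 / t ≤ 8 := div_le_self (by norm_num) ht1
        have h2 : KG / M * CG * (8 / t) ≤ KG / M * CG * 8 := mul_le_mul_of_nonneg_left h1 hKM.le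
        refine le_trans h2 ?_
        rw [div_mul_eq_mul_div, div_mul_eq_mul_div, div_le_div_iff₀ hMp (by norm_num)]
        have := p2.h8
        linarith
      have b6 : 0 ≤ Kb * c1 * P3 := by positivity
      have b7 := mul_le_mul_of_nonneg_left ha hδ.le
      linarith

end Pool.Agent.MP_7c31d9_gt.CoreAux
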