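import Pool.Agent.MP_7c31d9_gt.CoreReal
import Pool.Agent.MP_7c31d9_gt.CoreG

/-! Assembly of `core`: the lower bound for the biharmonic term and the upper bound for the
metric. -/

namespace Pool.Agent.MP_7c31d9_gt.CoreAux

open Complex MeasureTheory Finset

/-- the statement of `pieceA` for given constants -/
def PieceAOK (n : ℕ) (δ C L : ℝ) (K : ℝ → ℝ) : Prop :=
    ContinuousOn K (Set.Icc 0 1) ∧ (∀ x ∈ Set.Icc (0 : ℝ) 1, 0 < K x ∧ x ^ 4 * K x ≤ 1) ∧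
    (∀ s : ℝ, 0 ≤ s → (1 / 16) * Real.exp (-(s / 2)) ≤
      ∫ x in (0 : ℝ)..1, K x * x ^ 4 * Real.exp (-(x * s))) ∧
    (∀ s : ℝ, 0 ≤ s → L * Real.exp (-(s / 2)) ≤
      ∫ x in (0 : ℝ)..1, K x * x ^ 2 * Real.exp (-(x * s))) ∧
    ∀ (J : Type) [Fintype J] (t : J → ℝ) (w u : J → ℂ) (m : ℝ), (∀ i, 0 < t i) →
      Fintype.card J ≤ n → m + Fintype.card J = 2 * n + 1 →
      (∑ i, (δ * ∫ x in (0 : ℝ)..1, K x * Real.exp (-(x * t i)) *
          (x ^ 4 * ‖w i‖ ^ 4 + x ^ 2 * ‖u i‖ ^ 2)))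
        - C * ∑ i, (1 + t i) * Real.exp (-(t i)) * (‖w i‖ ^ 4 + ‖u i‖ ^ 2)
      ≤ ∫ x in (0 : ℝ)..1, K x * DJ m t w u x

/-- the statement of `pieceB` -/
def PieceBOK (n : ℕ) : Prop :=
    ∀ (J : Type) [Fintype J] (t : J → ℝ) (w u : J → ℂ) (m : ℝ) (_ : ∀ i, 0 < t i)
    (_ : Fintype.card J ≤ n) (_ : m + Fintype.card J = 2 * n + 1)
    (θ : ℝ) (_ : 0 < θ) (_ : θ ≤ 1) (Λ : ℝ) (_ : 1 ≤ Λ),
    (∑ i, ‖w i‖ ^ 4 * ((1 / (8 * (2 * n + 1) ^ 4)) * (∫ x in (1 : ℝ)..Λ, Real.exp (-(3 * x * t i)))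
        - 10 * θ * (∫ x in (1 : ℝ)..Λ, Real.exp (-(x * t i))) - Real.exp (-(Λ * t i)) / t i))
      - (1 / θ) * ∑ i, ‖u i‖ ^ 2 * (∫ x in (1 : ℝ)..Λ, Real.exp (-(x * t i)) / x ^ 2)
    ≤ ∫ x in (1 : ℝ)..Λ, T0 (qw m t x) w (fun i => u i / (x : ℂ))

lemma sum_split {ι : Type} [Fintype ι] [DecidableEq ι] (T : Finset ι) (f : ι → ℝ) :
    ∑ i, f i = ∑ i ∈ T, f i + ∑ i : {i // i ∉ T}, f i := by
  rw [← sum_add_sum_compl T f]
  congr 1
  exact sum_subtype Tᶜ (fun x => by simp) f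

/-- values of the integrals of exponentials -/
lemma integral_exp_neg {s Λ : ℝ} (hs : 0 < s) :
    ∫ x in (1 : ℝ)..Λ, Real.exp (-(x * s)) = (Real.exp (-s) - Real.exp (-(Λ * s))) / s := by
  have hd : ∀ x ∈ Set.uIcc (1 : ℝ) Λ,
      HasDerivAt (fun x : ℝ => -(Real.exp (-(x * s)) / s)) (Real.exp (-(x * s))) x := by
    intro x _
    have h1 : HasDerivAt (fun x : ℝ => -(x * s)) (-s) x := by
      simpa using ((hasDerivAt_id x).mul_const s).fun_neg
    have h2 := (h1.exp.div_const s).fun_neg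
    have h3 : -(Real.exp (-(x * s)) * -s / s) = Real.exp (-(x * s)) := by
      rw [mul_neg, neg_div, neg_neg, mul_div_assoc, div_self hs.ne', mul_one]
    rw [h3] at h2
    exact h2
  rw [intervalIntegral.integral_eq_sub_of_hasDerivAt hd
    (Continuous.intervalIntegrable (by fun_prop) _ _)]
  simp
  ring

lemma P1_le {s Λ : ℝ} (hs : 0 < s) :
    ∫ x in (1 : ℝ)..Λ, Real.exp (-(x * s)) ≤ Real.exp (-s) / s := by
  rw [integral_exp_neg hs]
  have := Real.exp_pos (-(Λ * s))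
  exact div_le_div_of_nonneg_right (by linarith) hs.le

lemma P1_le' {s Λ : ℝ} (hs : 0 ≤ s) (hΛ : 1 ≤ Λ) :
    ∫ x in (1 : ℝ)..Λ, Real.exp (-(x * s)) ≤ Λ := by
  have h1 : ∫ x in (1 : ℝ)..Λ, Real.exp (-(x * s)) ≤ ∫ _x in (1 : ℝ)..Λ, (1 : ℝ) := by
    apply intervalIntegral.integral_mono_on hΛ
      (Continuous.intervalIntegrable (by fun_prop) _ _) (by simp)
    intro x hx
    rw [Real.exp_le_one_iff]
    have : 0 ≤ x * s := mul_nonneg (by linarith [hx.1]) hs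
    linarith
  simp at h1
  linarith

lemma P1_nonneg {s Λ : ℝ} (hΛ : 1 ≤ Λ) :
    0 ≤ ∫ x in (1 : ℝ)..Λ, Real.exp (-(x * s)) :=
  intervalIntegral.integral_nonneg hΛ fun _ _ => (Real.exp_pos _).le

lemma P3_nonneg {s Λ : ℝ} (hΛ : 1 ≤ Λ) :
    0 ≤ ∫ x in (1 : ℝ)..Λ, Real.exp (-(3 * x * s)) :=
  intervalIntegral.integral_nonneg hΛ fun _ _ => (Real.exp_pos _).le

lemma P3_ge {s Λ : ℝ} (hs : 0 < s) (h : 1 ≤ (Λ - 1) * s) :
    Real.exp (-(3 * s)) / (6 * s) ≤ ∫ x in (1 : ℝ)..Λ, Real.exp (-(3 * x * s)) := by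
  have h1 : ∀ x : ℝ, Real.exp (-(3 * x * s)) = Real.exp (-(x * (3 * s))) := by
    intro x; congr 1; ring
  simp only [h1]
  rw [integral_exp_neg (by positivity : 0 < 3 * s)]
  refine le_trans (P3_lower hs h) (le_of_eq ?_)
  congr 3
  ring

lemma Pinv_le {s Λ : ℝ} (hs : 0 ≤ s) (hΛ : 1 ≤ Λ) :
    ∫ x in (1 : ℝ)..Λ, Real.exp (-(x * s)) / x ^ 2 ≤ Real.exp (-s) := by
  have hne : ∀ x ∈ Set.uIcc (1 : ℝ) Λ, x ≠ 0 := by
    intro x hx
    rw [Set.uIcc_of_le hΛ] at hx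
    have := hx.1
    linarith
  have iinv : IntervalIntegrable (fun x : ℝ => 1 / x ^ 2) volume 1 Λ := by
    apply ContinuousOn.intervalIntegrable
    apply ContinuousOn.div continuousOn_const (by fun_prop)
    intro x hx
    exact pow_ne_zero _ (hne x hx)
  have i1 : IntervalIntegrable (fun x : ℝ => Real.exp (-(x * s)) / x ^ 2) volume 1 Λ := by
    apply ContinuousOn.intervalIntegrable
    apply ContinuousOn.div (by fun_prop) (by fun_prop)
    intro x hx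
    exact pow_ne_zero _ (hne x hx)
  have hinv : ∫ x in (1 : ℝ)..Λ, 1 / x ^ 2 ≤ 1 := by
    have hd : ∀ x ∈ Set.uIcc (1 : ℝ) Λ, HasDerivAt (fun x : ℝ => -(1 / x)) (1 / x ^ 2) x := by
      intro x hx
      have hx0 := hne x hx
      have := (hasDerivAt_inv hx0).fun_neg
      simpa [one_div] using this
    rw [intervalIntegral.integral_eq_sub_of_hasDerivAt hd iinv]
    have : 0 < 1 / Λ := by positivity
    linarith
  have h1 : ∫ x in (1 : ℝ)..Λ, Real.exp (-(x * s)) / x ^ 2 ≤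
      ∫ x in (1 : ℝ)..Λ, Real.exp (-s) * (1 / x ^ 2) := by
    apply intervalIntegral.integral_mono_on hΛ i1 (iinv.const_mul _)
    intro x hx
    have h2 : Real.exp (-(x * s)) ≤ Real.exp (-s) := by
      apply Real.exp_le_exp.mpr
      nlinarith [mul_nonneg (sub_nonneg.mpr hx.1) hs]
    rw [div_eq_mul_one_div]
    exact mul_le_mul_of_nonneg_right h2 (by positivity)
  rw [intervalIntegral.integral_const_mul] at h1
  have := mul_le_mul_of_nonneg_left hinv (Real.exp_pos (-s)).le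
  linarith

lemma sum_comb {J : Type} [Fintype J] (L f1 f2 f3 f4 f5 f6 f7 : J → ℝ)
    (c1 c2 c3 c4 c5 c6 c7 c8 : ℝ)
    (h : ∀ i, L i ≤ c1 * f1 i - c2 * f2 i - c3 * f1 i + c4 * f3 i - c5 * f4 i - c6 * f5 i
      + c7 * f6 i - c8 * f7 i) :
    ∑ i, L i ≤ c1 * ∑ i, f1 i - c2 * ∑ i, f2 i - c3 * ∑ i, f1 i + c4 * ∑ i, f3 i
      - c5 * ∑ i, f4 i - c6 * ∑ i, f5 i + c7 * ∑ i, f6 i - c8 * ∑ i, f7 i := by
  have := sum_le_sum (s := univ) (fun i (_ : i ∈ univ) => h i)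
  simpa only [sum_sub_distrib, sum_add_distrib, ← mul_sum] using this

/-- the termwise inequality -/
lemma term_ineq {M : ℕ} {CG δ C c1 cG s0 Kb s1 th κ0 C1 C2 M0 KG L r Λ ts : ℝ}
    (hδ : 0 < δ) (hC : 0 < C) (hCG : 0 < CG) (hc1 : 0 < c1)
    (p1 : Par1 δ C c1 s0 Kb s1 th) (p2 : Par2 δ C c1 cG CG Kb s1 th κ0 C1 C2 M0 KG M)
    (hκ0 : 0 < κ0) (hrp : 0 < r) (hr1 : r ≤ 1) (hr : r = 1 / 2 ^ M) (hΛ : Λ = M0 / r)
    (hΛ1 : 1 ≤ Λ) (hts : ts = κ0 / Λ)
    (hL1 : 4 * (2 * C + 2 * (Kb / th) + KG / M * CG) ≤ δ * L)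
    {t a b x z : ℝ} (htp : 0 < t) (ht : ts < t) (ha : 1 / 16 * Real.exp (-(t / 2)) ≤ a)
    (hb : L * Real.exp (-(t / 2)) ≤ b) (hx : 0 ≤ x) (hz : 0 ≤ z) :
    δ / 8 * a * x + δ / 4 * L * Real.exp (-(t / 2)) * z ≤
      δ * (a * x + b * z) - C * ((1 + t) * Real.exp (-t) * (x + z))
      - δ / 2 * (a * x + b * z)
      + Kb * (x * (c1 * (∫ x in (1 : ℝ)..Λ, Real.exp (-(3 * x * t)))
          - 10 * th * (∫ x in (1 : ℝ)..Λ, Real.exp (-(x * t))) - Real.exp (-(Λ * t)) / t))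
      - Kb * (1 / th) * (z * (∫ x in (1 : ℝ)..Λ, Real.exp (-(x * t)) / x ^ 2))
      - Kb * th * ((∫ x in (1 : ℝ)..Λ, Real.exp (-(x * t))) * x + Real.exp (-t) * z)
      + KG * cG / r * (if t < r then x else 0)
      - KG / M * CG * ((∑ m : Fin M, (2 : ℝ) ^ (m.val + 1) *
          Real.exp (-(2 ^ (m.val + 1) * t / 2))) * x + Real.exp (-t) * z) := by
  have hMp : (0 : ℝ) < M := by exact_mod_cast p2.hM
  have hKG := p2.hKG
  have hKbp := p1.hKb
  have hth := p1.hth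
  have hth1 := p1.hth1
  have hP1a := P1_le' (Λ := Λ) htp.le hΛ1
  have hP1b := P1_le (Λ := Λ) htp
  have hP3a := P3_nonneg (s := t) hΛ1
  have hP3b : 1 ≤ (Λ - 1) * t → Real.exp (-(3 * t)) / (6 * t) ≤
      ∫ x in (1 : ℝ)..Λ, Real.exp (-(3 * x * t)) := fun h => P3_ge htp h
  have hPi := Pinv_le (s := t) htp.le hΛ1
  have hS1 : (∑ m : Fin M, (2 : ℝ) ^ (m.val + 1) *
          Real.exp (-(2 ^ (m.val + 1) * t / 2))) ≤ 2 / r := by
    refine le_trans (sum_lam_le M t htp.le) (le_of_eq ?_)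
    rw [hr]; field_simp
  have hS2 := sum_lam_le' M t htp
  generalize (∑ m : Fin M, (2 : ℝ) ^ (m.val + 1) *
          Real.exp (-(2 ^ (m.val + 1) * t / 2))) = S at *
  generalize (∫ x in (1 : ℝ)..Λ, Real.exp (-(3 * x * t))) = P3 at *
  generalize (∫ x in (1 : ℝ)..Λ, Real.exp (-(x * t))) = P1 at *
  generalize (∫ x in (1 : ℝ)..Λ, Real.exp (-(x * t)) / x ^ 2) = Pi at *
  have cW := coefW p1 p2 hδ hC hc1 hCG hκ0 hrp hr1 hΛ hts ht ha hP1a hP1b hP3a hP3b hS1 hS2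
  have cW2 := mul_le_mul_of_nonneg_right cW hx
  have e0 := Real.exp_pos (-(t / 2))
  have e1 : Real.exp (-t) = Real.exp (-(t / 2)) * Real.exp (-(t / 2)) := by
    rw [← Real.exp_add]; congr 1; ring
  have e2 : Real.exp (-(t / 2)) ≤ 1 := by rw [Real.exp_le_one_iff]; linarith
  have e3 : Real.exp (-t) ≤ Real.exp (-(t / 2)) := by rw [e1]; exact mul_le_of_le_one_right e0.le e2
  have e4 : (1 + t) * Real.exp (-t) ≤ 2 * Real.exp (-(t / 2)) := by
    rw [e1, ← mul_assoc]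
    exact mul_le_mul_of_nonneg_right (one_add_mul_exp_half_le_two t) e0.le
  have hKth : 0 < Kb / th := by positivity
  have cU : δ / 4 * L * Real.exp (-(t / 2)) ≤ δ / 2 * b
      - C * ((1 + t) * Real.exp (-t))
      - Kb * (1 / th) * Pi
      - Kb * th * Real.exp (-t) - KG / M * CG * Real.exp (-t) := by
    have f1 : δ / 2 * (L * Real.exp (-(t / 2))) ≤ δ / 2 * b :=
      mul_le_mul_of_nonneg_left hb (by positivity)
    have f2 : C * ((1 + t) * Real.exp (-t)) ≤ 2 * C * Real.exp (-(t / 2)) := by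
      have := mul_le_mul_of_nonneg_left e4 hC.le
      linarith
    have f3 : Kb * (1 / th) * Pi ≤ Kb / th * Real.exp (-(t / 2)) := by
      have := mul_le_mul_of_nonneg_left (le_trans hPi e3) hKth.le
      refine le_trans (le_of_eq ?_) this
      ring
    have f4 : Kb * th * Real.exp (-t) ≤ Kb / th * Real.exp (-(t / 2)) := by
      have g1 : Kb * th ≤ Kb / th := by
        rw [le_div_iff₀ hth]
        have : th * th ≤ 1 := mul_le_one₀ hth1 hth.le hth1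
        calc Kb * th * th = Kb * (th * th) := by ring
          _ ≤ Kb * 1 := mul_le_mul_of_nonneg_left this hKbp.le
          _ = Kb := mul_one _
      exact mul_le_mul g1 e3 (Real.exp_pos _).le hKth.le
    have f5 : KG / M * CG * Real.exp (-t) ≤ KG / M * CG * Real.exp (-(t / 2)) :=
      mul_le_mul_of_nonneg_left e3 (by positivity)
    have f6 := mul_le_mul_of_nonneg_right hL1 e0.le
    linarith
  have cU2 := mul_le_mul_of_nonneg_right cU hz
  by_cases hc : t < r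
  · rw [if_pos hc] at cW2 ⊢
    linarith
  · rw [if_neg hc] at cW2 ⊢
    linarith

section main

variable {ι : Type} [Fintype ι] [DecidableEq ι]

/-- the lower bound for the bilaplacian -/
lemma lower {n N M : ℕ} {CG δ C c1 cG s0 Kb s1 th κ0 κ1 κ2 C1 C2 M0 KG L r Λ ts : ℝ}
    (hN : N = 2 * n + 1)
    (hδ : 0 < δ) (hC : 0 < C) (hCG : 0 < CG) (hc1 : c1 = 1 / (8 * (2 * n + 1) ^ 4))
    (hcG : cG = 1 / (6 * (N : ℝ) ^ 2))
    (p1 : Par1 δ C c1 s0 Kb s1 th) (p2 : Par2 δ C c1 cG CG Kb s1 th κ0 C1 C2 M0 KG M)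
    (hκ0 : 0 < κ0) (hκ01 : κ0 ≤ κ1) (hκ02 : κ0 ≤ κ2) (hκ1 : κ0 ≤ 1) (hC1 : 0 < C1) (hC2 : 0 < C2)
    (hP1 : PertOK N (δ / 2) κ1 C1) (hP2 : PertOK N th κ2 C2)
    (hr : r = 1 / 2 ^ M) (hΛ : Λ = M0 / r) (hts : ts = κ0 / Λ)
    (hL1 : 4 * (2 * C + 2 * (Kb / th) + KG / M * CG) ≤ δ * L)
    (hL2 : 8 * N * (KG / M * CG) ≤ L)
    {K : ℝ → ℝ} (hA : PieceAOK n δ C L K) (hB : PieceBOK n)
    (y : ι → ℝ) (Y : ℝ) (hY : ∀ i, y i ≤ Y) (i0 : ι) (hi0 : y i0 = Y)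
    (hcard : Fintype.card ι = N) (T : Finset ι) (hT : ∀ i, i ∈ T ↔ Y - y i ≤ ts)
    (hTc : n + 1 ≤ T.card) (w u : ι → ℂ) (W U : ℂ) (hW : T.card * W = ∑ i ∈ T, w i)
    (hU : T.card * U = ∑ i ∈ T, u i) (G2 : Fin M → ℝ)
    (hG2 : ∀ m, (∑ i, ∑ j, 9 * r ^ 4 / ((y i - y j) ^ 2 + r ^ 2) ^ (5 / 2 : ℝ) *
              ‖w i - w j‖ ^ 4 * (gib y (2 ^ (m.val + 1)) i * gib y (2 ^ (m.val + 1)) j))
            - CG * (2 : ℝ) ^ (m.val + 1) * ∑ i, Real.sqrt (gib y (2 ^ (m.val + 1)) i) *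
              (‖w i - W‖ ^ 4 + ‖u i - U‖ ^ 2 / ((2 : ℝ) ^ (m.val + 1)) ^ 2) ≤ G2 m) :
    (∑ i : {i // i ∉ T}, (δ / 8 * (∫ x in (0 : ℝ)..1, K x * x ^ 4 * Real.exp (-(x * (Y - y i)))) *
        ‖w i - W‖ ^ 4 + δ / 4 * L * Real.exp (-((Y - y i) / 2)) * ‖u i - U‖ ^ 2))
      + KG * cG / (4 * r) * (∑ i ∈ T, ‖w i - W‖ ^ 4) + L / (8 * N) * (∑ i ∈ T, ‖u i - U‖ ^ 2)
    ≤ (∫ x in (0 : ℝ)..1, K x * DF (gib y x) w u x)
      + Kb * (∫ x in (1 : ℝ)..Λ, DF (gib y x) w u x / x ^ 4) + KG / M * ∑ m, G2 m := by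
  obtain ⟨hKc, hK0, hKa, hKb', hKJ⟩ := hA
  have hNr : (N : ℝ) = 2 * n + 1 := by rw [hN]; push_cast; ring
  have hNp : (0 : ℝ) < N := by rw [hNr]; positivity
  have hMp : (0 : ℝ) < M := by exact_mod_cast p2.hM
  have hM0 := p2.hM0
  have hKG := p2.hKG
  have hKbp := p1.hKb
  have hth := p1.hth
  have hth1 := p1.hth1
  have hrp : 0 < r := by rw [hr]; positivity
  have hr1 : r ≤ 1 := by
    rw [hr, div_le_one (by positivity)]
    exact one_le_pow₀ (by norm_num)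
  have hM0p : 0 < M0 := by linarith
  have hΛM : M0 ≤ Λ := by
    rw [hΛ, le_div_iff₀ hrp]; exact mul_le_of_le_one_right hM0p.le hr1
  have hΛ1 : 1 ≤ Λ := by linarith
  have hΛp : 0 < Λ := by linarith
  have htsp : 0 < ts := by rw [hts]; positivity
  have htsΛ : Λ * ts = κ0 := by rw [hts]; field_simp
  have htsr : ts < r := by
    rw [hts, hΛ, div_div_eq_mul_div, div_lt_iff₀ hM0p]
    calc κ0 * r ≤ 1 * r := mul_le_mul_of_nonneg_right hκ1 hrp.le
      _ = r * 1 := by ring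
      _ < r * M0 := mul_lt_mul_of_pos_left (by linarith) hrp
  have hc1p : 0 < c1 := by rw [hc1]; positivity
  have hcGp : 0 < cG := by rw [hcG]; positivity
  have hTne : T.Nonempty := by
    rw [← card_pos]; omega
  have hJcard : Fintype.card {i // i ∉ T} = N - T.card := by
    rw [Fintype.card_subtype_compl, hcard]; simp
  have hTle : T.card ≤ N := by rw [← hcard]; exact card_le_univ T
  have hJn : Fintype.card {i // i ∉ T} ≤ n := by rw [hJcard]; omega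
  have hmJ : (T.card : ℝ) + Fintype.card {i // i ∉ T} = 2 * n + 1 := by
    rw [hJcard, Nat.cast_sub hTle, hNr]; ring
  have htT : ∀ i ∈ T, Y - y i ≤ ts := fun i hi => (hT i).mp hi
  have htJ : ∀ i : {i // i ∉ T}, ts < Y - y i := fun i => by
    have := (hT i).not.mp i.2
    linarith
  have htJp : ∀ i : {i // i ∉ T}, 0 < Y - y i := fun i => lt_trans htsp (htJ i)
  have hκexp : ∀ x : ℝ, 0 ≤ x → x ≤ Λ → ∀ i ∈ T, 1 - κ0 ≤ Real.exp (-(x * (Y - y i))) := by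
    intro x hx0 hx i hi
    have h1 := Real.add_one_le_exp (-(x * (Y - y i)))
    have h2 : x * (Y - y i) ≤ Λ * ts := by
      apply mul_le_mul hx (htT i hi) (sub_nonneg.mpr (hY i)) hΛp.le
    linarith
  -- the three parts
  have eA := partA hP1 hcard T hTne y Y hY w u W U hW hU
    (fun x hx0 hx i hi => by
      have := hκexp x hx0 (by linarith) i hi
      linarith) K hKc (fun x hx => (hK0 x hx).1)
  have eA' := hKJ {i // i ∉ T} (fun i => Y - y i) (fun i => w i - W) (fun i => u i - U) T.card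
    htJp hJn hmJ
  have eB := partB hth.le hC2.le hP2 hcard T hTne y Y hY w u W U hW hU hΛ1
    (fun x hx0 hx i hi => by
      have := hκexp x (by linarith) hx i hi
      linarith)
  have eB' := hB {i // i ∉ T} (fun i => Y - y i) (fun i => w i - W) (fun i => u i - U) T.card
    htJp hJn hmJ th hth hth1 Λ hΛ1
  have eG := partG y Y hY i0 hi0 hcard M p2.hM hr T hTne
    (fun i hi => lt_of_le_of_lt (htT i hi) htsr) w u W U hW CG KG hCG hKG G2 hG2
  -- integrability on `[0, 1]`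
  have hint : ∀ f : ℝ → ℝ, Continuous f → IntervalIntegrable (fun x => K x * f x) volume 0 1 := by
    intro f hf
    apply ContinuousOn.intervalIntegrable
    rw [Set.uIcc_of_le zero_le_one]
    exact hKc.mul hf.continuousOn
  -- rewriting of the pieceA sum
  have eA'' : ∀ i : {i // i ∉ T}, (∫ x in (0 : ℝ)..1, K x * Real.exp (-(x * (Y - y i))) *
          (x ^ 4 * ‖w i - W‖ ^ 4 + x ^ 2 * ‖u i - U‖ ^ 2)) =
      (∫ x in (0 : ℝ)..1, K x * x ^ 4 * Real.exp (-(x * (Y - y i)))) * ‖w i - W‖ ^ 4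
      + (∫ x in (0 : ℝ)..1, K x * x ^ 2 * Real.exp (-(x * (Y - y i)))) * ‖u i - U‖ ^ 2 := by
    intro i
    have i4 := hint (fun x => x ^ 4 * Real.exp (-(x * (Y - y i)))) (by fun_prop)
    have i2 := hint (fun x => x ^ 2 * Real.exp (-(x * (Y - y i)))) (by fun_prop)
    have j4 : IntervalIntegrable (fun x => K x * x ^ 4 * Real.exp (-(x * (Y - y i)))) volume 0 1 :=
      by simpa [mul_assoc] using i4
    have j2 : IntervalIntegrable (fun x => K x * x ^ 2 * Real.exp (-(x * (Y - y i)))) volume 0 1 :=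
      by simpa [mul_assoc] using i2
    rw [← intervalIntegral.integral_mul_const, ← intervalIntegral.integral_mul_const,
      ← intervalIntegral.integral_add (j4.mul_const _) (j2.mul_const _)]
    apply intervalIntegral.integral_congr
    intro x _
    simp only
    ring
  simp only [eA''] at eA'
  rw [← mul_sum] at eA'
  -- integrals of the weight
  have hK4 : ∫ x in (0 : ℝ)..1, K x * x ^ 4 ≤ 1 := by
    have : ∫ x in (0 : ℝ)..1, K x * x ^ 4 ≤ ∫ _x in (0 : ℝ)..1, (1 : ℝ) := by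
      apply intervalIntegral.integral_mono_on zero_le_one (hint _ (by fun_prop)) (by simp)
      intro x hx
      have := (hK0 x hx).2
      linarith
    simpa using this
  have hK2 : L ≤ ∫ x in (0 : ℝ)..1, K x * x ^ 2 := by
    have := hKb' 0 le_rfl
    simpa using this
  have hsum := sum_comb
    (fun i : {i // i ∉ T} => δ / 8 * (∫ x in (0 : ℝ)..1, K x * x ^ 4 *
        Real.exp (-(x * (Y - y i)))) *
        ‖w i - W‖ ^ 4 + δ / 4 * L * Real.exp (-((Y - y i) / 2)) * ‖u i - U‖ ^ 2)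
    (fun i => (∫ x in (0 : ℝ)..1, K x * x ^ 4 * Real.exp (-(x * (Y - y i)))) * ‖w i - W‖ ^ 4
      + (∫ x in (0 : ℝ)..1, K x * x ^ 2 * Real.exp (-(x * (Y - y i)))) * ‖u i - U‖ ^ 2)
    (fun i => (1 + (Y - y i)) * Real.exp (-(Y - y i)) * (‖w i - W‖ ^ 4 + ‖u i - U‖ ^ 2))
    (fun i => ‖w i - W‖ ^ 4 * (c1 * (∫ x in (1 : ℝ)..Λ, Real.exp (-(3 * x * (Y - y i))))
        - 10 * th * (∫ x in (1 : ℝ)..Λ, Real.exp (-(x * (Y - y i))))
        - Real.exp (-(Λ * (Y - y i))) / (Y - y i)))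
    (fun i => ‖u i - U‖ ^ 2 * (∫ x in (1 : ℝ)..Λ, Real.exp (-(x * (Y - y i))) / x ^ 2))
    (fun i => (∫ x in (1 : ℝ)..Λ, Real.exp (-(x * (Y - y i)))) * ‖w i - W‖ ^ 4
      + Real.exp (-(Y - y i)) * ‖u i - U‖ ^ 2)
    (fun i => if Y - y i < r then ‖w i - W‖ ^ 4 else 0)
    (fun i => (∑ m : Fin M, (2 : ℝ) ^ (m.val + 1) *
          Real.exp (-(2 ^ (m.val + 1) * (Y - y i) / 2))) * ‖w i - W‖ ^ 4
          + Real.exp (-(Y - y i)) * ‖u i - U‖ ^ 2)
    δ C (δ / 2) Kb (Kb * (1 / th)) (Kb * th) (KG * cG / r) (KG / M * CG)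
    (fun i => term_ineq hδ hC hCG hc1p p1 p2 hκ0 hrp hr1 hr hΛ hΛ1 hts hL1 (htJp i) (htJ i)
      (hKa _ (htJp i).le) (hKb' _ (htJp i).le) (by positivity) (by positivity))
  -- the T part of the regulariser
  rw [sum_split T (fun i => if Y - y i < r then ‖w i - W‖ ^ 4 else 0),
    sum_split T (fun i => (∑ m : Fin M, (2 : ℝ) ^ (m.val + 1) *
          Real.exp (-(2 ^ (m.val + 1) * (Y - y i) / 2))) * ‖w i - W‖ ^ 4
          + Real.exp (-(Y - y i)) * ‖u i - U‖ ^ 2)] at eG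
  have g1 : ∑ i ∈ T, (if Y - y i < r then ‖w i - W‖ ^ 4 else 0) = ∑ i ∈ T, ‖w i - W‖ ^ 4 := by
    apply sum_congr rfl
    intro i hi
    rw [if_pos (lt_of_le_of_lt (htT i hi) htsr)]
  have g2 : ∑ i ∈ T, ((∑ m : Fin M, (2 : ℝ) ^ (m.val + 1) *
          Real.exp (-(2 ^ (m.val + 1) * (Y - y i) / 2))) * ‖w i - W‖ ^ 4
          + Real.exp (-(Y - y i)) * ‖u i - U‖ ^ 2) ≤
        2 / r * (∑ i ∈ T, ‖w i - W‖ ^ 4) + ∑ i ∈ T, ‖u i - U‖ ^ 2 := by
    rw [mul_sum, ← sum_add_distrib]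
    apply sum_le_sum
    intro i _
    have h1 : 0 ≤ Y - y i := sub_nonneg.mpr (hY i)
    have h2 : (∑ m : Fin M, (2 : ℝ) ^ (m.val + 1) *
          Real.exp (-(2 ^ (m.val + 1) * (Y - y i) / 2))) ≤ 2 / r := by
      refine le_trans (sum_lam_le M _ h1) (le_of_eq ?_)
      rw [hr]; field_simp
    have h3 : Real.exp (-(Y - y i)) ≤ 1 := by rw [Real.exp_le_one_iff]; linarith
    have h4 := mul_le_mul_of_nonneg_right h2 (by positivity : 0 ≤ ‖w i - W‖ ^ 4)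
    have h5 := mul_le_mul_of_nonneg_right h3 (by positivity : 0 ≤ ‖u i - U‖ ^ 2)
    linarith
  rw [g1] at eG
  have hX40 : 0 ≤ ∑ i ∈ T, ‖w i - W‖ ^ 4 := sum_nonneg fun _ _ => by positivity
  have hM20 : 0 ≤ ∑ i ∈ T, ‖u i - U‖ ^ 2 := sum_nonneg fun _ _ => by positivity
  have hKM : 0 < KG / M * CG := by positivity
  have x3 := mul_le_mul_of_nonneg_left g2 hKM.le
  have x4 := mul_le_mul_of_nonneg_left eB hKbp.le
  have x5 := mul_le_mul_of_nonneg_left eB' hKbp.le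
  rw [← hc1] at x5
  rw [← hcG] at eG
  have h4' := p2.h4
  have h5' := p2.h5
  have h6' := p2.h6
  clear hG2 hKJ hL1 eA'' hint hκexp htJ htJp htT hKa hKb' hK0 hKc hP1 hP2 hB eB eB' g2 g1 p1 p2
  generalize (∑ i ∈ T, ‖w i - W‖ ^ 4) = X4 at *
  generalize (∑ i ∈ T, ‖u i - U‖ ^ 2) = M2 at *
  generalize (∫ x in (0 : ℝ)..1, K x * x ^ 4) = k4 at *
  generalize (∫ x in (0 : ℝ)..1, K x * x ^ 2) = k2 at *
  -- X4 and M2 coefficients
  have x1 : KG * cG / (4 * r) * X4 ≤ KG * cG / r * X4 - C1 * X4 * k4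
      - Kb * (C2 * X4 * Λ) - KG / M * CG * (2 / r * X4) := by
    have y1 : C1 * X4 * k4 ≤ KG * cG / (4 * r) * X4 := by
      have z1 : C1 * X4 * k4 ≤ C1 * X4 * 1 :=
        mul_le_mul_of_nonneg_left hK4 (by positivity)
      have z2 : C1 ≤ KG * cG / (4 * r) := by
        rw [le_div_iff₀ (by positivity)]
        calc C1 * (4 * r) = 4 * C1 * r := by ring
          _ ≤ 4 * C1 * 1 := mul_le_mul_of_nonneg_left hr1 (by positivity)
          _ ≤ KG * cG := by rw [mul_one]; exact h4'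
      have z3 := mul_le_mul_of_nonneg_right z2 hX40
      linarith
    have y2 : Kb * (C2 * X4 * Λ) ≤ KG * cG / (4 * r) * X4 := by
      have z1 : Kb * (C2 * X4 * Λ) = (4 * C2 * Kb * M0) / (4 * r) * X4 := by
        rw [hΛ]; field_simp
      rw [z1]
      exact mul_le_mul_of_nonneg_right (div_le_div_of_nonneg_right h5' (by positivity)) hX40
    have y3 : KG / M * CG * (2 / r * X4) ≤ KG * cG / (4 * r) * X4 := by
      rw [← mul_assoc]
      apply mul_le_mul_of_nonneg_right _ hX40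
      rw [div_mul_eq_mul_div, div_mul_div_comm, div_le_div_iff₀ (by positivity) (by positivity)]
      have h3 : 0 ≤ KG * r := by positivity
      calc KG * CG * 2 * (4 * r) = KG * r * (8 * CG) := by ring
        _ ≤ KG * r * (M * cG) := mul_le_mul_of_nonneg_left h6' h3
        _ = KG * cG * (M * r) := by ring
    have y4 : KG * cG / r * X4 = 4 * (KG * cG / (4 * r) * X4) := by field_simp
    rw [y4]
    linarith
  have x2 : L / (8 * N) * M2 ≤ 1 / (4 * N) * M2 * k2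
      - KG / M * CG * M2 := by
    have z1 : 1 / (4 * N) * M2 * L ≤ 1 / (4 * N) * M2 * k2 :=
      mul_le_mul_of_nonneg_left hK2 (by positivity)
    have z2 : KG / M * CG ≤ L / (8 * N) := by
      rw [le_div_iff₀ (by positivity)]
      linarith
    have z3 := mul_le_mul_of_nonneg_right z2 hM20
    have z4 : 1 / (4 * N) * M2 * L = 2 * (L / (8 * N) * M2) := by field_simp; ring
    linarith
  linarith

end main

end Pool.Agent.MP_7c31d9_gt.CoreAux
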