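import Mathlib

/-! Definitions for MP_7c31d9_gt: Kaehler metrics of negative holomorphic sectional curvature
on complements of hyperplanes. -/

namespace Pool.Agent.MP_7c31d9_gt

open Complex
open scoped ContDiff ComplexOrder

/-- Wirtinger derivative `∂_v f (z)` in the direction `v`. -/
noncomputable def dW {E : Type*} [NormedAddCommGroup E] [NormedSpace ℝ E] [NormedSpace ℂ E]
    (v : E) (f : E → ℂ) (z : E) : ℂ :=
  (1 / 2) * (fderiv ℝ f z v - I * fderiv ℝ f z (I • v))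

/-- Conjugate Wirtinger derivative `∂̄_v f (z)` in the direction `v`. -/
noncomputable def dWbar {E : Type*} [NormedAddCommGroup E] [NormedSpace ℝ E] [NormedSpace ℂ E]
    (v : E) (f : E → ℂ) (z : E) : ℂ :=
  (1 / 2) * (fderiv ℝ f z v + I * fderiv ℝ f z (I • v))

/-- `g` (the matrix `g z i j = g_{i j̄}(z)`) is a Kaehler metric on `U ⊆ ℂⁿ`. -/
structure IsKahlerOn {n : ℕ} (U : Set (Fin n → ℂ))
    (g : (Fin n → ℂ) → Matrix (Fin n) (Fin n) ℂ) : Prop where
  smooth : ∀ i j, ContDiffOn ℝ ∞ (fun z => g z i j) U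
  posDef : ∀ z ∈ U, (g z).PosDef
  closed : ∀ z ∈ U, ∀ i j k,
    dW (Pi.single k 1) (fun y => g y i j) z = dW (Pi.single i 1) (fun y => g y k j) z

/-- Curvature tensor `R_{i j̄ k l̄} = -∂_k ∂_l̄ g_{i j̄} + ∑ ∂_k g_{i q̄} g^{p q̄} ∂_l̄ g_{p j̄}`. -/
noncomputable def curvTensor {n : ℕ} (g : (Fin n → ℂ) → Matrix (Fin n) (Fin n) ℂ)
    (z : Fin n → ℂ) (i j k l : Fin n) : ℂ :=
  - dW (Pi.single k 1) (fun y => dWbar (Pi.single l 1) (fun x => g x i j) y) z
  + ∑ q, ∑ p, dW (Pi.single k 1) (fun x => g x i q) z * (g z)⁻¹ q p *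
      dWbar (Pi.single l 1) (fun x => g x p j) z

/-- Holomorphic sectional curvature `R(v, v̄, v, v̄) / |v|⁴`. -/
noncomputable def holoSec {n : ℕ} (g : (Fin n → ℂ) → Matrix (Fin n) (Fin n) ℂ)
    (z v : Fin n → ℂ) : ℝ :=
  (∑ i, ∑ j, ∑ k, ∑ l, curvTensor g z i j k l * v i * (starRingEnd ℂ) (v j) * v k *
      (starRingEnd ℂ) (v l)).re /
    ((∑ i, ∑ j, g z i j * v i * (starRingEnd ℂ) (v j)).re) ^ 2

/-- Laplacian of a real function of one complex variable. -/
noncomputable def lap (ψ : ℂ → ℝ) (s : ℂ) : ℝ :=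
  fderiv ℝ (fun t => fderiv ℝ ψ t 1) s 1 + fderiv ℝ (fun t => fderiv ℝ ψ t I) s I

/-- Gibbs weights. -/
noncomputable def gib {ι : Type*} [Fintype ι] (y : ι → ℝ) (lam : ℝ) (i : ι) : ℝ :=
  Real.exp (lam * y i) / ∑ j, Real.exp (lam * y j)

/-- mean of a complex function. -/
noncomputable def cmean {ι : Type*} [Fintype ι] (p : ι → ℝ) (f : ι → ℂ) : ℂ :=
  ∑ i, (p i : ℂ) * f i

/-- variance of a complex function. -/
noncomputable def cvar {ι : Type*} [Fintype ι] (p : ι → ℝ) (f : ι → ℂ) : ℝ :=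
  ∑ i, p i * ‖f i - cmean p f‖ ^ 2

/-- The quadratic curve `s ↦ z + s v + s²/2 a`. -/
noncomputable def qcurve {E : Type*} [AddCommGroup E] [Module ℂ E] (z v a : E) (s : ℂ) : E :=
  z + s • v + (s ^ 2 / 2) • a

/-- pair potential `(x² + r²)^{3/2}`. -/
noncomputable def fpair (r x : ℝ) : ℝ := (x ^ 2 + r ^ 2) * Real.sqrt (x ^ 2 + r ^ 2)

/-- single-scale regulariser. -/
noncomputable def Gm {ι : Type*} [Fintype ι] (r lam : ℝ) (y : ι → ℝ) : ℝ :=
  ∑ i, ∑ j, fpair r (y i - y j) * gib y lam i * gib y lam j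

/-- the torus-invariant potential, as a function of the logarithmic coordinates. -/
noncomputable def Pot {ι : Type*} [Fintype ι] (b : ℝ) (K : ℝ → ℝ) (κ r : ℝ) {M : ℕ}
    (lam : Fin M → ℝ) (y : ι → ℝ) : ℝ :=
  (∫ t in (0 : ℝ)..b, K t * Real.log (∑ i, Real.exp (t * y i))) + κ * ∑ m, Gm r (lam m) y

/-- more than half of the coordinates are within `ts` of the maximum. -/
def Majority {ι : Type*} [Fintype ι] (ts : ℝ) (y : ι → ℝ) : Prop :=
  ∃ T : Finset ι, Fintype.card ι < 2 * T.card ∧ ∀ i ∈ T, ∀ j, y j - y i ≤ ts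

/-- The potential has negative curvature (in the sense needed) on all holomorphic germs whose
base point satisfies the majority condition; the second part, used for germs with vanishing first
derivative, gives the positivity of the metric. -/
def GoodPot (ι : Type*) [Fintype ι] (b : ℝ) (K : ℝ → ℝ) (κ r : ℝ) {M : ℕ}
    (lam : Fin M → ℝ) (ts c : ℝ) : Prop :=
  ∀ h : ι → ℂ → ℂ, (∀ i, AnalyticAt ℂ (h i) 0) → Majority ts (fun i => (h i 0).re) →
    c * (lap (fun s => Pot b K κ r lam (fun i => (h i s).re)) 0) ^ 2 ≤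
      lap (lap (fun s => Pot b K κ r lam (fun i => (h i s).re))) 0 ∧
    ((∀ i, deriv (h i) 0 = 0) → (∃ i j, deriv (deriv (h i)) 0 ≠ deriv (deriv (h j)) 0) →
      0 < lap (lap (fun s => Pot b K κ r lam (fun i => (h i s).re))) 0)

/-- Linear forms in general position: any `n + 1` of them are linearly independent. -/
def GeneralPosition {n : ℕ} (L : Fin (2 * n + 1) → ((Fin (n + 1) → ℂ) →ₗ[ℂ] ℂ)) : Prop :=
  ∀ S : Finset (Fin (2 * n + 1)), S.card = n + 1 → LinearIndependent ℂ (fun i : S => L i)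

end Pool.Agent.MP_7c31d9_gt
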