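import Pool.Agent.MP_7c31d9_gt.Defs

/-! Definitions for the inequality part of MP_7c31d9_gt. -/

namespace Pool.Agent.MP_7c31d9_gt

open Complex

/-- Full curvature density at scale `lam` (this is `lap lap log ∑ exp (lam Re h)`). -/
noncomputable def DF {ι : Type} [Fintype ι] (p : ι → ℝ) (w u : ι → ℂ) (lam : ℝ) : ℝ :=
  lam ^ 2 * cvar p (fun i => lam * (w i ^ 2 - 2 * cmean p w * w i) + u i)
    - 2 * lam ^ 4 * (cvar p w) ^ 2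

/-- Static collapsed functional: the remaining mass `1 - ∑ p` sits at `w = 0`, `u = 0`. -/
noncomputable def T0 {J : Type} [Fintype J] (p : J → ℝ) (w u : J → ℂ) : ℝ :=
  (∑ i, p i * ‖w i ^ 2 - 2 * (∑ j, (p j : ℂ) * w j) * w i + u i‖ ^ 2)
    - ‖∑ i, (p i : ℂ) * (w i ^ 2 - 2 * (∑ j, (p j : ℂ) * w j) * w i + u i)‖ ^ 2
    - 2 * ((∑ i, p i * ‖w i‖ ^ 2) - ‖∑ j, (p j : ℂ) * w j‖ ^ 2) ^ 2

/-- Collapsed Gibbs weights: `exp (-lam t_i) / (m + ∑ exp (-lam t_j))`. -/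
noncomputable def qw {J : Type} [Fintype J] (m : ℝ) (t : J → ℝ) (lam : ℝ) (i : J) : ℝ :=
  Real.exp (-(lam * t i)) / (m + ∑ j, Real.exp (-(lam * t j)))

/-- Collapsed curvature density at scale `lam > 0`; equals `lam ^ 4 * T0 (qw m t lam) w (u / lam)`. -/
noncomputable def DJ {J : Type} [Fintype J] (m : ℝ) (t : J → ℝ) (w u : J → ℂ) (lam : ℝ) : ℝ :=
  lam ^ 4 * T0 (qw m t lam) w (fun i => u i / (lam : ℂ))

/-- Gauges: three affine functions `a_j + b_j s`. -/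
structure Gauge where
  a1 : ℝ
  b1 : ℝ
  a2 : ℝ
  b2 : ℝ
  a3 : ℝ
  b3 : ℝ

/-- The gauge functional. -/
noncomputable def gaugeQ {J : Type} [Fintype J] (γ : Gauge) (p s : J → ℝ) (w u : J → ℂ) : ℝ :=
  ∑ i, p i * ((γ.a1 + γ.b1 * s i) * ‖w i‖ ^ 4
    + (γ.a2 + γ.b2 * s i) * ((starRingEnd ℂ) (w i ^ 2) * u i).re
    + (γ.a3 + γ.b3 * s i) * ‖u i‖ ^ 2)

/-- The logarithmic rate of change of the gauge functional (`a'` = slope + mean of `s`). -/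
noncomputable def gaugeRate {J : Type} [Fintype J] (γ : Gauge) (a' : ℝ) (p s : J → ℝ)
    (w u : J → ℂ) : ℝ :=
  ∑ i, p i * (((a' + 2 - s i) * (γ.a1 + γ.b1 * s i) + γ.b1 * s i) * ‖w i‖ ^ 4
    + ((a' + 1 - s i) * (γ.a2 + γ.b2 * s i) + γ.b2 * s i) * ((starRingEnd ℂ) (w i ^ 2) * u i).re
    + ((a' - s i) * (γ.a3 + γ.b3 * s i) + γ.b3 * s i) * ‖u i‖ ^ 2)

/-- The pointwise inequality for a gauge at (effective) slope `a'`. -/
def PIok (γ : Gauge) (a' δ : ℝ) : Prop :=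
  ∀ (J : Type) [Fintype J] (p s : J → ℝ) (w u : J → ℂ), (∀ i, 0 ≤ p i) → (∀ i, 0 ≤ s i) →
    ∑ i, p i * (1 + Real.exp (s i)) ≤ 1 →
    δ * ∑ i, p i * (1 + s i) * (‖w i‖ ^ 4 + ‖u i‖ ^ 2) ≤ T0 p w u + gaugeRate γ a' p s w u

/-- The gauge functional of the collapsed model at scale `lam` (times `lam ^ 5`). -/
noncomputable def QK {J : Type} [Fintype J] (γ : Gauge) (m : ℝ) (t : J → ℝ) (w u : J → ℂ)
    (lam : ℝ) : ℝ :=
  lam ^ 5 * gaugeQ γ (qw m t lam) (fun i => lam * t i) w (fun i => u i / (lam : ℂ))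

/-- The good term of the collapsed model at scale `lam`. -/
noncomputable def SJ {J : Type} [Fintype J] (m : ℝ) (t : J → ℝ) (w u : J → ℂ) (lam : ℝ) : ℝ :=
  ∑ i, qw m t lam i * (1 + lam * t i) * (lam ^ 4 * ‖w i‖ ^ 4 + lam ^ 2 * ‖u i‖ ^ 2)

/-- The atom function: `β = 1 / (1 + exp s)`, `bt = 1 + exp s`, `X j` the coefficients of the
gauge rate, `d = δ (1 + s)`. -/
noncomputable def atomF (k β bt X1 X2 X3 d : ℝ) (e u : ℂ) : ℝ :=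
  (1 - β) * ‖1 + u - 2 * e‖ ^ 2 + 4 * ‖e‖ ^ 2 - 2 * β - k * ‖e‖ ^ 2 * e.re
    + (k - 2) * bt * ‖e‖ ^ 4 + X1 + X2 * u.re + X3 * ‖u‖ ^ 2 - d * (1 + ‖u‖ ^ 2)

/-- The atom inequality for a gauge at slope `a'`. -/
def AtomOK (γ : Gauge) (a' δ k : ℝ) : Prop :=
  ∀ s : ℝ, 0 ≤ s → ∀ e u : ℂ, 0 ≤ atomF k (1 / (1 + Real.exp s)) (1 + Real.exp s)
    ((a' + 2 - s) * (γ.a1 + γ.b1 * s) + γ.b1 * s)
    ((a' + 1 - s) * (γ.a2 + γ.b2 * s) + γ.b2 * s)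
    ((a' - s) * (γ.a3 + γ.b3 * s) + γ.b3 * s) (δ * (1 + s)) e u

end Pool.Agent.MP_7c31d9_gt
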