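import Pool.Agent.MP_7c31d9_gt.Defs2
import Pool.Agent.MP_7c31d9_gt.ParamInt

/-! Reduction of the existence of good potentials to the static inequality. -/

namespace Pool.Agent.MP_7c31d9_gt

open Complex Filter MeasureTheory
open scoped ContDiff ComplexOrder Topology

section LapLinear

theorem contDiffOn_lap {V : Set ℂ} (hV : IsOpen V) {f : ℂ → ℝ} (hf : ContDiffOn ℝ ∞ f V) :
    ContDiffOn ℝ ∞ (lap f) V := by
  have key : ∀ (g : ℂ → ℝ) (v : ℂ), ContDiffOn ℝ ∞ g V →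
      ContDiffOn ℝ ∞ (fun t => fderiv ℝ g t v) V := by
    intro g v hg
    have h1 : ContDiffOn ℝ ∞ (fderiv ℝ g) V :=
      hg.fderiv_of_isOpen hV (by simp)
    exact h1.clm_apply contDiffOn_const
  unfold lap
  exact (key _ 1 (key f 1 hf)).add (key _ I (key f I hf))

theorem lap_add_of {V : Set ℂ} (hV : IsOpen V) {f g : ℂ → ℝ} (hf : ContDiffOn ℝ ∞ f V)
    (hg : ContDiffOn ℝ ∞ g V) {s : ℂ} (hs : s ∈ V) :
    lap (fun z => f z + g z) s = lap f s + lap g s := by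
  have hd : ∀ (f : ℂ → ℝ), ContDiffOn ℝ ∞ f V → ∀ x ∈ V, DifferentiableAt ℝ f x := by
    intro f hf x hx
    exact (hf.contDiffAt (hV.mem_nhds hx)).differentiableAt (by simp)
  have key : ∀ (g : ℂ → ℝ) (v : ℂ), ContDiffOn ℝ ∞ g V →
      ContDiffOn ℝ ∞ (fun t => fderiv ℝ g t v) V := by
    intro g v hg
    have h1 : ContDiffOn ℝ ∞ (fderiv ℝ g) V :=
      hg.fderiv_of_isOpen hV (by simp)
    exact h1.clm_apply contDiffOn_const
  have step : ∀ v : ℂ, fderiv ℝ (fun t => fderiv ℝ (fun z => f z + g z) t v) s v =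
      fderiv ℝ (fun t => fderiv ℝ f t v) s v + fderiv ℝ (fun t => fderiv ℝ g t v) s v := by
    intro v
    have h1 : (fun t => fderiv ℝ (fun z => f z + g z) t v) =ᶠ[𝓝 s]
        (fun t => fderiv ℝ f t v + fderiv ℝ g t v) := by
      filter_upwards [hV.mem_nhds hs] with x hx
      rw [fderiv_fun_add (hd f hf x hx) (hd g hg x hx)]
      rfl
    rw [h1.fderiv_eq, fderiv_fun_add (hd _ (key f v hf) s hs) (hd _ (key g v hg) s hs)]
    rfl
  unfold lap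
  rw [step, step]
  ring

theorem lap_const_mul_of {V : Set ℂ} (hV : IsOpen V) {f : ℂ → ℝ} (hf : ContDiffOn ℝ ∞ f V)
    (κ : ℝ) {s : ℂ} (hs : s ∈ V) : lap (fun z => κ * f z) s = κ * lap f s := by
  have hd : ∀ (f : ℂ → ℝ), ContDiffOn ℝ ∞ f V → ∀ x ∈ V, DifferentiableAt ℝ f x := by
    intro f hf x hx
    exact (hf.contDiffAt (hV.mem_nhds hx)).differentiableAt (by simp)
  have key : ∀ (g : ℂ → ℝ) (v : ℂ), ContDiffOn ℝ ∞ g V →
      ContDiffOn ℝ ∞ (fun t => fderiv ℝ g t v) V := by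
    intro g v hg
    have h1 : ContDiffOn ℝ ∞ (fderiv ℝ g) V :=
      hg.fderiv_of_isOpen hV (by simp)
    exact h1.clm_apply contDiffOn_const
  have step : ∀ v : ℂ, fderiv ℝ (fun t => fderiv ℝ (fun z => κ * f z) t v) s v =
      κ * fderiv ℝ (fun t => fderiv ℝ f t v) s v := by
    intro v
    have h1 : (fun t => fderiv ℝ (fun z => κ * f z) t v) =ᶠ[𝓝 s]
        (fun t => κ * fderiv ℝ f t v) := by
      filter_upwards [hV.mem_nhds hs] with x hx
      rw [fderiv_const_mul (hd f hf x hx)]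
      rfl
    rw [h1.fderiv_eq, fderiv_const_mul (hd _ (key f v hf) s hs)]
    rfl
  unfold lap
  rw [step, step]
  ring

theorem contDiffOn_sum' {V : Set ℂ} {ι : Type*} (S : Finset ι) {f : ι → ℂ → ℝ}
    (hf : ∀ i ∈ S, ContDiffOn ℝ ∞ (f i) V) : ContDiffOn ℝ ∞ (fun z => ∑ i ∈ S, f i z) V :=
  ContDiffOn.sum hf

theorem lap_zero_fun (s : ℂ) : lap (fun _ => 0) s = 0 := by
  unfold lap
  simp

theorem lap_sum_of {V : Set ℂ} (hV : IsOpen V) {ι : Type*} (S : Finset ι) {f : ι → ℂ → ℝ}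
    (hf : ∀ i ∈ S, ContDiffOn ℝ ∞ (f i) V) {s : ℂ} (hs : s ∈ V) :
    lap (fun z => ∑ i ∈ S, f i z) s = ∑ i ∈ S, lap (f i) s := by
  classical
  induction S using Finset.induction_on with
  | empty => simpa using lap_zero_fun s
  | insert a S ha ih =>
    have h1 : (fun z => ∑ i ∈ insert a S, f i z) = fun z => f a z + ∑ i ∈ S, f i z := by
      funext z
      rw [Finset.sum_insert ha]
    rw [h1, lap_add_of hV (hf a (Finset.mem_insert_self a S))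
      (contDiffOn_sum' S fun i hi => hf i (Finset.mem_insert_of_mem hi)) hs,
      ih fun i hi => hf i (Finset.mem_insert_of_mem hi), Finset.sum_insert ha]

/-- `lap` of `f + κ ∑ g m`, once and twice. -/
theorem lap_combo {V : Set ℂ} (hV : IsOpen V) {M : ℕ} {f : ℂ → ℝ} {g : Fin M → ℂ → ℝ}
    (hf : ContDiffOn ℝ ∞ f V) (hg : ∀ m, ContDiffOn ℝ ∞ (g m) V) (κ : ℝ) {s : ℂ} (hs : s ∈ V) :
    lap (fun z => f z + κ * ∑ m, g m z) s = lap f s + κ * ∑ m, lap (g m) s := by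
  have h1 : ContDiffOn ℝ ∞ (fun z => ∑ m, g m z) V := contDiffOn_sum' _ fun i _ => hg i
  have h2 : ContDiffOn ℝ ∞ (fun z => κ * ∑ m, g m z) V := contDiffOn_const.mul h1
  rw [lap_add_of hV hf h2 hs, lap_const_mul_of hV h1 κ hs, lap_sum_of hV _ (fun i _ => hg i) hs]

theorem lap_lap_combo {V : Set ℂ} (hV : IsOpen V) {M : ℕ} {f : ℂ → ℝ} {g : Fin M → ℂ → ℝ}
    (hf : ContDiffOn ℝ ∞ f V) (hg : ∀ m, ContDiffOn ℝ ∞ (g m) V) (κ : ℝ) {s : ℂ} (hs : s ∈ V) :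
    lap (lap (fun z => f z + κ * ∑ m, g m z)) s =
      lap (lap f) s + κ * ∑ m, lap (lap (g m)) s := by
  have h1 : lap (fun z => f z + κ * ∑ m, g m z) =ᶠ[𝓝 s]
      (fun z => lap f z + κ * ∑ m, lap (g m) z) := by
    filter_upwards [hV.mem_nhds hs] with x hx
    exact lap_combo hV hf hg κ hx
  rw [lap_congr h1]
  exact lap_combo hV (contDiffOn_lap hV hf) (fun m => contDiffOn_lap hV (hg m)) κ hs

end LapLinear

section Smooth

variable {ι : Type*} [Fintype ι]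

/-- The common domain of analyticity. -/
def anaSet (h : ι → ℂ → ℂ) : Set ℂ := {s | ∀ i, AnalyticAt ℂ (h i) s}

theorem isOpen_anaSet (h : ι → ℂ → ℂ) : IsOpen (anaSet h) := by
  have : anaSet h = ⋂ i, {s | AnalyticAt ℂ (h i) s} := by
    ext s; simp [anaSet]
  rw [this]
  exact isOpen_iInter_of_finite fun i => isOpen_analyticAt ℂ (h i)

theorem contDiffOn_re (h : ι → ℂ → ℂ) (i : ι) :
    ContDiffOn ℝ ∞ (fun s => (h i s).re) (anaSet h) := by
  intro s hs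
  have h1 : ContDiffAt ℂ ∞ (h i) s := (hs i).contDiffAt
  have h2 : ContDiffAt ℝ ∞ (h i) s := h1.restrict_scalars ℝ
  exact (Complex.reCLM.contDiff.contDiffAt.comp s h2).contDiffWithinAt

theorem contDiffOn_F [Nonempty ι] (h : ι → ℂ → ℂ) :
    ContDiffOn ℝ ∞ (fun q : ℝ × ℂ => Real.log (∑ i, Real.exp (q.1 * (h i q.2).re)))
      (Set.univ ×ˢ anaSet h) := by
  have h1 : ∀ i, ContDiffOn ℝ ∞ (fun q : ℝ × ℂ => Real.exp (q.1 * (h i q.2).re))
      (Set.univ ×ˢ anaSet h) := by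
    intro i
    have h2 : ContDiffOn ℝ ∞ (fun q : ℝ × ℂ => (h i q.2).re) (Set.univ ×ˢ anaSet h) :=
      (contDiffOn_re h i).comp contDiffOn_snd (fun q hq => hq.2)
    exact (contDiffOn_fst.mul h2).exp
  have h3 : ContDiffOn ℝ ∞ (fun q : ℝ × ℂ => ∑ i, Real.exp (q.1 * (h i q.2).re))
      (Set.univ ×ˢ anaSet h) := ContDiffOn.sum fun i _ => h1 i
  refine h3.log fun q _ => ?_
  exact (Finset.sum_pos (fun i _ => Real.exp_pos _) Finset.univ_nonempty).ne'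

theorem contDiffOn_Gm [Nonempty ι] (h : ι → ℂ → ℂ) (r lam : ℝ) (hr : 0 < r) :
    ContDiffOn ℝ ∞ (fun s => Gm r lam (fun i => (h i s).re)) (anaSet h) := by
  have hg : ∀ i, ContDiffOn ℝ ∞ (fun s => gib (fun i => (h i s).re) lam i) (anaSet h) := by
    intro i
    unfold gib
    have h1 : ∀ i, ContDiffOn ℝ ∞ (fun s => Real.exp (lam * (h i s).re)) (anaSet h) :=
      fun i => (contDiffOn_const.mul (contDiffOn_re h i)).exp
    refine (h1 i).div (ContDiffOn.sum fun i _ => h1 i) fun s _ => ?_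
    exact (Finset.sum_pos (fun i _ => Real.exp_pos _) Finset.univ_nonempty).ne'
  have hp : ∀ i j, ContDiffOn ℝ ∞ (fun s => fpair r ((h i s).re - (h j s).re)) (anaSet h) := by
    intro i j
    unfold fpair
    have h1 : ContDiffOn ℝ ∞ (fun s => ((h i s).re - (h j s).re) ^ 2 + r ^ 2) (anaSet h) :=
      (((contDiffOn_re h i).sub (contDiffOn_re h j)).pow 2).add contDiffOn_const
    refine h1.mul (h1.sqrt fun s _ => ?_)
    positivity
  unfold Gm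
  exact ContDiffOn.sum fun i _ => ContDiffOn.sum fun j _ => ((hp i j).mul (hg i)).mul (hg j)

end Smooth

/-- Reduction of `exists_goodPot` to the ingredients. -/
theorem exists_goodPot_of (n : ℕ)
    (hP3 : ∀ h : Fin (2 * n + 1) → ℂ → ℂ, (∀ i, AnalyticAt ℂ (h i) 0) → ∀ lam : ℝ,
      lap (fun s => Real.log (∑ i, Real.exp (lam * (h i s).re))) 0 =
          lam ^ 2 * cvar (gib (fun i => (h i 0).re) lam) (fun i => deriv (h i) 0) ∧
        lap (lap (fun s => Real.log (∑ i, Real.exp (lam * (h i s).re)))) 0 =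
          DF (gib (fun i => (h i 0).re) lam) (fun i => deriv (h i) 0)
            (fun i => 2 * deriv (deriv (h i)) 0) lam)
    (hP4 : ∃ C : ℝ, 0 < C ∧ ∀ (h : Fin (2 * n + 1) → ℂ → ℂ), (∀ i, AnalyticAt ℂ (h i) 0) →
      ∀ r lam : ℝ, 0 < r → 0 < lam → lam * r ≤ 1 → ∀ w0 u0 : ℂ,
      |lap (fun s => Gm r lam (fun i => (h i s).re)) 0| ≤
        C / lam * ∑ i, Real.sqrt (gib (fun i => (h i 0).re) lam i) * ‖deriv (h i) 0 - w0‖ ^ 2 ∧
      (∑ i, ∑ j, 9 * r ^ 4 / (((h i 0).re - (h j 0).re) ^ 2 + r ^ 2) ^ (5 / 2 : ℝ) *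
          ‖deriv (h i) 0 - deriv (h j) 0‖ ^ 4
          * (gib (fun i => (h i 0).re) lam i * gib (fun i => (h i 0).re) lam j))
        - C * lam * ∑ i, Real.sqrt (gib (fun i => (h i 0).re) lam i) *
          (‖deriv (h i) 0 - w0‖ ^ 4 + ‖2 * deriv (deriv (h i)) 0 - u0‖ ^ 2 / lam ^ 2)
        ≤ lap (lap (fun s => Gm r lam (fun i => (h i s).re))) 0)
    (hcore : ∀ CG : ℝ, 0 < CG →
      ∃ (Λ : ℝ) (K : ℝ → ℝ) (κ r : ℝ) (M : ℕ) (lam : Fin M → ℝ) (ts c : ℝ),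
      1 < Λ ∧ (∃ C, ∀ x, |K x| ≤ C) ∧ IntervalIntegrable K volume 0 Λ ∧ (∀ x, 0 ≤ K x) ∧
      0 < κ ∧ 0 < r ∧ (∀ m, 0 < lam m ∧ lam m * r ≤ 1) ∧ 0 < ts ∧ 0 < c ∧
      ∀ (ι : Type) [Fintype ι] (y : ι → ℝ) (w u : ι → ℂ) (G1 G2 : Fin M → ℝ),
        Fintype.card ι = 2 * n + 1 → Majority ts y →
        (∀ m w0, |G1 m| ≤ CG / lam m * ∑ i, Real.sqrt (gib y (lam m) i) * ‖w i - w0‖ ^ 2) →
        (∀ m w0 u0, (∑ i, ∑ j, 9 * r ^ 4 / ((y i - y j) ^ 2 + r ^ 2) ^ (5 / 2 : ℝ) *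
              ‖w i - w j‖ ^ 4 * (gib y (lam m) i * gib y (lam m) j))
            - CG * lam m * ∑ i, Real.sqrt (gib y (lam m) i) *
              (‖w i - w0‖ ^ 4 + ‖u i - u0‖ ^ 2 / lam m ^ 2) ≤ G2 m) →
        c * ((∫ x in (0 : ℝ)..Λ, K x * (x ^ 2 * cvar (gib y x) w)) + κ * ∑ m, G1 m) ^ 2
          ≤ (∫ x in (0 : ℝ)..Λ, K x * DF (gib y x) w u x) + κ * ∑ m, G2 m ∧
        ((∀ i, w i = 0) → (∃ i j, u i ≠ u j) →
          0 < (∫ x in (0 : ℝ)..Λ, K x * DF (gib y x) w u x) + κ * ∑ m, G2 m)) :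
    ∃ (b : ℝ) (K : ℝ → ℝ) (κ r : ℝ) (M : ℕ) (lam : Fin M → ℝ) (ts c : ℝ),
      0 < b ∧ (∃ C, ∀ t, |K t| ≤ C) ∧ IntervalIntegrable K MeasureTheory.volume 0 b ∧
      0 < r ∧ (∀ m, 0 < lam m) ∧ 0 < ts ∧ 0 < c ∧
      GoodPot (Fin (2 * n + 1)) b K κ r lam ts c := by
  obtain ⟨CG, hCG, hG⟩ := hP4
  obtain ⟨Λ, K, κ, r, M, lam, ts, c, hΛ, hKb, hK, hK0, hκ, hr, hlam, hts, hc, H⟩ := hcore CG hCG
  have hΛ0 : (0 : ℝ) < Λ := by linarith
  refine ⟨Λ, K, κ, r, M, lam, ts, c, hΛ0, hKb, hK, hr, fun m => (hlam m).1, hts, hc, ?_⟩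
  intro h hh hmaj
  have h0V : (0 : ℂ) ∈ anaSet h := hh
  have hV := isOpen_anaSet h
  set F : ℝ → ℂ → ℝ := fun t s => Real.log (∑ i, Real.exp (t * (h i s).re)) with hFdef
  have hF : ContDiffOn ℝ ∞ (fun q : ℝ × ℂ => F q.1 q.2) (Set.univ ×ˢ anaSet h) := contDiffOn_F h
  set f : ℂ → ℝ := fun s => ∫ t in (0 : ℝ)..Λ, K t * F t s with hfdef
  set g : Fin M → ℂ → ℝ := fun m s => Gm r (lam m) (fun i => (h i s).re) with hgdef
  have hf : ContDiffOn ℝ ∞ f (anaSet h) :=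
    contDiffOn_param_integral (anaSet h) hV F hF K Λ hΛ0.le hK hKb
  have hg : ∀ m, ContDiffOn ℝ ∞ (g m) (anaSet h) := fun m => contDiffOn_Gm h r (lam m) hr
  have hPot : (fun s => Pot Λ K κ r lam (fun i => (h i s).re)) =
      fun s => f s + κ * ∑ m, g m s := by
    funext s
    simp only [Pot, hfdef, hgdef, hFdef]
  obtain ⟨hint1, hint2⟩ := lap_param_integral (anaSet h) hV F hF K Λ hΛ0.le hK hKb 0 h0V
  have e1 : lap (fun s => Pot Λ K κ r lam (fun i => (h i s).re)) 0 =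
      (∫ x in (0 : ℝ)..Λ, K x * (x ^ 2 * cvar (gib (fun i => (h i 0).re) x)
        (fun i => deriv (h i) 0))) + κ * ∑ m, lap (g m) 0 := by
    rw [hPot, lap_combo hV hf hg κ h0V, hint1]
    congr 1
    refine intervalIntegral.integral_congr fun t _ => ?_
    simp only [hFdef]
    rw [(hP3 h hh t).1]
  have e2 : lap (lap (fun s => Pot Λ K κ r lam (fun i => (h i s).re))) 0 =
      (∫ x in (0 : ℝ)..Λ, K x * DF (gib (fun i => (h i 0).re) x)
        (fun i => deriv (h i) 0) (fun i => 2 * deriv (deriv (h i)) 0) x)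
        + κ * ∑ m, lap (lap (g m)) 0 := by
    rw [hPot, lap_lap_combo hV hf hg κ h0V, hint2]
    congr 1
    refine intervalIntegral.integral_congr fun t _ => ?_
    simp only [hFdef]
    rw [(hP3 h hh t).2]
  obtain ⟨R1, R2⟩ := H (Fin (2 * n + 1)) (fun i => (h i 0).re) (fun i => deriv (h i) 0)
    (fun i => 2 * deriv (deriv (h i)) 0) (fun m => lap (g m) 0) (fun m => lap (lap (g m)) 0)
    (by simp) hmaj
    (fun m w0 => (hG h hh r (lam m) hr (hlam m).1 (hlam m).2 w0 0).1)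
    (fun m w0 u0 => (hG h hh r (lam m) hr (hlam m).1 (hlam m).2 w0 u0).2)
  rw [e1, e2]
  refine ⟨R1, fun hw hu => R2 hw ?_⟩
  obtain ⟨i, j, hij⟩ := hu
  exact ⟨i, j, fun heq => hij (mul_left_cancel₀ two_ne_zero heq)⟩

end Pool.Agent.MP_7c31d9_gt
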