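import Pool.Agent.MP_7c31d9_gt.Jets

/-! Laplacian and bi-Laplacian of `log ∑ exp (λ Re h_i)`. -/

namespace Pool.Agent.MP_7c31d9_gt

open Complex Filter Topology Finset Jets
open scoped ComplexConjugate ContDiff

namespace Jets

/-- `exp (λ h / 2)` -/
noncomputable def EE (lam : ℝ) (h : ℂ → ℂ) (s : ℂ) : ℂ := Complex.exp (lam * h s / 2)

theorem ex_eq (lam : ℝ) (h : ℂ → ℂ) (s : ℂ) :
    ((Real.exp (lam * (h s).re) : ℝ) : ℂ) = HB (EE lam h) (EE lam h) s := by
  have h1 : conj (EE lam h s) = Complex.exp (lam * conj (h s) / 2) := by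
    unfold EE
    rw [← Complex.exp_conj]
    congr 1
    rw [map_div₀, map_mul, Complex.conj_ofReal, Complex.conj_ofNat]
  unfold HB
  rw [h1]
  unfold EE
  rw [← Complex.exp_add, Complex.ofReal_exp]
  congr 1
  have h2 := Complex.add_conj (h s)
  push_cast at h2 ⊢
  linear_combination (-(lam : ℂ) / 2) * h2

theorem an_EE (lam : ℝ) {h : ℂ → ℂ} {s : ℂ} (hh : AnalyticAt ℂ h s) :
    AnalyticAt ℂ (EE lam h) s := by
  have h1 : AnalyticAt ℂ (fun s => (lam : ℂ) * h s / 2) s :=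
    (analyticAt_const.mul hh).div_const
  exact h1.cexp

/-- normalised Wirtinger derivatives of `exp (λ Re h)` -/
noncomputable def al (lam : ℝ) (w u : ℂ) : ℕ → ℂ
  | 0 => 1
  | 1 => lam * w / 2
  | 2 => (lam ^ 2 * w ^ 2 + lam * u) / 4
  | _ => 0

theorem deriv_EE (lam : ℝ) {h : ℂ → ℂ} {s : ℂ} (hh : AnalyticAt ℂ h s) :
    deriv (EE lam h) s = EE lam h s * (lam * deriv h s / 2) := by
  have h1 : HasDerivAt (fun s => (lam : ℂ) * h s / 2) (lam * deriv h s / 2) s :=
    (hh.differentiableAt.hasDerivAt.const_mul _).div_const _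
  exact h1.cexp.deriv

theorem iter_EE (lam : ℝ) {h : ℂ → ℂ} (hh : AnalyticAt ℂ h 0) (a : ℕ) (ha : a ≤ 2) :
    deriv^[a] (EE lam h) 0 = EE lam h 0 * al lam (deriv h 0) (2 * deriv (deriv h) 0) a := by
  interval_cases a
  · simp [al]
  · simp [al, deriv_EE lam hh]
  · have h1 : deriv (EE lam h) =ᶠ[𝓝 0] fun s => EE lam h s * (lam * deriv h s / 2) := by
      filter_upwards [hh.eventually_analyticAt] with s hs
      exact deriv_EE lam hs
    have h2 : deriv^[2] (EE lam h) 0 = deriv (deriv (EE lam h)) 0 := rfl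
    rw [h2, h1.deriv_eq]
    have h3 : HasDerivAt (EE lam h) (EE lam h 0 * (lam * deriv h 0 / 2)) 0 := by
      rw [← deriv_EE lam hh]
      exact (an_EE lam hh).differentiableAt.hasDerivAt
    have h4 : HasDerivAt (fun s => (lam : ℂ) * deriv h s / 2) (lam * deriv (deriv h) 0 / 2) 0 :=
      (hh.deriv.differentiableAt.hasDerivAt.const_mul _).div_const _
    have h5 := (h3.mul h4).deriv
    have h6 : (fun s => EE lam h s * ((lam : ℂ) * deriv h s / 2))
      = EE lam h * fun s => (lam : ℂ) * deriv h s / 2 := rfl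
    rw [h6, h5]
    simp only [al]
    ring

/-- the exponential `exp (λ Re h)` as a complex valued function -/
noncomputable def ex (lam : ℝ) (h : ℂ → ℂ) : ℂ → ℂ := cx (fun s => Real.exp (lam * (h s).re))

theorem an_ex_real (lam : ℝ) {h : ℂ → ℂ} {s : ℂ} (hh : AnalyticAt ℂ h s) :
    AnalyticAt ℝ (fun s => Real.exp (lam * (h s).re)) s := by
  have h1 := (analyticAt_const (v := lam)).mul (an_re hh)
  exact h1.rexp

theorem an_ex (lam : ℝ) {h : ℂ → ℂ} (hh : AnalyticAt ℂ h 0) : An (ex lam h) :=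
  an_cx (an_ex_real lam hh)

theorem J_ex (lam : ℝ) {h : ℂ → ℂ} (hh : AnalyticAt ℂ h 0) (a b : ℕ) (ha : a ≤ 2) (hb : b ≤ 2) :
    J (ex lam h) a b = ((Real.exp (lam * (h 0).re) : ℝ) : ℂ) *
      (al lam (deriv h 0) (2 * deriv (deriv h) 0) a *
        conj (al lam (deriv h 0) (2 * deriv (deriv h) 0) b)) := by
  have h1 : ex lam h = HB (EE lam h) (EE lam h) := by
    funext s
    exact ex_eq lam h s
  rw [h1, J_HB (an_EE lam hh) (an_EE lam hh), iter_EE lam hh a ha, iter_EE lam hh b hb,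
    ex_eq lam h 0, HB, map_mul]
  ring

end Jets

theorem gib_sum {ι : Type*} [Fintype ι] [Nonempty ι] (y : ι → ℝ) (lam : ℝ) :
    ∑ i, gib y lam i = 1 := by
  unfold gib
  rw [← Finset.sum_div, div_self]
  exact (Finset.sum_pos (fun i _ => Real.exp_pos _) Finset.univ_nonempty).ne'

theorem cvar_eq {ι : Type*} [Fintype ι] (p : ι → ℝ) (hp : ∑ i, p i = 1) (f : ι → ℂ) :
    ((cvar p f : ℝ) : ℂ) = ∑ i, (p i : ℂ) * (f i * conj (f i))
      - (∑ i, (p i : ℂ) * f i) * (∑ i, (p i : ℂ) * conj (f i)) := by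
  have h1 : ∀ z : ℂ, (((‖z‖ ^ 2 : ℝ)) : ℂ) = z * conj z := by
    intro z
    rw [Complex.mul_conj, Complex.normSq_eq_norm_sq]
  have hp' : ∑ i, (p i : ℂ) = 1 := by exact_mod_cast hp
  have hc : conj (cmean p f) = ∑ i, (p i : ℂ) * conj (f i) := by
    simp [cmean]
  have h2 : ((cvar p f : ℝ) : ℂ) = ∑ i, (p i : ℂ) * ((f i - cmean p f) * conj (f i - cmean p f)) := by
    unfold cvar
    push_cast
    refine Finset.sum_congr rfl fun i _ => ?_
    have := h1 (f i - cmean p f)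
    push_cast at this
    rw [this]
  rw [h2, ← hc]
  have h3 : ∀ i, (p i : ℂ) * ((f i - cmean p f) * conj (f i - cmean p f)) =
      (p i : ℂ) * (f i * conj (f i)) - cmean p f * ((p i : ℂ) * conj (f i))
        - conj (cmean p f) * ((p i : ℂ) * f i) + (p i : ℂ) * (cmean p f * conj (cmean p f)) := by
    intro i
    rw [map_sub]
    ring
  simp only [h3, Finset.sum_add_distrib, Finset.sum_sub_distrib, ← Finset.mul_sum,
    ← Finset.sum_mul, hp', ← hc]
  have h4 : ∑ i, (p i : ℂ) * f i = cmean p f := rfl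
  rw [h4]
  ring

theorem cvar_smul {ι : Type*} [Fintype ι] (p : ι → ℝ) (f : ι → ℂ) (k : ℝ) :
    cvar p (fun i => k * f i) = k ^ 2 * cvar p f := by
  unfold cvar
  rw [Finset.mul_sum]
  refine Finset.sum_congr rfl fun i _ => ?_
  have h1 : cmean p (fun i => (k : ℂ) * f i) = k * cmean p f := by
    unfold cmean
    rw [Finset.mul_sum]
    refine Finset.sum_congr rfl fun i _ => ?_
    ring
  rw [h1, ← mul_sub, norm_mul, mul_pow, Complex.norm_real, Real.norm_eq_abs, sq_abs]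
  ring

/-- P3 -/
theorem lap_log_gibbs {ι : Type*} [Fintype ι] [Nonempty ι] (h : ι → ℂ → ℂ)
    (hh : ∀ i, AnalyticAt ℂ (h i) 0) (lam : ℝ) :
    let y : ι → ℝ := fun i => (h i 0).re
    let w : ι → ℂ := fun i => deriv (h i) 0
    let u : ι → ℂ := fun i => 2 * deriv (deriv (h i)) 0
    let p : ι → ℝ := gib y lam
    lap (fun s => Real.log (∑ i, Real.exp (lam * (h i s).re))) 0 = lam ^ 2 * cvar p w ∧
    lap (lap (fun s => Real.log (∑ i, Real.exp (lam * (h i s).re)))) 0 =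
      lam ^ 2 * cvar p (fun i => lam * (w i ^ 2 - 2 * cmean p w * w i) + u i)
        - 2 * lam ^ 4 * (cvar p w) ^ 2 := by
  intro y w u p
  set Z : ℂ → ℝ := fun s => ∑ i, Real.exp (lam * (h i s).re) with hZ
  have hZpos : ∀ s, 0 < Z s := fun s =>
    Finset.sum_pos (fun i _ => Real.exp_pos _) Finset.univ_nonempty
  have hZa : ∀ s, (∀ i, AnalyticAt ℂ (h i) s) → AnalyticAt ℝ Z s := fun s hs =>
    Finset.analyticAt_fun_sum _ fun i _ => an_ex_real lam (hs i)
  set L : ℂ → ℝ := fun s => Real.log (Z s) with hL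
  have hLs : ∀ s, (∀ i, AnalyticAt ℂ (h i) s) → AnalyticAt ℝ L s := fun s hs =>
    AnalyticAt.fun_comp (analyticAt_log (hZpos s)) (hZa s hs)
  have hLa : AnalyticAt ℝ L 0 := hLs 0 hh
  have hev : ∀ᶠ s in 𝓝 (0 : ℂ), ∀ i, AnalyticAt ℂ (h i) s :=
    Filter.eventually_all.2 fun i => (hh i).eventually_analyticAt
  -- jets of Z
  have hZ0 : (Z 0 : ℂ) ≠ 0 := by exact_mod_cast (hZpos 0).ne'
  set m : ℕ → ℕ → ℂ := fun a b => ∑ i, (p i : ℂ) * (al lam (w i) (u i) a * conj (al lam (w i) (u i) b))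
    with hm
  have hpZ : ∀ i, (p i : ℂ) * (Z 0 : ℂ) = ((Real.exp (lam * y i) : ℝ) : ℂ) := by
    intro i
    have : p i * Z 0 = Real.exp (lam * y i) := div_mul_cancel₀ _ (hZpos 0).ne'
    exact_mod_cast this
  have hJZ : ∀ a b, a ≤ 2 → b ≤ 2 → J (cx Z) a b = Z 0 * m a b := by
    intro a b ha hb
    have h1 : cx Z = fun s => ∑ i, ex lam (h i) s := by
      funext s
      simp [cx, hZ, ex]
    rw [h1, J_sum _ _ (fun i _ => an_ex lam (hh i)), hm, Finset.mul_sum]
    refine Finset.sum_congr rfl fun i _ => ?_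
    rw [J_ex lam (hh i) a b ha hb, ← hpZ i]
    ring
  have hps : ∑ i, p i = 1 := gib_sum y lam
  have hm00 : m 0 0 = 1 := by
    simp only [hm, al, map_one, mul_one]
    exact_mod_cast hps
  -- Z * P L = P Z
  have hPL : (fun s => cx Z s * D (-I) (cx L) s) =ᶠ[𝓝 0] D (-I) (cx Z) := by
    filter_upwards [hev] with s hs
    have e1 := (hZa s hs).differentiableAt
    have e2 : DifferentiableAt ℝ L s := (hLs s hs).differentiableAt
    have e3 : fderiv ℝ L s = (Z s)⁻¹ • fderiv ℝ Z s := (e1.hasFDerivAt.log (hZpos s).ne').fderiv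
    have hz : (Z s : ℂ) ≠ 0 := by exact_mod_cast (hZpos s).ne'
    simp only [D, fderiv_cx e1, fderiv_cx e2, e3, smul_apply, smul_eq_mul, cx]
    push_cast
    field_simp
  have hcore : ∀ a b, J (fun s => cx Z s * D (-I) (cx L) s) a b = J (cx Z) (a+1) b := by
    intro a b
    rw [J_congr hPL, J_D (an_cx (hZa 0 hh))]
  have hmul : ∀ a b, _ = J (cx Z) (a+1) b := fun a b => by
    rw [← hcore, J_mul (an_cx (hZa 0 hh)) ((an_cx hLa).D _)]
  set x : ℕ → ℕ → ℂ := fun a b => J (cx L) a b with hx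
  have hDL : ∀ a b, J (D (-I) (cx L)) a b = x (a+1) b := fun a b => J_D (an_cx hLa) a b
  have e10 := hmul 0 0
  have e11 := hmul 0 1
  have e12 := hmul 0 2
  have e20 := hmul 1 0
  have e21 := hmul 1 1
  have e22 := hmul 1 2
  simp only [Finset.Nat.antidiagonal_succ, Finset.Nat.antidiagonal_zero, hDL] at e10 e11 e12 e20 e21 e22
  simp [hJZ] at e10 e11 e12 e20 e21 e22
  have x10 : x 1 0 = m 1 0 := mul_left_cancel₀ hZ0 (by rw [hm00] at e10; linear_combination e10)
  have x11 : x 1 1 = m 1 1 - m 0 1 * m 1 0 :=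
    mul_left_cancel₀ hZ0 (by rw [hm00, x10] at e11; linear_combination e11)
  have x12 : x 1 2 = m 1 2 - 2 * m 0 1 * (m 1 1 - m 0 1 * m 1 0) - m 0 2 * m 1 0 :=
    mul_left_cancel₀ hZ0 (by rw [hm00, x10, x11] at e12; linear_combination e12)
  have x20 : x 2 0 = m 2 0 - m 1 0 * m 1 0 :=
    mul_left_cancel₀ hZ0 (by rw [hm00, x10] at e20; linear_combination e20)
  have x21 : x 2 1 = m 2 1 - m 1 0 * (m 1 1 - m 0 1 * m 1 0) - m 0 1 * (m 2 0 - m 1 0 * m 1 0)
      - m 1 1 * m 1 0 :=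
    mul_left_cancel₀ hZ0 (by rw [hm00, x10, x11, x20] at e21; linear_combination e21)
  have x22 : x 2 2 = m 2 2 - m 1 0 * x 1 2 - 2 * m 0 1 * x 2 1 - 2 * m 1 1 * x 1 1
      - m 0 2 * x 2 0 - m 1 2 * x 1 0 :=
    mul_left_cancel₀ hZ0 (by rw [hm00] at e22; linear_combination e22)
  rw [x12, x21, x11, x20, x10] at x22
  have hconj : conj (m 1 0) = m 0 1 := by
    simp only [hm, al, map_sum, map_mul, map_one, mul_one, one_mul, Complex.conj_ofReal]
  have hv1 : ((cvar p (fun i => al lam (w i) (u i) 1) : ℝ) : ℂ) = m 1 1 - m 1 0 * m 0 1 := by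
    rw [cvar_eq p hps]
    simp only [hm, al, map_one, mul_one, one_mul]
  have hv1' : cvar p (fun i => al lam (w i) (u i) 1) = (lam / 2) ^ 2 * cvar p w := by
    rw [← cvar_smul]
    congr 1
    funext i
    simp only [al]
    push_cast
    ring
  set β : ι → ℂ := fun i => al lam (w i) (u i) 2 - 2 * m 1 0 * al lam (w i) (u i) 1 with hβ
  have hm10 : m 1 0 = lam / 2 * cmean p w := by
    simp only [hm, al, map_one, mul_one, cmean, Finset.mul_sum]
    refine Finset.sum_congr rfl fun i _ => ?_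
    ring
  have hv2 : lam ^ 2 * cvar p (fun i => lam * (w i ^ 2 - 2 * cmean p w * w i) + u i)
      = 4 ^ 2 * cvar p β := by
    rw [← cvar_smul, ← cvar_smul]
    congr 1
    funext i
    simp only [hβ, hm10, al]
    push_cast
    ring
  have hcb : ∀ i, conj (β i) = conj (al lam (w i) (u i) 2)
      - 2 * m 0 1 * conj (al lam (w i) (u i) 1) := by
    intro i
    simp only [hβ, map_sub, map_mul, hconj, Complex.conj_ofNat]
  have hb1 : ∑ i, (p i : ℂ) * (β i * conj (β i)) = m 2 2 - 2 * m 0 1 * m 2 1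
      - 2 * m 1 0 * m 1 2 + 4 * m 1 0 * m 0 1 * m 1 1 := by
    simp only [hcb]
    have : ∀ i, (p i : ℂ) * (β i * (conj (al lam (w i) (u i) 2)
      - 2 * m 0 1 * conj (al lam (w i) (u i) 1))) =
      (p i : ℂ) * (al lam (w i) (u i) 2 * conj (al lam (w i) (u i) 2))
      - 2 * m 0 1 * ((p i : ℂ) * (al lam (w i) (u i) 2 * conj (al lam (w i) (u i) 1)))
      - 2 * m 1 0 * ((p i : ℂ) * (al lam (w i) (u i) 1 * conj (al lam (w i) (u i) 2)))
      + 4 * m 1 0 * m 0 1 * ((p i : ℂ) * (al lam (w i) (u i) 1 * conj (al lam (w i) (u i) 1))) := by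
      intro i
      simp only [hβ]
      ring
    simp only [this, Finset.sum_add_distrib, Finset.sum_sub_distrib, ← Finset.mul_sum]
    rfl
  have hb2 : ∑ i, (p i : ℂ) * β i = m 2 0 - 2 * m 1 0 * m 1 0 := by
    have : ∀ i, (p i : ℂ) * β i = (p i : ℂ) * (al lam (w i) (u i) 2 * conj (al lam (w i) (u i) 0))
      - 2 * m 1 0 * ((p i : ℂ) * (al lam (w i) (u i) 1 * conj (al lam (w i) (u i) 0))) := by
      intro i
      simp only [hβ, al, map_one]
      ring
    simp only [this, Finset.sum_sub_distrib, ← Finset.mul_sum]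
    rfl
  have hb3 : ∑ i, (p i : ℂ) * conj (β i) = m 0 2 - 2 * m 0 1 * m 0 1 := by
    simp only [hcb]
    have : ∀ i, (p i : ℂ) * (conj (al lam (w i) (u i) 2)
      - 2 * m 0 1 * conj (al lam (w i) (u i) 1)) =
      (p i : ℂ) * (al lam (w i) (u i) 0 * conj (al lam (w i) (u i) 2))
      - 2 * m 0 1 * ((p i : ℂ) * (al lam (w i) (u i) 0 * conj (al lam (w i) (u i) 1))) := by
      intro i
      simp only [al]
      ring
    simp only [this, Finset.sum_sub_distrib, ← Finset.mul_sum]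
    rfl
  have hvb : ((cvar p β : ℝ) : ℂ) = _ := cvar_eq p hps β
  rw [hb1, hb2, hb3] at hvb
  have hlap : lap L 0 = lam ^ 2 * cvar p w := by
    have h1 := lap_J hLa
    have h2 : J (cx L) 1 1 = x 1 1 := rfl
    rw [h2, x11] at h1
    have h3 : ((lap L 0 : ℝ) : ℂ) = ((lam ^ 2 * cvar p w : ℝ) : ℂ) := by
      have h4 : lam ^ 2 * cvar p w = 4 * cvar p (fun i => al lam (w i) (u i) 1) := by
        rw [hv1']
        ring
      rw [h4, h1]
      push_cast
      rw [hv1]
      ring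
    exact_mod_cast h3
  refine ⟨hlap, ?_⟩
  have h1 := laplap_J hLa
  have h2 : J (cx L) 2 2 = x 2 2 := rfl
  rw [h2, x22] at h1
  rw [hv2]
  have h4 : 2 * lam ^ 4 * cvar p w ^ 2
      = 32 * (cvar p (fun i => al lam (w i) (u i) 1)) ^ 2 := by
    rw [hv1']
    ring
  rw [h4]
  have h3 : ((lap (lap L) 0 : ℝ) : ℂ) = ((4 ^ 2 * cvar p β
      - 32 * (cvar p (fun i => al lam (w i) (u i) 1)) ^ 2 : ℝ) : ℂ) := by
    rw [h1]
    push_cast
    rw [hv1, hvb]
    ring
  exact_mod_cast h3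

end Pool.Agent.MP_7c31d9_gt
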