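import Pool.Agent.MP_7c31d9_gt.PairAux

/-! Bounds for the Laplacian and the bi-Laplacian of the pair potential. -/

namespace Pool.Agent.MP_7c31d9_gt

open Complex Filter Topology Finset Jets
open scoped ComplexConjugate ContDiff

namespace Jets

theorem fpair_bounds {r lam : ℝ} (hr : 0 < r) (hl : 0 < lam) (hlr : lam * r ≤ 1) (x : ℝ) :
    |fpair r x| ≤ (1 + lam * |x|) ^ 3 / lam ^ 3 ∧
    |deriv (fpair r) x| ≤ 3 * ((1 + lam * |x|) ^ 3 / lam ^ 3) * lam ∧
    |deriv (deriv (fpair r)) x| ≤ 6 * ((1 + lam * |x|) ^ 3 / lam ^ 3) * lam ^ 2 ∧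
    |deriv (deriv (deriv (fpair r))) x| ≤ 9 * ((1 + lam * |x|) ^ 3 / lam ^ 3) * lam ^ 3 := by
  obtain ⟨h1, h2, h3, -⟩ := deriv_fpair hr
  have hR := RR_pos hr x
  have hRx : |x| ≤ RR r x := by
    apply Real.le_sqrt_of_sq_le
    rw [sq_abs]
    nlinarith
  have hRr : r ≤ RR r x := by
    apply Real.le_sqrt_of_sq_le
    nlinarith [sq_nonneg x]
  have hRs : RR r x ≤ (1 + lam * |x|) / lam := by
    rw [le_div_iff₀ hl]
    have h4 : RR r x ≤ |x| + r := by
      apply Real.sqrt_le_iff.2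
      refine ⟨by positivity, ?_⟩
      have := abs_nonneg x
      nlinarith [sq_abs x]
    nlinarith
  set S := 1 + lam * |x| with hS
  have hS1 : 1 ≤ S := by
    have := mul_nonneg hl.le (abs_nonneg x)
    linarith
  have hS0 : 0 < S := by linarith
  have hSl : 0 < S / lam := by positivity
  refine ⟨?_, ?_, ?_, ?_⟩
  · rw [fpair_eq, abs_of_pos (by positivity), ← div_pow]
    exact pow_le_pow_left₀ hR.le hRs 3
  · rw [h1, abs_mul, abs_mul, abs_of_pos hR]
    have e1 : 3 * (S ^ 3 / lam ^ 3) * lam = 3 * ((S / lam) * (S / lam)) * S := by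
      field_simp
    rw [e1]
    have e2 : |x| * RR r x ≤ (S / lam) * (S / lam) :=
      mul_le_mul (hRx.trans hRs) hRs hR.le hSl.le
    have e3 : |(3 : ℝ)| = 3 := abs_of_pos (by norm_num)
    rw [e3, mul_assoc]
    calc 3 * (|x| * RR r x) ≤ 3 * ((S / lam) * (S / lam)) := by linarith
      _ ≤ 3 * ((S / lam) * (S / lam)) * S := le_mul_of_one_le_right (by positivity) hS1
  · rw [h2]
    have e1 : 6 * (S ^ 3 / lam ^ 3) * lam ^ 2 = 6 * (S / lam) * (S * S) := by
      field_simp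
    rw [e1]
    have e2 : 3 * r ^ 2 / RR r x ≤ 3 * RR r x := by
      rw [div_le_iff₀ hR]
      nlinarith
    have e3 : 0 ≤ 3 * r ^ 2 / RR r x := by positivity
    have e4 : |6 * RR r x - 3 * r ^ 2 / RR r x| ≤ 6 * RR r x := by
      rw [abs_le]
      constructor <;> linarith
    have e5 : 1 ≤ S * S := by nlinarith
    calc |6 * RR r x - 3 * r ^ 2 / RR r x| ≤ 6 * RR r x := e4
      _ ≤ 6 * (S / lam) := by linarith
      _ ≤ 6 * (S / lam) * (S * S) := le_mul_of_one_le_right (by positivity) e5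
  · rw [h3]
    have e1 : 9 * (S ^ 3 / lam ^ 3) * lam ^ 3 = 9 * S ^ 3 := by
      field_simp
    rw [e1]
    have e2 : |6 * x / RR r x| ≤ 6 := by
      rw [abs_div, abs_mul, abs_of_pos hR, div_le_iff₀ hR]
      have e3 : |(6 : ℝ)| = 6 := abs_of_pos (by norm_num)
      rw [e3]
      linarith
    have e4 : |3 * r ^ 2 * x / RR r x ^ 3| ≤ 3 := by
      rw [abs_div, abs_mul, abs_of_pos (by positivity : (0:ℝ) < RR r x ^ 3),
        abs_of_pos (by positivity : (0:ℝ) < 3 * r ^ 2), div_le_iff₀ (by positivity)]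
      have : r ^ 2 * |x| ≤ RR r x ^ 2 * RR r x :=
        mul_le_mul (pow_le_pow_left₀ hr.le hRr 2) hRx (abs_nonneg _) (by positivity)
      nlinarith
    have e5 := one_le_pow₀ (n := 3) hS1
    have e6 := abs_add_le (6 * x / RR r x) (3 * r ^ 2 * x / RR r x ^ 3)
    linarith

/-- the table of jets of `f (Re g)` up to order (2,2) -/
theorem table {f : ℝ → ℝ} {g : ℂ → ℂ} (hg : AnalyticAt ℂ g 0) (hf : ∀ x, AnalyticAt ℝ f x)
    (x : ℝ) (hx : x = (g 0).re) (γ δ : ℂ) (hγ : γ = deriv g 0 / 2)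
    (hδ : δ = deriv (deriv g) 0 / 2) :
    J (CF f g) 0 0 = (f x : ℂ) ∧ J (CF f g) 0 1 = ((deriv f x : ℝ) : ℂ) * conj γ ∧
    J (CF f g) 1 0 = ((deriv f x : ℝ) : ℂ) * γ ∧
    J (CF f g) 1 1 = ((deriv (deriv f) x : ℝ) : ℂ) * conj γ * γ ∧
    J (CF f g) 0 2 = ((deriv (deriv f) x : ℝ) : ℂ) * conj γ * conj γ
      + ((deriv f x : ℝ) : ℂ) * conj δ ∧
    J (CF f g) 2 0 = ((deriv (deriv f) x : ℝ) : ℂ) * γ * γ + ((deriv f x : ℝ) : ℂ) * δ ∧
    J (CF f g) 1 2 = ((deriv (deriv (deriv f)) x : ℝ) : ℂ) * conj γ * conj γ * γ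
      + ((deriv (deriv f) x : ℝ) : ℂ) * conj δ * γ ∧
    J (CF f g) 2 1 = ((deriv (deriv (deriv f)) x : ℝ) : ℂ) * conj γ * γ * γ
      + ((deriv (deriv f) x : ℝ) : ℂ) * conj γ * δ ∧
    J (CF f g) 2 2 = ((deriv (deriv (deriv (deriv f))) x : ℝ) : ℂ) * (conj γ * γ) ^ 2
      + (((deriv (deriv (deriv f)) x : ℝ) : ℂ) * conj δ * γ * γ
        + ((deriv (deriv (deriv f)) x : ℝ) : ℂ) * conj γ * conj γ * δ
        + ((deriv (deriv f) x : ℝ) : ℂ) * conj δ * δ) := by
  have hf1 : ∀ x, AnalyticAt ℝ (deriv f) x := fun x => (hf x).deriv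
  have hf2 : ∀ x, AnalyticAt ℝ (deriv (deriv f)) x := fun x => (hf1 x).deriv
  obtain ⟨a1, a2, a3, a4⟩ := J_CF_table hg hf
  obtain ⟨b1, b2, b3, b4⟩ := J_CF_table hg hf1
  obtain ⟨c1, c2, c3, c4⟩ := J_CF_table hg hf2
  have z : ∀ f : ℝ → ℝ, J (CF f g) 0 0 = (f x : ℂ) := by
    intro f
    rw [hx]
    rfl
  rw [← hγ, ← hδ, ← hx] at a4
  rw [← hγ, ← hx] at a3
  rw [← hγ, ← hδ, ← hx] at b4
  rw [← hγ, ← hx] at b3
  rw [← hγ, ← hx] at c3
  rw [← hγ, ← hδ, ← hx] at c4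
  simp only [← hγ, ← hδ] at a1 a2 b1 b2
  refine ⟨z f, a3, ?_, ?_, ?_, ?_, ?_, ?_, ?_⟩
  · rw [a1, z]
  · rw [a1, b3]
  · rw [a4, b3]
  · rw [a2, b1, z, z]
  · rw [a1, b4, c3]; ring
  · rw [a2, b1, c3, b3]
  · rw [a2, b1, c4, b4, c3]
    have := (J_CF_table hg (fun x => (hf2 x).deriv)).2.2.1
    rw [← hγ, ← hx] at this
    rw [this]
    ring

/-- truncated array: the main term removed -/
noncomputable def TA (f : ℝ → ℝ) (g : ℂ → ℂ) (a b : ℕ) : ℂ :=
  J (CF f g) a b - if a = 2 ∧ b = 2 then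
    ((deriv (deriv (deriv (deriv f))) (g 0).re : ℝ) : ℂ) *
      (conj (deriv g 0 / 2) * (deriv g 0 / 2)) ^ 2 else 0

theorem TA_BA1 {f : ℝ → ℝ} {g : ℂ → ℂ} (hg : AnalyticAt ℂ g 0) (hf : ∀ x, AnalyticAt ℝ f x)
    {ρ lam μ : ℝ} (hρ : 0 ≤ ρ) (hl : 0 < lam) (hμ : 0 ≤ μ)
    (h0 : |f (g 0).re| ≤ ρ) (h1 : |deriv f (g 0).re| ≤ 3 * ρ * lam)
    (h2 : |deriv (deriv f) (g 0).re| ≤ 6 * ρ * lam ^ 2) (hγ : ‖deriv g 0 / 2‖ ≤ μ / lam) :
    BA 1 (TA f g) (24 * ρ) μ := by
  obtain ⟨t00, t01, t10, t11, -⟩ := table hg hf _ rfl _ _ rfl rfl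
  have n0 : ‖((f (g 0).re : ℝ) : ℂ)‖ ≤ ρ := by rw [Complex.norm_real]; exact h0
  have n1 : ‖((deriv f (g 0).re : ℝ) : ℂ)‖ ≤ 3 * ρ * lam := by rw [Complex.norm_real]; exact h1
  have n2 : ‖((deriv (deriv f) (g 0).re : ℝ) : ℂ)‖ ≤ 6 * ρ * lam ^ 2 := by
    rw [Complex.norm_real]; exact h2
  have hγ' : ‖conj (deriv g 0 / 2)‖ ≤ μ / lam := by rw [RCLike.norm_conj]; exact hγ
  intro a ha b hb
  have e : ¬ (a = 2 ∧ b = 2) := by omega
  unfold TA
  rw [if_neg e, sub_zero]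
  interval_cases a <;> interval_cases b
  · rw [t00]
    simp only [add_zero, pow_zero, mul_one]
    linarith
  · rw [t01]
    refine (norm_mul_le_of_le n1 hγ').trans ?_
    have : 3 * ρ * lam * (μ / lam) = 3 * (ρ * μ) := by field_simp
    rw [this]
    have := mul_nonneg hρ hμ
    simp only [zero_add, pow_one]
    nlinarith
  · rw [t10]
    refine (norm_mul_le_of_le n1 hγ).trans ?_
    have : 3 * ρ * lam * (μ / lam) = 3 * (ρ * μ) := by field_simp
    rw [this]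
    have := mul_nonneg hρ hμ
    simp only [add_zero, pow_one]
    nlinarith
  · rw [t11]
    refine (norm_mul_le_of_le (norm_mul_le_of_le n2 hγ') hγ).trans ?_
    have : 6 * ρ * lam ^ 2 * (μ / lam) * (μ / lam) = 6 * (ρ * μ ^ 2) := by field_simp
    rw [this]
    have : 0 ≤ ρ * μ ^ 2 := by positivity
    norm_num
    nlinarith

theorem TA_BA2 {f : ℝ → ℝ} {g : ℂ → ℂ} (hg : AnalyticAt ℂ g 0) (hf : ∀ x, AnalyticAt ℝ f x)
    {ρ lam μ : ℝ} (hρ : 0 ≤ ρ) (hl : 0 < lam) (hμ : 0 ≤ μ)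
    (h0 : |f (g 0).re| ≤ ρ) (h1 : |deriv f (g 0).re| ≤ 3 * ρ * lam)
    (h2 : |deriv (deriv f) (g 0).re| ≤ 6 * ρ * lam ^ 2)
    (h3 : |deriv (deriv (deriv f)) (g 0).re| ≤ 9 * ρ * lam ^ 3)
    (hγ : ‖deriv g 0 / 2‖ ≤ μ / lam) (hδ : ‖deriv (deriv g) 0 / 2‖ ≤ μ ^ 2 / lam) :
    BA 2 (TA f g) (24 * ρ) μ := by
  have hb1 := TA_BA1 hg hf hρ hl hμ h0 h1 h2 hγ
  obtain ⟨t00, t01, t10, t11, t02, t20, t12, t21, t22⟩ := table hg hf _ rfl _ _ rfl rfl
  have n1 : ‖((deriv f (g 0).re : ℝ) : ℂ)‖ ≤ 3 * ρ * lam := by rw [Complex.norm_real]; exact h1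
  have n2 : ‖((deriv (deriv f) (g 0).re : ℝ) : ℂ)‖ ≤ 6 * ρ * lam ^ 2 := by
    rw [Complex.norm_real]; exact h2
  have n3 : ‖((deriv (deriv (deriv f)) (g 0).re : ℝ) : ℂ)‖ ≤ 9 * ρ * lam ^ 3 := by
    rw [Complex.norm_real]; exact h3
  have hγ' : ‖conj (deriv g 0 / 2)‖ ≤ μ / lam := by rw [RCLike.norm_conj]; exact hγ
  have hδ' : ‖conj (deriv (deriv g) 0 / 2)‖ ≤ μ ^ 2 / lam := by rw [RCLike.norm_conj]; exact hδ
  have q2 : 0 ≤ ρ * μ ^ 2 := by positivity
  have q3 : 0 ≤ ρ * μ ^ 3 := by positivity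
  have q4 : 0 ≤ ρ * μ ^ 4 := by positivity
  intro a ha b hb
  by_cases hle : a ≤ 1 ∧ b ≤ 1
  · exact hb1 a hle.1 b hle.2
  unfold TA
  interval_cases a <;> interval_cases b
  · simp at hle
  · simp at hle
  · -- 0 2
    rw [if_neg (by omega), sub_zero, t02]
    refine (norm_add_le_of_le (norm_mul_le_of_le (norm_mul_le_of_le n2 hγ') hγ')
      (norm_mul_le_of_le n1 hδ')).trans ?_
    have : 6 * ρ * lam ^ 2 * (μ / lam) * (μ / lam) + 3 * ρ * lam * (μ ^ 2 / lam)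
      = 9 * (ρ * μ ^ 2) := by field_simp; ring
    rw [this]
    norm_num
    nlinarith
  · simp at hle
  · simp at hle
  · -- 1 2
    rw [if_neg (by omega), sub_zero, t12]
    refine (norm_add_le_of_le (norm_mul_le_of_le (norm_mul_le_of_le (norm_mul_le_of_le n3 hγ') hγ') hγ)
      (norm_mul_le_of_le (norm_mul_le_of_le n2 hδ') hγ)).trans ?_
    have : 9 * ρ * lam ^ 3 * (μ / lam) * (μ / lam) * (μ / lam)
      + 6 * ρ * lam ^ 2 * (μ ^ 2 / lam) * (μ / lam) = 15 * (ρ * μ ^ 3) := by field_simp; ring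
    rw [this]
    norm_num
    nlinarith
  · -- 2 0
    rw [if_neg (by omega), sub_zero, t20]
    refine (norm_add_le_of_le (norm_mul_le_of_le (norm_mul_le_of_le n2 hγ) hγ)
      (norm_mul_le_of_le n1 hδ)).trans ?_
    have : 6 * ρ * lam ^ 2 * (μ / lam) * (μ / lam) + 3 * ρ * lam * (μ ^ 2 / lam)
      = 9 * (ρ * μ ^ 2) := by field_simp; ring
    rw [this]
    norm_num
    nlinarith
  · -- 2 1
    rw [if_neg (by omega), sub_zero, t21]
    refine (norm_add_le_of_le (norm_mul_le_of_le (norm_mul_le_of_le (norm_mul_le_of_le n3 hγ') hγ) hγ)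
      (norm_mul_le_of_le (norm_mul_le_of_le n2 hγ') hδ)).trans ?_
    have : 9 * ρ * lam ^ 3 * (μ / lam) * (μ / lam) * (μ / lam)
      + 6 * ρ * lam ^ 2 * (μ / lam) * (μ ^ 2 / lam) = 15 * (ρ * μ ^ 3) := by field_simp; ring
    rw [this]
    norm_num
    nlinarith
  · -- 2 2
    rw [if_pos (by omega), t22, add_sub_cancel_left]
    refine (norm_add_le_of_le (norm_add_le_of_le
      (norm_mul_le_of_le (norm_mul_le_of_le (norm_mul_le_of_le n3 hδ') hγ) hγ)
      (norm_mul_le_of_le (norm_mul_le_of_le (norm_mul_le_of_le n3 hγ') hγ') hδ))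
      (norm_mul_le_of_le (norm_mul_le_of_le n2 hδ') hδ)).trans ?_
    have : 9 * ρ * lam ^ 3 * (μ ^ 2 / lam) * (μ / lam) * (μ / lam)
      + 9 * ρ * lam ^ 3 * (μ / lam) * (μ / lam) * (μ ^ 2 / lam)
      + 6 * ρ * lam ^ 2 * (μ ^ 2 / lam) * (μ ^ 2 / lam) = 24 * (ρ * μ ^ 4) := by field_simp; ring
    rw [this]
    norm_num
    nlinarith

/-! ### the Gibbs factor -/

/-- partition function -/
noncomputable def Zr {ι : Type*} [Fintype ι] (lam : ℝ) (h : ι → ℂ → ℂ) (s : ℂ) : ℝ :=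
  ∑ i, Real.exp (lam * (h i s).re)

theorem Zr_pos {ι : Type*} [Fintype ι] [Nonempty ι] (lam : ℝ) (h : ι → ℂ → ℂ) (s : ℂ) :
    0 < Zr lam h s :=
  Finset.sum_pos (fun _ _ => Real.exp_pos _) Finset.univ_nonempty

theorem an_Zr {ι : Type*} [Fintype ι] (lam : ℝ) {h : ι → ℂ → ℂ} {s : ℂ}
    (hs : ∀ i, AnalyticAt ℂ (h i) s) : AnalyticAt ℝ (Zr lam h) s :=
  Finset.analyticAt_fun_sum _ fun i _ => an_ex_real lam (hs i)

/-- inverse partition function, complex valued -/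
noncomputable def Gi {ι : Type*} [Fintype ι] (lam : ℝ) (h : ι → ℂ → ℂ) : ℂ → ℂ :=
  cx (fun s => (Zr lam h s)⁻¹)

theorem an_Gi {ι : Type*} [Fintype ι] [Nonempty ι] (lam : ℝ) {h : ι → ℂ → ℂ}
    (hs : ∀ i, AnalyticAt ℂ (h i) 0) : An (Gi lam h) :=
  an_cx ((an_Zr lam hs).inv (Zr_pos lam h 0).ne')

/-- pair Gibbs factor -/
noncomputable def Ef {ι : Type*} [Fintype ι] (lam : ℝ) (h : ι → ℂ → ℂ) (i j : ι) (s : ℂ) : ℂ :=
  (ex lam (h i) s * ex lam (h j) s) * (Gi lam h s * Gi lam h s)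

theorem an_Ef {ι : Type*} [Fintype ι] [Nonempty ι] (lam : ℝ) {h : ι → ℂ → ℂ}
    (hs : ∀ i, AnalyticAt ℂ (h i) 0) (i j : ι) : An (Ef lam h i j) :=
  ((an_ex lam (hs i)).mul (an_ex lam (hs j))).mul ((an_Gi lam hs).mul (an_Gi lam hs))

theorem gib_le_one {ι : Type*} [Fintype ι] [Nonempty ι] (y : ι → ℝ) (lam : ℝ) (i : ι) :
    0 < gib y lam i ∧ gib y lam i ≤ 1 := by
  have hZ : 0 < ∑ j, Real.exp (lam * y j) :=
    Finset.sum_pos (fun i _ => Real.exp_pos _) Finset.univ_nonempty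
  refine ⟨div_pos (Real.exp_pos _) hZ, ?_⟩
  unfold gib
  rw [div_le_one hZ]
  exact Finset.single_le_sum (f := fun j => Real.exp (lam * y j))
    (fun j _ => (Real.exp_pos _).le) (Finset.mem_univ i)

theorem BA.congr {N : ℕ} {A B : ℕ → ℕ → ℂ} {c μ : ℝ} (h : BA N A c μ) (hAB : ∀ a b, A a b = B a b) :
    BA N B c μ := fun a ha b hb => by rw [← hAB]; exact h a ha b hb

theorem E_BA {ι : Type*} [Fintype ι] [Nonempty ι] (lam : ℝ) {h : ι → ℂ → ℂ}
    (hh : ∀ i, AnalyticAt ℂ (h i) 0) {N : ℕ} (hN : N ≤ 2) (hN1 : 1 ≤ N) (t : ι → ℝ)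
    (ht : ∀ k, 0 ≤ t k)
    (hal : ∀ k, ∀ a ≤ N, ‖al lam (deriv (h k) 0) (2 * deriv (deriv (h k)) 0) a‖ ≤ t k ^ a)
    {μ : ℝ} (hμ : 0 ≤ μ) (i j : ι) (hi : t i ≤ μ) (hj : t j ≤ μ)
    (hk : ∀ k, gib (fun i => (h i 0).re) lam k * t k ^ (2 * N) ≤ μ ^ (2 * N)) :
    BA N (J (Ef lam h i j)) (gib (fun i => (h i 0).re) lam i * gib (fun i => (h i 0).re) lam j)
      (24 * (Fintype.card ι * μ)) := by
  set p := gib (fun i => (h i 0).re) lam with hp
  set n : ℝ := (Fintype.card ι : ℝ) with hn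
  have hn1 : 1 ≤ n := by
    have : 1 ≤ Fintype.card ι := Fintype.card_pos
    rw [hn]
    exact_mod_cast this
  have hZ := Zr_pos lam h 0
  have hnμ : μ ≤ n * μ := le_mul_of_one_le_left hμ hn1
  have hnμ0 : 0 ≤ n * μ := by positivity
  -- exponentials
  have hex : ∀ k, t k ≤ μ → BA N (J (ex lam (h k))) (Real.exp (lam * (h k 0).re)) (n * μ) := by
    intro k hk' a ha b hb
    rw [J_ex lam (hh k) a b (ha.trans hN) (hb.trans hN), norm_mul, norm_mul, RCLike.norm_conj,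
      Complex.norm_real, Real.norm_eq_abs, abs_of_pos (Real.exp_pos _)]
    refine mul_le_mul_of_nonneg_left ?_ (Real.exp_pos _).le
    calc _ ≤ t k ^ a * t k ^ b := mul_le_mul (hal k a ha) (hal k b hb) (norm_nonneg _)
          (pow_nonneg (ht k) _)
      _ = t k ^ (a + b) := (pow_add _ _ _).symm
      _ ≤ (n * μ) ^ (a + b) := pow_le_pow_left₀ (ht k) (hk'.trans hnμ) _
  -- interpolation
  have hint : ∀ k, ∀ m, m ≤ 2 * N → p k * t k ^ m ≤ μ ^ m := by
    intro k m hm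
    obtain ⟨hp0, hp1⟩ := gib_le_one (fun i => (h i 0).re) lam k
    rw [← hp] at hp0 hp1
    have h1 : (p k * t k ^ m) ^ (2 * N) ≤ (μ ^ m) ^ (2 * N) := by
      calc (p k * t k ^ m) ^ (2 * N) = p k ^ (2 * N) * (t k ^ m) ^ (2 * N) := mul_pow _ _ _
        _ ≤ p k ^ m * (t k ^ m) ^ (2 * N) := by
          refine mul_le_mul_of_nonneg_right (pow_le_pow_of_le_one hp0.le hp1 hm) ?_
          exact pow_nonneg (pow_nonneg (ht k) _) _
        _ = (p k * t k ^ (2 * N)) ^ m := by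
          rw [mul_pow, ← pow_mul, ← pow_mul, mul_comm m]
        _ ≤ (μ ^ (2 * N)) ^ m := pow_le_pow_left₀ (mul_nonneg hp0.le (pow_nonneg (ht k) _)) (hk k) m
        _ = (μ ^ m) ^ (2 * N) := by rw [← pow_mul, ← pow_mul, mul_comm]
    exact le_of_pow_le_pow_left₀ (by omega) (pow_nonneg hμ _) h1
  -- Z
  have hJZ0 : J (cx (Zr lam h)) 0 0 = ((Zr lam h 0 : ℝ) : ℂ) := rfl
  have hZB : BA N (J (cx (Zr lam h))) (Zr lam h 0) (n * μ) := by
    intro a ha b hb
    by_cases h0 : a = 0 ∧ b = 0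
    · obtain ⟨rfl, rfl⟩ := h0
      rw [hJZ0, Complex.norm_real, Real.norm_eq_abs, abs_of_pos hZ]
      simp
    have h1 : cx (Zr lam h) = fun s => ∑ i, ex lam (h i) s := by
      funext s
      simp [cx, Zr, ex]
    rw [h1, J_sum _ _ (fun i _ => an_ex lam (hh i))]
    have hpZ : ∀ k, Real.exp (lam * (h k 0).re) = Zr lam h 0 * p k := by
      intro k
      have : p k = Real.exp (lam * (h k 0).re) / Zr lam h 0 := rfl
      rw [this]
      field_simp
    have h2 : ∀ k ∈ Finset.univ, ‖J (ex lam (h k)) a b‖ ≤ Zr lam h 0 * μ ^ (a + b) := by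
      intro k _
      rw [J_ex lam (hh k) a b (ha.trans hN) (hb.trans hN), norm_mul, norm_mul, RCLike.norm_conj,
        Complex.norm_real, Real.norm_eq_abs, abs_of_pos (Real.exp_pos _), hpZ k, mul_assoc]
      refine mul_le_mul_of_nonneg_left ?_ hZ.le
      have hp0 := (gib_le_one (fun i => (h i 0).re) lam k).1
      rw [← hp] at hp0
      calc _ ≤ p k * (t k ^ a * t k ^ b) := by
            refine mul_le_mul_of_nonneg_left ?_ hp0.le
            exact mul_le_mul (hal k a ha) (hal k b hb) (norm_nonneg _) (pow_nonneg (ht k) _)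
        _ = p k * t k ^ (a + b) := by rw [pow_add]
        _ ≤ μ ^ (a + b) := hint k _ (by omega)
    refine (norm_sum_le _ _).trans ((Finset.sum_le_sum h2).trans ?_)
    rw [Finset.sum_const, Finset.card_univ, nsmul_eq_mul, ← hn, mul_pow]
    have h3 : n ≤ n ^ (a + b) := le_self_pow₀ hn1 (by omega)
    have h4 : 0 ≤ Zr lam h 0 * μ ^ (a + b) := by positivity
    calc n * (Zr lam h 0 * μ ^ (a + b)) ≤ n ^ (a + b) * (Zr lam h 0 * μ ^ (a + b)) :=
          mul_le_mul_of_nonneg_right h3 h4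
      _ = _ := by ring
  -- inverse
  have hGB : BA N (J (Gi lam h)) (Zr lam h 0)⁻¹ (6 * (n * μ)) := by
    refine BA.inv hN hZ hnμ0 hJZ0 hZB ?_ ?_
    · have : J (Gi lam h) 0 0 = (((Zr lam h 0)⁻¹ : ℝ) : ℂ) := rfl
      rw [this]
      push_cast
      rfl
    · intro a b hab
      rw [← J_mul' (an_cx (an_Zr lam hh)) (an_Gi lam hh)]
      have h1 : (fun s => cx (Zr lam h) s * Gi lam h s) = fun _ => (1 : ℂ) := by
        funext s
        have := (Zr_pos lam h s).ne'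
        have h2 : ((Zr lam h s : ℝ) : ℂ) ≠ 0 := by exact_mod_cast this
        simp only [cx, Gi]
        push_cast
        exact mul_inv_cancel₀ h2
      rw [h1]
      exact J_const 1 a b hab
  have h1 := (hex i hi).cp (hex j hj) (Real.exp_pos _).le hnμ0
  have h2 := hGB.cp hGB (inv_nonneg.2 hZ.le) (by positivity)
  have h3 := h1.mono (by positivity) (by positivity)
    (by linarith : 2 * (n * μ) ≤ 2 * (6 * (n * μ)))
  have h4 := h3.cp h2 (by positivity) (by positivity)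
  have h5 : Real.exp (lam * (h i 0).re) * Real.exp (lam * (h j 0).re)
      * ((Zr lam h 0)⁻¹ * (Zr lam h 0)⁻¹) = p i * p j := by
    have e1 : p i = Real.exp (lam * (h i 0).re) / Zr lam h 0 := rfl
    have e2 : p j = Real.exp (lam * (h j 0).re) / Zr lam h 0 := rfl
    rw [e1, e2]
    field_simp
  have h6 : 2 * (2 * (6 * (n * μ))) = 24 * (n * μ) := by ring
  rw [h5, h6] at h4
  refine h4.congr fun a b => ?_
  have e1 := J_mul' ((an_ex lam (hh i)).mul (an_ex lam (hh j)))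
    ((an_Gi lam hh).mul (an_Gi lam hh)) a b
  have e2 : J (fun s => ex lam (h i) s * ex lam (h j) s) = cp (J (ex lam (h i))) (J (ex lam (h j))) :=
    funext fun a => funext fun b => J_mul' (an_ex lam (hh i)) (an_ex lam (hh j)) a b
  have e3 : J (fun s => Gi lam h s * Gi lam h s) = cp (J (Gi lam h)) (J (Gi lam h)) :=
    funext fun a => funext fun b => J_mul' (an_Gi lam hh) (an_Gi lam hh) a b
  rw [e2, e3] at e1
  exact e1.symm

/-! ### the pair potential along germs -/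

theorem cx_Gm {ι : Type*} [Fintype ι] (r lam : ℝ) (h : ι → ℂ → ℂ) :
    cx (fun s => Gm r lam (fun i => (h i s).re)) =
      fun s => ∑ i, ∑ j, CF (fpair r) (fun s => h i s - h j s) s * Ef lam h i j s := by
  funext s
  unfold cx Gm
  push_cast
  refine Finset.sum_congr rfl fun i _ => Finset.sum_congr rfl fun j _ => ?_
  have e1 : ∀ i, gib (fun i => (h i s).re) lam i = Real.exp (lam * (h i s).re) * (Zr lam h s)⁻¹ :=
    fun i => div_eq_mul_inv _ _
  rw [e1, e1]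
  unfold Ef CF ex Gi cx
  rw [Complex.sub_re]
  push_cast
  ring

theorem an_pair {ι : Type*} [Fintype ι] [Nonempty ι] {r lam : ℝ} (hr : 0 < r) {h : ι → ℂ → ℂ}
    (hh : ∀ i, AnalyticAt ℂ (h i) 0) (i j : ι) :
    An (fun s => CF (fpair r) (fun s => h i s - h j s) s * Ef lam h i j s) :=
  (an_CF ((hh i).sub (hh j)) (an_fpair hr _)).mul (an_Ef lam hh i j)

theorem an_Gm {ι : Type*} [Fintype ι] [Nonempty ι] {r lam : ℝ} (hr : 0 < r) {h : ι → ℂ → ℂ}
    (hh : ∀ i, AnalyticAt ℂ (h i) 0) :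
    AnalyticAt ℝ (fun s => Gm r lam (fun i => (h i s).re)) 0 := by
  have h1 : An (cx (fun s => Gm r lam (fun i => (h i s).re))) := by
    rw [cx_Gm]
    exact an_sum _ _ fun i _ => an_sum _ (fun j s =>
      CF (fpair r) (fun s => h i s - h j s) s * Ef lam h i j s) fun j _ => an_pair hr hh i j
  have h2 := (Complex.reCLM.analyticAt _).comp h1
  exact h2

theorem J_Gm {ι : Type*} [Fintype ι] [Nonempty ι] {r lam : ℝ} (hr : 0 < r) {h : ι → ℂ → ℂ}
    (hh : ∀ i, AnalyticAt ℂ (h i) 0) (a b : ℕ) :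
    J (cx (fun s => Gm r lam (fun i => (h i s).re))) a b = ∑ i, ∑ j,
      cp (J (CF (fpair r) (fun s => h i s - h j s))) (J (Ef lam h i j)) a b := by
  rw [cx_Gm, J_sum _ _ (fun i _ => an_sum _ (fun j s =>
      CF (fpair r) (fun s => h i s - h j s) s * Ef lam h i j s) fun j _ => an_pair hr hh i j)]
  refine Finset.sum_congr rfl fun i _ => ?_
  rw [J_sum _ _ (fun j _ => an_pair hr hh i j)]
  refine Finset.sum_congr rfl fun j _ => ?_
  exact J_mul' (an_CF ((hh i).sub (hh j)) (an_fpair hr _)) (an_Ef lam hh i j) a b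

theorem Ef_zero {ι : Type*} [Fintype ι] [Nonempty ι] (lam : ℝ) (h : ι → ℂ → ℂ) (i j : ι) :
    J (Ef lam h i j) 0 0 = ((gib (fun i => (h i 0).re) lam i * gib (fun i => (h i 0).re) lam j : ℝ) : ℂ) := by
  have e1 : ∀ i, gib (fun i => (h i 0).re) lam i = Real.exp (lam * (h i 0).re) * (Zr lam h 0)⁻¹ :=
    fun i => div_eq_mul_inv _ _
  rw [e1, e1, J_zero]
  unfold Ef ex Gi cx
  push_cast
  ring

theorem cp_TA1 (f : ℝ → ℝ) (g : ℂ → ℂ) (B : ℕ → ℕ → ℂ) :
    cp (J (CF f g)) B 1 1 = cp (TA f g) B 1 1 := by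
  unfold cp
  refine Finset.sum_congr rfl fun q _ => Finset.sum_congr rfl fun p hp => ?_
  have := Finset.HasAntidiagonal.mem_antidiagonal.1 hp
  have e : ¬ (p.1 = 2 ∧ q.1 = 2) := by omega
  unfold TA
  rw [if_neg e, sub_zero]

theorem cp_TA2 (f : ℝ → ℝ) (g : ℂ → ℂ) (B : ℕ → ℕ → ℂ) :
    cp (J (CF f g)) B 2 2 = cp (TA f g) B 2 2 +
      ((deriv (deriv (deriv (deriv f))) (g 0).re : ℝ) : ℂ) *
      (conj (deriv g 0 / 2) * (deriv g 0 / 2)) ^ 2 * B 0 0 := by
  simp only [cp, Finset.Nat.antidiagonal_succ, Finset.Nat.antidiagonal_zero]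
  simp [TA]
  ring

theorem gib_pair {ι : Type*} [Fintype ι] [Nonempty ι] (y : ι → ℝ) {lam : ℝ} (hl : 0 < lam)
    (i j : ι) : gib y lam i * gib y lam j * (1 + lam * |y i - y j|) ^ 3 ≤
      216 * (Real.sqrt (gib y lam i) * Real.sqrt (gib y lam j)) := by
  have hpos : ∀ i, 0 < gib y lam i := fun i => (gib_le_one y lam i).1
  have hle : ∀ i, gib y lam i ≤ 1 := fun i => (gib_le_one y lam i).2
  have hZ : 0 < ∑ j, Real.exp (lam * y j) :=
    Finset.sum_pos (fun i _ => Real.exp_pos _) Finset.univ_nonempty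
  have hcomp : ∀ i j, gib y lam j = gib y lam i * Real.exp (-(lam * (y i - y j))) := by
    intro i j
    unfold gib
    rw [div_mul_eq_mul_div, ← Real.exp_add]
    congr 2
    ring
  have h1 : gib y lam i * gib y lam j ≤ Real.exp (-(lam * |y i - y j|)) := by
    rcases le_total (y j) (y i) with h | h
    · rw [abs_of_nonneg (sub_nonneg.2 h), hcomp i j, ← mul_assoc]
      have : gib y lam i * gib y lam i ≤ 1 := mul_le_one₀ (hle i) (hpos i).le (hle i)
      exact mul_le_of_le_one_left (Real.exp_pos _).le this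
    · rw [abs_of_nonpos (sub_nonpos.2 h), hcomp j i]
      have : gib y lam j * gib y lam j ≤ 1 := mul_le_one₀ (hle j) (hpos j).le (hle j)
      have e : -(lam * -(y i - y j)) = -(lam * (y j - y i)) := by ring
      rw [e]
      calc gib y lam j * Real.exp (-(lam * (y j - y i))) * gib y lam j
          = gib y lam j * gib y lam j * Real.exp (-(lam * (y j - y i))) := by ring
        _ ≤ _ := mul_le_of_le_one_left (Real.exp_pos _).le this
  set T := lam * |y i - y j| with hT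
  have hT0 : 0 ≤ T := by positivity
  have h2 : Real.sqrt (gib y lam i) * Real.sqrt (gib y lam j) ≤ Real.exp (-T / 2) := by
    rw [← Real.sqrt_mul (hpos i).le, Real.exp_half]
    exact Real.sqrt_le_sqrt h1
  have h3 : (1 + T) ^ 3 ≤ 216 * Real.exp (T / 2) := by
    have h4 : 1 + T ≤ 6 * Real.exp (T / 6) := by
      have := Real.add_one_le_exp (T / 6)
      linarith
    calc (1 + T) ^ 3 ≤ (6 * Real.exp (T / 6)) ^ 3 := pow_le_pow_left₀ (by linarith) h4 3
      _ = 216 * Real.exp (T / 2) := by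
        rw [mul_pow, ← Real.exp_nat_mul]
        norm_num
        ring_nf
  set Q := Real.sqrt (gib y lam i) * Real.sqrt (gib y lam j) with hQ
  have hQ0 : 0 ≤ Q := by positivity
  have h5 : gib y lam i * gib y lam j = Q * Q := by
    rw [hQ]
    have e1 := Real.mul_self_sqrt (hpos i).le
    have e2 := Real.mul_self_sqrt (hpos j).le
    calc _ = (Real.sqrt (gib y lam i) * Real.sqrt (gib y lam i)) *
          (Real.sqrt (gib y lam j) * Real.sqrt (gib y lam j)) := by rw [e1, e2]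
      _ = _ := by ring
  rw [h5]
  have h6 : Q * (1 + T) ^ 3 ≤ 216 := by
    calc Q * (1 + T) ^ 3 ≤ Real.exp (-T / 2) * (216 * Real.exp (T / 2)) :=
          mul_le_mul h2 h3 (by positivity) (Real.exp_pos _).le
      _ = 216 * (Real.exp (-T / 2) * Real.exp (T / 2)) := by ring
      _ = 216 := by
        rw [← Real.exp_add]
        have : -T / 2 + T / 2 = 0 := by ring
        rw [this, Real.exp_zero, mul_one]
  calc Q * Q * (1 + T) ^ 3 = (Q * (1 + T) ^ 3) * Q := by ring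
    _ ≤ 216 * Q := mul_le_mul_of_nonneg_right h6 hQ0

theorem sum_pairs {ι : Type*} [Fintype ι] (p τ : ι → ℝ) (hp : ∀ i, 0 ≤ p i) (hp1 : ∀ i, p i ≤ 1)
    (hτ : ∀ i, 0 ≤ τ i) :
    ∑ i, ∑ j, (Real.sqrt (p i) * Real.sqrt (p j)) * (τ i + τ j + ∑ k, p k * τ k) ≤
      (2 * Fintype.card ι + (Fintype.card ι : ℝ) ^ 2) * ∑ k, Real.sqrt (p k) * τ k := by
  have hs1 : ∀ i, Real.sqrt (p i) ≤ 1 := fun i =>
    Real.sqrt_le_iff.2 ⟨zero_le_one, by rw [one_pow]; exact hp1 i⟩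
  have hs0 : ∀ i, 0 ≤ Real.sqrt (p i) := fun i => Real.sqrt_nonneg _
  have hps : ∀ k, p k * τ k ≤ Real.sqrt (p k) * τ k := by
    intro k
    refine mul_le_mul_of_nonneg_right ?_ (hτ k)
    have := Real.mul_self_sqrt (hp k)
    nlinarith [hs0 k, hs1 k]
  have hS : ∑ k, p k * τ k ≤ ∑ k, Real.sqrt (p k) * τ k := Finset.sum_le_sum fun k _ => hps k
  set S := ∑ k, Real.sqrt (p k) * τ k with hSdef
  have hSP : 0 ≤ ∑ k, p k * τ k := Finset.sum_nonneg fun k _ => mul_nonneg (hp k) (hτ k)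
  have hb : ∀ i j, (Real.sqrt (p i) * Real.sqrt (p j)) * (τ i + τ j + ∑ k, p k * τ k) ≤
      Real.sqrt (p i) * τ i + Real.sqrt (p j) * τ j + S := by
    intro i j
    have e1 : Real.sqrt (p i) * Real.sqrt (p j) * τ i ≤ Real.sqrt (p i) * τ i := by
      have := mul_nonneg (hs0 i) (hτ i)
      nlinarith [hs1 j, hs0 j]
    have e2 : Real.sqrt (p i) * Real.sqrt (p j) * τ j ≤ Real.sqrt (p j) * τ j := by
      have := mul_nonneg (hs0 j) (hτ j)
      nlinarith [hs1 i, hs0 i]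
    have e3 : Real.sqrt (p i) * Real.sqrt (p j) * ∑ k, p k * τ k ≤ S := by
      have : Real.sqrt (p i) * Real.sqrt (p j) ≤ 1 := mul_le_one₀ (hs1 i) (hs0 j) (hs1 j)
      exact (mul_le_of_le_one_left hSP this).trans hS
    nlinarith
  refine (Finset.sum_le_sum fun i _ => Finset.sum_le_sum fun j _ => hb i j).trans (le_of_eq ?_)
  simp only [Finset.sum_add_distrib, Finset.sum_const, Finset.card_univ, nsmul_eq_mul,
    ← Finset.mul_sum]
  rw [← hSdef]
  ring

/-- derivatives of differences -/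
theorem deriv_diff {f g : ℂ → ℂ} (hf : AnalyticAt ℂ f 0) (hg : AnalyticAt ℂ g 0) :
    deriv (fun s => f s - g s) 0 = deriv f 0 - deriv g 0 ∧
    deriv (deriv (fun s => f s - g s)) 0 = deriv (deriv f) 0 - deriv (deriv g) 0 := by
  have h1 : deriv (fun s => f s - g s) =ᶠ[𝓝 0] fun s => deriv f s - deriv g s := by
    filter_upwards [hf.eventually_analyticAt, hg.eventually_analyticAt] with s h1 h2
    exact deriv_fun_sub h1.differentiableAt h2.differentiableAt
  refine ⟨h1.self_of_nhds, ?_⟩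
  rw [h1.deriv_eq]
  exact deriv_fun_sub hf.deriv.differentiableAt hg.deriv.differentiableAt

/-- the constant -/
noncomputable def Cst (n : ℝ) : ℝ := 16 * 24 * 216 * (48 * n) ^ 4 * (2 * n + n ^ 2)

theorem lap_Gm0 {ι : Type*} [Fintype ι] [Nonempty ι] {r lam : ℝ} (hr : 0 < r) (hl : 0 < lam)
    (hlr : lam * r ≤ 1) {h : ι → ℂ → ℂ} (hh : ∀ i, AnalyticAt ℂ (h i) 0) :
    |lap (fun s => Gm r lam (fun i => (h i s).re)) 0| ≤ Cst (Fintype.card ι) / lam *
        ∑ i, Real.sqrt (gib (fun i => (h i 0).re) lam i) * ‖deriv (h i) 0‖ ^ 2 := by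
  set p := gib (fun i => (h i 0).re) lam with hp
  set n : ℝ := (Fintype.card ι : ℝ) with hn
  have hn1 : 1 ≤ n := by
    have : 1 ≤ Fintype.card ι := Fintype.card_pos
    rw [hn]
    exact_mod_cast this
  have hp0 : ∀ i, 0 < p i := fun i => (gib_le_one _ lam i).1
  have hp1 : ∀ i, p i ≤ 1 := fun i => (gib_le_one _ lam i).2
  set t : ι → ℝ := fun k => lam * ‖deriv (h k) 0‖ with ht
  have ht0 : ∀ k, 0 ≤ t k := fun k => by positivity
  set τ : ι → ℝ := fun k => t k ^ 2 with hτ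
  have hτ0 : ∀ k, 0 ≤ τ k := fun k => by positivity
  have hP0 : 0 ≤ ∑ k, p k * τ k := Finset.sum_nonneg fun k _ => mul_nonneg (hp0 k).le (hτ0 k)
  have hal : ∀ k, ∀ a ≤ 1, ‖al lam (deriv (h k) 0) (2 * deriv (deriv (h k)) 0) a‖ ≤ t k ^ a := by
    intro k a ha
    interval_cases a
    · simp [al]
    · simp only [al, ht, pow_one]
      rw [norm_div, norm_mul, Complex.norm_real, Real.norm_eq_abs, abs_of_pos hl]
      have : ‖(2 : ℂ)‖ = 2 := by norm_num
      rw [this]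
      have := mul_nonneg hl.le (norm_nonneg (deriv (h k) 0))
      linarith
  have hpair : ∀ i j, ‖cp (J (CF (fpair r) (fun s => h i s - h j s))) (J (Ef lam h i j)) 1 1‖ ≤
      24 * 216 / lam ^ 3 * (48 * n) ^ 2 *
        ((Real.sqrt (p i) * Real.sqrt (p j)) * (τ i + τ j + ∑ k, p k * τ k)) := by
    intro i j
    set X := τ i + τ j + ∑ k, p k * τ k with hX
    have hX0 : 0 ≤ X := by have := hτ0 i; have := hτ0 j; positivity
    set μ := Real.sqrt X with hμ
    have hμ0 : 0 ≤ μ := Real.sqrt_nonneg _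
    have hμ2 : μ ^ 2 = X := Real.sq_sqrt hX0
    have hle : ∀ k, τ k ≤ X → t k ≤ μ := fun k hk => Real.le_sqrt_of_sq_le hk
    have hti : t i ≤ μ := hle i (by have := hτ0 j; linarith)
    have htj : t j ≤ μ := hle j (by have := hτ0 i; linarith)
    have hk : ∀ k, p k * t k ^ (2 * 1) ≤ μ ^ (2 * 1) := by
      intro k
      have h1 : p k * τ k ≤ ∑ k, p k * τ k :=
        Finset.single_le_sum (f := fun k => p k * τ k)
          (fun k _ => mul_nonneg (hp0 k).le (hτ0 k)) (Finset.mem_univ k)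
      have := hτ0 i; have := hτ0 j
      rw [mul_one, hμ2]
      linarith
    have hE := E_BA lam hh (by norm_num : (1:ℕ) ≤ 2) le_rfl t ht0 hal hμ0 i j hti htj hk
    rw [← hp, ← hn] at hE
    set g : ℂ → ℂ := fun s => h i s - h j s with hg
    have hga : AnalyticAt ℂ g 0 := (hh i).sub (hh j)
    obtain ⟨f0, f1, f2, -⟩ := fpair_bounds hr hl hlr (g 0).re
    set S := 1 + lam * |(g 0).re| with hS
    have hS0 : 0 ≤ S := by positivity
    have hγ : ‖deriv g 0 / 2‖ ≤ μ / lam := by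
      rw [(deriv_diff (hh i) (hh j)).1, norm_div, le_div_iff₀ hl]
      have : ‖(2 : ℂ)‖ = 2 := by norm_num
      rw [this]
      have h1 := norm_sub_le (deriv (h i) 0) (deriv (h j) 0)
      have h2 : lam * ‖deriv (h i) 0 - deriv (h j) 0‖ ≤ t i + t j := by
        simp only [ht]
        nlinarith
      nlinarith
    have hT := TA_BA1 hga (an_fpair hr) (by positivity : 0 ≤ S ^ 3 / lam ^ 3) hl hμ0 f0
      (by linarith) (by linarith) hγ
    have hnμ : μ ≤ 24 * (n * μ) := by nlinarith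
    have hT2 := hT.mono (by positivity) hμ0 hnμ
    have hcp := hT2.cp hE (by positivity) (by positivity)
    have h11 := hcp 1 le_rfl 1 le_rfl
    rw [cp_TA1]
    refine h11.trans ?_
    have hgp := gib_pair (fun i => (h i 0).re) hl i j
    rw [← hp] at hgp
    have hx : (g 0).re = (h i 0).re - (h j 0).re := by rw [hg]; exact Complex.sub_re _ _
    rw [← hx, ← hS] at hgp
    have e1 : 24 * (S ^ 3 / lam ^ 3) * (p i * p j) * (2 * (24 * (n * μ))) ^ (1 + 1)
      = (p i * p j * S ^ 3) * (24 / lam ^ 3 * (48 * n) ^ 2 * X) := by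
      rw [← hμ2]
      field_simp
      ring
    rw [e1]
    have e2 : 0 ≤ 24 / lam ^ 3 * (48 * n) ^ 2 * X := by positivity
    calc _ ≤ (216 * (Real.sqrt (p i) * Real.sqrt (p j))) * (24 / lam ^ 3 * (48 * n) ^ 2 * X) :=
          mul_le_mul_of_nonneg_right hgp e2
      _ = _ := by ring
  have h1 := lap_J (an_Gm (lam := lam) hr hh)
  rw [J_Gm hr hh] at h1
  have h2 : |lap (fun s => Gm r lam (fun i => (h i s).re)) 0| ≤ 4 * ∑ i, ∑ j,
      (24 * 216 / lam ^ 3 * (48 * n) ^ 2 *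
        ((Real.sqrt (p i) * Real.sqrt (p j)) * (τ i + τ j + ∑ k, p k * τ k))) := by
    rw [← Real.norm_eq_abs, ← Complex.norm_real, h1, norm_mul]
    have : ‖(4 : ℂ)‖ = 4 := by norm_num
    rw [this]
    refine mul_le_mul_of_nonneg_left ?_ (by norm_num)
    refine (norm_sum_le _ _).trans (Finset.sum_le_sum fun i _ => ?_)
    exact (norm_sum_le _ _).trans (Finset.sum_le_sum fun j _ => hpair i j)
  refine h2.trans ?_
  simp only [← Finset.mul_sum]
  have h3 := sum_pairs p τ (fun i => (hp0 i).le) hp1 hτ0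
  rw [← hn] at h3
  have h4 : ∑ k, Real.sqrt (p k) * τ k = lam ^ 2 * ∑ k, Real.sqrt (p k) * ‖deriv (h k) 0‖ ^ 2 := by
    rw [Finset.mul_sum]
    refine Finset.sum_congr rfl fun k _ => ?_
    simp only [hτ, ht]
    ring
  rw [h4] at h3
  set W := ∑ k, Real.sqrt (p k) * ‖deriv (h k) 0‖ ^ 2 with hW
  have hW0 : 0 ≤ W := Finset.sum_nonneg fun k _ => by positivity
  calc 4 * (24 * 216 / lam ^ 3 * (48 * n) ^ 2 * ∑ i, ∑ j,
        ((Real.sqrt (p i) * Real.sqrt (p j)) * (τ i + τ j + ∑ k, p k * τ k)))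
      ≤ 4 * (24 * 216 / lam ^ 3 * (48 * n) ^ 2 * ((2 * n + n ^ 2) * (lam ^ 2 * W))) := by
        have : 0 ≤ 24 * 216 / lam ^ 3 * (48 * n) ^ 2 := by positivity
        exact mul_le_mul_of_nonneg_left (mul_le_mul_of_nonneg_left h3 this) (by norm_num)
    _ = 4 * 24 * 216 * (48 * n) ^ 2 * (2 * n + n ^ 2) / lam * W := by
        field_simp
    _ ≤ Cst n / lam * W := by
        refine mul_le_mul_of_nonneg_right ?_ hW0
        refine div_le_div_of_nonneg_right ?_ hl.le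
        unfold Cst
        have e1 : (48 * n) ^ 2 ≤ (48 * n) ^ 4 := pow_le_pow_right₀ (by linarith) (by norm_num)
        have e2 : 0 ≤ 2 * n + n ^ 2 := by positivity
        have e3 : (48 * n) ^ 2 * (2 * n + n ^ 2) ≤ (48 * n) ^ 4 * (2 * n + n ^ 2) :=
          mul_le_mul_of_nonneg_right e1 e2
        have e4 : 0 ≤ (48 * n) ^ 4 * (2 * n + n ^ 2) := by positivity
        nlinarith

theorem laplap_Gm0 {ι : Type*} [Fintype ι] [Nonempty ι] {r lam : ℝ} (hr : 0 < r) (hl : 0 < lam)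
    (hlr : lam * r ≤ 1) {h : ι → ℂ → ℂ} (hh : ∀ i, AnalyticAt ℂ (h i) 0) :
    (∑ i, ∑ j, 9 * r ^ 4 / (((h i 0).re - (h j 0).re) ^ 2 + r ^ 2) ^ (5 / 2 : ℝ)
        * ‖deriv (h i) 0 - deriv (h j) 0‖ ^ 4
          * (gib (fun i => (h i 0).re) lam i * gib (fun i => (h i 0).re) lam j))
      - Cst (Fintype.card ι) * lam * ∑ i, Real.sqrt (gib (fun i => (h i 0).re) lam i) *
        (‖deriv (h i) 0‖ ^ 4 + ‖2 * deriv (deriv (h i)) 0‖ ^ 2 / lam ^ 2)
      ≤ lap (lap (fun s => Gm r lam (fun i => (h i s).re))) 0 := by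
  set p := gib (fun i => (h i 0).re) lam with hp
  set n : ℝ := (Fintype.card ι : ℝ) with hn
  have hn1 : 1 ≤ n := by
    have : 1 ≤ Fintype.card ι := Fintype.card_pos
    rw [hn]
    exact_mod_cast this
  have hp0 : ∀ i, 0 < p i := fun i => (gib_le_one _ lam i).1
  have hp1 : ∀ i, p i ≤ 1 := fun i => (gib_le_one _ lam i).2
  set w : ι → ℂ := fun k => deriv (h k) 0 with hw
  set u : ι → ℂ := fun k => 2 * deriv (deriv (h k)) 0 with hu
  set τ : ι → ℝ := fun k => (lam * ‖w k‖) ^ 4 + (lam * ‖u k‖) ^ 2 with hτ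
  have hτ0 : ∀ k, 0 ≤ τ k := fun k => by positivity
  set t : ι → ℝ := fun k => Real.sqrt (Real.sqrt (τ k)) with ht
  have ht0 : ∀ k, 0 ≤ t k := fun k => Real.sqrt_nonneg _
  have ht2 : ∀ k, t k ^ 2 = Real.sqrt (τ k) := fun k => Real.sq_sqrt (Real.sqrt_nonneg _)
  have ht4 : ∀ k, t k ^ 4 = τ k := fun k => by
    have : t k ^ 4 = (t k ^ 2) ^ 2 := by ring
    rw [this, ht2, Real.sq_sqrt (hτ0 k)]
  have hwt : ∀ k, lam * ‖w k‖ ≤ t k := fun k => by
    refine le_of_pow_le_pow_left₀ (n := 4) (by norm_num) (ht0 k) ?_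
    rw [ht4]
    have : 0 ≤ (lam * ‖u k‖) ^ 2 := by positivity
    simp only [hτ]
    linarith
  have hut : ∀ k, lam * ‖u k‖ ≤ t k ^ 2 := fun k => by
    rw [ht2]
    apply Real.le_sqrt_of_sq_le
    have : 0 ≤ (lam * ‖w k‖) ^ 4 := by positivity
    simp only [hτ]
    linarith
  have hP0 : 0 ≤ ∑ k, p k * τ k := Finset.sum_nonneg fun k _ => mul_nonneg (hp0 k).le (hτ0 k)
  have hal : ∀ k, ∀ a ≤ 2, ‖al lam (deriv (h k) 0) (2 * deriv (deriv (h k)) 0) a‖ ≤ t k ^ a := by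
    intro k a ha
    have h2 : ‖(2 : ℂ)‖ = 2 := by norm_num
    have h4 : ‖(4 : ℂ)‖ = 4 := by norm_num
    have hw0 : 0 ≤ lam * ‖w k‖ := by positivity
    interval_cases a
    · simp [al]
    · simp only [al, pow_one]
      rw [norm_div, norm_mul, Complex.norm_real, Real.norm_eq_abs, abs_of_pos hl, h2]
      have := hwt k
      simp only [hw] at this hw0
      linarith
    · simp only [al]
      rw [norm_div, h4]
      have e1 : ‖(lam : ℂ) ^ 2 * deriv (h k) 0 ^ 2 + lam * (2 * deriv (deriv (h k)) 0)‖ ≤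
          (lam * ‖w k‖) ^ 2 + lam * ‖u k‖ := by
        refine (norm_add_le _ _).trans (le_of_eq ?_)
        rw [norm_mul, norm_pow, norm_pow, norm_mul (lam : ℂ), Complex.norm_real, Real.norm_eq_abs,
          abs_of_pos hl, mul_pow]
      have e2 : (lam * ‖w k‖) ^ 2 ≤ t k ^ 2 := pow_le_pow_left₀ hw0 (hwt k) 2
      have e3 := hut k
      have e4 : 0 ≤ t k ^ 2 := by positivity
      linarith
  set M : ι → ι → ℝ := fun i j => 9 * r ^ 4 / (((h i 0).re - (h j 0).re) ^ 2 + r ^ 2) ^ (5 / 2 : ℝ)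
        * ‖w i - w j‖ ^ 4 * (p i * p j) with hM
  have hpair : ∀ i j, ‖16 * cp (J (CF (fpair r) (fun s => h i s - h j s))) (J (Ef lam h i j)) 2 2
      - ((M i j : ℝ) : ℂ)‖ ≤
      16 * 24 * 216 / lam ^ 3 * (48 * n) ^ 4 *
        ((Real.sqrt (p i) * Real.sqrt (p j)) * (τ i + τ j + ∑ k, p k * τ k)) := by
    intro i j
    set X := τ i + τ j + ∑ k, p k * τ k with hX
    have hX0 : 0 ≤ X := by have := hτ0 i; have := hτ0 j; positivity
    set μ := Real.sqrt (Real.sqrt X) with hμ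
    have hμ0 : 0 ≤ μ := Real.sqrt_nonneg _
    have hμ2 : μ ^ 2 = Real.sqrt X := Real.sq_sqrt (Real.sqrt_nonneg _)
    have hμ4 : μ ^ 4 = X := by
      have : μ ^ 4 = (μ ^ 2) ^ 2 := by ring
      rw [this, hμ2, Real.sq_sqrt hX0]
    have hle : ∀ k, τ k ≤ X → t k ≤ μ := fun k hk =>
      Real.sqrt_le_sqrt (Real.sqrt_le_sqrt hk)
    have hti : t i ≤ μ := hle i (by have := hτ0 j; linarith)
    have htj : t j ≤ μ := hle j (by have := hτ0 i; linarith)
    have hk : ∀ k, p k * t k ^ (2 * 2) ≤ μ ^ (2 * 2) := by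
      intro k
      have h1 : p k * τ k ≤ ∑ k, p k * τ k :=
        Finset.single_le_sum (f := fun k => p k * τ k)
          (fun k _ => mul_nonneg (hp0 k).le (hτ0 k)) (Finset.mem_univ k)
      have := hτ0 i; have := hτ0 j
      have e : (2 * 2 : ℕ) = 4 := by norm_num
      rw [e, hμ4, ht4]
      linarith
    have hE := E_BA lam hh (by norm_num : (2:ℕ) ≤ 2) (by norm_num) t ht0 hal hμ0 i j hti htj hk
    rw [← hp, ← hn] at hE
    set g : ℂ → ℂ := fun s => h i s - h j s with hg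
    have hga : AnalyticAt ℂ g 0 := (hh i).sub (hh j)
    obtain ⟨f0, f1, f2, f3⟩ := fpair_bounds hr hl hlr (g 0).re
    set S := 1 + lam * |(g 0).re| with hS
    have hS0 : 0 ≤ S := by positivity
    have h2n : ‖(2 : ℂ)‖ = 2 := by norm_num
    have hγ : ‖deriv g 0 / 2‖ ≤ μ / lam := by
      rw [(deriv_diff (hh i) (hh j)).1, norm_div, le_div_iff₀ hl, h2n]
      have h1 := norm_sub_le (deriv (h i) 0) (deriv (h j) 0)
      have h2 : lam * ‖deriv (h i) 0 - deriv (h j) 0‖ ≤ t i + t j := by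
        have := hwt i; have := hwt j
        simp only [hw] at *
        nlinarith
      nlinarith
    have hδ : ‖deriv (deriv g) 0 / 2‖ ≤ μ ^ 2 / lam := by
      rw [(deriv_diff (hh i) (hh j)).2, norm_div, le_div_iff₀ hl, h2n]
      have h1 := norm_sub_le (deriv (deriv (h i)) 0) (deriv (deriv (h j)) 0)
      have hi2 : lam * (2 * ‖deriv (deriv (h i)) 0‖) ≤ t i ^ 2 := by
        have := hut i
        simp only [hu, norm_mul, h2n] at this
        exact this
      have hj2 : lam * (2 * ‖deriv (deriv (h j)) 0‖) ≤ t j ^ 2 := by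
        have := hut j
        simp only [hu, norm_mul, h2n] at this
        exact this
      have e1 : t i ^ 2 ≤ μ ^ 2 := pow_le_pow_left₀ (ht0 i) hti 2
      have e2 : t j ^ 2 ≤ μ ^ 2 := pow_le_pow_left₀ (ht0 j) htj 2
      have e3 : 0 ≤ μ ^ 2 := by positivity
      nlinarith
    have hT := TA_BA2 hga (an_fpair hr) (by positivity : 0 ≤ S ^ 3 / lam ^ 3) hl hμ0 f0
      (by linarith) (by linarith) (by linarith) hγ hδ
    have hnμ : μ ≤ 24 * (n * μ) := by nlinarith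
    have hT2 := hT.mono (by positivity) hμ0 hnμ
    have hcp := hT2.cp hE (by positivity) (by positivity)
    have h22 := hcp 2 le_rfl 2 le_rfl
    have hgp := gib_pair (fun i => (h i 0).re) hl i j
    rw [← hp] at hgp
    have hx : (g 0).re = (h i 0).re - (h j 0).re := by rw [hg]; exact Complex.sub_re _ _
    rw [← hx, ← hS] at hgp
    -- the main term
    have hmain : 16 * (((deriv (deriv (deriv (deriv (fpair r)))) (g 0).re : ℝ) : ℂ) *
      (conj (deriv g 0 / 2) * (deriv g 0 / 2)) ^ 2 * J (Ef lam h i j) 0 0) = ((M i j : ℝ) : ℂ) := by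
      rw [Ef_zero, ← hp, (deriv_fpair hr).2.2.2, (deriv_diff (hh i) (hh j)).1, hx]
      have e1 : ∀ z : ℂ, conj (z / 2) * (z / 2) = ((‖z‖ ^ 2 / 4 : ℝ) : ℂ) := by
        intro z
        rw [map_div₀, Complex.conj_ofNat]
        have := Complex.conj_mul' z
        push_cast
        linear_combination this / 4
      have e2 : (((h i 0).re - (h j 0).re) ^ 2 + r ^ 2) ^ (5 / 2 : ℝ)
          = RR r ((h i 0).re - (h j 0).re) ^ 5 := by
        have hA : 0 ≤ ((h i 0).re - (h j 0).re) ^ 2 + r ^ 2 := by positivity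
        unfold RR
        generalize ((h i 0).re - (h j 0).re) ^ 2 + r ^ 2 = A at hA
        rw [Real.sqrt_eq_rpow, ← Real.rpow_natCast (A ^ (1 / 2 : ℝ)) 5, ← Real.rpow_mul hA]
        norm_num
      rw [e1]
      simp only [hM, e2, hw]
      push_cast
      ring
    rw [cp_TA2, mul_add, hmain, add_sub_cancel_right, norm_mul]
    have h16 : ‖(16 : ℂ)‖ = 16 := by norm_num
    rw [h16]
    refine (mul_le_mul_of_nonneg_left h22 (by norm_num)).trans ?_
    have e1 : 16 * (24 * (S ^ 3 / lam ^ 3) * (p i * p j) * (2 * (24 * (n * μ))) ^ (2 + 2))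
      = (p i * p j * S ^ 3) * (16 * 24 / lam ^ 3 * (48 * n) ^ 4 * X) := by
      rw [← hμ4]
      field_simp
      ring
    rw [e1]
    have e2 : 0 ≤ 16 * 24 / lam ^ 3 * (48 * n) ^ 4 * X := by positivity
    calc _ ≤ (216 * (Real.sqrt (p i) * Real.sqrt (p j))) * (16 * 24 / lam ^ 3 * (48 * n) ^ 4 * X) :=
          mul_le_mul_of_nonneg_right hgp e2
      _ = _ := by ring
  have h1 := laplap_J (an_Gm (lam := lam) hr hh)
  rw [J_Gm hr hh] at h1
  have h2 : ‖((lap (lap (fun s => Gm r lam (fun i => (h i s).re))) 0 - ∑ i, ∑ j, M i j : ℝ) : ℂ)‖ ≤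
      ∑ i, ∑ j, (16 * 24 * 216 / lam ^ 3 * (48 * n) ^ 4 *
        ((Real.sqrt (p i) * Real.sqrt (p j)) * (τ i + τ j + ∑ k, p k * τ k))) := by
    push_cast
    rw [h1, Finset.mul_sum, ← Finset.sum_sub_distrib]
    refine (norm_sum_le _ _).trans (Finset.sum_le_sum fun i _ => ?_)
    rw [Finset.mul_sum, ← Finset.sum_sub_distrib]
    exact (norm_sum_le _ _).trans (Finset.sum_le_sum fun j _ => hpair i j)
  rw [Complex.norm_real, Real.norm_eq_abs] at h2
  have h2' := (abs_le.1 h2).1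
  simp only [← Finset.mul_sum] at h2'
  have h3 := sum_pairs p τ (fun i => (hp0 i).le) hp1 hτ0
  rw [← hn] at h3
  have h4 : ∑ k, Real.sqrt (p k) * τ k = lam ^ 4 * ∑ k, Real.sqrt (p k) *
      (‖w k‖ ^ 4 + ‖u k‖ ^ 2 / lam ^ 2) := by
    rw [Finset.mul_sum]
    refine Finset.sum_congr rfl fun k _ => ?_
    simp only [hτ]
    field_simp
  rw [h4] at h3
  set W := ∑ k, Real.sqrt (p k) * (‖w k‖ ^ 4 + ‖u k‖ ^ 2 / lam ^ 2) with hW
  have h5 : 16 * 24 * 216 / lam ^ 3 * (48 * n) ^ 4 * ∑ i, ∑ j,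
        ((Real.sqrt (p i) * Real.sqrt (p j)) * (τ i + τ j + ∑ k, p k * τ k))
      ≤ Cst n * lam * W := by
    have : 0 ≤ 16 * 24 * 216 / lam ^ 3 * (48 * n) ^ 4 := by positivity
    refine (mul_le_mul_of_nonneg_left h3 this).trans (le_of_eq ?_)
    unfold Cst
    field_simp
  linarith

end Jets

/-- P4 -/
theorem lap_Gm {ι : Type*} [Fintype ι] [Nonempty ι] :
    ∃ C : ℝ, 0 < C ∧ ∀ (h : ι → ℂ → ℂ), (∀ i, AnalyticAt ℂ (h i) 0) → ∀ r lam : ℝ, 0 < r →
      0 < lam → lam * r ≤ 1 → ∀ w0 u0 : ℂ,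
      let y : ι → ℝ := fun i => (h i 0).re
      let w : ι → ℂ := fun i => deriv (h i) 0
      let u : ι → ℂ := fun i => 2 * deriv (deriv (h i)) 0
      let p : ι → ℝ := gib y lam
      |lap (fun s => Gm r lam (fun i => (h i s).re)) 0| ≤
        C / lam * ∑ i, Real.sqrt (p i) * ‖w i - w0‖ ^ 2 ∧
      (∑ i, ∑ j, 9 * r ^ 4 / ((y i - y j) ^ 2 + r ^ 2) ^ (5 / 2 : ℝ) * ‖w i - w j‖ ^ 4
          * (p i * p j))
        - C * lam * ∑ i, Real.sqrt (p i) * (‖w i - w0‖ ^ 4 + ‖u i - u0‖ ^ 2 / lam ^ 2)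
        ≤ lap (lap (fun s => Gm r lam (fun i => (h i s).re))) 0 := by
  refine ⟨Cst (Fintype.card ι), ?_, ?_⟩
  · have : (0 : ℝ) < Fintype.card ι := by
      have : 0 < Fintype.card ι := Fintype.card_pos
      exact_mod_cast this
    unfold Cst
    positivity
  intro h hh r lam hr hl hlr w0 u0 y w u p
  -- subtract a common quadratic polynomial
  set k : ℂ → ℂ := fun s => w0 * s + u0 / 4 * s ^ 2 with hk
  have hka : ∀ s, AnalyticAt ℂ k s := fun s =>
    (analyticAt_const.mul analyticAt_id).add (analyticAt_const.mul (analyticAt_id.pow 2))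
  have hk1 : deriv k = fun s => w0 + u0 / 2 * s := by
    funext s
    have h1 : HasDerivAt k (w0 * 1 + u0 / 4 * ((2 : ℕ) * s ^ (2 - 1))) s :=
      ((hasDerivAt_id s).const_mul w0).add ((hasDerivAt_pow 2 s).const_mul (u0 / 4))
    rw [h1.deriv]
    norm_num
    ring
  have hk2 : deriv (deriv k) = fun _ => u0 / 2 := by
    rw [hk1]
    funext s
    have h1 : HasDerivAt (fun s => w0 + u0 / 2 * s) (u0 / 2 * 1) s :=
      ((hasDerivAt_id s).const_mul (u0 / 2)).const_add w0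
    rw [h1.deriv, mul_one]
  set h' : ι → ℂ → ℂ := fun i s => h i s - k s with hh'
  have hha : ∀ i, AnalyticAt ℂ (h' i) 0 := fun i => (hh i).sub (hka 0)
  have hgib : ∀ (y : ι → ℝ) (c : ℝ), gib (fun i => y i - c) lam = gib y lam := by
    intro y c
    funext i
    unfold gib
    have e1 : ∀ i, Real.exp (lam * (y i - c)) = Real.exp (lam * y i) * Real.exp (-(lam * c)) := by
      intro i
      rw [← Real.exp_add]
      congr 1
      ring
    simp only [e1]
    rw [← Finset.sum_mul]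
    have := (Real.exp_pos (-(lam * c))).ne'
    exact mul_div_mul_right _ _ this
  have hGm : (fun s => Gm r lam (fun i => (h' i s).re)) = fun s => Gm r lam (fun i => (h i s).re) := by
    funext s
    have e1 : (fun i => (h' i s).re) = fun i => (h i s).re - (k s).re := by
      funext i
      exact Complex.sub_re _ _
    rw [e1]
    unfold Gm
    rw [hgib]
    refine Finset.sum_congr rfl fun i _ => Finset.sum_congr rfl fun j _ => ?_
    congr 3
    ring
  have hy : ∀ i, (h' i 0).re = y i := by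
    intro i
    simp [hh', hk, y]
  have hw : ∀ i, deriv (h' i) 0 = w i - w0 := by
    intro i
    rw [(deriv_diff (hh i) (hka 0)).1, hk1]
    simp [w]
  have hu : ∀ i, 2 * deriv (deriv (h' i)) 0 = u i - u0 := by
    intro i
    rw [(deriv_diff (hh i) (hka 0)).2, hk2]
    simp only [u]
    ring
  have r1 := lap_Gm0 hr hl hlr hha
  have r2 := laplap_Gm0 hr hl hlr hha
  rw [hGm] at r1 r2
  simp only [hy, hw, hu] at r1 r2
  refine ⟨r1, ?_⟩
  have e3 : ∀ i j, (w i - w0) - (w j - w0) = w i - w j := fun i j => by ring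
  simp only [e3] at r2
  exact r2

end Pool.Agent.MP_7c31d9_gt
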