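import Pool.Agent.MP_7c31d9_gt.GoodPotAux
import Pool.Agent.MP_7c31d9_gt.LogGibbs
import Pool.Agent.MP_7c31d9_gt.PairPot
import Pool.Agent.MP_7c31d9_gt.Core

/-! Existence of good potentials. -/

namespace Pool.Agent.MP_7c31d9_gt

/-- P8b: good potentials exist. -/
theorem exists_goodPot (n : ℕ) (hn : 1 ≤ n) :
    ∃ (b : ℝ) (K : ℝ → ℝ) (κ r : ℝ) (M : ℕ) (lam : Fin M → ℝ) (ts c : ℝ),
      0 < b ∧ (∃ C, ∀ t, |K t| ≤ C) ∧ IntervalIntegrable K MeasureTheory.volume 0 b ∧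
      0 < r ∧ (∀ m, 0 < lam m) ∧ 0 < ts ∧ 0 < c ∧
      GoodPot (Fin (2 * n + 1)) b K κ r lam ts c :=
  exists_goodPot_of n (fun h hh lam => lap_log_gibbs h hh lam) (lap_Gm (ι := Fin (2 * n + 1)))
    (fun CG hCG => core n hn CG hCG)

end Pool.Agent.MP_7c31d9_gt
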