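import Pool.Agent.MP_7c31d9_gt.Defs

/-! Wirtinger jets at the origin of real-analytic functions of one complex variable. -/

namespace Pool.Agent.MP_7c31d9_gt.Jets

open Complex Filter Topology Finset
open scoped ComplexConjugate ContDiff

/-- first order operator `(∂_x + c ∂_y)/2`. -/
noncomputable def D (c : ℂ) (F : ℂ → ℂ) (s : ℂ) : ℂ :=
  (1 / 2) * (fderiv ℝ F s 1 + c * fderiv ℝ F s I)

/-- real-analytic at the origin -/
def An (F : ℂ → ℂ) : Prop := AnalyticAt ℝ F 0

theorem An.add {F G : ℂ → ℂ} (hF : An F) (hG : An G) : An (fun s => F s + G s) :=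
  AnalyticAt.add hF hG

theorem An.mul {F G : ℂ → ℂ} (hF : An F) (hG : An G) : An (fun s => F s * G s) :=
  AnalyticAt.mul hF hG

theorem an_const (k : ℂ) : An (fun _ => k) := analyticAt_const

theorem An.congr {F G : ℂ → ℂ} (hF : An F) (h : F =ᶠ[𝓝 0] G) : An G :=
  AnalyticAt.congr hF h

theorem an_sum {ι : Type*} (S : Finset ι) (F : ι → ℂ → ℂ) (h : ∀ i ∈ S, An (F i)) :
    An (fun s => ∑ i ∈ S, F i s) := by
  have := Finset.analyticAt_fun_sum S (f := F) (c := (0 : ℂ)) (𝕜 := ℝ) h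
  exact this

theorem An.fd {F : ℂ → ℂ} (hF : An F) (v : ℂ) : An (fun s => fderiv ℝ F s v) := by
  have h1 : AnalyticAt ℝ (fderiv ℝ F) 0 := AnalyticAt.fderiv hF
  have h2 := (ContinuousLinearMap.apply ℝ ℂ v).analyticAt (fderiv ℝ F 0)
  exact h2.comp h1

theorem An.D {F : ℂ → ℂ} (hF : An F) (c : ℂ) : An (Jets.D c F) :=
  (an_const (1 / 2)).mul ((hF.fd 1).add ((an_const c).mul (hF.fd I)))

theorem An.iter {F : ℂ → ℂ} (hF : An F) (c : ℂ) (n : ℕ) : An ((Jets.D c)^[n] F) := by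
  induction n with
  | zero => exact hF
  | succ n ih => rw [Function.iterate_succ_apply']; exact ih.D c

theorem An.diff {F : ℂ → ℂ} (hF : An F) : ∀ᶠ s in 𝓝 (0 : ℂ), DifferentiableAt ℝ F s := by
  have := AnalyticAt.eventually_analyticAt hF
  exact this.mono fun s hs => hs.differentiableAt

theorem D_congr {F G : ℂ → ℂ} (c : ℂ) (h : F =ᶠ[𝓝 0] G) : D c F =ᶠ[𝓝 0] D c G := by
  have := h.fderiv (𝕜 := ℝ)
  filter_upwards [this] with s hs
  simp only [D, hs]

theorem iter_congr {F G : ℂ → ℂ} (c : ℂ) (n : ℕ) (h : F =ᶠ[𝓝 0] G) :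
    (D c)^[n] F =ᶠ[𝓝 0] (D c)^[n] G := by
  induction n with
  | zero => exact h
  | succ n ih =>
    rw [Function.iterate_succ_apply', Function.iterate_succ_apply']
    exact D_congr c ih

theorem D_add {F G : ℂ → ℂ} (c : ℂ) (hF : An F) (hG : An G) :
    D c (fun s => F s + G s) =ᶠ[𝓝 0] fun s => D c F s + D c G s := by
  filter_upwards [hF.diff, hG.diff] with s h1 h2
  have : fderiv ℝ (fun s => F s + G s) s = fderiv ℝ F s + fderiv ℝ G s := fderiv_fun_add h1 h2
  simp only [D, this, add_apply]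
  ring

theorem D_mul {F G : ℂ → ℂ} (c : ℂ) (hF : An F) (hG : An G) :
    D c (fun s => F s * G s) =ᶠ[𝓝 0] fun s => D c F s * G s + F s * D c G s := by
  filter_upwards [hF.diff, hG.diff] with s h1 h2
  have : fderiv ℝ (fun s => F s * G s) s = F s • fderiv ℝ G s + G s • fderiv ℝ F s :=
    fderiv_fun_mul h1 h2
  simp only [D, this, add_apply, smul_apply, smul_eq_mul]
  ring

theorem D_const (c k : ℂ) : D c (fun _ => k) = fun _ => 0 := by
  funext s
  simp [D]

theorem D_lin {ι : Type*} (c : ℂ) (S : Finset ι) (k : ι → ℂ) (F : ι → ℂ → ℂ)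
    (h : ∀ i ∈ S, An (F i)) :
    D c (fun s => ∑ i ∈ S, k i * F i s) =ᶠ[𝓝 0] fun s => ∑ i ∈ S, k i * D c (F i) s := by
  classical
  induction S using Finset.induction_on with
  | empty => simp [D_const]
  | insert a S ha ih =>
    have h1 := ih fun i hi => h i (Finset.mem_insert_of_mem hi)
    have h2 : An (fun s => k a * F a s) := (an_const _).mul (h a (Finset.mem_insert_self a S))
    have h3 : An (fun s => ∑ i ∈ S, k i * F i s) :=
      an_sum S (fun i s => k i * F i s) fun i hi =>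
        (an_const _).mul (h i (Finset.mem_insert_of_mem hi))
    have h4 := D_add c h2 h3
    have h5 := D_mul c (an_const (k a)) (h a (Finset.mem_insert_self a S))
    simp only [Finset.sum_insert ha]
    filter_upwards [h1, h4, h5] with s e1 e4 e5
    rw [e4, e1, e5, D_const]
    ring

theorem iter_lin {ι : Type*} (c : ℂ) (n : ℕ) (S : Finset ι) (k : ι → ℂ) (F : ι → ℂ → ℂ)
    (h : ∀ i ∈ S, An (F i)) :
    (D c)^[n] (fun s => ∑ i ∈ S, k i * F i s) =ᶠ[𝓝 0]
      fun s => ∑ i ∈ S, k i * (D c)^[n] (F i) s := by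
  induction n with
  | zero => exact EventuallyEq.rfl
  | succ n ih =>
    rw [Function.iterate_succ_apply']
    refine (D_congr c ih).trans ?_
    refine (D_lin c S k _ fun i hi => (h i hi).iter c n).trans ?_
    simp only [Function.iterate_succ_apply']
    exact EventuallyEq.rfl

theorem iter_mul (c : ℂ) (n : ℕ) {F G : ℂ → ℂ} (hF : An F) (hG : An G) :
    (D c)^[n] (fun s => F s * G s) =ᶠ[𝓝 0]
      fun s => ∑ p ∈ antidiagonal n, (n.choose p.1 : ℂ) * ((D c)^[p.1] F s * (D c)^[p.2] G s) := by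
  induction n with
  | zero => simp
  | succ n ih =>
    rw [Function.iterate_succ_apply']
    refine (D_congr c ih).trans ?_
    refine (D_lin c (antidiagonal n) (fun p => (n.choose p.1 : ℂ))
      (fun p s => (D c)^[p.1] F s * (D c)^[p.2] G s)
      fun p _ => (hF.iter c p.1).mul (hG.iter c p.2)).trans ?_
    have h1 : ∀ p ∈ antidiagonal n, ∀ᶠ s in 𝓝 (0 : ℂ),
        D c (fun s => (D c)^[p.1] F s * (D c)^[p.2] G s) s =
          (D c)^[p.1 + 1] F s * (D c)^[p.2] G s + (D c)^[p.1] F s * (D c)^[p.2 + 1] G s := by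
      intro p _
      have := D_mul c (hF.iter c p.1) (hG.iter c p.2)
      filter_upwards [this] with s hs
      rw [hs, Function.iterate_succ_apply', Function.iterate_succ_apply']
    have h2 := (Filter.eventually_all_finset (antidiagonal n)).2 h1
    filter_upwards [h2] with s hs
    have h3 := Finset.sum_antidiagonal_choose_succ_mul
      (fun a b => (D c)^[a] F s * (D c)^[b] G s) n
    rw [h3, ← Finset.sum_add_distrib]
    refine Finset.sum_congr rfl fun p hp => ?_
    rw [hs p hp]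
    have h4 : (n.choose p.2 : ℂ) = (n.choose p.1 : ℂ) := by
      have := Finset.HasAntidiagonal.mem_antidiagonal.1 hp
      rw [Nat.choose_symm_of_eq_add (by omega : n = p.2 + p.1)]
    rw [h4]
    ring

theorem D_comm {F : ℂ → ℂ} (c d : ℂ) (hF : An F) :
    D c (D d F) =ᶠ[𝓝 0] D d (D c F) := by
  have h1 := AnalyticAt.eventually_analyticAt hF
  filter_upwards [h1] with s hs
  have hsym : ∀ v w : ℂ, fderiv ℝ (fun s => fderiv ℝ F s v) s w =
      fderiv ℝ (fun s => fderiv ℝ F s w) s v := by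
    intro v w
    have e : ∀ v w : ℂ, fderiv ℝ (fun s => fderiv ℝ F s v) s w = fderiv ℝ (fderiv ℝ F) s w v := by
      intro v w
      have h2 : DifferentiableAt ℝ (fderiv ℝ F) s := (AnalyticAt.fderiv hs).differentiableAt
      have := fderiv_clm_apply h2 (differentiableAt_const v)
      rw [this]
      simp
    rw [e, e]
    have h3 : IsSymmSndFDerivAt ℝ F s := by
      have : ContDiffAt ℝ 2 F s := hs.contDiffAt
      exact this.isSymmSndFDerivAt (by simp)
    exact (h3 v w).symm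
  have hd : ∀ v : ℂ, DifferentiableAt ℝ (fun s => fderiv ℝ F s v) s := by
    intro v
    have h1 : AnalyticAt ℝ (fderiv ℝ F) s := AnalyticAt.fderiv hs
    have h2 := (ContinuousLinearMap.apply ℝ ℂ v).analyticAt (fderiv ℝ F s)
    exact (h2.comp h1).differentiableAt
  have key : ∀ c d : ℂ, D c (D d F) s = (1 / 4) * (fderiv ℝ (fun s => fderiv ℝ F s 1) s 1
      + d * fderiv ℝ (fun s => fderiv ℝ F s I) s 1 + c * fderiv ℝ (fun s => fderiv ℝ F s 1) s I
      + c * d * fderiv ℝ (fun s => fderiv ℝ F s I) s I) := by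
    intro c d
    have e1 : fderiv ℝ (D d F) s = (1 / 2 : ℂ) • (fderiv ℝ (fun s => fderiv ℝ F s 1) s
        + d • fderiv ℝ (fun s => fderiv ℝ F s I) s) := by
      have h5 : DifferentiableAt ℝ (fun s => d * fderiv ℝ F s I) s := (hd I).const_mul d
      have h6 : D d F = fun s => (1 / 2 : ℂ) * (fderiv ℝ F s 1 + d * fderiv ℝ F s I) := rfl
      have h7 := fderiv_fun_add (hd 1) h5
      have h8 := fderiv_const_mul (hd I) d
      have h9 : DifferentiableAt ℝ (fun s => fderiv ℝ F s 1 + d * fderiv ℝ F s I) s :=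
        (hd 1).add h5
      have h10 := fderiv_const_mul h9 (1 / 2 : ℂ)
      rw [h6, h10, h7, h8]
    simp only [D] at e1 ⊢
    rw [e1]
    simp only [add_apply, smul_apply, smul_eq_mul]
    ring
  rw [key, key, hsym I 1]
  ring

theorem D_iter_comm {F : ℂ → ℂ} (c d : ℂ) (n : ℕ) (hF : An F) :
    D c ((D d)^[n] F) =ᶠ[𝓝 0] (D d)^[n] (D c F) := by
  induction n with
  | zero => exact EventuallyEq.rfl
  | succ n ih =>
    rw [Function.iterate_succ_apply', Function.iterate_succ_apply']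
    exact (D_comm c d (hF.iter d n)).trans (D_congr d ih)

/-- the jets at the origin -/
noncomputable def J (F : ℂ → ℂ) (a b : ℕ) : ℂ := (D (-I))^[a] ((D I)^[b] F) 0

theorem J_congr {F G : ℂ → ℂ} (h : F =ᶠ[𝓝 0] G) (a b : ℕ) : J F a b = J G a b :=
  (iter_congr _ a (iter_congr _ b h)).self_of_nhds

theorem J_lin {ι : Type*} (S : Finset ι) (k : ι → ℂ) (F : ι → ℂ → ℂ)
    (h : ∀ i ∈ S, An (F i)) (a b : ℕ) :
    J (fun s => ∑ i ∈ S, k i * F i s) a b = ∑ i ∈ S, k i * J (F i) a b := by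
  have h1 := iter_congr (-I) a (iter_lin I b S k F h)
  have h2 := iter_lin (-I) a S k (fun i => (D I)^[b] (F i)) fun i hi => (h i hi).iter I b
  exact (h1.trans h2).self_of_nhds

theorem J_sum {ι : Type*} (S : Finset ι) (F : ι → ℂ → ℂ)
    (h : ∀ i ∈ S, An (F i)) (a b : ℕ) :
    J (fun s => ∑ i ∈ S, F i s) a b = ∑ i ∈ S, J (F i) a b := by
  have := J_lin S (fun _ => 1) F h a b
  simpa using this

theorem J_mul {F G : ℂ → ℂ} (hF : An F) (hG : An G) (a b : ℕ) :
    J (fun s => F s * G s) a b = ∑ q ∈ antidiagonal b, ∑ p ∈ antidiagonal a,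
      (b.choose q.1 : ℂ) * (a.choose p.1 : ℂ) * (J F p.1 q.1 * J G p.2 q.2) := by
  have h1 := iter_congr (-I) a (iter_mul I b hF hG)
  have h2 := iter_lin (-I) a (antidiagonal b) (fun q => (b.choose q.1 : ℂ))
    (fun q s => (D I)^[q.1] F s * (D I)^[q.2] G s)
    fun q _ => (hF.iter I q.1).mul (hG.iter I q.2)
  have h3 := (h1.trans h2).self_of_nhds
  unfold J
  rw [h3]
  refine Finset.sum_congr rfl fun q _ => ?_
  have h4 := (iter_mul (-I) a (hF.iter I q.1) (hG.iter I q.2)).self_of_nhds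
  rw [h4, Finset.mul_sum]
  refine Finset.sum_congr rfl fun p _ => ?_
  ring

theorem J_D {F : ℂ → ℂ} (hF : An F) (a b : ℕ) : J (D (-I) F) a b = J F (a + 1) b := by
  unfold J
  have h1 := iter_congr (-I) a (D_iter_comm (-I) I b hF)
  have h2 := h1.self_of_nhds
  rw [← h2, Function.iterate_succ_apply]

theorem J_const (k : ℂ) (a b : ℕ) (h : ¬ (a = 0 ∧ b = 0)) : J (fun _ => k) a b = 0 := by
  have h0 : ∀ c : ℂ, ∀ n : ℕ, (D c)^[n + 1] (fun _ => k) = fun _ => 0 := by
    intro c n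
    induction n with
    | zero => simp [D_const]
    | succ n ih => rw [Function.iterate_succ_apply', ih, D_const]
  have h1 : ∀ c : ℂ, ∀ n : ℕ, (D c)^[n] (fun _ => (0 : ℂ)) = fun _ => 0 := by
    intro c n
    induction n with
    | zero => simp
    | succ n ih => rw [Function.iterate_succ_apply', ih, D_const]
  unfold J
  rcases b with _ | b
  · rcases a with _ | a
    · simp at h
    · simp only [Function.iterate_zero, id]
      rw [h0]
  · rw [h0, h1]

theorem J_zero (F : ℂ → ℂ) : J F 0 0 = F 0 := rfl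

/-- product of a holomorphic and an antiholomorphic function -/
noncomputable def HB (A B : ℂ → ℂ) (s : ℂ) : ℂ := A s * conj (B s)

theorem an_hol {A : ℂ → ℂ} (hA : AnalyticAt ℂ A 0) : An A := hA.restrictScalars

theorem an_conj {A : ℂ → ℂ} (hA : An A) : An (fun s => conj (A s)) := by
  have h2 := (Complex.conjCLE : ℂ →L[ℝ] ℂ).analyticAt (A 0)
  exact h2.comp hA

theorem D_hol {A : ℂ → ℂ} (hA : AnalyticAt ℂ A 0) :
    D (-I) A =ᶠ[𝓝 0] deriv A ∧ D I A =ᶠ[𝓝 0] fun _ => 0 := by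
  have h1 := hA.eventually_analyticAt
  have h2 : ∀ᶠ s in 𝓝 (0 : ℂ), ∀ v, fderiv ℝ A s v = deriv A s * v := by
    filter_upwards [h1] with s hs v
    have h3 := hs.differentiableAt.hasDerivAt.hasFDerivAt.restrictScalars ℝ
    rw [h3.fderiv]
    simp [mul_comm]
  constructor
  · filter_upwards [h2] with s hs
    simp only [D, hs]
    linear_combination (-(1/2) * deriv A s) * I_sq
  · filter_upwards [h2] with s hs
    simp only [D, hs]
    linear_combination ((1/2) * deriv A s) * I_sq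

theorem D_conj {A : ℂ → ℂ} (hA : AnalyticAt ℂ A 0) :
    D (-I) (fun s => conj (A s)) =ᶠ[𝓝 0] (fun _ => 0) ∧
      D I (fun s => conj (A s)) =ᶠ[𝓝 0] fun s => conj (deriv A s) := by
  have h1 := hA.eventually_analyticAt
  have h2 : ∀ᶠ s in 𝓝 (0 : ℂ), ∀ v, fderiv ℝ (fun s => conj (A s)) s v
      = conj (deriv A s) * conj v := by
    filter_upwards [h1] with s hs v
    have h3 := hs.differentiableAt.hasDerivAt.hasFDerivAt.restrictScalars ℝ
    have h4 := (Complex.conjCLE : ℂ →L[ℝ] ℂ).hasFDerivAt.comp s h3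
    have h5 : fderiv ℝ (fun s => conj (A s)) s = _ := h4.fderiv
    rw [h5]
    simp [mul_comm]
  constructor
  · filter_upwards [h2] with s hs
    simp only [D, hs, conj_I, map_one]
    linear_combination ((1/2) * conj (deriv A s)) * I_sq
  · filter_upwards [h2] with s hs
    simp only [D, hs, conj_I, map_one]
    linear_combination (-(1/2) * conj (deriv A s)) * I_sq

theorem an_HB {A B : ℂ → ℂ} (hA : AnalyticAt ℂ A 0) (hB : AnalyticAt ℂ B 0) : An (HB A B) :=
  (an_hol hA).mul (an_conj (an_hol hB))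

theorem D_HB {A B : ℂ → ℂ} (hA : AnalyticAt ℂ A 0) (hB : AnalyticAt ℂ B 0) :
    D (-I) (HB A B) =ᶠ[𝓝 0] HB (deriv A) B ∧ D I (HB A B) =ᶠ[𝓝 0] HB A (deriv B) := by
  constructor
  · filter_upwards [D_mul (-I) (an_hol hA) (an_conj (an_hol hB)), (D_hol hA).1, (D_conj hB).1]
      with s h1 h2 h3
    have h4 : D (-I) (HB A B) s = D (-I) (fun s => A s * conj (B s)) s := rfl
    rw [h4, h1, h2, h3]
    simp [HB]
  · filter_upwards [D_mul I (an_hol hA) (an_conj (an_hol hB)), (D_hol hA).2, (D_conj hB).2]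
      with s h1 h2 h3
    have h4 : D I (HB A B) s = D I (fun s => A s * conj (B s)) s := rfl
    rw [h4, h1, h2, h3]
    simp [HB]

theorem analyticAt_iter_deriv {A : ℂ → ℂ} (hA : AnalyticAt ℂ A 0) (n : ℕ) :
    AnalyticAt ℂ (deriv^[n] A) 0 := by
  induction n with
  | zero => exact hA
  | succ n ih => rw [Function.iterate_succ_apply']; exact ih.deriv

theorem J_HB {A B : ℂ → ℂ} (hA : AnalyticAt ℂ A 0) (hB : AnalyticAt ℂ B 0) (a b : ℕ) :
    J (HB A B) a b = deriv^[a] A 0 * conj (deriv^[b] B 0) := by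
  have h1 : (D I)^[b] (HB A B) =ᶠ[𝓝 0] HB A (deriv^[b] B) := by
    induction b with
    | zero => exact EventuallyEq.rfl
    | succ b ih =>
      rw [Function.iterate_succ_apply']
      refine (D_congr I ih).trans ?_
      rw [Function.iterate_succ_apply']
      exact (D_HB hA (analyticAt_iter_deriv hB b)).2
  have h2 : (D (-I))^[a] (HB A (deriv^[b] B)) =ᶠ[𝓝 0] HB (deriv^[a] A) (deriv^[b] B) := by
    clear h1
    induction a with
    | zero => exact EventuallyEq.rfl
    | succ a ih =>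
      rw [Function.iterate_succ_apply']
      refine (D_congr (-I) ih).trans ?_
      rw [Function.iterate_succ_apply']
      exact (D_HB (analyticAt_iter_deriv hA a) (analyticAt_iter_deriv hB b)).1
  exact ((iter_congr (-I) a h1).trans h2).self_of_nhds

/-! ### Laplacians -/

theorem sym_fderiv {E : Type*} [NormedAddCommGroup E] [NormedSpace ℝ E] [CompleteSpace E]
    {F : ℂ → E} {s : ℂ} (hs : AnalyticAt ℝ F s) (v w : ℂ) :
    fderiv ℝ (fun s => fderiv ℝ F s v) s w = fderiv ℝ (fun s => fderiv ℝ F s w) s v := by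
  have e : ∀ v w : ℂ, fderiv ℝ (fun s => fderiv ℝ F s v) s w = fderiv ℝ (fderiv ℝ F) s w v := by
    intro v w
    have h2 : DifferentiableAt ℝ (fderiv ℝ F) s := (AnalyticAt.fderiv hs).differentiableAt
    have := fderiv_clm_apply h2 (differentiableAt_const v)
    rw [this]
    simp
  rw [e, e]
  have h3 : IsSymmSndFDerivAt ℝ F s := by
    have : ContDiffAt ℝ 2 F s := hs.contDiffAt
    exact this.isSymmSndFDerivAt (by simp)
  exact (h3 v w).symm

/-- complexification of a real function -/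
noncomputable def cx (ψ : ℂ → ℝ) (s : ℂ) : ℂ := ((ψ s : ℝ) : ℂ)

theorem an_cx {ψ : ℂ → ℝ} (h : AnalyticAt ℝ ψ 0) : An (cx ψ) :=
  (Complex.ofRealCLM.analyticAt (ψ 0)).comp h

theorem fderiv_cx {ψ : ℂ → ℝ} {s : ℂ} (h : DifferentiableAt ℝ ψ s) (v : ℂ) :
    fderiv ℝ (cx ψ) s v = ((fderiv ℝ ψ s v : ℝ) : ℂ) := by
  have h3 := h.hasFDerivAt
  have h4 := (Complex.ofRealCLM).hasFDerivAt.comp s h3
  have h5 : fderiv ℝ (cx ψ) s = _ := h4.fderiv
  rw [h5]
  simp

theorem an_fd_real {ψ : ℂ → ℝ} {s : ℂ} (hs : AnalyticAt ℝ ψ s) (v : ℂ) :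
    AnalyticAt ℝ (fun s => fderiv ℝ ψ s v) s := by
  have h1 : AnalyticAt ℝ (fderiv ℝ ψ) s := AnalyticAt.fderiv hs
  have h2 := (ContinuousLinearMap.apply ℝ ℝ v).analyticAt (fderiv ℝ ψ s)
  exact h2.comp h1

theorem D_cx {ψ : ℂ → ℝ} (h : AnalyticAt ℝ ψ 0) (c : ℂ) :
    D c (cx ψ) =ᶠ[𝓝 0] fun s => (1 / 2) * cx (fun s => fderiv ℝ ψ s 1) s
      + (c / 2) * cx (fun s => fderiv ℝ ψ s I) s := by
  filter_upwards [h.eventually_analyticAt] with s hs
  simp only [D, fderiv_cx hs.differentiableAt, cx]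
  ring

theorem an_lap {ψ : ℂ → ℝ} (h : AnalyticAt ℝ ψ 0) : AnalyticAt ℝ (lap ψ) 0 :=
  (an_fd_real (an_fd_real h 1) 1).add (an_fd_real (an_fd_real h I) I)

theorem lap_eq {ψ : ℂ → ℝ} (h : AnalyticAt ℝ ψ 0) :
    cx (lap ψ) =ᶠ[𝓝 0] fun s => 4 * D (-I) (D I (cx ψ)) s := by
  have h1 : An (cx (fun s => fderiv ℝ ψ s 1)) := an_cx (an_fd_real h 1)
  have h2 : An (cx (fun s => fderiv ℝ ψ s I)) := an_cx (an_fd_real h I)
  have h3 := D_congr (-I) (D_cx h I)
  have h4 := D_add (-I) ((an_const (1/2)).mul h1) ((an_const (I/2)).mul h2)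
  have h5 := D_mul (-I) (an_const (1/2)) h1
  have h6 := D_mul (-I) (an_const (I/2)) h2
  have h7 := D_cx (an_fd_real h 1) (-I)
  have h8 := D_cx (an_fd_real h I) (-I)
  filter_upwards [h3, h4, h5, h6, h7, h8, h.eventually_analyticAt] with s e3 e4 e5 e6 e7 e8 hs
  rw [e3, e4, e5, e6, e7, e8, D_const, D_const]
  have hsym := sym_fderiv hs 1 I
  simp only [cx, lap] at *
  rw [hsym]
  push_cast
  linear_combination (((fderiv ℝ (fun s => (fderiv ℝ ψ s) I) s) I : ℂ)) * I_sq

theorem lap_J {ψ : ℂ → ℝ} (h : AnalyticAt ℝ ψ 0) : ((lap ψ 0 : ℝ) : ℂ) = 4 * J (cx ψ) 1 1 :=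
  (lap_eq h).self_of_nhds

theorem laplap_J {ψ : ℂ → ℝ} (h : AnalyticAt ℝ ψ 0) :
    ((lap (lap ψ) 0 : ℝ) : ℂ) = 16 * J (cx ψ) 2 2 := by
  have h1 := lap_J (an_lap h)
  rw [h1, J_congr (lap_eq h)]
  have h2 : An (D (-I) (D I (cx ψ))) := ((an_cx h).D I).D (-I)
  have h3 := J_lin (ι := Unit) Finset.univ (fun _ => 4) (fun _ => D (-I) (D I (cx ψ)))
    (fun _ _ => h2) 1 1
  simp only [Finset.univ_unique, Finset.sum_singleton] at h3
  rw [h3, J_D ((an_cx h).D I)]
  have h4 : J (D I (cx ψ)) (1 + 1) 1 = J (cx ψ) 2 2 := rfl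
  rw [h4]
  ring

theorem J_swap {F : ℂ → ℂ} (a b : ℕ) : J (D I F) a b = J F a (b + 1) := rfl

/-! ### composition of a real function with the real part of a holomorphic function -/

/-- `f (Re g)` -/
noncomputable def CF (f : ℝ → ℝ) (g : ℂ → ℂ) (s : ℂ) : ℂ := ((f (g s).re : ℝ) : ℂ)

theorem an_re {g : ℂ → ℂ} {s : ℂ} (hg : AnalyticAt ℂ g s) :
    AnalyticAt ℝ (fun s => (g s).re) s := by
  have h1 : AnalyticAt ℝ g s := hg.restrictScalars
  exact (Complex.reCLM.analyticAt (g s)).comp h1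

theorem an_CF {f : ℝ → ℝ} {g : ℂ → ℂ} (hg : AnalyticAt ℂ g 0) (hf : AnalyticAt ℝ f (g 0).re) :
    An (CF f g) := by
  have h2 : AnalyticAt ℝ (fun s => f (g s).re) 0 := AnalyticAt.fun_comp hf (an_re hg)
  exact an_cx h2

theorem fd_CF {f : ℝ → ℝ} {g : ℂ → ℂ} {s : ℂ} (hg : AnalyticAt ℂ g s)
    (hf : DifferentiableAt ℝ f (g s).re) (v : ℂ) :
    fderiv ℝ (CF f g) s v = ((deriv f (g s).re * (deriv g s * v).re : ℝ) : ℂ) := by
  have h3 := hg.differentiableAt.hasDerivAt.hasFDerivAt.restrictScalars ℝ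
  have h4 : HasFDerivAt (fun s => (g s).re) _ s := (Complex.reCLM).hasFDerivAt.comp s h3
  have h5 : HasFDerivAt (fun s => f (g s).re) _ s := hf.hasDerivAt.comp_hasFDerivAt s h4
  have h6 := fderiv_cx h5.differentiableAt v
  have h7 : CF f g = cx (fun s => f (g s).re) := rfl
  rw [h7, h6, h5.fderiv]
  simp [mul_comm]

theorem D_CF {f : ℝ → ℝ} {g : ℂ → ℂ} (hg : AnalyticAt ℂ g 0) (hf : ∀ x, AnalyticAt ℝ f x) :
    D (-I) (CF f g) =ᶠ[𝓝 0] (fun s => CF (deriv f) g s * HB (fun s => deriv g s / 2) (fun _ => 1) s)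
    ∧ D I (CF f g) =ᶠ[𝓝 0]
      fun s => CF (deriv f) g s * HB (fun _ => 1) (fun s => deriv g s / 2) s := by
  have key : ∀ z : ℂ, ((z.re : ℝ) : ℂ) - I * (((z * I).re : ℝ) : ℂ) = z := by
    intro z
    apply Complex.ext <;> simp
  have key2 : ∀ z : ℂ, ((z.re : ℝ) : ℂ) + I * (((z * I).re : ℝ) : ℂ) = conj z := by
    intro z
    apply Complex.ext <;> simp
  constructor
  · filter_upwards [hg.eventually_analyticAt] with s hs
    simp only [D, fd_CF hs (hf _).differentiableAt, CF, HB, map_one, mul_one]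
    push_cast
    linear_combination (((deriv f (g s).re : ℝ) : ℂ) / 2) * key (deriv g s)
  · filter_upwards [hg.eventually_analyticAt] with s hs
    simp only [D, fd_CF hs (hf _).differentiableAt, CF, HB, one_mul, mul_one]
    have h2 : conj (deriv g s / 2) = conj (deriv g s) / 2 := by
      rw [map_div₀, Complex.conj_ofNat]
    rw [h2]
    push_cast
    linear_combination (((deriv f (g s).re : ℝ) : ℂ) / 2) * key2 (deriv g s)

theorem J_CF_table {f : ℝ → ℝ} {g : ℂ → ℂ} (hg : AnalyticAt ℂ g 0) (hf : ∀ x, AnalyticAt ℝ f x) :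
    (∀ b, J (CF f g) 1 b = J (CF (deriv f) g) 0 b * (deriv g 0 / 2)) ∧
    (∀ b, J (CF f g) 2 b = J (CF (deriv f) g) 1 b * (deriv g 0 / 2)
      + J (CF (deriv f) g) 0 b * (deriv (deriv g) 0 / 2)) ∧
    J (CF f g) 0 1 = ((deriv f (g 0).re : ℝ) : ℂ) * conj (deriv g 0 / 2) ∧
    J (CF f g) 0 2 = J (CF (deriv f) g) 0 1 * conj (deriv g 0 / 2)
      + ((deriv f (g 0).re : ℝ) : ℂ) * conj (deriv (deriv g) 0 / 2) := by
  have hf1 : ∀ x, AnalyticAt ℝ (deriv f) x := fun x => (hf x).deriv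
  have hc1 : AnalyticAt ℂ (fun _ : ℂ => (1 : ℂ)) 0 := analyticAt_const
  have hg2 : AnalyticAt ℂ (fun s => deriv g s / 2) 0 := hg.deriv.div_const
  have hd : deriv (fun s => deriv g s / 2) 0 = deriv (deriv g) 0 / 2 := by
    rw [deriv_div_const]
  have hd1 : ∀ n, deriv^[n+1] (fun _ : ℂ => (1 : ℂ)) 0 = 0 := by
    intro n
    have : deriv^[n+1] (fun _ : ℂ => (1 : ℂ)) = fun _ => 0 := by
      induction n with
      | zero => simp
      | succ n ih => rw [Function.iterate_succ_apply', ih]; simp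
    rw [this]
  have hL : ∀ a b, J (CF f g) (a+1) b = _ := fun a b => by
    rw [← J_D (an_CF hg (hf _)), J_congr (D_CF hg hf).1, J_mul (an_CF hg (hf1 _)) (an_HB hg2 hc1)]
  have hR : ∀ b, J (CF f g) 0 (b+1) = _ := fun b => by
    rw [← J_swap, J_congr (D_CF hg hf).2, J_mul (an_CF hg (hf1 _)) (an_HB hc1 hg2)]
  have hz : ∀ q : ℕ, deriv^[q] (fun _ : ℂ => (1 : ℂ)) 0 = if q = 0 then 1 else 0 := by
    intro q
    rcases q with _ | q
    · simp
    · rw [hd1]; simp
  have hsum : ∀ (b : ℕ) (u : ℕ → ℂ), ∑ q ∈ antidiagonal b, (b.choose q.1 : ℂ) *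
      (u q.1 * if q.2 = 0 then (1 : ℂ) else 0) = u b := by
    intro b u
    rw [Finset.sum_eq_single (b, 0)]
    · simp
    · rintro ⟨i, j⟩ hq hne
      have h1 := Finset.HasAntidiagonal.mem_antidiagonal.1 hq
      have : j ≠ 0 := by
        rintro rfl
        apply hne
        simp at h1
        simp [h1]
      simp [this]
    · intro h
      exact absurd (Finset.HasAntidiagonal.mem_antidiagonal.2 (by simp)) h
  refine ⟨fun b => ?_, fun b => ?_, ?_, ?_⟩
  · rw [hL 0 b]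
    simp only [J_HB hg2 hc1, hz]
    have := hsum b (fun i => J (CF (deriv f) g) 0 i * (deriv g 0 / 2))
    simp only [Finset.Nat.antidiagonal_zero, Finset.sum_singleton, Nat.choose_self, Nat.cast_one,
      Function.iterate_zero, id]
    rw [← this]
    refine Finset.sum_congr rfl fun q _ => ?_
    split_ifs <;> simp
  · rw [hL 1 b]
    simp only [J_HB hg2 hc1]
    have := hsum b (fun i => J (CF (deriv f) g) 1 i * (deriv g 0 / 2)
      + J (CF (deriv f) g) 0 i * (deriv (deriv g) 0 / 2))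
    rw [← this]
    refine Finset.sum_congr rfl fun q _ => ?_
    simp only [Finset.Nat.antidiagonal_succ, Finset.Nat.antidiagonal_zero]
    rw [hz]
    by_cases h : q.2 = 0
    · simp [h, hd]
      ring
    · simp [h]
  · rw [hR 0]
    simp [J_HB hc1 hg2, J_zero, CF]
  · rw [hR 1]
    simp [J_HB hc1 hg2, Finset.Nat.antidiagonal_succ, hd, J_zero, CF]
    ring

end Pool.Agent.MP_7c31d9_gt.Jets
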