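import Pool.Agent.MP_7c31d9_gt.LogGibbs

/-! Auxiliary: derivatives of the pair potential and arrays of jets. -/

namespace Pool.Agent.MP_7c31d9_gt

open Complex Filter Topology Finset Jets
open scoped ComplexConjugate ContDiff

namespace Jets

/-! ### the pair potential -/

/-- `√(x² + r²)` -/
noncomputable def RR (r x : ℝ) : ℝ := Real.sqrt (x ^ 2 + r ^ 2)

theorem RR_pos {r : ℝ} (hr : 0 < r) (x : ℝ) : 0 < RR r x :=
  Real.sqrt_pos.2 (by positivity)

theorem RR_sq (r x : ℝ) : RR r x ^ 2 = x ^ 2 + r ^ 2 := Real.sq_sqrt (by positivity)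

theorem hasDerivAt_RR {r : ℝ} (hr : 0 < r) (x : ℝ) : HasDerivAt (RR r) (x / RR r x) x := by
  have h1 : HasDerivAt (fun x : ℝ => x ^ 2 + r ^ 2) (2 * x) x := by
    simpa using (hasDerivAt_pow 2 x).add_const (r ^ 2)
  have h2 := h1.sqrt (by positivity)
  have h3 : RR r = fun x => Real.sqrt (x ^ 2 + r ^ 2) := rfl
  have h4 := (RR_pos hr x).ne'
  have h5 : 2 * x / (2 * Real.sqrt (x ^ 2 + r ^ 2)) = x / RR r x := by
    rw [RR] at h4 ⊢
    field_simp
  rw [← h5, h3]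
  exact h2

theorem an_RR {r : ℝ} (hr : 0 < r) (x : ℝ) : AnalyticAt ℝ (RR r) x := by
  have h1 : ContDiffAt ℝ ω (fun x : ℝ => x ^ 2 + r ^ 2) x := by fun_prop
  have h2 : ContDiffAt ℝ ω (fun x : ℝ => Real.sqrt (x ^ 2 + r ^ 2)) x :=
    h1.sqrt (by positivity)
  exact h2.analyticAt

theorem fpair_eq (r x : ℝ) : fpair r x = RR r x ^ 3 := by
  unfold fpair
  rw [← RR_sq]
  have : Real.sqrt (RR r x ^ 2) = RR r x := Real.sqrt_sq (Real.sqrt_nonneg _)
  rw [this]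
  ring

theorem an_fpair {r : ℝ} (hr : 0 < r) (x : ℝ) : AnalyticAt ℝ (fpair r) x := by
  have h1 : fpair r = fun x => RR r x ^ 3 := funext (fpair_eq r)
  rw [h1]
  exact (an_RR hr x).pow 3

theorem deriv_fpair {r : ℝ} (hr : 0 < r) :
    deriv (fpair r) = (fun x => 3 * x * RR r x) ∧
    deriv (deriv (fpair r)) = (fun x => 6 * RR r x - 3 * r ^ 2 / RR r x) ∧
    deriv (deriv (deriv (fpair r))) = (fun x => 6 * x / RR r x + 3 * r ^ 2 * x / RR r x ^ 3) ∧
    deriv (deriv (deriv (deriv (fpair r)))) = (fun x => 9 * r ^ 4 / RR r x ^ 5) := by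
  have h1 : deriv (fpair r) = (fun x => 3 * x * RR r x) := by
    have h0 : fpair r = fun x => RR r x ^ 3 := funext (fpair_eq r)
    rw [h0]
    funext x
    have h2 := (hasDerivAt_RR hr x).pow 3
    have h3 := h2.deriv
    have h4 := (RR_pos hr x).ne'
    have h5 : (fun x => RR r x ^ 3) = RR r ^ 3 := rfl
    rw [h5, h3]
    field_simp
    push_cast
    ring
  have h2 : deriv (deriv (fpair r)) = (fun x => 6 * RR r x - 3 * r ^ 2 / RR r x) := by
    rw [h1]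
    funext x
    have h3 : HasDerivAt (fun x : ℝ => 3 * x) (3 * 1) x := (hasDerivAt_id x).const_mul 3
    have h4 := (h3.mul (hasDerivAt_RR hr x)).deriv
    have h5 : (fun x => 3 * x * RR r x) = (fun x : ℝ => 3 * x) * RR r := rfl
    have h6 := (RR_pos hr x).ne'
    rw [h5, h4]
    field_simp
    rw [RR_sq]
    ring
  have h3 : deriv (deriv (deriv (fpair r)))
      = (fun x => 6 * x / RR r x + 3 * r ^ 2 * x / RR r x ^ 3) := by
    rw [h2]
    funext x
    have h6 := (RR_pos hr x).ne'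
    have h3 := ((hasDerivAt_RR hr x).const_mul 6).sub
      ((hasDerivAt_const x (3 * r ^ 2)).div (hasDerivAt_RR hr x) h6)
    have h4 := h3.deriv
    have h5 : (fun x => 6 * RR r x - 3 * r ^ 2 / RR r x)
      = (fun x => 6 * RR r x) - ((fun _ => 3 * r ^ 2) / RR r) := rfl
    rw [h5, h4]
    field_simp
    ring
  have h4 : deriv (deriv (deriv (deriv (fpair r)))) = (fun x => 9 * r ^ 4 / RR r x ^ 5) := by
    rw [h3]
    funext x
    have h6 := (RR_pos hr x).ne'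
    have h7 : HasDerivAt (fun x : ℝ => 6 * x) (6 * 1) x := (hasDerivAt_id x).const_mul 6
    have h8 : HasDerivAt (fun x : ℝ => 3 * r ^ 2 * x) (3 * r ^ 2 * 1) x :=
      (hasDerivAt_id x).const_mul _
    have h3 := (h7.div (hasDerivAt_RR hr x) h6).add
      (h8.div ((hasDerivAt_RR hr x).pow 3) (pow_ne_zero 3 h6))
    have h4 := h3.deriv
    have h5 : (fun x => 6 * x / RR r x + 3 * r ^ 2 * x / RR r x ^ 3)
      = (fun x => 6 * x) / RR r + (fun x => 3 * r ^ 2 * x) / RR r ^ 3 := rfl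
    rw [h5, h4]
    have h9 := RR_sq r x
    have h10 : x ^ 2 = RR r x ^ 2 - r ^ 2 := by linarith
    simp only [Pi.pow_apply]
    field_simp
    push_cast
    ring_nf
    have h11 : x ^ 4 = (RR r x ^ 2 - r ^ 2) ^ 2 := by rw [← h10]; ring
    try rw [h11]
    rw [h10]
    ring
  exact ⟨h1, h2, h3, h4⟩

/-! ### arrays -/

/-- Cauchy product of jets -/
noncomputable def cp (A B : ℕ → ℕ → ℂ) (a b : ℕ) : ℂ :=
  ∑ q ∈ antidiagonal b, ∑ p ∈ antidiagonal a,
      (b.choose q.1 : ℂ) * (a.choose p.1 : ℂ) * (A p.1 q.1 * B p.2 q.2)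

theorem J_mul' {F G : ℂ → ℂ} (hF : An F) (hG : An G) (a b : ℕ) :
    J (fun s => F s * G s) a b = cp (J F) (J G) a b := J_mul hF hG a b

/-- bounded array -/
def BA (N : ℕ) (A : ℕ → ℕ → ℂ) (c μ : ℝ) : Prop := ∀ a ≤ N, ∀ b ≤ N, ‖A a b‖ ≤ c * μ ^ (a + b)

theorem BA.mono {N : ℕ} {A : ℕ → ℕ → ℂ} {c μ μ' : ℝ} (h : BA N A c μ) (hc : 0 ≤ c) (hμ : 0 ≤ μ)
    (hμ' : μ ≤ μ') : BA N A c μ' := fun a ha b hb =>
  (h a ha b hb).trans (mul_le_mul_of_nonneg_left (pow_le_pow_left₀ hμ hμ' _) hc)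

theorem sum_choose_pow (x y : ℝ) (n : ℕ) :
    ∑ p ∈ antidiagonal n, (n.choose p.1 : ℝ) * (x ^ p.1 * y ^ p.2) = (x + y) ^ n := by
  rw [(Commute.all x y).add_pow' n]
  simp only [nsmul_eq_mul]

theorem cp_bound (A B : ℕ → ℕ → ℂ) (c c' x y : ℝ) (a b : ℕ) (S : Finset ((ℕ × ℕ) × (ℕ × ℕ)))
    (h : ∀ s ∈ S, ‖A s.2.1 s.1.1‖ * ‖B s.2.2 s.1.2‖ ≤
      c * x ^ (s.2.1 + s.1.1) * (c' * y ^ (s.2.2 + s.1.2))) :
    ‖∑ s ∈ S, (b.choose s.1.1 : ℂ) * (a.choose s.2.1 : ℂ) * (A s.2.1 s.1.1 * B s.2.2 s.1.2)‖ ≤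
      c * c' * ∑ s ∈ S, ((b.choose s.1.1 : ℝ) * (x ^ s.1.1 * y ^ s.1.2)) *
        ((a.choose s.2.1 : ℝ) * (x ^ s.2.1 * y ^ s.2.2)) := by
  refine (norm_sum_le _ _).trans ?_
  rw [Finset.mul_sum]
  refine Finset.sum_le_sum fun s hs => ?_
  rw [norm_mul, norm_mul, norm_mul, Complex.norm_natCast, Complex.norm_natCast]
  have h1 := h s hs
  calc (b.choose s.1.1 : ℝ) * (a.choose s.2.1 : ℝ) * (‖A s.2.1 s.1.1‖ * ‖B s.2.2 s.1.2‖)
      ≤ (b.choose s.1.1 : ℝ) * (a.choose s.2.1 : ℝ) *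
        (c * x ^ (s.2.1 + s.1.1) * (c' * y ^ (s.2.2 + s.1.2))) :=
        mul_le_mul_of_nonneg_left h1 (by positivity)
    _ = _ := by rw [pow_add, pow_add]; ring

theorem sum_prod_choose (x y : ℝ) (a b : ℕ) :
    ∑ s ∈ antidiagonal b ×ˢ antidiagonal a, ((b.choose s.1.1 : ℝ) * (x ^ s.1.1 * y ^ s.1.2)) *
        ((a.choose s.2.1 : ℝ) * (x ^ s.2.1 * y ^ s.2.2)) = (x + y) ^ (a + b) := by
  rw [Finset.sum_product, ]
  simp only [← Finset.mul_sum, sum_choose_pow]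
  rw [← Finset.sum_mul, sum_choose_pow, pow_add]
  ring

theorem cp_eq (A B : ℕ → ℕ → ℂ) (a b : ℕ) : cp A B a b =
    ∑ s ∈ antidiagonal b ×ˢ antidiagonal a,
      (b.choose s.1.1 : ℂ) * (a.choose s.2.1 : ℂ) * (A s.2.1 s.1.1 * B s.2.2 s.1.2) := by
  rw [Finset.sum_product]
  rfl

theorem BA.cp {N : ℕ} {A B : ℕ → ℕ → ℂ} {c c' μ : ℝ} (hA : BA N A c μ) (hB : BA N B c' μ)
    (hc : 0 ≤ c) (hμ : 0 ≤ μ) : BA N (Jets.cp A B) (c * c') (2 * μ) := by
  intro a ha b hb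
  rw [cp_eq]
  refine (cp_bound A B c c' μ μ a b _ ?_).trans ?_
  · intro s hs
    obtain ⟨h1, h2⟩ := Finset.mem_product.1 hs
    have h3 := Finset.HasAntidiagonal.mem_antidiagonal.1 h1
    have h4 := Finset.HasAntidiagonal.mem_antidiagonal.1 h2
    have h5 := hA s.2.1 (by omega) s.1.1 (by omega)
    have h6 := hB s.2.2 (by omega) s.1.2 (by omega)
    exact mul_le_mul h5 h6 (norm_nonneg _) (by positivity)
  · rw [sum_prod_choose, two_mul]

/-- inverse -/
theorem BA.inv {Z G : ℕ → ℕ → ℂ} {N : ℕ} (hN : N ≤ 2) {z μ : ℝ} (hz : 0 < z) (hμ : 0 ≤ μ)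
    (h00 : Z 0 0 = z) (hZ : BA N Z z μ) (h1 : G 0 0 = (z : ℂ)⁻¹)
    (h2 : ∀ a b, ¬ (a = 0 ∧ b = 0) → Jets.cp Z G a b = 0) : BA N G z⁻¹ (6 * μ) := by
  have key : ∀ n : ℕ, ∀ a ≤ N, ∀ b ≤ N, a + b = n → ‖G a b‖ ≤ z⁻¹ * (6 * μ) ^ (a + b) := by
    intro n
    induction n using Nat.strong_induction_on with
    | _ n ih =>
      intro a ha b hb hn
      by_cases h0 : a = 0 ∧ b = 0
      · obtain ⟨rfl, rfl⟩ := h0
        rw [h1, norm_inv, Complex.norm_real, Real.norm_eq_abs, abs_of_pos hz]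
        simp
      have h3 := h2 a b h0
      rw [cp_eq] at h3
      have hmem : (((0, b), (0, a)) : (ℕ × ℕ) × (ℕ × ℕ)) ∈ antidiagonal b ×ˢ antidiagonal a := by
        simp
      rw [← Finset.add_sum_erase _ _ hmem] at h3
      simp only [Nat.choose_zero_right, Nat.cast_one, one_mul, h00] at h3
      have h4 := cp_bound Z G z z⁻¹ μ (6 * μ) a b
        ((antidiagonal b ×ˢ antidiagonal a).erase ((0, b), (0, a))) (by
          intro s hs
          obtain ⟨hne, hs⟩ := Finset.mem_erase.1 hs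
          obtain ⟨k1, k2⟩ := Finset.mem_product.1 hs
          have k3 := Finset.HasAntidiagonal.mem_antidiagonal.1 k1
          have k4 := Finset.HasAntidiagonal.mem_antidiagonal.1 k2
          have k5 := hZ s.2.1 (by omega) s.1.1 (by omega)
          have k7 : s.2.2 + s.1.2 < n := by
            by_contra hcon
            apply hne
            obtain ⟨⟨s1, s2⟩, ⟨s3, s4⟩⟩ := s
            simp only at k3 k4 hcon ⊢
            have : s1 = 0 ∧ s2 = b ∧ s3 = 0 ∧ s4 = a := by omega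
            obtain ⟨rfl, rfl, rfl, rfl⟩ := this
            rfl
          have k6 := ih _ k7 s.2.2 (by omega) s.1.2 (by omega) rfl
          exact mul_le_mul k5 k6 (norm_nonneg _) (by positivity))
      have h5 := sum_prod_choose μ (6 * μ) a b
      rw [← Finset.add_sum_erase _ _ hmem] at h5
      simp only [Nat.choose_zero_right, Nat.cast_one, one_mul, pow_zero] at h5
      have h6 : ∑ s ∈ (antidiagonal b ×ˢ antidiagonal a).erase ((0, b), (0, a)),
          ((b.choose s.1.1 : ℝ) * (μ ^ s.1.1 * (6 * μ) ^ s.1.2)) *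
          ((a.choose s.2.1 : ℝ) * (μ ^ s.2.1 * (6 * μ) ^ s.2.2)) =
          (7 * μ) ^ (a + b) - (6 * μ) ^ (a + b) := by
        have e1 : (μ + 6 * μ) = 7 * μ := by ring
        rw [e1] at h5
        rw [pow_add (6 * μ)]
        linarith
      rw [h6, mul_inv_cancel₀ hz.ne', one_mul] at h4
      have h7 : (7 * μ) ^ (a + b) ≤ 2 * (6 * μ) ^ (a + b) := by
        rw [mul_pow, mul_pow, ← mul_assoc]
        refine mul_le_mul_of_nonneg_right ?_ (by positivity)
        have : a + b ≤ 4 := by omega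
        interval_cases (a + b) <;> norm_num
      have h8 : ‖(z : ℂ) * G a b‖ ≤ (6 * μ) ^ (a + b) := by
        have : (z : ℂ) * G a b = - ∑ s ∈ (antidiagonal b ×ˢ antidiagonal a).erase ((0, b), (0, a)),
          (b.choose s.1.1 : ℂ) * (a.choose s.2.1 : ℂ) * (Z s.2.1 s.1.1 * G s.2.2 s.1.2) := by
          linear_combination h3
        rw [this, norm_neg]
        linarith
      rw [norm_mul, Complex.norm_real, Real.norm_eq_abs, abs_of_pos hz] at h8
      rw [inv_mul_eq_div, le_div_iff₀ hz]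
      linarith
  intro a ha b hb
  exact key _ a ha b hb rfl

end Jets

end Pool.Agent.MP_7c31d9_gt
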