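import Pool.Agent.MP_7c31d9_gt.Defs2

/-! P6b: the non-constant part of the weight (`pieceA`). -/

set_option autoImplicit false

namespace Pool.Agent.MP_7c31d9_gt

open Complex MeasureTheory

/-- Statement of P5. -/
def ChainStmt : Prop :=
  ∃ (N : ℕ) (γ : ℕ → Gauge) (a : ℕ → ℝ) (δ : ℝ), 0 < δ ∧ a 0 = 3 ∧ a N = 0 ∧
    (∀ k ≤ N, 0 ≤ a k) ∧
    (∀ k ≤ N, PIok (γ k) (a k) δ ∧ PIok (γ k) (a k + 28 / 100) δ) ∧
    (∀ k < N, PIok (γ k) (a (k + 1)) δ ∧ PIok (γ k) (a (k + 1) + 28 / 100) δ)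

/-- Conclusion of P6a for fixed gauges and constant. -/
def PlateauAt (γ γ' : Gauge) (C1 : ℝ) : Prop :=
  ∀ a δ x X : ℝ, 0 ≤ a → 0 < δ → 0 < x →
    x < X → PIok γ a δ → PIok γ (a + 28 / 100) δ → PIok γ' a δ → PIok γ' (a + 28 / 100) δ →
    ∀ (J : Type) [Fintype J] (t : J → ℝ) (w u : J → ℂ) (m : ℝ), (∀ i, 0 ≤ t i) → 0 < m →
      Fintype.card J ≤ m →
      (δ - C1 / Real.log (X / x)) * (∫ l in x..X, l ^ (a - 3) * SJ m t w u l)
        - (X ^ (a - 3) * QK γ' m t w u X - x ^ (a - 3) * QK γ m t w u x)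
      ≤ ∫ l in x..X, l ^ (a - 3) * DJ m t w u l

/-- Statement of P6a. -/
def PlateauStmt : Prop := ∀ γ γ' : Gauge, ∃ C1 : ℝ, 0 < C1 ∧ PlateauAt γ γ' C1

/-- Statement of P6a'. -/
def FirstStmt : Prop :=
  ∀ (γ : Gauge) (δ X : ℝ), 0 < δ → 0 < X → PIok γ 3 δ → PIok γ (3 + 28 / 100) δ →
    ∀ (J : Type) [Fintype J] (t : J → ℝ) (w u : J → ℂ) (m : ℝ), (∀ i, 0 ≤ t i) → 0 < m →
    Fintype.card J ≤ m →
    δ * (∫ l in (0 : ℝ)..X, SJ m t w u l) - QK γ m t w u X ≤
      ∫ l in (0 : ℝ)..X, DJ m t w u l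

section basics

variable {J : Type} [Fintype J] {m : ℝ} {t : J → ℝ} {w u : J → ℂ}

theorem qden_pos (hm : 0 < m) (t : J → ℝ) (l : ℝ) : 0 < m + ∑ j, Real.exp (-(l * t j)) :=
  add_pos_of_pos_of_nonneg hm (Finset.sum_nonneg fun _ _ => (Real.exp_pos _).le)

theorem qw_pos (hm : 0 < m) (t : J → ℝ) (l : ℝ) (i : J) : 0 < qw m t l i :=
  div_pos (Real.exp_pos _) (qden_pos hm t l)

theorem continuous_qw (hm : 0 < m) (t : J → ℝ) (i : J) : Continuous fun l => qw m t l i := by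
  unfold qw
  refine Continuous.div (by fun_prop) (by fun_prop) fun l => (qden_pos hm t l).ne'

theorem continuous_SJ (hm : 0 < m) (t : J → ℝ) (w u : J → ℂ) : Continuous (SJ m t w u) := by
  unfold SJ
  refine continuous_finsetSum _ fun i _ => ?_
  have := continuous_qw hm t i
  fun_prop

theorem SJ_nonneg (hm : 0 < m) (ht : ∀ i, 0 ≤ t i) (w u : J → ℂ) {l : ℝ} (hl : 0 ≤ l) :
    0 ≤ SJ m t w u l := by
  unfold SJ
  refine Finset.sum_nonneg fun i _ => ?_
  have := qw_pos hm t l i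
  have h2 := ht i
  positivity

/-- polynomial form of `DJ`, valid at `0` too. -/
theorem DJ_eq (m : ℝ) (t : J → ℝ) (w u : J → ℂ) (l : ℝ) : DJ m t w u l =
    (∑ i, qw m t l i * ‖(l : ℂ) ^ 2 * (w i ^ 2 - 2 * (∑ j, (qw m t l j : ℂ) * w j) * w i)
        + l * u i‖ ^ 2)
      - ‖∑ i, (qw m t l i : ℂ) * ((l : ℂ) ^ 2 *
          (w i ^ 2 - 2 * (∑ j, (qw m t l j : ℂ) * w j) * w i) + l * u i)‖ ^ 2
      - 2 * (l ^ 2 * ((∑ i, qw m t l i * ‖w i‖ ^ 2) - ‖∑ j, (qw m t l j : ℂ) * w j‖ ^ 2)) ^ 2 := by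
  rcases eq_or_ne l 0 with rfl | hl
  · simp [DJ]
  · have hlc : (l : ℂ) ≠ 0 := by exact_mod_cast hl
    have key : ∀ z v : ℂ, (l : ℂ) ^ 2 * z + l * v = (l : ℂ) ^ 2 * (z + v / l) := by
      intro z v; field_simp
    have hn : ‖(l : ℂ) ^ 2‖ ^ 2 = l ^ 4 := by
      rw [norm_pow, Complex.norm_real, Real.norm_eq_abs, ← pow_mul]
      rw [show 2 * 2 = 4 from rfl]
      exact (Even.pow_abs (by decide) l)
    unfold DJ T0
    simp only [key]
    have h1 : ∀ i, (qw m t l i : ℂ) * ((l : ℂ) ^ 2 *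
        (w i ^ 2 - 2 * (∑ j, (qw m t l j : ℂ) * w j) * w i + u i / l)) = (l : ℂ) ^ 2 *
        ((qw m t l i : ℂ) * (w i ^ 2 - 2 * (∑ j, (qw m t l j : ℂ) * w j) * w i + u i / l)) := by
      intro i; ring
    simp only [h1, ← Finset.mul_sum, norm_mul, mul_pow, hn]
    have h2 : ∀ i, qw m t l i * (l ^ 4 *
        ‖w i ^ 2 - 2 * (∑ j, (qw m t l j : ℂ) * w j) * w i + u i / l‖ ^ 2) = l ^ 4 *
        (qw m t l i * ‖w i ^ 2 - 2 * (∑ j, (qw m t l j : ℂ) * w j) * w i + u i / l‖ ^ 2) := by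
      intro i; ring
    simp only [h2, ← Finset.mul_sum]
    ring

theorem continuous_DJ (hm : 0 < m) (t : J → ℝ) (w u : J → ℂ) : Continuous (DJ m t w u) := by
  have : DJ m t w u = fun l => _ := funext fun l => DJ_eq m t w u l
  rw [this]
  have hq : ∀ i, Continuous fun l => qw m t l i := fun i => continuous_qw hm t i
  have hqc : ∀ i, Continuous fun l => (qw m t l i : ℂ) := fun i =>
    Complex.continuous_ofReal.comp (hq i)
  have hS : Continuous fun l => ∑ j, (qw m t l j : ℂ) * w j :=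
    continuous_finsetSum _ fun i _ => (hqc i).mul continuous_const
  refine Continuous.sub (Continuous.sub ?_ ?_) ?_
  · refine continuous_finsetSum _ fun i _ => ?_
    have := hq i
    fun_prop
  · refine Continuous.pow (Continuous.norm (continuous_finsetSum _ fun i _ => ?_)) 2
    have := hqc i
    fun_prop
  · have h2 : Continuous fun l => ∑ i, qw m t l i * ‖w i‖ ^ 2 :=
      continuous_finsetSum _ fun i _ => (hq i).mul continuous_const
    fun_prop

end basics

/-- The inequality reached at `X` with gauge `γ` and weight `K`. -/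
def Ineq (δ : ℝ) (γ : Gauge) (K : ℝ → ℝ) (X : ℝ) : Prop :=
  ∀ (J : Type) [Fintype J] (t : J → ℝ) (w u : J → ℂ) (m : ℝ), (∀ i, 0 ≤ t i) → 0 < m →
    Fintype.card J ≤ m →
    (δ / 2) * (∫ l in (0 : ℝ)..X, K l * SJ m t w u l) - K X * QK γ m t w u X ≤
      ∫ l in (0 : ℝ)..X, K l * DJ m t w u l

/-- A good weight on `[0, X]`. -/
structure GoodW (δ : ℝ) (γ : Gauge) (K : ℝ → ℝ) (X : ℝ) : Prop where
  cont : ContinuousOn K (Set.Icc 0 X)
  pos : ∀ x ∈ Set.Icc 0 X, 0 < K x
  mono : MonotoneOn (fun x => x ^ 4 * K x) (Set.Icc 0 X)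
  ineq : Ineq δ γ K X

/-- extension of a weight by a power. -/
noncomputable def ext (K : ℝ → ℝ) (x a y : ℝ) : ℝ :=
  if y ≤ x then K y else K x * (y / x) ^ (a - 3)

theorem ext_left {K : ℝ → ℝ} {x a y : ℝ} (h : y ≤ x) : ext K x a y = K y := if_pos h

theorem ext_right {K : ℝ → ℝ} {x a y : ℝ} (hx : 0 < x) (h : x ≤ y) :
    ext K x a y = K x * (y / x) ^ (a - 3) := by
  unfold ext
  split_ifs with h1
  · have : y = x := le_antisymm h1 h
    subst this
    rw [div_self hx.ne', Real.one_rpow, mul_one]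
  · rfl

theorem ext_right' {K : ℝ → ℝ} {x a y : ℝ} (hx : 0 < x) (h : x ≤ y) :
    ext K x a y = K x / x ^ (a - 3) * y ^ (a - 3) := by
  rw [ext_right hx h, Real.div_rpow (hx.le.trans h) hx.le]
  ring

theorem ext_cont {K : ℝ → ℝ} {x X a : ℝ} (hx : 0 < x) (hX : x ≤ X)
    (hK : ContinuousOn K (Set.Icc 0 x)) : ContinuousOn (ext K x a) (Set.Icc 0 X) := by
  rw [← Set.Icc_union_Icc_eq_Icc hx.le hX]
  refine ContinuousOn.union_of_isClosed ?_ ?_ isClosed_Icc isClosed_Icc
  · exact hK.congr fun y hy => ext_left hy.2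
  · have : ContinuousOn (fun y : ℝ => K x * (y / x) ^ (a - 3)) (Set.Icc x X) := by
      refine ContinuousOn.mul continuousOn_const (ContinuousOn.rpow_const (by fun_prop) ?_)
      intro y hy
      left
      exact (div_pos (hx.trans_le hy.1) hx).ne'
    exact this.congr fun y hy => ext_right hx hy.1

theorem extend {δ : ℝ} {γ γ' : Gauge} {C1 a : ℝ} {K : ℝ → ℝ} {x X : ℝ} (hδ : 0 < δ)
    (hC1 : 0 < C1) (hpl : PlateauAt γ γ' C1) (hx : 0 < x) (hX : x < X)
    (hlen : 2 * C1 / δ ≤ Real.log (X / x)) (ha : 0 ≤ a) (hG : GoodW δ γ K x)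
    (h1 : PIok γ a δ) (h2 : PIok γ (a + 28 / 100) δ) (h3 : PIok γ' a δ)
    (h4 : PIok γ' (a + 28 / 100) δ) : GoodW δ γ' (ext K x a) X := by
  have hKx : 0 < K x := hG.pos x ⟨hx.le, le_rfl⟩
  have hc := ext_cont (a := a) hx hX.le hG.cont
  have hmono2 : MonotoneOn (fun y => y ^ 4 * ext K x a y) (Set.Icc x X) := by
    intro y hy z hz hyz
    have e : ∀ y ∈ Set.Icc x X, y ^ 4 * ext K x a y = K x / x ^ (a - 3) * y ^ (a + 1) := by
      intro y hy
      have hy0 : 0 < y := hx.trans_le hy.1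
      rw [ext_right' hx hy.1, show a + 1 = (4 : ℕ) + (a - 3) by push_cast; ring,
        Real.rpow_add hy0, Real.rpow_natCast]
      ring
    simp only [e y hy, e z hz]
    have : y ^ (a + 1) ≤ z ^ (a + 1) :=
      Real.rpow_le_rpow (hx.le.trans hy.1) hyz (by linarith)
    have h5 : 0 < x ^ (a - 3) := Real.rpow_pos_of_pos hx _
    exact mul_le_mul_of_nonneg_left this (by positivity)
  refine ⟨hc, ?_, ?_, ?_⟩
  · intro y hy
    rcases le_total y x with h | h
    · rw [ext_left h]; exact hG.pos y ⟨hy.1, h⟩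
    · rw [ext_right hx h]
      exact mul_pos hKx (Real.rpow_pos_of_pos (div_pos (hx.trans_le h) hx) _)
  · have hm1 : MonotoneOn (fun y => y ^ 4 * ext K x a y) (Set.Icc 0 x) := by
      intro y hy z hz hyz
      simp only [ext_left hy.2, ext_left hz.2]
      exact hG.mono hy hz hyz
    intro y hy z hz hyz
    rcases le_total z x with h | h
    · exact hm1 ⟨hy.1, hyz.trans h⟩ ⟨hz.1, h⟩ hyz
    · rcases le_total y x with h' | h'
      · exact (hm1 ⟨hy.1, h'⟩ ⟨hx.le, le_rfl⟩ h').trans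
          (hmono2 ⟨le_rfl, hX.le⟩ ⟨h, hz.2⟩ h)
      · exact hmono2 ⟨h', hy.2⟩ ⟨h, hz.2⟩ hyz
  · intro J _ t w u m ht hm hJ
    have i1 := hG.ineq J t w u m ht hm hJ
    have i2 := hpl a δ x X ha hδ hx hX h1 h2 h3 h4 J t w u m ht hm hJ
    have hlog : 0 < Real.log (X / x) := lt_of_lt_of_le (by positivity) hlen
    have hδ2 : δ / 2 ≤ δ - C1 / Real.log (X / x) := by
      have : C1 / Real.log (X / x) ≤ δ / 2 := by
        rw [div_le_iff₀ hlog]
        have := mul_le_mul_of_nonneg_left hlen (by positivity : 0 ≤ δ / 2)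
        have e : δ / 2 * (2 * C1 / δ) = C1 := by field_simp
        linarith
      linarith
    have hcS := continuous_SJ hm t w u
    have hcD := continuous_DJ hm t w u
    have hint : ∀ f : ℝ → ℝ, Continuous f → ∀ b c, 0 ≤ b → b ≤ c → c ≤ X →
        IntervalIntegrable (fun l => ext K x a l * f l) volume b c := by
      intro f hf b c hb hbc hc'
      refine ContinuousOn.intervalIntegrable ?_
      rw [Set.uIcc_of_le hbc]
      exact (hc.mono (Set.Icc_subset_Icc hb hc')).mul hf.continuousOn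
    set k : ℝ := K x / x ^ (a - 3) with hk
    have hkpos : 0 < k := div_pos hKx (Real.rpow_pos_of_pos hx _)
    have split : ∀ f : ℝ → ℝ, Continuous f →
        (∫ l in (0 : ℝ)..X, ext K x a l * f l) =
          (∫ l in (0 : ℝ)..x, K l * f l) + k * ∫ l in x..X, l ^ (a - 3) * f l := by
      intro f hf
      rw [← intervalIntegral.integral_add_adjacent_intervals
        (hint f hf 0 x le_rfl hx.le hX.le) (hint f hf x X hx.le hX.le le_rfl)]
      congr 1
      · refine intervalIntegral.integral_congr fun l hl => ?_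
        rw [Set.uIcc_of_le hx.le] at hl
        simp only [ext_left hl.2]
      · rw [← intervalIntegral.integral_const_mul]
        refine intervalIntegral.integral_congr fun l hl => ?_
        rw [Set.uIcc_of_le hX.le] at hl
        simp only [ext_right' hx hl.1]
        ring
    have hSnn : 0 ≤ ∫ l in x..X, l ^ (a - 3) * SJ m t w u l := by
      refine intervalIntegral.integral_nonneg hX.le fun l hl => ?_
      have hl0 : 0 < l := hx.trans_le hl.1
      exact mul_nonneg (Real.rpow_nonneg hl0.le _) (SJ_nonneg hm ht w u hl0.le)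
    have i3 : (δ / 2) * (∫ l in x..X, l ^ (a - 3) * SJ m t w u l)
        - (X ^ (a - 3) * QK γ' m t w u X - x ^ (a - 3) * QK γ m t w u x)
        ≤ ∫ l in x..X, l ^ (a - 3) * DJ m t w u l := by
      have := mul_le_mul_of_nonneg_right hδ2 hSnn
      linarith
    rw [split _ hcS, split _ hcD, ext_right' hx hX.le]
    have i4 := mul_le_mul_of_nonneg_left i3 hkpos.le
    have e2 : k * x ^ (a - 3) = K x := by
      rw [hk]; exact div_mul_cancel₀ _ (Real.rpow_pos_of_pos hx _).ne'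
    have e3 : k * (x ^ (a - 3) * QK γ m t w u x) = K x * QK γ m t w u x := by
      rw [← mul_assoc, e2]
    have e4 : k * ((δ / 2) * (∫ l in x..X, l ^ (a - 3) * SJ m t w u l)
        - (X ^ (a - 3) * QK γ' m t w u X - x ^ (a - 3) * QK γ m t w u x)) =
        (δ / 2) * (k * ∫ l in x..X, l ^ (a - 3) * SJ m t w u l)
        - k * X ^ (a - 3) * QK γ' m t w u X + k * (x ^ (a - 3) * QK γ m t w u x) := by ring
    rw [e4, e3] at i4
    linarith

theorem GoodW.smul {δ : ℝ} {γ : Gauge} {K : ℝ → ℝ} {X c : ℝ} (hc : 0 < c)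
    (hG : GoodW δ γ K X) : GoodW δ γ (fun x => c * K x) X := by
  refine ⟨continuousOn_const.mul hG.cont, fun x hx => mul_pos hc (hG.pos x hx), ?_, ?_⟩
  · intro y hy z hz hyz
    have := mul_le_mul_of_nonneg_left (hG.mono hy hz hyz) hc.le
    show y ^ 4 * (c * K y) ≤ z ^ 4 * (c * K z)
    simp only at this
    linarith
  · intro J _ t w u m ht hm hJ
    have i1 := mul_le_mul_of_nonneg_left (hG.ineq J t w u m ht hm hJ) hc.le
    have e : ∀ f : ℝ → ℝ, (∫ l in (0 : ℝ)..X, c * K l * f l) =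
        c * ∫ l in (0 : ℝ)..X, K l * f l := by
      intro f
      rw [← intervalIntegral.integral_const_mul]
      simp only [mul_assoc]
    rw [e, e]
    linarith

/-- A gauge can be reached. -/
def Reach (δ : ℝ) (γ : Gauge) : Prop := ∀ X : ℝ, 0 < X → ∃ K : ℝ → ℝ, GoodW δ γ K X

theorem reach_zero (hfirst : FirstStmt) {δ : ℝ} {γ : Gauge} (hδ : 0 < δ) (h1 : PIok γ 3 δ)
    (h2 : PIok γ (3 + 28 / 100) δ) : Reach δ γ := by
  intro X hX
  refine ⟨fun _ => 1, continuousOn_const, fun _ _ => one_pos, ?_, ?_⟩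
  · intro y hy z hz hyz
    simp only [mul_one]
    exact pow_le_pow_left₀ hy.1 hyz 4
  · intro J _ t w u m ht hm hJ
    have i1 := hfirst γ δ X hδ hX h1 h2 J t w u m ht hm hJ
    have hSnn : 0 ≤ ∫ l in (0 : ℝ)..X, SJ m t w u l :=
      intervalIntegral.integral_nonneg hX.le fun l hl => SJ_nonneg hm ht w u hl.1
    simp only [one_mul]
    have : δ / 2 * (∫ l in (0 : ℝ)..X, SJ m t w u l) ≤ δ * ∫ l in (0 : ℝ)..X, SJ m t w u l := by
      apply mul_le_mul_of_nonneg_right _ hSnn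
      linarith
    linarith

theorem reach_succ (hplateau : PlateauStmt) {δ a : ℝ} {γ γ' : Gauge} (hδ : 0 < δ) (ha : 0 ≤ a)
    (h1 : PIok γ a δ) (h2 : PIok γ (a + 28 / 100) δ) (h3 : PIok γ' a δ)
    (h4 : PIok γ' (a + 28 / 100) δ) (hR : Reach δ γ) : Reach δ γ' := by
  intro X hX
  obtain ⟨C1, hC1, hpl⟩ := hplateau γ γ'
  have hl0 : 0 < 2 * C1 / δ := by positivity
  set x := X * Real.exp (-(2 * C1 / δ)) with hxdef
  have hx : 0 < x := by positivity
  have hxX : x < X := by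
    rw [hxdef]
    have : Real.exp (-(2 * C1 / δ)) < 1 := by
      rw [Real.exp_lt_one_iff]; linarith
    nlinarith
  obtain ⟨K, hK⟩ := hR x hx
  refine ⟨ext K x a, extend hδ hC1 hpl hx hxX ?_ ha hK h1 h2 h3 h4⟩
  have : X / x = Real.exp (2 * C1 / δ) := by
    rw [hxdef, Real.exp_neg]; field_simp
  rw [this, Real.log_exp]

theorem gaugeQ_le (γ : Gauge) {J : Type} [Fintype J] (p t : J → ℝ) (w u : J → ℂ)
    (hp : ∀ i, 0 ≤ p i) (hp1 : ∀ i, p i ≤ Real.exp (-(t i))) (ht : ∀ i, 0 ≤ t i) :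
    gaugeQ γ p t w u ≤ (|γ.a1| + |γ.b1| + |γ.a2| + |γ.b2| + |γ.a3| + |γ.b3| + 1) *
      ∑ i, (1 + t i) * Real.exp (-(t i)) * (‖w i‖ ^ 4 + ‖u i‖ ^ 2) := by
  unfold gaugeQ
  rw [Finset.mul_sum]
  refine Finset.sum_le_sum fun i _ => ?_
  set Cg := |γ.a1| + |γ.b1| + |γ.a2| + |γ.b2| + |γ.a3| + |γ.b3| + 1 with hCg
  have hti := ht i
  have aff : ∀ a b : ℝ, |a + b * t i| ≤ (|a| + |b|) * (1 + t i) := by
    intro a b
    calc |a + b * t i| ≤ |a| + |b * t i| := abs_add_le _ _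
      _ = |a| + |b| * t i := by rw [abs_mul, abs_of_nonneg hti]
      _ ≤ (|a| + |b|) * (1 + t i) := by
        have := abs_nonneg a
        have := abs_nonneg b
        nlinarith
  set S := ‖w i‖ ^ 4 + ‖u i‖ ^ 2 with hS
  have hw4 : 0 ≤ ‖w i‖ ^ 4 := by positivity
  have hu2 : 0 ≤ ‖u i‖ ^ 2 := by positivity
  have hS0 : 0 ≤ S := by positivity
  have hre : |((starRingEnd ℂ) (w i ^ 2) * u i).re| ≤ S := by
    refine (Complex.abs_re_le_norm _).trans ?_
    rw [norm_mul, RCLike.norm_conj, norm_pow]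
    nlinarith [sq_nonneg (‖w i‖ ^ 2 - ‖u i‖), norm_nonneg (u i), sq_nonneg ‖w i‖,
      mul_nonneg (sq_nonneg ‖w i‖) (norm_nonneg (u i))]
  have term : ∀ a b v : ℝ, |v| ≤ S → (a + b * t i) * v ≤ (|a| + |b|) * (1 + t i) * S := by
    intro a b v hv
    calc (a + b * t i) * v ≤ |(a + b * t i) * v| := le_abs_self _
      _ = |a + b * t i| * |v| := abs_mul _ _
      _ ≤ (|a| + |b|) * (1 + t i) * S :=
        mul_le_mul (aff a b) hv (abs_nonneg _) (by positivity)
  have h1 := term γ.a1 γ.b1 (‖w i‖ ^ 4) (by rw [abs_of_nonneg hw4]; linarith)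
  have h2 := term γ.a2 γ.b2 _ hre
  have h3 := term γ.a3 γ.b3 (‖u i‖ ^ 2) (by rw [abs_of_nonneg hu2]; linarith)
  have hB : (γ.a1 + γ.b1 * t i) * ‖w i‖ ^ 4
      + (γ.a2 + γ.b2 * t i) * ((starRingEnd ℂ) (w i ^ 2) * u i).re
      + (γ.a3 + γ.b3 * t i) * ‖u i‖ ^ 2 ≤ Cg * ((1 + t i) * S) := by
    have h4 : 0 ≤ (1 + t i) * S := by positivity
    calc _ ≤ (|γ.a1| + |γ.b1|) * (1 + t i) * S + (|γ.a2| + |γ.b2|) * (1 + t i) * S
          + (|γ.a3| + |γ.b3|) * (1 + t i) * S := by linarith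
      _ = (Cg - 1) * ((1 + t i) * S) := by rw [hCg]; ring
      _ ≤ Cg * ((1 + t i) * S) := by nlinarith
  have hCg0 : 0 ≤ Cg := by positivity
  calc p i * _ ≤ p i * (Cg * ((1 + t i) * S)) := mul_le_mul_of_nonneg_left hB (hp i)
    _ ≤ Real.exp (-(t i)) * (Cg * ((1 + t i) * S)) :=
      mul_le_mul_of_nonneg_right (hp1 i) (by positivity)
    _ = _ := by ring

theorem pieceA_of (hchain : ChainStmt) (hplateau : PlateauStmt) (hfirst : FirstStmt) (n : ℕ) :
    ∃ δ C : ℝ, 0 < δ ∧ 0 < C ∧ ∀ L : ℝ, ∃ K : ℝ → ℝ,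
    ContinuousOn K (Set.Icc 0 1) ∧ (∀ x ∈ Set.Icc (0 : ℝ) 1, 0 < K x ∧ x ^ 4 * K x ≤ 1) ∧
    (∀ s : ℝ, 0 ≤ s → (1 / 16) * Real.exp (-(s / 2)) ≤
      ∫ x in (0 : ℝ)..1, K x * x ^ 4 * Real.exp (-(x * s))) ∧
    (∀ s : ℝ, 0 ≤ s → L * Real.exp (-(s / 2)) ≤
      ∫ x in (0 : ℝ)..1, K x * x ^ 2 * Real.exp (-(x * s))) ∧
    ∀ (J : Type) [Fintype J] (t : J → ℝ) (w u : J → ℂ) (m : ℝ), (∀ i, 0 < t i) →
      Fintype.card J ≤ n → m + Fintype.card J = 2 * n + 1 →
      (∑ i, (δ * ∫ x in (0 : ℝ)..1, K x * Real.exp (-(x * t i)) *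
          (x ^ 4 * ‖w i‖ ^ 4 + x ^ 2 * ‖u i‖ ^ 2)))
        - C * ∑ i, (1 + t i) * Real.exp (-(t i)) * (‖w i‖ ^ 4 + ‖u i‖ ^ 2)
      ≤ ∫ x in (0 : ℝ)..1, K x * DJ m t w u x := by
  obtain ⟨N, γ, a, δ, hδ, ha0, haN, hann, hP, hP'⟩ := hchain
  have hreach : ∀ k ≤ N, Reach δ (γ k) := by
    intro k
    induction k with
    | zero =>
      intro _
      have := hP 0 (Nat.zero_le _)
      rw [ha0] at this
      exact reach_zero hfirst hδ this.1 this.2
    | succ k ih =>
      intro hk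
      have h1 := hP' k (by omega)
      have h2 := hP (k + 1) hk
      exact reach_succ hplateau hδ (hann _ hk) h1.1 h1.2 h2.1 h2.2 (ih (by omega))
  obtain ⟨C1, hC1, hpl⟩ := hplateau (γ N) (γ N)
  set Cg := |(γ N).a1| + |(γ N).b1| + |(γ N).a2| + |(γ N).b2| + |(γ N).a3| + |(γ N).b3| + 1
    with hCg
  have hn0 : (0 : ℝ) < 2 * n + 1 := by positivity
  refine ⟨δ / 2 / (2 * n + 1), Cg, by positivity, by positivity, fun L => ?_⟩
  set l := max (2 * C1 / δ) (max (Real.log 4) (|L| + 1)) with hl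
  have hl1 : 2 * C1 / δ ≤ l := le_max_left _ _
  have hl2 : Real.log 4 ≤ l := (le_max_left _ _).trans (le_max_right _ _)
  have hl3 : |L| + 1 ≤ l := (le_max_right _ _).trans (le_max_right _ _)
  set x0 := Real.exp (-l) with hx0
  have hx0pos : 0 < x0 := Real.exp_pos _
  have hx04 : x0 ≤ 1 / 4 := by
    have h4 : (1 / 4 : ℝ) = Real.exp (-(Real.log 4)) := by
      rw [Real.exp_neg, Real.exp_log (by norm_num)]; norm_num
    rw [hx0, h4]
    exact Real.exp_le_exp.2 (by linarith)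
  have hx01 : x0 < 1 := by linarith
  obtain ⟨K0, hK0⟩ := hreach N le_rfl x0 hx0pos
  have hPN := hP N le_rfl
  rw [haN] at hPN
  have hlen : 2 * C1 / δ ≤ Real.log (1 / x0) := by
    rw [hx0, one_div, ← Real.exp_neg, Real.log_exp]; linarith
  have hG1 : GoodW δ (γ N) (ext K0 x0 0) 1 :=
    extend hδ hC1 hpl hx0pos hx01 hlen le_rfl hK0 hPN.1 hPN.2 hPN.1 hPN.2
  set K1 := ext K0 x0 0 with hK1
  have hK11 : 0 < K1 1 := hG1.pos 1 ⟨zero_le_one, le_rfl⟩
  have hG := hG1.smul (one_div_pos.2 hK11)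
  set K : ℝ → ℝ := fun x => 1 / K1 1 * K1 x with hK
  have hKone : K 1 = 1 := by simp only [hK]; field_simp
  have hKx : ∀ x ∈ Set.Icc x0 1, K x = x ^ (-3 : ℝ) := by
    intro x hx
    have hx' : 0 < x := hx0pos.trans_le hx.1
    have e1 : K1 x = K0 x0 / x0 ^ (0 - 3 : ℝ) * x ^ (0 - 3 : ℝ) := ext_right' hx0pos hx.1
    have e2 : K1 1 = K0 x0 / x0 ^ (0 - 3 : ℝ) * 1 ^ (0 - 3 : ℝ) := ext_right' hx0pos hx01.le
    rw [Real.one_rpow, mul_one] at e2
    simp only [hK]
    rw [e1, ← e2, ← mul_assoc, one_div_mul_cancel hK11.ne', one_mul, zero_sub]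
  have hKx3 : ∀ x ∈ Set.Icc x0 1, K x * x ^ 3 = 1 := by
    intro x hx
    have hx' : 0 < x := hx0pos.trans_le hx.1
    rw [hKx x hx, Real.rpow_neg hx'.le, show (3 : ℝ) = (3 : ℕ) by norm_num, Real.rpow_natCast]
    exact inv_mul_cancel₀ (by positivity)
  have hKpos : ∀ x ∈ Set.Icc (0 : ℝ) 1, 0 < K x := hG.pos
  have hKcont : ContinuousOn K (Set.Icc 0 1) := hG.cont
  have hintK : ∀ f : ℝ → ℝ, Continuous f → ∀ b c, 0 ≤ b → b ≤ c → c ≤ 1 →
      IntervalIntegrable (fun l => K l * f l) volume b c := by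
    intro f hf b c hb hbc hc'
    refine ContinuousOn.intervalIntegrable ?_
    rw [Set.uIcc_of_le hbc]
    exact (hKcont.mono (Set.Icc_subset_Icc hb hc')).mul hf.continuousOn
  -- restriction to a subinterval
  have hsub : ∀ f : ℝ → ℝ, Continuous f → (∀ x ∈ Set.Icc (0 : ℝ) 1, 0 ≤ f x) → ∀ b c, 0 ≤ b →
      b ≤ c → c ≤ 1 → (∫ x in b..c, K x * f x) ≤ ∫ x in (0 : ℝ)..1, K x * f x := by
    intro f hf hf0 b c hb hbc hc
    refine intervalIntegral.integral_mono_interval hb hbc hc ?_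
      (hintK f hf 0 1 le_rfl zero_le_one le_rfl)
    refine (ae_restrict_iff' measurableSet_Ioc).2 (Filter.Eventually.of_forall fun x hx => ?_)
    exact mul_nonneg (hKpos x ⟨hx.1.le, hx.2⟩).le (hf0 x ⟨hx.1.le, hx.2⟩)
  refine ⟨K, hKcont, fun x hx => ⟨hKpos x hx, ?_⟩, ?_, ?_, ?_⟩
  · have := hG.mono hx ⟨zero_le_one, le_rfl⟩ hx.2
    change x ^ 4 * K x ≤ 1 ^ 4 * K 1 at this
    rwa [hKone, one_pow, one_mul] at this
  · intro s hs
    have h1 := hsub (fun x => x ^ 4 * Real.exp (-(x * s))) (by fun_prop)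
      (fun x _ => by positivity) (1 / 4) (1 / 2) (by norm_num) (by norm_num) (by norm_num)
    simp only [← mul_assoc] at h1
    refine le_trans ?_ h1
    have h2 : (∫ x in (1 / 4 : ℝ)..(1 / 2), x * Real.exp (-(s / 2))) ≤
        ∫ x in (1 / 4 : ℝ)..(1 / 2), K x * x ^ 4 * Real.exp (-(x * s)) := by
      refine intervalIntegral.integral_mono_on (by norm_num)
        (Continuous.intervalIntegrable (by fun_prop) _ _) ?_ ?_
      · have := hintK (fun x => x ^ 4 * Real.exp (-(x * s))) (by fun_prop) (1 / 4) (1 / 2)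
          (by norm_num) (by norm_num) (by norm_num)
        simpa only [← mul_assoc] using this
      · intro x hx
        have hx' : 0 < x := by linarith [hx.1]
        have e : K x * x ^ 4 = x := by
          have := hKx3 x ⟨hx04.trans hx.1, by linarith [hx.2]⟩
          calc K x * x ^ 4 = (K x * x ^ 3) * x := by ring
            _ = x := by rw [this, one_mul]
        rw [e]
        refine mul_le_mul_of_nonneg_left (Real.exp_le_exp.2 ?_) hx'.le
        nlinarith [hx.2]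
    refine le_trans ?_ h2
    rw [intervalIntegral.integral_mul_const, integral_id]
    have := Real.exp_pos (-(s / 2))
    nlinarith
  · intro s hs
    have h1 := hsub (fun x => x ^ 2 * Real.exp (-(x * s))) (by fun_prop)
      (fun x _ => by positivity) x0 (1 / 2) hx0pos.le (by linarith) (by norm_num)
    simp only [← mul_assoc] at h1
    refine le_trans ?_ h1
    have h2 : (∫ x in x0..(1 / 2), x⁻¹ * Real.exp (-(s / 2))) ≤
        ∫ x in x0..(1 / 2), K x * x ^ 2 * Real.exp (-(x * s)) := by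
      refine intervalIntegral.integral_mono_on (by linarith) ?_ ?_ ?_
      · refine ContinuousOn.intervalIntegrable ?_
        rw [Set.uIcc_of_le (by linarith)]
        refine ContinuousOn.mul (ContinuousOn.inv₀ continuousOn_id ?_) continuousOn_const
        intro x hx
        exact (hx0pos.trans_le hx.1).ne'
      · have := hintK (fun x => x ^ 2 * Real.exp (-(x * s))) (by fun_prop) x0 (1 / 2)
          hx0pos.le (by linarith) (by norm_num)
        simpa only [← mul_assoc] using this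
      · intro x hx
        have hx' : 0 < x := hx0pos.trans_le hx.1
        have e : K x * x ^ 2 = x⁻¹ := by
          have := hKx3 x ⟨hx.1, by linarith [hx.2]⟩
          field_simp
          linarith
        rw [e]
        refine mul_le_mul_of_nonneg_left (Real.exp_le_exp.2 ?_) (by positivity)
        nlinarith [hx.2]
    refine le_trans ?_ h2
    rw [intervalIntegral.integral_mul_const, integral_inv_of_pos hx0pos (by norm_num)]
    refine mul_le_mul_of_nonneg_right ?_ (Real.exp_pos _).le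
    rw [Real.log_div (by norm_num) hx0pos.ne', hx0, Real.log_exp, one_div, Real.log_inv]
    have h5 := Real.log_two_lt_d9
    have h6 := le_abs_self L
    linarith
  · intro J _ t w u m ht hJ hm
    have hJ' : (Fintype.card J : ℝ) ≤ n := by exact_mod_cast hJ
    have hm1 : (n : ℝ) + 1 ≤ m := by linarith
    have hn : (0 : ℝ) ≤ n := Nat.cast_nonneg n
    have hm0 : 0 < m := by linarith
    have ht0 : ∀ i, 0 ≤ t i := fun i => (ht i).le
    have i1 := hG.ineq J t w u m ht0 hm0 (by linarith)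
    have hgq : QK (γ N) m t w u 1 ≤
        Cg * ∑ i, (1 + t i) * Real.exp (-(t i)) * (‖w i‖ ^ 4 + ‖u i‖ ^ 2) := by
      have e : QK (γ N) m t w u 1 = gaugeQ (γ N) (qw m t 1) t w u := by
        unfold QK
        simp
      rw [e]
      refine gaugeQ_le _ _ _ _ _ (fun i => (qw_pos hm0 t 1 i).le) (fun i => ?_) ht0
      unfold qw
      rw [one_mul]
      refine div_le_self (Real.exp_pos _).le ?_
      have : 0 ≤ ∑ j, Real.exp (-(1 * t j)) := Finset.sum_nonneg fun _ _ => (Real.exp_pos _).le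
      linarith
    have hSJ : (∑ i, (δ / 2 / (2 * n + 1) * ∫ x in (0 : ℝ)..1, K x * Real.exp (-(x * t i)) *
        (x ^ 4 * ‖w i‖ ^ 4 + x ^ 2 * ‖u i‖ ^ 2))) ≤
        δ / 2 * ∫ x in (0 : ℝ)..1, K x * SJ m t w u x := by
      have e1 : ∀ i, δ / 2 / (2 * n + 1) * (∫ x in (0 : ℝ)..1, K x * Real.exp (-(x * t i)) *
          (x ^ 4 * ‖w i‖ ^ 4 + x ^ 2 * ‖u i‖ ^ 2)) = δ / 2 *
          ∫ x in (0 : ℝ)..1, K x * (Real.exp (-(x * t i)) / (2 * n + 1) *
          (x ^ 4 * ‖w i‖ ^ 4 + x ^ 2 * ‖u i‖ ^ 2)) := by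
        intro i
        rw [div_mul_eq_mul_div, mul_div_assoc, ← intervalIntegral.integral_div]
        congr 2
        funext x
        ring
      simp only [e1]
      rw [← Finset.mul_sum]
      refine mul_le_mul_of_nonneg_left ?_ (by positivity)
      rw [← intervalIntegral.integral_finsetSum]
      · refine intervalIntegral.integral_mono_on zero_le_one ?_ ?_ ?_
        · have := hintK (fun x => ∑ i, Real.exp (-(x * t i)) / (2 * n + 1) *
            (x ^ 4 * ‖w i‖ ^ 4 + x ^ 2 * ‖u i‖ ^ 2)) (by fun_prop) 0 1 le_rfl zero_le_one le_rfl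
          simpa only [Finset.mul_sum] using this
        · exact hintK _ (continuous_SJ hm0 t w u) 0 1 le_rfl zero_le_one le_rfl
        · intro x hx
          rw [← Finset.mul_sum]
          refine mul_le_mul_of_nonneg_left ?_ (hKpos x hx).le
          unfold SJ
          refine Finset.sum_le_sum fun i _ => ?_
          have hq : Real.exp (-(x * t i)) / (2 * n + 1) ≤ qw m t x i := by
            unfold qw
            refine div_le_div_of_nonneg_left (Real.exp_pos _).le (qden_pos hm0 t x) ?_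
            have : ∑ j, Real.exp (-(x * t j)) ≤ ∑ j : J, (1 : ℝ) := by
              refine Finset.sum_le_sum fun j _ => ?_
              rw [Real.exp_le_one_iff]
              have := mul_nonneg hx.1 (ht0 j)
              linarith
            simp only [Finset.sum_const, Finset.card_univ, nsmul_eq_mul, mul_one] at this
            linarith
          have hz : 0 ≤ x ^ 4 * ‖w i‖ ^ 4 + x ^ 2 * ‖u i‖ ^ 2 := by positivity
          refine mul_le_mul_of_nonneg_right ?_ hz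
          have h1 : 0 ≤ x * t i := mul_nonneg hx.1 (ht0 i)
          have h2 := (qw_pos hm0 t x i).le
          nlinarith
      · intro i _
        exact hintK (fun x => Real.exp (-(x * t i)) / (2 * n + 1) *
            (x ^ 4 * ‖w i‖ ^ 4 + x ^ 2 * ‖u i‖ ^ 2)) (by fun_prop) 0 1 le_rfl zero_le_one le_rfl
    change δ / 2 * (∫ x in (0 : ℝ)..1, K x * SJ m t w u x) - K 1 * QK (γ N) m t w u 1 ≤
      ∫ x in (0 : ℝ)..1, K x * DJ m t w u x at i1
    rw [hKone, one_mul] at i1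
    linarith

end Pool.Agent.MP_7c31d9_gt
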